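import Pool.Agent.H19.SR.Defs
import Pool.Agent.H67.FS.Defs

/-!
# Project SR, module T5: spheres of dimension two
-/

set_option autoImplicit false
set_option linter.unusedSectionVars false

open Finset

namespace Pool.Agent.H19.SR

open Pool.Agent.H73.GC (lk)
open Pool.Agent.H67.FS

variable {V : Type} [DecidableEq V] [Fintype V]

/-- symmetric double sums vanish -/
private theorem symm_zero (S : Finset V) (F : V → V → ZMod 2)
    (h : ∀ x ∈ S, ∀ y ∈ S, F x y = F y x) : ∑ x ∈ S, ∑ y ∈ S.erase x, F x y = 0 := by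
  rw [Finset.sum_sigma']
  refine Finset.sum_involution (fun p _ => ⟨p.2, p.1⟩) ?_ ?_ ?_ ?_
  · rintro ⟨x, y⟩ hxy
    simp only [mem_sigma, mem_erase] at hxy
    show F x y + F y x = 0
    rw [h x hxy.1 y hxy.2.2]
    exact CharTwo.add_self_eq_zero _
  · rintro ⟨x, y⟩ hxy _ heq
    simp only [mem_sigma, mem_erase] at hxy
    simp only [Sigma.mk.injEq, heq_eq_eq] at heq
    exact hxy.2.1 heq.1
  · rintro ⟨x, y⟩ hxy
    simp only [mem_sigma, mem_erase] at hxy ⊢
    exact ⟨hxy.2.2, fun h => hxy.2.1 h.symm, hxy.1⟩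
  · rintro ⟨x, y⟩ _
    rfl

private theorem insert_inj {s : Finset V} {x y : V} (hx : x ∉ s) (h : insert x s = insert y s) :
    x = y := by
  have h1 : x ∈ insert y s := h ▸ mem_insert_self x s
  rcases mem_insert.1 h1 with h2 | h2
  · exact h2
  · exact absurd h2 hx

private theorem conn {G : SimpleGraph V} {n : ℕ} (h : IsSph G n) {s : Finset V}
    (hs : G.IsClique (s : Set V)) (hn : s.card + 2 ≤ n) {P : Finset V} {a b : V}
    (hP : ∀ x ∈ P, x ∉ s ∧ G.IsClique ((insert x s : Finset V) : Set V)) (ha : a ∈ P) (hb : b ∉ s)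
    (hbs : G.IsClique ((insert b s : Finset V) : Set V))
    (hcl : ∀ x ∈ P, ∀ w, w ∉ insert x s →
      G.IsClique ((insert w (insert x s) : Finset V) : Set V) → w ∈ P) : b ∈ P := by
  by_contra hbP
  have hab : a ≠ b := fun h => hbP (h ▸ ha)
  obtain ⟨has, hac⟩ := hP a ha
  set f : Finset V → ZMod 2 := fun t => if t = insert a s ∨ t = insert b s then 1 else 0 with hf
  have hf0 : ∀ t, f t ≠ 0 → t = insert a s ∨ t = insert b s := by
    intro t ht
    by_contra hc
    exact ht (if_neg hc)
  obtain ⟨u, hu1, hu2⟩ := h.low s hs (s.card + 1) (by omega) f (by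
    intro t ht
    rcases hf0 t ht with rfl | rfl
    · exact ⟨hac, subset_insert _ _, card_insert_of_notMem has⟩
    · exact ⟨hbs, subset_insert _ _, card_insert_of_notMem hb⟩) (by
    intro t ht
    rcases eq_or_ssubset_of_subset ht with rfl | hss
    · have h1 : ∀ v ∈ sᶜ, f (insert v s) = (if v = a then 1 else 0) + (if v = b then 1 else 0) := by
        intro v hv
        rw [mem_compl] at hv
        have e1 : insert v s = insert a s ↔ v = a := ⟨insert_inj hv, fun h => by rw [h]⟩
        have e2 : insert v s = insert b s ↔ v = b := ⟨insert_inj hv, fun h => by rw [h]⟩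
        simp only [hf, e1, e2]
        by_cases h1 : v = a
        · have h2 : v ≠ b := fun h => hab (h1.symm.trans h)
          simp [h1, hab]
        · simp [h1]
      rw [sum_congr rfl h1, sum_add_distrib, sum_ite_eq', sum_ite_eq',
        if_pos (mem_compl.2 has), if_pos (mem_compl.2 hb)]
      decide
    · refine sum_eq_zero fun v hv => ?_
      rw [mem_compl] at hv
      by_contra hc
      have h1 := card_lt_card hss
      have h2 := card_insert_of_notMem hv
      rcases hf0 _ hc with h3 | h3
      · rw [h3, card_insert_of_notMem has] at h2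
        omega
      · rw [h3, card_insert_of_notMem hb] at h2
        omega)
  have h1 : ∑ x ∈ P, f (insert x s) = 1 := by
    rw [sum_eq_single a]
    · simp [hf]
    · intro x hx hxa
      have hxb : x ≠ b := fun h => hbP (h ▸ hx)
      by_contra hc
      rcases hf0 _ hc with h3 | h3
      · exact hxa (insert_inj (hP x hx).1 h3)
      · exact hxb (insert_inj (hP x hx).1 h3)
    · exact fun h => absurd ha h
  have h2 : ∑ x ∈ P, f (insert x s) = ∑ x ∈ P, ∑ w ∈ P.erase x, u (insert w (insert x s)) := by
    refine sum_congr rfl fun x hx => ?_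
    rw [← hu2 (insert x s) (subset_insert _ _)]
    symm
    refine sum_subset ?_ ?_
    · intro w hw
      rw [mem_erase] at hw
      rw [mem_compl, mem_insert, not_or]
      exact ⟨hw.1, (hP w hw.2).1⟩
    · intro w hw hw'
      rw [mem_compl] at hw
      by_contra hc
      refine hw' (mem_erase.2 ⟨fun h => hw (h ▸ mem_insert_self _ _), ?_⟩)
      exact hcl x hx w hw (hu1 _ hc).1
  rw [h1, symm_zero P (fun x w => u (insert w (insert x s)))
    (fun x _ y _ => by show u _ = u _; rw [insert_comm])] at h2
  exact one_ne_zero h2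

/-- the number of the facets containing a clique of codimension one -/
private theorem codim {G : SimpleGraph V} {n : ℕ} (h : IsSph G (n + 1)) {s T : Finset V}
    (hs : G.IsClique (s : Set V)) (hn : s.card = n)
    (hT : ∀ w, w ∈ T ↔ w ∉ s ∧ G.IsClique ((insert w s : Finset V) : Set V)) : T.card = 2 := by
  -- facets containing `s`
  have hform : ∀ t : Finset V, s ⊆ t → t.card = n + 1 → ∃ w, w ∉ s ∧ t = insert w s := by
    intro t hst ht
    have h1 : (t \ s).card = 1 := by
      rw [card_sdiff_of_subset hst]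
      omega
    obtain ⟨w, hw⟩ := card_eq_one.1 h1
    have h2 : w ∈ t \ s := by
      rw [hw]
      exact mem_singleton_self _
    refine ⟨w, (mem_sdiff.1 h2).2, ?_⟩
    rw [insert_eq, ← hw, sdiff_union_of_subset hst]
  -- there is one
  have h1 : T.Nonempty := by
    obtain ⟨t, ht1, ht2, ht3⟩ := h.facet s hs
    obtain ⟨w, hw, rfl⟩ := hform t ht1 ht3
    exact ⟨w, (hT w).2 ⟨hw, ht2⟩⟩
  -- sums of functions on the facets over the vertices
  have hbig : ∀ (f : Finset V → ZMod 2), (∀ t, f t ≠ 0 → G.IsClique (t : Set V) ∧ s ⊆ t ∧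
      t.card = n + 1) → ∀ t, s ⊆ t → t ≠ s → ∑ v ∈ tᶜ, f (insert v t) = 0 := by
    intro f hf t hst hne
    refine sum_eq_zero fun v hv => ?_
    rw [mem_compl] at hv
    by_contra hc
    have h2 := card_lt_card (hst.ssubset_of_ne (Ne.symm hne))
    have h3 := (hf _ hc).2.2
    rw [card_insert_of_notMem hv] at h3
    omega
  -- parity
  have h2 : ((T.card : ℕ) : ZMod 2) = 0 := by
    classical
    set f : Finset V → ZMod 2 := fun t =>
      if G.IsClique (t : Set V) ∧ s ⊆ t ∧ t.card = n + 1 then 1 else 0 with hf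
    have hf0 : ∀ t, f t ≠ 0 → G.IsClique (t : Set V) ∧ s ⊆ t ∧ t.card = n + 1 := by
      intro t ht
      by_contra hc
      exact ht (if_neg hc)
    have h3 := (h.top s hs f hf0).2 ⟨1, fun t h1 h2 h3 => if_pos ⟨h1, h2, h3⟩⟩ s Subset.rfl
    have h4 : ∑ v ∈ sᶜ, f (insert v s) = ∑ v ∈ T, 1 := by
      symm
      calc ∑ v ∈ T, (1 : ZMod 2) = ∑ v ∈ T, f (insert v s) := by
            refine sum_congr rfl fun v hv => ?_
            obtain ⟨h5, h6⟩ := (hT v).1 hv
            exact (if_pos ⟨h6, subset_insert _ _, by rw [card_insert_of_notMem h5, hn]⟩).symm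
        _ = ∑ v ∈ sᶜ, f (insert v s) := by
            refine sum_subset (fun v hv => mem_compl.2 ((hT v).1 hv).1) fun v hv hv' => ?_
            by_contra hc
            exact hv' ((hT v).2 ⟨mem_compl.1 hv, (hf0 _ hc).1⟩)
    rw [h4, sum_const, nsmul_eq_mul, mul_one] at h3
    exact h3
  have h3 : 2 ∣ T.card := (ZMod.natCast_eq_zero_iff _ _).1 h2
  have h4 : 0 < T.card := h1.card_pos
  by_contra hne
  have h5 : 2 < T.card := by omega
  obtain ⟨x, y, z, hx, hy, hz, hxy, hxz, hyz⟩ := two_lt_card_iff.1 h5
  obtain ⟨hxs, hxc⟩ := (hT x).1 hx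
  obtain ⟨hys, hyc⟩ := (hT y).1 hy
  obtain ⟨hzs, hzc⟩ := (hT z).1 hz
  set f : Finset V → ZMod 2 := fun t => if t = insert x s ∨ t = insert y s then 1 else 0 with hf
  have hf0 : ∀ t, f t ≠ 0 → t = insert x s ∨ t = insert y s := by
    intro t ht
    by_contra hc
    exact ht (if_neg hc)
  have hf1 : ∀ t, f t ≠ 0 → G.IsClique (t : Set V) ∧ s ⊆ t ∧ t.card = n + 1 := by
    intro t ht
    rcases hf0 t ht with rfl | rfl
    · exact ⟨hxc, subset_insert _ _, by rw [card_insert_of_notMem hxs, hn]⟩
    · exact ⟨hyc, subset_insert _ _, by rw [card_insert_of_notMem hys, hn]⟩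
  obtain ⟨c, hc⟩ := (h.top s hs f hf1).1 (by
    intro t hst
    by_cases hts : t = s
    · subst hts
      have h1 : ∀ v ∈ tᶜ, f (insert v t) = (if v = x then 1 else 0) + (if v = y then 1 else 0) := by
        intro v hv
        rw [mem_compl] at hv
        have e1 : insert v t = insert x t ↔ v = x := ⟨insert_inj hv, fun h => by rw [h]⟩
        have e2 : insert v t = insert y t ↔ v = y := ⟨insert_inj hv, fun h => by rw [h]⟩
        simp only [hf, e1, e2]
        by_cases h1 : v = x
        · simp [h1, hxy]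
        · simp [h1]
      rw [sum_congr rfl h1, sum_add_distrib, sum_ite_eq', sum_ite_eq',
        if_pos (mem_compl.2 hxs), if_pos (mem_compl.2 hys)]
      decide
    · exact hbig f hf1 t hst hts)
  have e1 := hc _ hxc (subset_insert _ _) (by rw [card_insert_of_notMem hxs, hn])
  have e2 := hc _ hzc (subset_insert _ _) (by rw [card_insert_of_notMem hzs, hn])
  have e3 : f (insert x s) = 1 := if_pos (Or.inl rfl)
  have e4 : f (insert z s) = 0 := by
    by_contra hne
    rcases hf0 _ hne with h6 | h6
    · exact hxz (insert_inj hzs h6).symm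
    · exact hyz (insert_inj hzs h6).symm
  rw [e3] at e1
  rw [e4, ← e1] at e2
  exact zero_ne_one e2

private theorem clique_pair {G : SimpleGraph V} {v a : V} (h : G.Adj v a) :
    G.IsClique ((insert a {v} : Finset V) : Set V) := by
  intro x hx y hy hxy
  simp only [coe_insert, coe_singleton, Set.mem_insert_iff, Set.mem_singleton_iff] at hx hy
  rcases hx with rfl | rfl <;> rcases hy with rfl | rfl
  · exact absurd rfl hxy
  · exact h.symm
  · exact h
  · exact absurd rfl hxy

private theorem adj_of_clique {G : SimpleGraph V} {s : Finset V} (h : G.IsClique (s : Set V))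
    {x y : V} (hx : x ∈ s) (hy : y ∈ s) (hxy : x ≠ y) : G.Adj x y :=
  h (mem_coe.2 hx) (mem_coe.2 hy) hxy

private theorem clique_insert {G : SimpleGraph V} {s : Finset V} (h : G.IsClique (s : Set V)) {x : V}
    (hx : ∀ y ∈ s, x ≠ y → G.Adj x y) : G.IsClique ((insert x s : Finset V) : Set V) := by
  rw [coe_insert]
  exact h.insert fun y hy hxy => hx y (mem_coe.1 hy) hxy

private theorem con_univ {G : SimpleGraph V} (h : IsSph G 3) : Con G univ := by
  obtain ⟨t, -, -, ht⟩ := h.facet ∅ (by simp)
  refine ⟨?_, ?_⟩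
  · obtain ⟨a, ha⟩ := card_pos.1 (by omega : 0 < t.card)
    exact ⟨a, mem_univ a⟩
  · rintro P - ⟨a, ha⟩ hcl
    rw [eq_univ_iff_forall]
    intro b
    refine conn h (s := ∅) (by simp) (by simp) (P := P) (a := a) (b := b) ?_ ha (by simp) (by simp) ?_
    · intro x _
      exact ⟨by simp, by simp⟩
    · intro x hx w hw hc
      refine hcl x hx w (mem_univ _) (adj_of_clique hc (by simp) (by simp) ?_)
      rintro rfl
      exact hw (by simp)

private theorem mem_lku {G : SimpleGraph V} {v w : V} : w ∈ lk G univ v ↔ G.Adj v w := by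
  rw [mem_lk]
  exact ⟨fun h => h.2, fun h => ⟨mem_univ _, h⟩⟩

private theorem card_lk_lk {G : SimpleGraph V} (h : IsSph G 3) {v a : V} (hva : G.Adj v a) :
    (lk G (lk G univ v) a).card = 2 := by
  have hne := hva.ne
  refine codim h (s := insert a {v}) (clique_pair hva) (by
    rw [card_insert_of_notMem (by simpa using hne.symm), card_singleton]) ?_
  intro w
  rw [mem_lk, mem_lku]
  constructor
  · rintro ⟨h1, h2⟩
    refine ⟨?_, ?_⟩
    · rw [mem_insert, mem_singleton, not_or]
      exact ⟨h2.ne.symm, h1.ne.symm⟩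
    · refine clique_insert (clique_pair hva) ?_
      intro y hy _
      rw [mem_insert, mem_singleton] at hy
      rcases hy with rfl | rfl
      · exact h2.symm
      · exact h1.symm
  · rintro ⟨h1, h2⟩
    rw [mem_insert, mem_singleton, not_or] at h1
    exact ⟨adj_of_clique h2 (by simp) (by simp) (Ne.symm h1.2),
      adj_of_clique h2 (by simp) (by simp) (Ne.symm h1.1)⟩

private theorem cyc {G : SimpleGraph V} (h : IsSph G 3) (v : V) : Cyc G (lk G univ v) := by
  obtain ⟨t, ht1, ht2, ht3⟩ := h.facet {v} (by simp)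
  have hvt : v ∈ t := ht1 (mem_singleton_self v)
  obtain ⟨a, ha, hav⟩ := exists_mem_ne (by omega : 1 < t.card) v
  have hva : G.Adj v a := adj_of_clique ht2 hvt ha hav.symm
  have hcon : Con G (lk G univ v) := by
    refine ⟨⟨a, mem_lku.2 hva⟩, ?_⟩
    rintro P hP ⟨x₀, hx₀⟩ hcl
    refine Subset.antisymm hP fun b hb => ?_
    have hvb := mem_lku.1 hb
    refine conn h (s := {v}) (by simp) (by simp) (P := P) (a := x₀) (b := b) ?_ hx₀
      (by simpa using hvb.ne.symm) (clique_pair hvb) ?_
    · intro x hx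
      have hvx := mem_lku.1 (hP hx)
      exact ⟨by simpa using hvx.ne.symm, clique_pair hvx⟩
    · intro x hx w hw hc
      rw [mem_insert, mem_singleton, not_or] at hw
      have h1 : G.Adj x w := adj_of_clique hc (by simp) (by simp) (Ne.symm hw.1)
      have h2 : G.Adj v w := adj_of_clique hc (by simp) (by simp) (Ne.symm hw.2)
      exact hcl x hx w (mem_lku.2 h2) h1
  refine ⟨hcon, fun a ha => card_lk_lk h (mem_lku.1 ha), ?_⟩
  by_contra hlt
  have haL : a ∈ lk G univ v := mem_lku.2 hva
  obtain ⟨b, c, hbc, hbce⟩ := card_eq_two.1 (card_lk_lk h hva)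
  have hb : b ∈ lk G (lk G univ v) a := by rw [hbce]; simp
  have hc : c ∈ lk G (lk G univ v) a := by rw [hbce]; simp
  rw [mem_lk] at hb hc
  have hab := hb.2.ne
  have hac := hc.2.ne
  have h3 : ({a, b, c} : Finset V) = lk G univ v := by
    refine eq_of_subset_of_card_le ?_ ?_
    · intro x hx
      simp only [mem_insert, mem_singleton] at hx
      rcases hx with rfl | rfl | rfl
      · exact haL
      · exact hb.1
      · exact hc.1
    · have : ({a, b, c} : Finset V).card = 3 := card_eq_three.2 ⟨a, b, c, hab, hac, hbc, rfl⟩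
      omega
  have h4 := card_lk_lk h (mem_lku.1 hb.1)
  have h5 : G.Adj b c := by
    by_contra hnc
    have h6 : lk G (lk G univ v) b ⊆ {a} := by
      intro x hx
      rw [mem_lk, ← h3] at hx
      simp only [mem_insert, mem_singleton] at hx ⊢
      rcases hx.1 with rfl | rfl | rfl
      · rfl
      · exact absurd rfl hx.2.ne
      · exact absurd hx.2 hnc
    have := card_le_card h6
    rw [h4, card_singleton] at this
    omega
  have h7 : G.IsClique (({v, a, b, c} : Finset V) : Set V) := by
    refine clique_insert (clique_insert (clique_insert (s := {c}) (by simp) ?_) ?_) ?_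
    · intro y hy _
      rw [mem_singleton] at hy
      rw [hy]
      exact h5
    · intro y hy _
      simp only [mem_insert, mem_singleton] at hy
      rcases hy with rfl | rfl
      · exact hb.2
      · exact hc.2
    · intro y hy _
      simp only [mem_insert, mem_singleton] at hy
      rcases hy with rfl | rfl | rfl
      · exact hva
      · exact mem_lku.1 hb.1
      · exact mem_lku.1 hc.1
  have h8 := h.card_le _ h7
  have h9 : ({v, a, b, c} : Finset V).card = 4 := by
    rw [card_insert_of_notMem, card_eq_three.2 ⟨a, b, c, hab, hac, hbc, rfl⟩]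
    simp only [mem_insert, mem_singleton, not_or]
    exact ⟨hva.ne, (mem_lku.1 hb.1).ne, (mem_lku.1 hc.1).ne⟩
  omega

/-! ### The Euler characteristic -/

open Classical in
/-- the cliques with `j` elements -/
private noncomputable def K (G : SimpleGraph V) (j : ℕ) : Finset (Finset V) :=
  univ.filter fun t => G.IsClique (t : Set V) ∧ t.card = j

private theorem mem_K {G : SimpleGraph V} {j : ℕ} {t : Finset V} :
    t ∈ K G j ↔ G.IsClique (t : Set V) ∧ t.card = j := by
  classical
  unfold K
  rw [mem_filter]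
  exact ⟨fun h => h.2, fun h => ⟨mem_univ _, h⟩⟩

/-- extension by zero -/
private noncomputable def ex (G : SimpleGraph V) (j : ℕ) (f : K G j → ZMod 2) (t : Finset V) :
    ZMod 2 :=
  if h : t ∈ K G j then f ⟨t, h⟩ else 0

private theorem ex_mem {G : SimpleGraph V} {j : ℕ} (f : K G j → ZMod 2) (t : K G j) :
    ex G j f t.1 = f t := dif_pos t.2

private theorem ex_ne {G : SimpleGraph V} {j : ℕ} {f : K G j → ZMod 2} {t : Finset V}
    (h : ex G j f t ≠ 0) : t ∈ K G j := by
  by_contra hc
  exact h (dif_neg hc)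

private theorem ex_add {G : SimpleGraph V} {j : ℕ} (f g : K G j → ZMod 2) (t : Finset V) :
    ex G j (f + g) t = ex G j f t + ex G j g t := by
  unfold ex
  split_ifs <;> simp

private theorem ex_smul {G : SimpleGraph V} {j : ℕ} (c : ZMod 2) (f : K G j → ZMod 2)
    (t : Finset V) : ex G j (c • f) t = c • ex G j f t := by
  unfold ex
  split_ifs <;> simp

/-- the boundary -/
private noncomputable def bd (G : SimpleGraph V) (j : ℕ) :
    (K G (j + 1) → ZMod 2) →ₗ[ZMod 2] (K G j → ZMod 2) where
  toFun f t := ∑ v ∈ t.1ᶜ, ex G (j + 1) f (insert v t.1)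
  map_add' f g := by
    funext t
    simp only [ex_add, sum_add_distrib, Pi.add_apply]
  map_smul' c f := by
    funext t
    simp only [ex_smul, RingHom.id_apply, Pi.smul_apply, smul_sum]

private theorem bd_apply {G : SimpleGraph V} {j : ℕ} (f : K G (j + 1) → ZMod 2) (t : K G j) :
    bd G j f t = ∑ v ∈ t.1ᶜ, ex G (j + 1) f (insert v t.1) := rfl

private theorem ex_bd {G : SimpleGraph V} {j : ℕ} (f : K G (j + 1) → ZMod 2) (t : Finset V) :
    ex G j (bd G j f) t = ∑ v ∈ tᶜ, ex G (j + 1) f (insert v t) := by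
  by_cases h : t ∈ K G j
  · rw [ex_mem _ ⟨t, h⟩, bd_apply]
  · have h1 : ex G j (bd G j f) t = 0 := dif_neg h
    rw [h1]
    symm
    refine sum_eq_zero fun v hv => ?_
    rw [mem_compl] at hv
    by_contra hc
    have h2 := mem_K.1 (ex_ne hc)
    rw [card_insert_of_notMem hv] at h2
    refine h (mem_K.2 ⟨h2.1.subset ?_, by omega⟩)
    rw [coe_insert]
    exact Set.subset_insert _ _

private theorem bd_zero {G : SimpleGraph V} {j : ℕ} {f : K G (j + 1) → ZMod 2} :
    bd G j f = 0 ↔ ∀ t : Finset V, ∑ v ∈ tᶜ, ex G (j + 1) f (insert v t) = 0 := by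
  constructor
  · intro h t
    rw [← ex_bd, h]
    unfold ex
    split_ifs <;> rfl
  · intro h
    funext t
    rw [bd_apply]
    exact h t.1

private theorem bd_bd {G : SimpleGraph V} {j : ℕ} (u : K G (j + 2) → ZMod 2) :
    bd G j (bd G (j + 1) u) = 0 := by
  rw [bd_zero]
  intro t
  simp only [ex_bd]
  have h1 : ∀ v ∈ tᶜ, ∑ w ∈ (insert v t)ᶜ, ex G (j + 1 + 1) u (insert w (insert v t)) =
      ∑ w ∈ tᶜ.erase v, ex G (j + 1 + 1) u (insert w (insert v t)) := by
    intro v _
    congr 1
    ext w
    simp only [mem_compl, mem_insert, mem_erase, not_or]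
  rw [sum_congr rfl h1]
  exact symm_zero tᶜ (fun v w => ex G (j + 1 + 1) u (insert w (insert v t)))
    (fun x _ y _ => by show ex _ _ _ _ = ex _ _ _ _; rw [insert_comm])

private theorem exists_bd {G : SimpleGraph V} (h : IsSph G 3) {j : ℕ} (hj : j < 3)
    (f : K G j → ZMod 2) (hf : ∀ t : Finset V, ∑ v ∈ tᶜ, ex G j f (insert v t) = 0) :
    ∃ u, bd G j u = f := by
  obtain ⟨u, hu1, hu2⟩ := h.low ∅ (by simp) j hj (ex G j f)
    (fun t ht => ⟨(mem_K.1 (ex_ne ht)).1, empty_subset _, (mem_K.1 (ex_ne ht)).2⟩)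
    (fun t _ => hf t)
  have h1 : ∀ t, ex G (j + 1) (fun t => u t.1) t = u t := by
    intro t
    by_cases ht : t ∈ K G (j + 1)
    · exact dif_pos ht
    · have h2 : u t = 0 := by
        by_contra hc
        exact ht (mem_K.2 ⟨(hu1 t hc).1, (hu1 t hc).2.2⟩)
      rw [h2]
      exact dif_neg ht
  refine ⟨fun t => u t.1, ?_⟩
  funext t
  rw [bd_apply]
  simp only [h1]
  rw [hu2 t.1 (empty_subset _), ex_mem]

private theorem ker_eq {G : SimpleGraph V} (h : IsSph G 3) {j : ℕ} (hj : j + 1 < 3) :
    LinearMap.ker (bd G j) = LinearMap.range (bd G (j + 1)) := by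
  ext f
  rw [LinearMap.mem_ker, LinearMap.mem_range]
  constructor
  · intro hf
    exact exists_bd h hj f (bd_zero.1 hf)
  · rintro ⟨u, rfl⟩
    exact bd_bd u

private theorem range_zero {G : SimpleGraph V} (h : IsSph G 3) :
    LinearMap.range (bd G 0) = ⊤ := by
  rw [LinearMap.range_eq_top]
  intro f
  refine exists_bd h (by omega) f fun t => sum_eq_zero fun v _ => ?_
  by_contra hc
  have h1 := (mem_K.1 (ex_ne hc)).2
  rw [card_eq_zero] at h1
  exact insert_ne_empty _ _ h1

private theorem ker_two {G : SimpleGraph V} (h : IsSph G 3) :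
    Module.finrank (ZMod 2) (LinearMap.ker (bd G 2)) = 1 := by
  have h1 : LinearMap.ker (bd G 2) = Submodule.span (ZMod 2) {fun _ => 1} := by
    ext f
    rw [LinearMap.mem_ker, Submodule.mem_span_singleton, bd_zero]
    have h2 := h.top ∅ (by simp) (ex G 3 f)
      (fun t ht => ⟨(mem_K.1 (ex_ne ht)).1, empty_subset _, (mem_K.1 (ex_ne ht)).2⟩)
    constructor
    · intro h3
      obtain ⟨c, hc⟩ := h2.1 fun t _ => h3 t
      refine ⟨c, ?_⟩
      funext t
      have h4 := hc t.1 (mem_K.1 t.2).1 (empty_subset _) (mem_K.1 t.2).2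
      rw [ex_mem] at h4
      rw [h4, Pi.smul_apply, smul_eq_mul, mul_one]
    · rintro ⟨c, rfl⟩ t
      refine h2.2 ⟨c, fun t h3 _ h4 => ?_⟩ t (empty_subset _)
      have h5 : t ∈ K G 3 := mem_K.2 ⟨h3, h4⟩
      have h6 := ex_mem (c • fun _ => (1 : ZMod 2) : K G 3 → ZMod 2) ⟨t, h5⟩
      rw [h6, Pi.smul_apply, smul_eq_mul, mul_one]
  rw [h1]
  refine finrank_span_singleton ?_
  obtain ⟨t, -, ht1, ht2⟩ := h.facet ∅ (by simp)
  intro hc
  have h3 := congrFun hc ⟨t, mem_K.2 ⟨ht1, ht2⟩⟩
  exact one_ne_zero h3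

private theorem euler {G : SimpleGraph V} (h : IsSph G 3) :
    (K G 1).card + (K G 3).card = (K G 2).card + 2 := by
  have hr : ∀ j, Module.finrank (ZMod 2) (LinearMap.range (bd G j)) +
      Module.finrank (ZMod 2) (LinearMap.ker (bd G j)) = (K G (j + 1)).card := by
    intro j
    rw [LinearMap.finrank_range_add_finrank_ker, Module.finrank_fintype_fun_eq_card,
      Fintype.card_coe]
  have h0 := hr 0
  have h1 := hr 1
  have h2 := hr 2
  rw [range_zero h, finrank_top, Module.finrank_fintype_fun_eq_card, Fintype.card_coe] at h0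
  have e0 : (K G 0).card = 1 := by
    rw [card_eq_one]
    refine ⟨∅, ?_⟩
    ext t
    rw [mem_K, mem_singleton, card_eq_zero]
    constructor
    · exact fun h => h.2
    · rintro rfl
      exact ⟨by simp, rfl⟩
  rw [← ker_eq h (j := 0) (by omega)] at h1
  rw [← ker_eq h (j := 1) (by omega), ker_two h] at h2
  simp only [Nat.zero_add, Nat.reduceAdd] at h0 h1 h2
  omega

private theorem card_K1 {G : SimpleGraph V} : (K G 1).card = (univ : Finset V).card := by
  symm
  refine card_bij (fun v _ => {v}) ?_ ?_ ?_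
  · intro v _
    rw [mem_K]
    exact ⟨by simp, card_singleton v⟩
  · intro v _ w _ h
    exact singleton_injective h
  · intro t ht
    obtain ⟨v, rfl⟩ := card_eq_one.1 (mem_K.1 ht).2
    exact ⟨v, mem_univ v, rfl⟩

private theorem sum_lk {G : SimpleGraph V} :
    ∑ v ∈ (univ : Finset V), (lk G univ v).card = 2 * (K G 2).card := by
  classical
  have h1 := sum_card_bipartiteAbove_eq_sum_card_bipartiteBelow (s := (univ : Finset V))
    (t := K G 2) (fun v s => v ∈ s)
  have h2 : ∑ s ∈ K G 2, ((univ : Finset V).bipartiteBelow (fun v s => v ∈ s) s).card =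
      2 * (K G 2).card := by
    rw [mul_comm, ← smul_eq_mul, ← sum_const]
    refine sum_congr rfl fun s hs => ?_
    rw [← (mem_K.1 hs).2]
    congr 1
    ext v
    simp [mem_bipartiteBelow]
  rw [← h2, ← h1]
  refine sum_congr rfl fun v _ => ?_
  refine card_bij (fun w _ => insert w {v}) ?_ ?_ ?_
  · intro w hw
    have hvw := mem_lku.1 hw
    rw [mem_bipartiteAbove, mem_K]
    refine ⟨⟨clique_pair hvw, ?_⟩, by simp⟩
    rw [card_insert_of_notMem (by simpa using hvw.ne.symm), card_singleton]
  · intro w hw w' hw' he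
    refine insert_inj ?_ he
    simpa using (mem_lku.1 hw).ne.symm
  · intro s hs
    rw [mem_bipartiteAbove, mem_K] at hs
    obtain ⟨⟨h3, h4⟩, h5⟩ := hs
    obtain ⟨w, hw, hwv⟩ := exists_mem_ne (by omega : 1 < s.card) v
    refine ⟨w, mem_lku.2 (adj_of_clique h3 h5 hw hwv.symm), ?_⟩
    refine eq_of_subset_of_card_le ?_ ?_
    · intro x hx
      rw [mem_insert, mem_singleton] at hx
      rcases hx with rfl | rfl
      · exact hw
      · exact h5
    · rw [h4, card_insert_of_notMem (by simpa using hwv), card_singleton]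

private theorem two_K2 {G : SimpleGraph V} (h : IsSph G 3) :
    2 * (K G 2).card = 3 * (K G 3).card := by
  classical
  have h1 := sum_card_bipartiteAbove_eq_sum_card_bipartiteBelow (s := K G 2)
    (t := K G 3) (fun s t => s ⊆ t)
  have h2 : ∑ t ∈ K G 3, ((K G 2).bipartiteBelow (fun s t => s ⊆ t) t).card =
      3 * (K G 3).card := by
    rw [mul_comm, ← smul_eq_mul, ← sum_const]
    refine sum_congr rfl fun t ht => ?_
    have h3 : (K G 2).bipartiteBelow (fun s t => s ⊆ t) t = t.powersetCard 2 := by
      ext s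
      rw [mem_bipartiteBelow, mem_K, mem_powersetCard]
      constructor
      · rintro ⟨⟨-, h4⟩, h5⟩
        exact ⟨h5, h4⟩
      · rintro ⟨h5, h4⟩
        exact ⟨⟨(mem_K.1 ht).1.subset (coe_subset.2 h5), h4⟩, h5⟩
    rw [h3, card_powersetCard, (mem_K.1 ht).2]
    rfl
  rw [← h2, ← h1, mul_comm, ← smul_eq_mul, ← sum_const]
  refine sum_congr rfl fun s hs => ?_
  obtain ⟨hs1, hs2⟩ := mem_K.1 hs
  set T : Finset V := univ.filter fun w => w ∉ s ∧ G.IsClique ((insert w s : Finset V) : Set V)
    with hTdef
  have hT : ∀ w, w ∈ T ↔ w ∉ s ∧ G.IsClique ((insert w s : Finset V) : Set V) := by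
    intro w
    rw [hTdef, mem_filter]
    exact ⟨fun h => h.2, fun h => ⟨mem_univ _, h⟩⟩
  rw [← codim h hs1 hs2 hT]
  refine card_bij (fun w _ => insert w s) ?_ ?_ ?_
  · intro w hw
    obtain ⟨h3, h4⟩ := (hT w).1 hw
    rw [mem_bipartiteAbove, mem_K]
    exact ⟨⟨h4, by rw [card_insert_of_notMem h3, hs2]⟩, subset_insert _ _⟩
  · intro w hw w' hw' he
    exact insert_inj ((hT w).1 hw).1 he
  · intro t ht
    rw [mem_bipartiteAbove, mem_K] at ht
    obtain ⟨⟨h3, h4⟩, h5⟩ := ht
    have h6 : (t \ s).card = 1 := by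
      rw [card_sdiff_of_subset h5]
      omega
    obtain ⟨w, hw⟩ := card_eq_one.1 h6
    have h7 : w ∈ t \ s := by
      rw [hw]
      exact mem_singleton_self _
    have h8 : insert w s = t := by
      rw [insert_eq, ← hw, sdiff_union_of_subset h5]
    refine ⟨w, (hT w).2 ⟨(mem_sdiff.1 h7).2, ?_⟩, h8⟩
    rw [h8]
    exact h3

/-- **Homology spheres of dimension two are flag 2-spheres.** `Con G univ`: `low` for `s = ∅`, `j = 1` (the
difference of two vertices is a boundary; or: the indicator function of a closed set `P` of vertices). For a vertex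
`v`: `lk G univ v` is a circuit: connected (`low` for `s = {v}`, `j = 2`), every vertex of it has exactly two neighbours
in it (for an edge `s = {v, a}` the triangles which contain `s`: all functions on them with sum zero are constant and
the constant function is a cycle (`top`), there is a triangle (`facet`): exactly two), and at least four
vertices (a circuit with three vertices `a, b, c` would give the clique `{v, a, b, c}` with `4 > 3` elements; it has at
least 3 vertices since every vertex has two neighbours). Euler characteristic: the complex of the cliques with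
`0, 1, 2, 3` elements is exact over `ZMod 2` except in degree `3`, where the homology is of dimension `1` (rank and
nullity): `1 - V + E - F = -1`, and `3 F = 2 E` (each edge is in two triangles; `∑ v, |lk v| = 2 E`). -/
theorem IsSph.fs {G : SimpleGraph V} (h : IsSph G 3) : FS G univ := by
  refine ⟨⟨con_univ h, fun v _ => cyc h v⟩, ?_⟩
  have h1 := euler h
  have h2 := two_K2 h
  rw [card_K1] at h1
  rw [sum_lk]
  omega

end Pool.Agent.H19.SR
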