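import Pool.Agent.H19.SR.Defs

/-!
# Project SR, module K1: base change from `ZMod 2` to `K`
-/

set_option autoImplicit false
set_option linter.unusedSectionVars false

open Finset

namespace Pool.Agent.H19.SR

open Pool.Agent.H77.SW

/-- `cst` as a ring homomorphism -/
theorem cst_eq (K : Type) [Field K] [CharP K 2] (a : ZMod 2) :
    cst K a = ZMod.castHom (dvd_refl 2) K a := by
  unfold cst
  have h : ∀ a : ZMod 2, a = 0 ∨ a = 1 := by decide
  rcases h a with rfl | rfl
  · rw [if_pos rfl, map_zero]
  · rw [if_neg one_ne_zero, map_one]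

theorem cst_two (a : ZMod 2) : cst (ZMod 2) a = a := by
  unfold cst
  have h : ∀ a : ZMod 2, (if a = 0 then (0 : ZMod 2) else 1) = a := by decide
  exact h a

theorem cst_zero (K : Type) [Field K] : cst K 0 = 0 := if_pos rfl

theorem cst_mul_eq (K : Type) [Field K] (a : ZMod 2) (x : K) :
    cst K a * x = if a = 0 then 0 else x := by
  unfold cst
  split_ifs
  · rw [zero_mul]
  · rw [one_mul]

/-- additive maps commute with `cst` -/
theorem map_cst_mul {K : Type} [Field K] (φ : K →+ ZMod 2) (a : ZMod 2) (x : K) :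
    φ (cst K a * x) = cst (ZMod 2) a * φ x := by
  rw [cst_mul_eq, cst_mul_eq]
  split_ifs
  · rw [map_zero]
  · rfl

/-- Two spaces of functions on the same finite set, over `ZMod 2` and over `K`, which correspond to each other: the
functions in `S₂` are in `S` (`cst K a` is `0` or `1`), and the image of a function in `S` under an additive map
`K → ZMod 2` is in `S₂`. Proof. `≥`: functions `Fin m → (ι → ZMod 2)` which are independent over `ZMod 2` are
independent over `K` after `cst` (e.g. the rank of a matrix; or: apply additive maps `K → ZMod 2` to a relation).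
`≤`: every `x ∈ S` has its values in a finite dimensional `ZMod 2`-subspace of `K` with basis `e α` and coordinate
functions `φ α` (extended to additive maps `K → ZMod 2`), so `x = ∑ e α * cst (φ α ∘ x)` is in the span of
`cst ∘ S₂`. -/
theorem bc {K : Type} [Field K] [CharP K 2] {ι : Type} [Fintype ι] (S₂ : Submodule (ZMod 2) (ι → ZMod 2))
    (S : Submodule K (ι → K)) (h1 : ∀ x ∈ S₂, (fun j => cst K (x j)) ∈ S)
    (h2 : ∀ x ∈ S, ∀ φ : K →+ ZMod 2, (fun j => φ (x j)) ∈ S₂) :
    Module.finrank K S = Module.finrank (ZMod 2) S₂ := by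
  classical
  have : Fact (Nat.Prime 2) := ⟨Nat.prime_two⟩
  let : Algebra (ZMod 2) K := ZMod.algebra K 2
  have hsm : ∀ (a : ZMod 2) (x : K), a • x = cst K a * x := by
    intro a x
    rw [Algebra.smul_def, cst_eq]
    rfl
  let b := Module.finBasis (ZMod 2) S₂
  let v : Fin (Module.finrank (ZMod 2) S₂) → ι → K := fun k j => cst K ((b k : ι → ZMod 2) j)
  -- every element of `S₂`
  have hy : ∀ y ∈ S₂, (fun j => cst K (y j)) ∈ Submodule.span K (Set.range v) := by
    intro y hy
    have h3 : y = ∑ k, b.repr ⟨y, hy⟩ k • (b k : ι → ZMod 2) := by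
      have h4 := congrArg Subtype.val (b.sum_repr ⟨y, hy⟩)
      rw [Submodule.coe_sum] at h4
      exact h4.symm
    have h5 : (fun j => cst K (y j)) = ∑ k, cst K (b.repr ⟨y, hy⟩ k) • v k := by
      funext j
      have h6 := congrFun h3 j
      rw [Finset.sum_apply] at h6
      rw [Finset.sum_apply, h6]
      simp only [Pi.smul_apply, smul_eq_mul, v, cst_eq, map_sum, map_mul]
    rw [h5]
    exact Submodule.sum_mem _ fun k _ => Submodule.smul_mem _ _ (Submodule.subset_span ⟨k, rfl⟩)
  have hS : S = Submodule.span K (Set.range v) := by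
    apply le_antisymm
    · intro x hx
      let e := Module.Basis.ofVectorSpace (ZMod 2) K
      let A := (univ : Finset ι).biUnion fun j => (e.repr (x j)).support
      have h3 : x = ∑ α ∈ A, (e α) • fun j => cst K (e.repr (x j) α) := by
        funext j
        rw [Finset.sum_apply]
        have h4 : x j = ∑ α ∈ (e.repr (x j)).support, e.repr (x j) α • e α := by
          conv_lhs => rw [← e.linearCombination_repr (x j)]
          rfl
        conv_lhs => rw [h4]
        have h5 : (e.repr (x j)).support ⊆ A :=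
          Finset.subset_biUnion_of_mem (fun j => (e.repr (x j)).support) (mem_univ j)
        rw [Finset.sum_subset h5]
        · refine sum_congr rfl fun α _ => ?_
          rw [hsm, Pi.smul_apply, smul_eq_mul, mul_comm]
        · intro α _ h
          rw [Finsupp.notMem_support_iff] at h
          rw [h, zero_smul]
      rw [h3]
      refine Submodule.sum_mem _ fun α _ => Submodule.smul_mem _ _ ?_
      exact hy _ (h2 x hx (e.coord α).toAddMonoidHom)
    · rw [Submodule.span_le]
      rintro _ ⟨k, rfl⟩
      exact h1 _ (b k).2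
  have hli : LinearIndependent K v := by
    rw [Fintype.linearIndependent_iff]
    intro g hg k
    rw [← Module.forall_dual_apply_eq_zero_iff (ZMod 2)]
    intro φ
    have h3 : ∑ k, φ (g k) • b k = 0 := by
      apply Subtype.ext
      rw [Submodule.coe_sum]
      funext j
      rw [Finset.sum_apply]
      have h4 := congrArg φ (congrFun hg j)
      rw [Finset.sum_apply, map_sum, Pi.zero_apply, map_zero] at h4
      rw [Submodule.coe_zero, Pi.zero_apply, ← h4]
      refine sum_congr rfl fun k _ => ?_
      rw [Pi.smul_apply, smul_eq_mul, mul_comm, ← hsm, map_smul, smul_eq_mul, Submodule.coe_smul,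
        Pi.smul_apply, smul_eq_mul, mul_comm]
    exact Fintype.linearIndependent_iff.1 b.linearIndependent _ h3 k
  rw [hS, finrank_span_eq_card hli, Fintype.card_fin]

/-- the same for functions of two variables -/
theorem bc2 {K : Type} [Field K] [CharP K 2] {ι ι' : Type} [Fintype ι] [Fintype ι']
    (S₂ : Submodule (ZMod 2) (ι → ι' → ZMod 2)) (S : Submodule K (ι → ι' → K))
    (h1 : ∀ x ∈ S₂, (fun j k => cst K (x j k)) ∈ S)
    (h2 : ∀ x ∈ S, ∀ φ : K →+ ZMod 2, (fun j k => φ (x j k)) ∈ S₂) :
    Module.finrank K S = Module.finrank (ZMod 2) S₂ := by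
  let e := LinearEquiv.curry K K ι ι'
  let e₂ := LinearEquiv.curry (ZMod 2) (ZMod 2) ι ι'
  have h3 := bc (S₂.comap e₂.toLinearMap) (S.comap e.toLinearMap)
    (fun x hx => h1 (e₂ x) hx) fun x hx φ => h2 (e x) hx φ
  have h4 : Module.finrank K (S.comap e.toLinearMap) = Module.finrank K S :=
    (e.submoduleMap (S.comap e.toLinearMap)).finrank_eq.trans (by
      rw [show (S.comap e.toLinearMap).map e.toLinearMap = S from
        Submodule.map_comap_eq_of_surjective e.surjective S])
  have h5 : Module.finrank (ZMod 2) (S₂.comap e₂.toLinearMap) = Module.finrank (ZMod 2) S₂ :=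
    (e₂.submoduleMap (S₂.comap e₂.toLinearMap)).finrank_eq.trans (by
      rw [show (S₂.comap e₂.toLinearMap).map e₂.toLinearMap = S₂ from
        Submodule.map_comap_eq_of_surjective e₂.surjective S₂])
  rw [h4, h5] at h3
  exact h3

variable {V : Type} [DecidableEq V] [Fintype V] {P : Type} [Group P] [Fintype P] {K : Type}
  [Field K] [CharP K 2]

theorem Zs_cst {G : SimpleGraph V} (D : PG G P) (n : ℕ) {x : Finset V → P → ZMod 2}
    (hx : x ∈ Zs (ZMod 2) G n (rP (ZMod 2) D)) :
    (fun A p => cst K (x A p)) ∈ Zs K G n (rP K D) := by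
  rw [mem_Zs] at hx ⊢
  obtain ⟨h1, h2, h3⟩ := hx
  refine ⟨fun σ h => h1 σ fun h0 => h ?_, fun σ v hv => ?_, fun κ => ?_⟩
  · funext p
    rw [h0]
    exact cst_zero K
  · funext p
    show cst K (x σ (p * D.g v)) = cst K (x σ p)
    have h4 := congrFun (h2 σ v hv) p
    have h5 : x σ (p * D.g v) = x σ p := h4
    rw [h5]
  · funext p
    have h4 := congrFun (h3 κ) p
    rw [Finset.sum_apply] at h4 ⊢
    simp only [cst_eq, ← map_sum]
    rw [h4]
    exact map_zero _

theorem Zs_map {G : SimpleGraph V} (D : PG G P) (n : ℕ) {x : Finset V → P → K}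
    (hx : x ∈ Zs K G n (rP K D)) (φ : K →+ ZMod 2) :
    (fun A p => φ (x A p)) ∈ Zs (ZMod 2) G n (rP (ZMod 2) D) := by
  rw [mem_Zs] at hx ⊢
  obtain ⟨h1, h2, h3⟩ := hx
  refine ⟨fun σ h => h1 σ fun h0 => h ?_, fun σ v hv => ?_, fun κ => ?_⟩
  · funext p
    rw [h0]
    exact map_zero φ
  · funext p
    show φ (x σ (p * D.g v)) = φ (x σ p)
    have h4 := congrFun (h2 σ v hv) p
    have h5 : x σ (p * D.g v) = x σ p := h4
    rw [h5]
  · funext p
    have h4 := congrFun (h3 κ) p
    rw [Finset.sum_apply] at h4 ⊢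
    rw [← map_sum, h4]
    exact map_zero φ

/-- the cycles (via `Finset V → P → K ≃ Finset V × P → K`) -/
theorem bc_Zs {G : SimpleGraph V} (D : PG G P) (n : ℕ) : dz K n D = dz (ZMod 2) n D :=
  bc2 _ _ (fun _ hx => Zs_cst D n hx) fun _ hx φ => Zs_map D n hx φ

theorem bc_TL {G : SimpleGraph V} (D : PG G P) (i : ℕ) (s : Finset V) :
    Module.finrank K (TL K D i s) = Module.finrank (ZMod 2) (TL (ZMod 2) D i s) := by
  refine bc2 _ _ (fun x hx => ?_) fun x hx φ => ?_
  · rw [mem_TL] at hx ⊢
    refine ⟨Zs_cst D i hx.1, fun γ hγ p₀ => ?_⟩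
    have h1 := hx.2 γ hγ p₀
    have h2 : ∀ A p, cst K (γ (A \ s) p) * cst K (x A p) =
        ZMod.castHom (dvd_refl 2) K (cst (ZMod 2) (γ (A \ s) p) * x A p) := by
      intro A p
      rw [map_mul, cst_two, cst_eq, cst_eq]
    simp only [h2, ← map_sum]
    rw [h1, map_zero]
  · rw [mem_TL] at hx ⊢
    refine ⟨Zs_map D i hx.1 φ, fun γ hγ p₀ => ?_⟩
    have h1 := congrArg φ (hx.2 γ hγ p₀)
    rw [map_zero] at h1
    simp only [map_sum, map_cst_mul] at h1
    exact h1

end Pool.Agent.H19.SR
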