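import Pool.Agent.H19.SR.Defs

/-!
# Project SR, module M1: the coboundary of the cubical cup products
-/

set_option autoImplicit false
set_option linter.unusedSectionVars false

open Finset

namespace Pool.Agent.H19.SR

variable {V : Type} [DecidableEq V] {R : Type} [CommRing R]

/-- a sum over the subsets of a set, one element apart -/
private theorem sum_pow_erase {M : Type} [AddCommMonoid M] {S : Finset V} {v : V} (hv : v ∈ S)
    (G : Finset V → M) :
    ∑ D ∈ S.powerset, G D = ∑ D ∈ (S.erase v).powerset, (G D + G (insert v D)) := by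
  have h := Finset.sum_powerset_insert (Finset.notMem_erase v S) G
  rw [Finset.insert_erase hv] at h
  rw [h, Finset.sum_add_distrib]

private theorem swap_in {M : Type} [AddCommMonoid M] (S : Finset V) (F : Finset V → V → M) :
    ∑ D ∈ S.powerset, ∑ v ∈ D, F D v =
      ∑ v ∈ S, ∑ D ∈ (S.erase v).powerset, F (insert v D) v := by
  have h1 : ∀ D ∈ S.powerset, ∑ v ∈ D, F D v = ∑ v ∈ S, if v ∈ D then F D v else 0 := by
    intro D hD
    rw [← Finset.sum_filter]
    congr 1
    ext v
    rw [Finset.mem_filter]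
    exact ⟨fun h => ⟨Finset.mem_powerset.1 hD h, h⟩, fun h => h.2⟩
  rw [Finset.sum_congr rfl h1, Finset.sum_comm]
  refine Finset.sum_congr rfl fun v hv => ?_
  rw [sum_pow_erase hv]
  refine Finset.sum_congr rfl fun D hD => ?_
  have h2 : v ∉ D := fun h => Finset.notMem_erase v S (Finset.mem_powerset.1 hD h)
  rw [if_neg h2, if_pos (Finset.mem_insert_self v D), zero_add]

private theorem swap_out {M : Type} [AddCommMonoid M] (S : Finset V) (F : Finset V → V → M) :
    ∑ D ∈ S.powerset, ∑ v ∈ S \ D, F D v =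
      ∑ v ∈ S, ∑ D ∈ (S.erase v).powerset, F D v := by
  have h1 : ∀ D ∈ S.powerset, ∑ v ∈ S \ D, F D v = ∑ v ∈ S, if v ∈ D then 0 else F D v := by
    intro D _
    have h3 : ∀ v ∈ S, (if v ∈ D then 0 else F D v) = if v ∉ D then F D v else 0 := by
      intro v _
      by_cases h : v ∈ D
      · simp [h]
      · simp [h]
    rw [Finset.sum_congr rfl h3, ← Finset.sum_filter]
    congr 1
    ext v
    rw [Finset.mem_filter, Finset.mem_sdiff]
  rw [Finset.sum_congr rfl h1, Finset.sum_comm]
  refine Finset.sum_congr rfl fun v hv => ?_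
  rw [sum_pow_erase hv]
  refine Finset.sum_congr rfl fun D hD => ?_
  have h2 : v ∉ D := fun h => Finset.notMem_erase v S (Finset.mem_powerset.1 hD h)
  rw [if_neg h2, if_pos (Finset.mem_insert_self v D), add_zero]

/-- the pairs of a set with `m` elements and an element outside it -/
private theorem swap_card {M : Type} [AddCommMonoid M] (B : Finset V) (m : ℕ)
    (F : Finset V → V → M) :
    ∑ v ∈ B, ∑ A ∈ (B.erase v).powersetCard m, F A v =
      ∑ A ∈ B.powersetCard m, ∑ v ∈ B \ A, F A v := by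
  rw [Finset.sum_sigma', Finset.sum_sigma']
  refine Finset.sum_bij' (fun p _ => ⟨p.2, p.1⟩) (fun p _ => ⟨p.2, p.1⟩) ?_ ?_ ?_ ?_ ?_
  · rintro ⟨w, A⟩ hp
    rw [Finset.mem_sigma, Finset.mem_powersetCard] at hp
    obtain ⟨h1, h2, h3⟩ := hp
    rw [Finset.mem_sigma, Finset.mem_powersetCard, Finset.mem_sdiff]
    refine ⟨⟨h2.trans (Finset.erase_subset _ _), h3⟩, h1, fun h4 => ?_⟩
    exact Finset.notMem_erase _ _ (h2 h4)
  · rintro ⟨A, w⟩ hp
    rw [Finset.mem_sigma, Finset.mem_powersetCard, Finset.mem_sdiff] at hp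
    obtain ⟨⟨h1, h2⟩, h3, h4⟩ := hp
    rw [Finset.mem_sigma, Finset.mem_powersetCard]
    refine ⟨h3, fun v hv => Finset.mem_erase.2 ⟨?_, h1 hv⟩, h2⟩
    rintro rfl
    exact h4 hv
  · rintro ⟨w, A⟩ _
    rfl
  · rintro ⟨A, w⟩ _
    rfl
  · rintro ⟨w, A⟩ _
    rfl

/-- a sum over the pairs of a set with `m + 1` elements and an element of it -/
private theorem swap_pairs {M : Type} [AddCommMonoid M] (s : Finset V) (m : ℕ)
    (F : Finset V → V → M) :
    ∑ B ∈ s.powersetCard (m + 1), ∑ w ∈ B, F B w =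
      ∑ C ∈ s.powersetCard m, ∑ w ∈ s \ C, F (insert w C) w := by
  rw [Finset.sum_sigma', Finset.sum_sigma']
  refine Finset.sum_bij' (fun p _ => ⟨p.1.erase p.2, p.2⟩) (fun p _ => ⟨insert p.2 p.1, p.2⟩)
    ?_ ?_ ?_ ?_ ?_
  · rintro ⟨B, w⟩ hp
    rw [Finset.mem_sigma, Finset.mem_powersetCard] at hp
    obtain ⟨⟨h1, h2⟩, h3⟩ := hp
    rw [Finset.mem_sigma, Finset.mem_powersetCard, Finset.mem_sdiff]
    refine ⟨⟨(Finset.erase_subset _ _).trans h1, ?_⟩, h1 h3, Finset.notMem_erase _ _⟩
    show (B.erase w).card = m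
    rw [Finset.card_erase_of_mem h3]
    have : B.card = m + 1 := h2
    omega
  · rintro ⟨C, w⟩ hp
    rw [Finset.mem_sigma, Finset.mem_powersetCard, Finset.mem_sdiff] at hp
    obtain ⟨⟨h1, h2⟩, h3, h4⟩ := hp
    rw [Finset.mem_sigma, Finset.mem_powersetCard]
    refine ⟨⟨Finset.insert_subset h3 h1, ?_⟩, Finset.mem_insert_self _ _⟩
    show (insert w C).card = m + 1
    rw [Finset.card_insert_of_notMem h4]
    have : C.card = m := h2
    omega
  · rintro ⟨B, w⟩ hp
    rw [Finset.mem_sigma] at hp
    show (⟨insert w (B.erase w), w⟩ : Σ _ : Finset V, V) = ⟨B, w⟩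
    rw [Finset.insert_erase hp.2]
  · rintro ⟨C, w⟩ hp
    rw [Finset.mem_sigma, Finset.mem_sdiff] at hp
    show (⟨(insert w C).erase w, w⟩ : Σ _ : Finset V, V) = ⟨C, w⟩
    rw [Finset.erase_insert hp.2.2]
  · rintro ⟨B, w⟩ hp
    rw [Finset.mem_sigma] at hp
    show F B w = F (insert w (B.erase w)) w
    rw [Finset.insert_erase hp.2]

private theorem add_self_two [CharP R 2] (a : R) : a + a = 0 := CharTwo.add_self_eq_zero a

/-- the set of the first factor -/
private def cA (ν : V → ℕ) (B C M D : Finset V) : Finset V :=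
  C ∪ ((B \ (M ∪ D)).filter fun v => ¬ Even (bel ν M v))

/-- the set of the second factor -/
private def cB (ν : V → ℕ) (C M D : Finset V) : Finset V :=
  C ∪ D.filter fun v => Even (bel ν M v)

/-- the term of `M`, `D` -/
private def tm (ν : V → ℕ) (x y : Finset V → Finset V → R) (B C M D : Finset V) : R :=
  x (M ∪ D) (cA ν B C M D) * y (B \ D) (cB ν C M D)

private theorem cupc_eq (ν : V → ℕ) (m : ℕ) (x y : Finset V → Finset V → R) (B C : Finset V) :
    cupc ν m x y B C = ∑ M ∈ B.powersetCard m, ∑ D ∈ (B \ M).powerset, tm ν x y B C M D := rfl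

/-- the letter `v` is removed from the first factor -/
private def F1 (ν : V → ℕ) (x y : Finset V → Finset V → R) (B C M D : Finset V) (v : V) : R :=
  (x ((M ∪ D).erase v) (cA ν B C M D) + x ((M ∪ D).erase v) (insert v (cA ν B C M D))) *
    y (B \ D) (cB ν C M D)

/-- the letter `v` is removed from the second factor -/
private def F2 (ν : V → ℕ) (x y : Finset V → Finset V → R) (B C M D : Finset V) (v : V) : R :=
  x (M ∪ D) (cA ν B C M D) *
    (y ((B \ D).erase v) (cB ν C M D) + y ((B \ D).erase v) (insert v (cB ν C M D)))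

/-- the terms where the removed letter is not in `M` -/
private theorem out_term [CharP R 2] (ν : V → ℕ) (x y : Finset V → Finset V → R)
    {B C M D : Finset V} {v : V} (hB : v ∈ B) (hM : v ∉ M) (hD : v ∉ D) :
    F1 ν x y B C M (insert v D) v + F2 ν x y B C M D v =
      tm ν x y (B.erase v) C M D + tm ν x y (B.erase v) (insert v C) M D := by
  have e1 : (M ∪ insert v D).erase v = M ∪ D := by
    ext u
    simp only [Finset.mem_erase, Finset.mem_union, Finset.mem_insert]
    constructor
    · rintro ⟨h1, h2 | h2 | h2⟩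
      · exact Or.inl h2
      · exact absurd h2 h1
      · exact Or.inr h2
    · rintro (h | h)
      · exact ⟨fun h1 => hM (h1 ▸ h), Or.inl h⟩
      · exact ⟨fun h1 => hD (h1 ▸ h), Or.inr (Or.inr h)⟩
  have e2 : B \ (M ∪ insert v D) = (B.erase v) \ (M ∪ D) := by
    ext u
    simp only [Finset.mem_erase, Finset.mem_union, Finset.mem_insert, Finset.mem_sdiff]
    tauto
  have e3 : B \ insert v D = (B.erase v) \ D := by
    ext u
    simp only [Finset.mem_erase, Finset.mem_insert, Finset.mem_sdiff]
    tauto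
  have e4 : (B \ D).erase v = (B.erase v) \ D := by
    ext u
    simp only [Finset.mem_erase, Finset.mem_sdiff]
    tauto
  have e5 : B \ (M ∪ D) = insert v ((B.erase v) \ (M ∪ D)) := by
    ext u
    simp only [Finset.mem_erase, Finset.mem_union, Finset.mem_insert, Finset.mem_sdiff]
    constructor
    · rintro ⟨h1, h2⟩
      by_cases h3 : u = v
      · exact Or.inl h3
      · exact Or.inr ⟨⟨h3, h1⟩, h2⟩
    · rintro (h | h)
      · subst h
        exact ⟨hB, fun h => h.elim hM hD⟩
      · exact ⟨h.1.2, h.2⟩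
  have a1 : cA ν B C M (insert v D) = cA ν (B.erase v) C M D := by
    unfold cA
    rw [e2]
  have a2 : cA ν (B.erase v) (insert v C) M D = insert v (cA ν (B.erase v) C M D) := by
    unfold cA
    rw [Finset.insert_union]
  have b2 : cB ν (insert v C) M D = insert v (cB ν C M D) := by
    unfold cB
    rw [Finset.insert_union]
  unfold F1 F2 tm
  rw [e1, e3, e4, a1, a2, b2]
  by_cases he : Even (bel ν M v)
  · have a3 : cA ν B C M D = cA ν (B.erase v) C M D := by
      unfold cA
      rw [e5, Finset.filter_insert, if_neg (not_not.2 he)]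
    have b1 : cB ν C M (insert v D) = insert v (cB ν C M D) := by
      unfold cB
      rw [Finset.filter_insert, if_pos he, Finset.union_insert]
    rw [a3, b1]
    have h := add_self_two (x (M ∪ D) (cA ν (B.erase v) C M D) *
      y (B.erase v \ D) (insert v (cB ν C M D)))
    linear_combination h
  · have a3 : cA ν B C M D = insert v (cA ν (B.erase v) C M D) := by
      unfold cA
      rw [e5, Finset.filter_insert, if_pos he, Finset.union_insert]
    have b1 : cB ν C M (insert v D) = cB ν C M D := by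
      unfold cB
      rw [Finset.filter_insert, if_neg he]
    rw [a3, b1]
    have h := add_self_two (x (M ∪ D) (insert v (cA ν (B.erase v) C M D)) *
      y (B.erase v \ D) (cB ν C M D))
    linear_combination h

/-- the terms of one set `M` -/
private theorem expand [CharP R 2] (ν : V → ℕ) (x y : Finset V → Finset V → R)
    {B C M : Finset V} (hM : M ⊆ B) :
    ∑ D ∈ (B \ M).powerset, tm ν (cob x) y B C M D +
        ∑ D ∈ (B \ M).powerset, tm ν x (cob y) B C M D =
      ∑ v ∈ B \ M, ∑ D ∈ ((B.erase v) \ M).powerset,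
          (tm ν x y (B.erase v) C M D + tm ν x y (B.erase v) (insert v C) M D) +
        ∑ v ∈ M, ∑ D ∈ (B \ M).powerset, (F1 ν x y B C M D v + F2 ν x y B C M D v) := by
  have h1 : ∀ D ∈ (B \ M).powerset, tm ν (cob x) y B C M D =
      ∑ v ∈ D, F1 ν x y B C M D v + ∑ v ∈ M, F1 ν x y B C M D v := by
    intro D hD
    have hd : Disjoint D M := by
      rw [Finset.disjoint_left]
      intro u hu hu'
      exact (Finset.mem_sdiff.1 (Finset.mem_powerset.1 hD hu)).2 hu'
    rw [← Finset.sum_union hd, Finset.union_comm D M]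
    unfold tm F1
    rw [← Finset.sum_mul]
    rfl
  have h2 : ∀ D ∈ (B \ M).powerset, tm ν x (cob y) B C M D =
      ∑ v ∈ (B \ M) \ D, F2 ν x y B C M D v + ∑ v ∈ M, F2 ν x y B C M D v := by
    intro D hD
    have hd : Disjoint ((B \ M) \ D) M := by
      rw [Finset.disjoint_left]
      intro u hu hu'
      exact (Finset.mem_sdiff.1 (Finset.mem_sdiff.1 hu).1).2 hu'
    have he : (B \ M) \ D ∪ M = B \ D := by
      ext u
      simp only [Finset.mem_union, Finset.mem_sdiff]
      constructor
      · rintro (h | h)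
        · exact ⟨h.1.1, h.2⟩
        · exact ⟨hM h, fun h3 => (Finset.mem_sdiff.1 (Finset.mem_powerset.1 hD h3)).2 h⟩
      · rintro ⟨h3, h4⟩
        by_cases h5 : u ∈ M
        · exact Or.inr h5
        · exact Or.inl ⟨⟨h3, h5⟩, h4⟩
    rw [← Finset.sum_union hd, he]
    unfold tm F2
    rw [← Finset.mul_sum]
    rfl
  rw [Finset.sum_congr rfl h1, Finset.sum_congr rfl h2, Finset.sum_add_distrib,
    Finset.sum_add_distrib, swap_in (B \ M) fun D v => F1 ν x y B C M D v,
    swap_out (B \ M) fun D v => F2 ν x y B C M D v]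
  have h3 : ∑ v ∈ B \ M, ∑ D ∈ ((B.erase v) \ M).powerset,
      (tm ν x y (B.erase v) C M D + tm ν x y (B.erase v) (insert v C) M D) =
      ∑ v ∈ B \ M, ∑ D ∈ ((B \ M).erase v).powerset, F1 ν x y B C M (insert v D) v +
        ∑ v ∈ B \ M, ∑ D ∈ ((B \ M).erase v).powerset, F2 ν x y B C M D v := by
    rw [← Finset.sum_add_distrib]
    refine Finset.sum_congr rfl fun v hv => ?_
    have h4 : (B.erase v) \ M = (B \ M).erase v := by
      ext u
      simp only [Finset.mem_erase, Finset.mem_sdiff]
      tauto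
    rw [h4, ← Finset.sum_add_distrib]
    refine Finset.sum_congr rfl fun D hD => ?_
    rw [out_term ν x y (Finset.mem_sdiff.1 hv).1 (Finset.mem_sdiff.1 hv).2 fun h =>
      Finset.notMem_erase v _ (Finset.mem_powerset.1 hD h)]
  have h5 : ∑ v ∈ M, ∑ D ∈ (B \ M).powerset, (F1 ν x y B C M D v + F2 ν x y B C M D v) =
      ∑ D ∈ (B \ M).powerset, ∑ v ∈ M, F1 ν x y B C M D v +
        ∑ D ∈ (B \ M).powerset, ∑ v ∈ M, F2 ν x y B C M D v := by
    rw [Finset.sum_comm, ← Finset.sum_add_distrib]
    refine Finset.sum_congr rfl fun D _ => ?_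
    rw [Finset.sum_add_distrib]
  rw [h3, h5]
  ring

/-- the left side -/
private theorem lhs_eq (ν : V → ℕ) (m : ℕ) (x y : Finset V → Finset V → R) (B C : Finset V) :
    cob (cupc ν m x y) B C = ∑ M ∈ B.powersetCard m, ∑ v ∈ B \ M,
      ∑ D ∈ ((B.erase v) \ M).powerset,
        (tm ν x y (B.erase v) C M D + tm ν x y (B.erase v) (insert v C) M D) := by
  rw [← swap_card B m fun M v => ∑ D ∈ ((B.erase v) \ M).powerset,
        (tm ν x y (B.erase v) C M D + tm ν x y (B.erase v) (insert v C) M D)]
  unfold cob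
  refine Finset.sum_congr rfl fun v _ => ?_
  rw [cupc_eq, cupc_eq, ← Finset.sum_add_distrib]
  refine Finset.sum_congr rfl fun M _ => ?_
  rw [← Finset.sum_add_distrib]

/-- the sum of the two products with a coboundary -/
private theorem rhs_eq [CharP R 2] (ν : V → ℕ) (m : ℕ) (x y : Finset V → Finset V → R)
    (B C : Finset V) :
    cupc ν m (cob x) y B C + cupc ν m x (cob y) B C = cob (cupc ν m x y) B C +
      ∑ M ∈ B.powersetCard m, ∑ v ∈ M, ∑ D ∈ (B \ M).powerset,
        (F1 ν x y B C M D v + F2 ν x y B C M D v) := by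
  rw [lhs_eq, cupc_eq, cupc_eq, ← Finset.sum_add_distrib, ← Finset.sum_add_distrib]
  refine Finset.sum_congr rfl fun M hM => ?_
  exact expand ν x y (Finset.mem_powersetCard.1 hM).1

/-! ### The terms with the removed letter in `M` -/

private theorem bel_insert (ν : V → ℕ) {M : Finset V} {v : V} (hv : v ∉ M) (u : V) :
    bel ν (insert v M) u = bel ν M u + if ν v < ν u then 1 else 0 := by
  unfold bel
  rw [Finset.filter_insert]
  split_ifs with h1
  · rw [Finset.card_insert_of_notMem fun h2 => hv (Finset.mem_filter.1 h2).1]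
  · rfl

private theorem par (ν : V → ℕ) (hν : Function.Injective ν) {M : Finset V} {v : V} (hv : v ∉ M)
    {u : V} (hu : u ≠ v) {k : ℕ} (hk : k = ν v ∨ k = ν v + 1) :
    Even (bel ν (insert v M) u) ↔ (Even (bel ν M u) ↔ ¬ k ≤ ν u) := by
  have hne : ν u ≠ ν v := fun h => hu (hν h)
  rw [bel_insert ν hv]
  by_cases h1 : ν v < ν u
  · have h2 : k ≤ ν u := by rcases hk with rfl | rfl <;> omega
    simp only [h1, if_true, h2, not_true, iff_false, Nat.even_add_one]
  · have h2 : ¬ k ≤ ν u := by rcases hk with rfl | rfl <;> omega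
    simp only [h1, if_false, h2, not_false_eq_true, iff_true, add_zero]

/-- the sets of the telescoping function -/
private def kA (ν : V → ℕ) (B C M D : Finset V) (k : ℕ) : Finset V :=
  C ∪ ((B \ (M ∪ D)).filter fun v => (Even (bel ν M v) ↔ k ≤ ν v))

private def kB (ν : V → ℕ) (C M D : Finset V) (k : ℕ) : Finset V :=
  C ∪ D.filter fun v => (Even (bel ν M v) ↔ ¬ k ≤ ν v)

/-- the telescoping function -/
private def tel (ν : V → ℕ) (x y : Finset V → Finset V → R) (B C M D : Finset V) (k : ℕ) : R :=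
  x (M ∪ D) (kA ν B C M D k) * y (B \ D) (kB ν C M D k)

private theorem tel_step (ν : V → ℕ) (x y : Finset V → Finset V → R) {B C M D : Finset V} (k : ℕ)
    (hD : D ⊆ B \ M) (hk : ∀ v ∈ B \ M, ν v ≠ k) :
    tel ν x y B C M D k = tel ν x y B C M D (k + 1) := by
  have h1 : kA ν B C M D k = kA ν B C M D (k + 1) := by
    unfold kA
    congr 1
    refine Finset.filter_congr fun v hv => ?_
    rw [Finset.mem_sdiff, Finset.mem_union] at hv
    have h2 := hk v (Finset.mem_sdiff.2 ⟨hv.1, fun h => hv.2 (Or.inl h)⟩)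
    have h3 : k ≤ ν v ↔ k + 1 ≤ ν v := by omega
    rw [h3]
  have h1' : kB ν C M D k = kB ν C M D (k + 1) := by
    unfold kB
    congr 1
    refine Finset.filter_congr fun v hv => ?_
    have h2 := hk v (hD hv)
    have h3 : k ≤ ν v ↔ k + 1 ≤ ν v := by omega
    rw [h3]
  unfold tel
  rw [h1, h1']

private theorem sum_range_tel [CharP R 2] (g : ℕ → R) (N : ℕ) :
    ∑ k ∈ Finset.range N, (g k + g (k + 1)) = g 0 + g N := by
  induction N with
  | zero => simp [add_self_two]
  | succ N ih =>
    rw [Finset.sum_range_succ, ih]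
    have := add_self_two (g N)
    calc g 0 + g N + (g N + g (N + 1)) = g 0 + (g N + g N) + g (N + 1) := by ring
      _ = g 0 + g (N + 1) := by rw [this, add_zero]

/-- the telescoping sum -/
private theorem sum_tel [CharP R 2] (ν : V → ℕ) (hν : Function.Injective ν)
    (x y : Finset V → Finset V → R) {B C M D : Finset V} (hD : D ⊆ B \ M) (N : ℕ)
    (hN : ∀ v ∈ B \ M, ν v < N) :
    ∑ w ∈ B \ M, (tel ν x y B C M D (ν w) + tel ν x y B C M D (ν w + 1)) =
      tel ν x y B C M D 0 + tel ν x y B C M D N := by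
  rw [← sum_range_tel (tel ν x y B C M D) N]
  have h1 : ∑ w ∈ B \ M, (tel ν x y B C M D (ν w) + tel ν x y B C M D (ν w + 1)) =
      ∑ k ∈ (B \ M).image ν, (tel ν x y B C M D k + tel ν x y B C M D (k + 1)) := by
    rw [Finset.sum_image]
    intro a _ b _ hab
    exact hν hab
  rw [h1]
  refine Finset.sum_subset ?_ ?_
  · intro k hk
    obtain ⟨v, hv, rfl⟩ := Finset.mem_image.1 hk
    exact Finset.mem_range.2 (hN v hv)
  · intro k _ hk
    rw [← tel_step ν x y k hD, add_self_two]
    intro v hv hvk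
    exact hk (Finset.mem_image.2 ⟨v, hv, hvk⟩)

/-- a letter is moved out of the first factor -/
private theorem in_term1 [CharP R 2] (ν : V → ℕ) (hν : Function.Injective ν)
    (x y : Finset V → Finset V → R) {B C M D : Finset V} {v : V} (hB : v ∈ B) (hM : v ∉ M)
    (hD : v ∉ D) :
    F1 ν x y B C (insert v M) D v = tel ν x y B C M D (ν v) + tel ν x y B C M D (ν v + 1) := by
  have e1 : (insert v M ∪ D).erase v = M ∪ D := by
    ext u
    simp only [Finset.mem_erase, Finset.mem_union, Finset.mem_insert]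
    constructor
    · rintro ⟨h1, (h2 | h2) | h2⟩
      · exact absurd h2 h1
      · exact Or.inl h2
      · exact Or.inr h2
    · rintro (h | h)
      · exact ⟨fun h1 => hM (h1 ▸ h), Or.inl (Or.inr h)⟩
      · exact ⟨fun h1 => hD (h1 ▸ h), Or.inr h⟩
  have e2 : B \ (M ∪ D) = insert v (B \ (insert v M ∪ D)) := by
    ext u
    simp only [Finset.mem_union, Finset.mem_insert, Finset.mem_sdiff]
    constructor
    · rintro ⟨h1, h2⟩
      by_cases h3 : u = v
      · exact Or.inl h3
      · exact Or.inr ⟨h1, fun h4 => h4.elim (fun h5 => h5.elim h3 fun h6 => h2 (Or.inl h6))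
          fun h6 => h2 (Or.inr h6)⟩
    · rintro (h | h)
      · subst h
        exact ⟨hB, fun h => h.elim hM hD⟩
      · exact ⟨h.1, fun h4 => h4.elim (fun h5 => h.2 (Or.inl (Or.inr h5)))
          fun h5 => h.2 (Or.inr h5)⟩
  have f1 : ∀ k, (k = ν v ∨ k = ν v + 1) →
      (B \ (insert v M ∪ D)).filter (fun u => (Even (bel ν M u) ↔ k ≤ ν u)) =
      (B \ (insert v M ∪ D)).filter fun u => ¬ Even (bel ν (insert v M) u) := by
    intro k hk
    refine Finset.filter_congr fun u hu => ?_
    have hu' : u ≠ v := by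
      rintro rfl
      exact (Finset.mem_sdiff.1 hu).2 (Finset.mem_union_left _ (Finset.mem_insert_self _ _))
    rw [par ν hν hM hu' hk]
    tauto
  have f2 : ∀ k, (k = ν v ∨ k = ν v + 1) → kB ν C M D k = cB ν C (insert v M) D := by
    intro k hk
    unfold kB cB
    congr 1
    refine Finset.filter_congr fun u hu => ?_
    have hu' : u ≠ v := by
      rintro rfl
      exact hD hu
    rw [par ν hν hM hu' hk]
  unfold F1 tel
  rw [e1, f2 _ (Or.inl rfl), f2 _ (Or.inr rfl)]
  by_cases he : Even (bel ν M v)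
  · have g1 : kA ν B C M D (ν v) = insert v (cA ν B C (insert v M) D) := by
      unfold kA cA
      rw [e2, Finset.filter_insert, if_pos (by simp [he]), f1 _ (Or.inl rfl), Finset.union_insert]
    have g2 : kA ν B C M D (ν v + 1) = cA ν B C (insert v M) D := by
      unfold kA cA
      rw [e2, Finset.filter_insert, if_neg (by simp [he]), f1 _ (Or.inr rfl)]
    rw [g1, g2]
    ring
  · have g1 : kA ν B C M D (ν v) = cA ν B C (insert v M) D := by
      unfold kA cA
      rw [e2, Finset.filter_insert, if_neg (by simp [he]), f1 _ (Or.inl rfl)]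
    have g2 : kA ν B C M D (ν v + 1) = insert v (cA ν B C (insert v M) D) := by
      unfold kA cA
      rw [e2, Finset.filter_insert, if_pos (by simp [he]), f1 _ (Or.inr rfl), Finset.union_insert]
    rw [g1, g2]
    ring

/-- a letter is moved out of the second factor -/
private theorem in_term2 [CharP R 2] (ν : V → ℕ) (hν : Function.Injective ν)
    (x y : Finset V → Finset V → R) {B C M D : Finset V} {v : V} (hB : v ∈ B) (hM : v ∉ M)
    (hD : v ∉ D) :
    F2 ν x y B C (insert v M) D v =
      tel ν x y B C M (insert v D) (ν v) + tel ν x y B C M (insert v D) (ν v + 1) := by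
  have e1 : insert v M ∪ D = M ∪ insert v D := by
    ext u
    simp only [Finset.mem_union, Finset.mem_insert]
    tauto
  have e2 : (B \ D).erase v = B \ insert v D := by
    ext u
    simp only [Finset.mem_erase, Finset.mem_insert, Finset.mem_sdiff]
    tauto
  have f1 : ∀ k, (k = ν v ∨ k = ν v + 1) →
      kA ν B C M (insert v D) k = cA ν B C (insert v M) D := by
    intro k hk
    unfold kA cA
    rw [e1]
    congr 1
    refine Finset.filter_congr fun u hu => ?_
    have hu' : u ≠ v := by
      rintro rfl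
      exact (Finset.mem_sdiff.1 hu).2 (Finset.mem_union_right _ (Finset.mem_insert_self _ _))
    rw [par ν hν hM hu' hk]
    tauto
  have f2 : ∀ k, (k = ν v ∨ k = ν v + 1) →
      D.filter (fun u => (Even (bel ν M u) ↔ ¬ k ≤ ν u)) =
      D.filter fun u => Even (bel ν (insert v M) u) := by
    intro k hk
    refine Finset.filter_congr fun u hu => ?_
    have hu' : u ≠ v := by
      rintro rfl
      exact hD hu
    rw [par ν hν hM hu' hk]
  unfold F2 tel
  rw [e1, e2, f1 _ (Or.inl rfl), f1 _ (Or.inr rfl)]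
  by_cases he : Even (bel ν M v)
  · have g1 : kB ν C M (insert v D) (ν v) = cB ν C (insert v M) D := by
      unfold kB cB
      rw [Finset.filter_insert, if_neg (by simp [he]), f2 _ (Or.inl rfl)]
    have g2 : kB ν C M (insert v D) (ν v + 1) = insert v (cB ν C (insert v M) D) := by
      unfold kB cB
      rw [Finset.filter_insert, if_pos (by simp [he]), f2 _ (Or.inr rfl), Finset.union_insert]
    rw [g1, g2]
    ring
  · have g1 : kB ν C M (insert v D) (ν v) = insert v (cB ν C (insert v M) D) := by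
      unfold kB cB
      rw [Finset.filter_insert, if_pos (by simp [he]), f2 _ (Or.inl rfl), Finset.union_insert]
    have g2 : kB ν C M (insert v D) (ν v + 1) = cB ν C (insert v M) D := by
      unfold kB cB
      rw [Finset.filter_insert, if_neg (by simp [he]), f2 _ (Or.inr rfl)]
    rw [g1, g2]
    ring

/-- the two ends of the telescoping sum -/
private theorem tel_top (ν : V → ℕ) (x y : Finset V → Finset V → R) {B C M D : Finset V}
    (hD : D ⊆ B \ M) {N : ℕ} (hN : ∀ v ∈ B \ M, ν v < N) :
    tel ν x y B C M D N = tm ν x y B C M D := by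
  have h1 : kA ν B C M D N = cA ν B C M D := by
    unfold kA cA
    congr 1
    refine Finset.filter_congr fun v hv => ?_
    rw [Finset.mem_sdiff, Finset.mem_union] at hv
    have h2 := hN v (Finset.mem_sdiff.2 ⟨hv.1, fun h => hv.2 (Or.inl h)⟩)
    have h3 : ¬ N ≤ ν v := by omega
    simp only [h3, iff_false]
  have h1' : kB ν C M D N = cB ν C M D := by
    unfold kB cB
    congr 1
    refine Finset.filter_congr fun v hv => ?_
    have h2 := hN v (hD hv)
    have h3 : ¬ N ≤ ν v := by omega
    simp only [h3, not_false_eq_true, iff_true]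
  unfold tel tm
  rw [h1, h1']

private theorem tel_zero (ν : V → ℕ) (x y : Finset V → Finset V → R) {B C M D : Finset V}
    (hM : M ⊆ B) (hD : D ⊆ B \ M) :
    tel ν x y B C M D 0 = tm ν y x B C M ((B \ M) \ D) := by
  have hDM : ∀ u ∈ D, u ∈ B ∧ u ∉ M := fun u hu => Finset.mem_sdiff.1 (hD hu)
  have e1 : M ∪ (B \ M) \ D = B \ D := by
    ext u
    simp only [Finset.mem_union, Finset.mem_sdiff]
    constructor
    · rintro (h | h)
      · exact ⟨hM h, fun h3 => (hDM u h3).2 h⟩
      · exact ⟨h.1.1, h.2⟩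
    · rintro ⟨h3, h4⟩
      by_cases h5 : u ∈ M
      · exact Or.inl h5
      · exact Or.inr ⟨⟨h3, h5⟩, h4⟩
  have e2 : B \ (B \ D) = D := by
    rw [Finset.sdiff_sdiff_eq_self]
    exact fun u hu => (hDM u hu).1
  have e3 : B \ ((B \ M) \ D) = M ∪ D := by
    ext u
    simp only [Finset.mem_union, Finset.mem_sdiff]
    constructor
    · rintro ⟨h1, h2⟩
      by_contra h3
      exact h2 ⟨⟨h1, fun h4 => h3 (Or.inl h4)⟩, fun h4 => h3 (Or.inr h4)⟩
    · rintro (h | h)
      · exact ⟨hM h, fun h2 => h2.1.2 h⟩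
      · exact ⟨(hDM u h).1, fun h2 => h2.2 h⟩
  have e4 : B \ (M ∪ D) = (B \ M) \ D := by
    ext u
    simp only [Finset.mem_union, Finset.mem_sdiff]
    tauto
  have h1 : kA ν B C M D 0 = cB ν C M ((B \ M) \ D) := by
    unfold kA cB
    rw [e4]
    congr 1
    refine Finset.filter_congr fun v _ => ?_
    simp only [Nat.zero_le, iff_true]
  have h2 : kB ν C M D 0 = cA ν B C M ((B \ M) \ D) := by
    unfold kB cA
    rw [e1, e2]
    congr 1
    refine Finset.filter_congr fun v _ => ?_
    simp only [Nat.zero_le, not_true, iff_false]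
  unfold tel tm
  rw [h1, h2, e1, e3, mul_comm]

/-- the terms of one set `M` with `m` letters -/
private theorem inner [CharP R 2] (ν : V → ℕ) (hν : Function.Injective ν)
    (x y : Finset V → Finset V → R) {B C M : Finset V} (hM : M ⊆ B) :
    ∑ v ∈ B \ M, ∑ D ∈ (B \ insert v M).powerset,
        (F1 ν x y B C (insert v M) D v + F2 ν x y B C (insert v M) D v) =
      ∑ D ∈ (B \ M).powerset, tm ν x y B C M D + ∑ D ∈ (B \ M).powerset, tm ν y x B C M D := by
  obtain ⟨N, hN⟩ : ∃ N, ∀ v ∈ B \ M, ν v < N :=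
    ⟨(B \ M).sup ν + 1, fun v hv => Nat.lt_succ_of_le (Finset.le_sup hv)⟩
  have h1 : ∀ v ∈ B \ M, ∑ D ∈ (B \ insert v M).powerset,
      (F1 ν x y B C (insert v M) D v + F2 ν x y B C (insert v M) D v) =
      ∑ D ∈ (B \ M).powerset, (tel ν x y B C M D (ν v) + tel ν x y B C M D (ν v + 1)) := by
    intro v hv
    have h2 : B \ insert v M = (B \ M).erase v := by
      ext u
      simp only [Finset.mem_erase, Finset.mem_insert, Finset.mem_sdiff]
      tauto
    rw [sum_pow_erase hv, h2]
    refine Finset.sum_congr rfl fun D hD => ?_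
    have h3 : v ∉ D := fun h => Finset.notMem_erase v _ (Finset.mem_powerset.1 hD h)
    rw [in_term1 ν hν x y (Finset.mem_sdiff.1 hv).1 (Finset.mem_sdiff.1 hv).2 h3,
      in_term2 ν hν x y (Finset.mem_sdiff.1 hv).1 (Finset.mem_sdiff.1 hv).2 h3]
  rw [Finset.sum_congr rfl h1, Finset.sum_comm]
  have h4 : ∀ D ∈ (B \ M).powerset,
      ∑ v ∈ B \ M, (tel ν x y B C M D (ν v) + tel ν x y B C M D (ν v + 1)) =
      tm ν x y B C M D + tm ν y x B C M ((B \ M) \ D) := by
    intro D hD
    rw [sum_tel ν hν x y (Finset.mem_powerset.1 hD) N hN, tel_top ν x y (Finset.mem_powerset.1 hD) hN,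
      tel_zero ν x y hM (Finset.mem_powerset.1 hD), add_comm]
  rw [Finset.sum_congr rfl h4, Finset.sum_add_distrib]
  congr 1
  refine Finset.sum_bij' (fun D _ => (B \ M) \ D) (fun D _ => (B \ M) \ D) ?_ ?_ ?_ ?_ ?_
  · intro D _
    exact Finset.mem_powerset.2 Finset.sdiff_subset
  · intro D _
    exact Finset.mem_powerset.2 Finset.sdiff_subset
  · intro D hD
    exact Finset.sdiff_sdiff_eq_self (Finset.mem_powerset.1 hD)
  · intro D hD
    exact Finset.sdiff_sdiff_eq_self (Finset.mem_powerset.1 hD)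
  · intro D _
    rfl

/-- **The coboundary of the cubical cup products** (the cubical version of `Pool.Agent.H37.TM.cob_cup`; same method).
The identity is formal (no disjointness of `B` and `C` is needed).

For `M ∈ powersetCard (m + 1)`, `D ⊆ B \ M` write `B1 = M ∪ D`, `B2 = B \ D`, `C1 = C ∪ {v ∈ B \ B1 | odd}`,
`C2 = C ∪ {v ∈ D | even}` (parity of `bel ν M v`).
* Expand `cupc (m+1) (cob x) y + cupc (m+1) x (cob y)`: a letter `v ∈ D` is removed from `B1`
  (`x (B1 - v) C1 + x (B1 - v) (insert v C1)`), a letter `v ∈ B \ B1` is removed from `B2`, a letter `v ∈ M` from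
  `B1` or from `B2`.
* For `v ∉ M` the pairs `(M, D')` on `B.erase v` (`D' = D - v`, resp. `D' = D`) give four terms `x (B1) (C1 ± v) *
  y (B2) (C2 ± v)`; two cancel and the other two are the terms of `cob (cupc (m+1) x y)`
  (`C1, C2` both without `v` and both with `v`), for both parities of `v`.
* The terms with `v ∈ M`, `M' = M - v` (`m` letters) telescope: for `M'`, `D' ⊆ B \ M'` and `k : ℕ` let
  `S(k) = x (M' ∪ D') C1(k) * y (B \ D') C2(k)`, where `C1(k) = C ∪ {u ∈ B \ (M' ∪ D') | (bel ν M' u` odd`) xor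
  (k ≤ ν u)}` and `C2(k) = C ∪ {u ∈ D' | (bel ν M' u` even`) xor (k ≤ ν u)}`. For `v ∈ D'`:
  `S(ν v) + S(ν v + 1) = x (B1) C1 * (y (B2 - v) C2 + y (B2 - v) (insert v C2))` for the pair
  `M = M' + v`, `D = D' - v`; for `v ∈ B \ (M' ∪ D')`: the term where `v` is removed from `B1`, for
  `M = M' + v`, `D = D'`. The sum over `v ∈ B \ M'` is `S(0) + S(∞)`; `S(∞)` is the term of `cupc m x y`,
  `S(0)` the term of `cupc m y x` with `D'' = B \ (M' ∪ D')`. -/
theorem cob_cupc [CharP R 2] (ν : V → ℕ) (hν : Function.Injective ν) (m : ℕ)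
    (x y : Finset V → Finset V → R) (B C : Finset V) :
    cob (cupc ν (m + 1) x y) B C =
      cupc ν (m + 1) (cob x) y B C + cupc ν (m + 1) x (cob y) B C +
        (cupc ν m x y B C + cupc ν m y x B C) := by
  have h1 : ∑ M ∈ B.powersetCard (m + 1), ∑ v ∈ M, ∑ D ∈ (B \ M).powerset,
      (F1 ν x y B C M D v + F2 ν x y B C M D v) = cupc ν m x y B C + cupc ν m y x B C := by
    rw [swap_pairs B m fun M v => ∑ D ∈ (B \ M).powerset,
      (F1 ν x y B C M D v + F2 ν x y B C M D v), cupc_eq, cupc_eq, ← Finset.sum_add_distrib]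
    refine Finset.sum_congr rfl fun M hM => ?_
    exact inner ν hν x y (Finset.mem_powersetCard.1 hM).1
  rw [rhs_eq, h1, add_assoc, add_self_two, add_zero]

/-- The case of the ordinary cup product (`M = ∅`: all parities are even). -/
theorem cob_cupc_zero [CharP R 2] (ν : V → ℕ) (x y : Finset V → Finset V → R) (B C : Finset V) :
    cob (cupc ν 0 x y) B C = cupc ν 0 (cob x) y B C + cupc ν 0 x (cob y) B C := by
  rw [rhs_eq, Finset.powersetCard_zero, Finset.sum_singleton, Finset.sum_empty, add_zero]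

end Pool.Agent.H19.SR
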