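import Pool.Agent.H77.SW.Defs
import Pool.Agent.H73.GC.Defs

/-!
# Project SR: Singer's conjecture for right-angled Coxeter groups in degrees near the dimension: definitions

`G` is a finite graph, the complex is its flag complex (all cliques, `V` is the set of the vertices). `P` is a
finite group with marked involutions (`D : PG G P`, `Pool.Agent.H77.SW`): cells of the cube complex of `P` are the
cosets `p P_A`, `A` a clique, represented by the element `p` with `D.b p v = 0` for `v ∈ A`.
-/

set_option autoImplicit false
set_option linter.unusedSectionVars false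

open Finset

namespace Pool.Agent.H19.SR

open Pool.Agent.H77.SW

variable {V : Type} [DecidableEq V]

/-! ### Local cochains on a cube

`x B C` is the value of the cochain `x` on the face with the free letters `B`, on which the letters in `C` are `1`
and all other letters are `0`. -/

section Cube

variable {R : Type} [CommRing R]

/-- the coboundary -/
def cob (x : Finset V → Finset V → R) (B C : Finset V) : R :=
  ∑ v ∈ B, (x (B.erase v) C + x (B.erase v) (insert v C))

/-- the number of elements of `M` below `v` -/
def bel (ν : V → ℕ) (M : Finset V) (v : V) : ℕ := (M.filter fun u => ν u < ν v).card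

/-- the cup product of order `m`: the letters in `M` (`m` letters) are free in both factors, those in `D` only in
the first one, where the second factor is at `1` if the number of letters of `M` below is even and at `0` otherwise,
the remaining ones only in the second factor, where the first factor is at `0` if this number is even, and at `1`
otherwise -/
def cupc (ν : V → ℕ) (m : ℕ) (x y : Finset V → Finset V → R) (B C : Finset V) : R :=
  ∑ M ∈ B.powersetCard m, ∑ D ∈ (B \ M).powerset,
    x (M ∪ D) (C ∪ ((B \ (M ∪ D)).filter fun v => ¬ Even (bel ν M v))) *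
      y (B \ D) (C ∪ D.filter fun v => Even (bel ν M v))

/-- the cup product of order `m - 1` -/
def cups (ν : V → ℕ) : ℕ → (Finset V → Finset V → R) → (Finset V → Finset V → R) →
    Finset V → Finset V → R
  | 0 => fun _ _ _ _ => 0
  | m + 1 => cupc ν m

/-- the cup product of the coboundary of the function `h` on the vertices and of `w` -/
def dcup (h : Finset V → R) (w : Finset V → Finset V → R) (B C : Finset V) : R :=
  ∑ v ∈ B, (h C + h (insert v C)) * w (B.erase v) (insert v C)

/-- the component `ρ` of the product of `a` with itself -/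
def PQ (ν : V → ℕ) (a : Finset V → Finset V → Finset V → R) (ρ : Finset V) (j : ℕ)
    (B C : Finset V) : R :=
  ∑ A ∈ ρ.powerset, cups ν j (a A) (a (ρ \ A)) B C

/-- the cochain `V_m` -/
def VV (ν : V → ℕ) (a : Finset V → Finset V → Finset V → R) (h : Finset V → R) (b : V)
    (ρ : Finset V) (j : ℕ) (B C : Finset V) : R :=
  ∑ A ∈ ρ.powerset, (cups ν j (a (insert b A)) (a (ρ \ A)) B C +
    h C * cups ν j (a A) (a (ρ \ A)) B C)

/-- the product of the coboundaries of the `hp b`, `b ∈ l`, and of the square of `a ∅` -/
def WW (ν : V → ℕ) (a : Finset V → Finset V → Finset V → R) (hp : V → Finset V → R) (q : ℕ) :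
    List V → Finset V → Finset V → R
  | [] => PQ ν a ∅ q
  | b :: l => dcup (hp b) (WW ν a hp q l)

/-- the cochain whose coboundary is `WW` -/
def VT (ν : V → ℕ) (a : Finset V → Finset V → Finset V → R) (hp : V → Finset V → R) (q : ℕ) :
    List V → Finset V → Finset V → R
  | [] => fun _ _ => 0
  | b :: l => fun B C =>
    (if l.length < q then VV ν a (hp b) b l.toFinset (q - l.length) B C else 0) +
      dcup (hp b) (VT ν a hp q l) B C

/-- the faces of the cube with the free letters `Q` -/
def Face (Q B C : Finset V) : Prop := Disjoint B C ∧ B ∪ C ⊆ Q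

end Cube

/-! ### Spheres -/

section Sphere

variable [Fintype V]

/-- The flag complex of `G` is a homology sphere of dimension `n - 1` over the field of two elements and a homology
manifold: it is pure (all maximal cliques have `n` elements), the reduced homology over `ZMod 2` of the links of
all cliques `s` (`s = ∅`: the whole complex) vanishes below the top degree (`low`; the link of `s` is the complex
of the cliques which contain `s`), and in the top degree the cycles are the multiples of the sum of all facets
(`top`). -/
structure IsSph (G : SimpleGraph V) (n : ℕ) : Prop where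
  card_le : ∀ s : Finset V, G.IsClique (s : Set V) → s.card ≤ n
  facet : ∀ s : Finset V, G.IsClique (s : Set V) → ∃ t : Finset V, s ⊆ t ∧
    G.IsClique (t : Set V) ∧ t.card = n
  low : ∀ s : Finset V, G.IsClique (s : Set V) → ∀ j < n, ∀ f : Finset V → ZMod 2,
    (∀ t, f t ≠ 0 → G.IsClique (t : Set V) ∧ s ⊆ t ∧ t.card = j) →
    (∀ t, s ⊆ t → ∑ v ∈ tᶜ, f (insert v t) = 0) →
    ∃ u : Finset V → ZMod 2, (∀ t, u t ≠ 0 → G.IsClique (t : Set V) ∧ s ⊆ t ∧ t.card = j + 1) ∧
      ∀ t, s ⊆ t → ∑ v ∈ tᶜ, u (insert v t) = f t
  top : ∀ s : Finset V, G.IsClique (s : Set V) → ∀ f : Finset V → ZMod 2,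
    (∀ t, f t ≠ 0 → G.IsClique (t : Set V) ∧ s ⊆ t ∧ t.card = n) →
    ((∀ t, s ⊆ t → ∑ v ∈ tᶜ, f (insert v t) = 0) ↔
      ∃ c, ∀ t : Finset V, G.IsClique (t : Set V) → s ⊆ t → t.card = n → f t = c)

end Sphere

/-! ### Groups -/

section Grp

variable [Fintype V] {P : Type} [Group P]

/-- the product of the marked elements of `C`, in a fixed order -/
noncomputable def gp (g : V → P) (C : Finset V) : P :=
  (((univ : Finset V).toList.filter fun v => v ∈ C).map g).prod

/-- `P` is generated by the marked elements and has retractions onto the subgroups generated by all subsets of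
them -/
structure Ret (g : V → P) : Prop where
  gen : Subgroup.closure (Set.range g) = ⊤
  ret : ∀ A : Finset V, ∃ r : P →* P, ∀ v, r (g v) = if v ∈ A then g v else 1

/-- the plain cubical cochains of degree `d` on the cube complex of `P` (only the values `γ A p` with
`D.b p v = 0` for `v ∈ A` matter) which are cocycles -/
def Coc {G : SimpleGraph V} (D : PG G P) (d : ℕ) {R : Type} [AddCommMonoid R]
    (γ : Finset V → P → R) : Prop :=
  ∀ A : Finset V, G.IsClique (A : Set V) → A.card = d + 1 → ∀ p, (∀ v ∈ A, D.b p v = 0) →
    ∑ v ∈ A, (γ (A.erase v) p + γ (A.erase v) (p * D.g v)) = 0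

/-- the subgroup of the wall through the edge `v` at `1` -/
def wl {G : SimpleGraph V} (D : PG G P) (v : V) : Subgroup P :=
  Subgroup.closure (D.g '' {u | u = v ∨ G.Adj v u})

open Classical in
/-- the cells `(A, p)` (`p` is the vertex of the cell whose bits vanish on `A`) in the intersection of the walls of
types in `s` through the vertex `p₀` -/
noncomputable def fl {G : SimpleGraph V} (D : PG G P) [Fintype P] (s A : Finset V) (p₀ : P) :
    Finset P :=
  univ.filter fun p => (∀ v ∈ A, D.b p v = 0) ∧ ∀ v ∈ s, p₀⁻¹ * p ∈ wl D v

/-- the element `0` or `1` of `K` -/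
def cst (K : Type) [Field K] (a : ZMod 2) : K := if a = 0 then 0 else 1

open Classical in
/-- the cycles `z` of degree `i` with coefficients in the regular representation over `K` which are orthogonal to
the products of the cocycles of degree `i - |s|` over `ZMod 2` and of `|s|` walls of the types in `s` -/
noncomputable def TL (K : Type) [Field K] {G : SimpleGraph V} (D : PG G P) [Fintype P] (i : ℕ)
    (s : Finset V) : Submodule K (Finset V → P → K) where
  carrier := {z | z ∈ Zs K G i (rP K D) ∧ ∀ γ : Finset V → P → ZMod 2, Coc D (i - s.card) γ →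
    ∀ p₀ : P, ∑ A ∈ (univ : Finset (Finset V)).filter (fun A => s ⊆ A),
      ∑ p ∈ fl D s A p₀, cst K (γ (A \ s) p) * z A p = 0}
  zero_mem' := ⟨Submodule.zero_mem _, fun γ _ m => by simp⟩
  add_mem' := by
    rintro z w ⟨h1, h2⟩ ⟨h3, h4⟩
    refine ⟨Submodule.add_mem _ h1 h3, fun γ hγ m => ?_⟩
    simp only [Pi.add_apply, mul_add, sum_add_distrib]
    rw [h2 γ hγ m, h4 γ hγ m, add_zero]
  smul_mem' := by
    rintro c z ⟨h1, h2⟩
    refine ⟨Submodule.smul_mem _ c h1, fun γ hγ m => ?_⟩
    simp only [Pi.smul_apply, smul_eq_mul]
    have h3 := h2 γ hγ m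
    have h4 : ∀ A : Finset V, ∀ p : P, cst K (γ (A \ s) p) * (c * z A p) =
        c * (cst K (γ (A \ s) p) * z A p) := fun A p => by ring
    simp only [h4, ← mul_sum]
    rw [h3, mul_zero]

theorem mem_TL {K : Type} [Field K] {G : SimpleGraph V} {D : PG G P} [Fintype P] {i : ℕ}
    {s : Finset V} {z : Finset V → P → K} : z ∈ TL K D i s ↔
      z ∈ Zs K G i (rP K D) ∧ ∀ γ : Finset V → P → ZMod 2, Coc D (i - s.card) γ → ∀ p₀ : P,
        ∑ A ∈ (univ : Finset (Finset V)).filter (fun A => s ⊆ A),
          ∑ p ∈ fl D s A p₀, cst K (γ (A \ s) p) * z A p = 0 := by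
  classical
  constructor
  · rintro ⟨h1, h2⟩
    refine ⟨h1, fun γ hγ m => ?_⟩
    convert h2 γ hγ m
  · rintro ⟨h1, h2⟩
    refine ⟨h1, fun γ hγ m => ?_⟩
    convert h2 γ hγ m

open Classical in
/-- the vertices of the link of `s` -/
noncomputable def lkF (G : SimpleGraph V) (s : Finset V) : Finset V :=
  univ.filter fun w => ∀ v ∈ s, G.Adj v w

end Grp

/-! ### Systems -/

section Sys

open Pool.Agent.H73.GC

variable [Fintype V] {Y : Type} [AddCommGroup Y] [Module F2 Y]

/-- the restriction of a chain to the link of `s` -/
def ph (s : Finset V) : (Finset V → Y) →ₗ[F2] (Finset V → Y) where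
  toFun f σ := if Disjoint s σ then f (s ∪ σ) else 0
  map_add' f g := by
    funext σ
    simp only [Pi.add_apply]
    split_ifs <;> simp
  map_smul' c f := by
    funext σ
    simp only [Pi.smul_apply, RingHom.id_apply]
    split_ifs <;> simp

/-- the cycles of degree `i` of the system `A` whose restrictions to the links of all sets of `q` vertices are
boundaries -/
def KF (A : Finset V → Submodule F2 Y) (i q : ℕ) : Submodule F2 (Finset V → Y) :=
  (Ch A i ⊓ LinearMap.ker dd) ⊓
    ⨅ s ∈ (univ : Finset (Finset V)).filter (fun s => s.card = q),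
      ((Ch (res s A) (i - q + 1)).map dd).comap (ph s)

/-- the constant of the iteration -/
def cF (V : Type) [Fintype V] : ℕ → ℕ
  | 0 => 0
  | q + 1 => 2 ^ Fintype.card V + Fintype.card V * cF V q

end Sys

end Pool.Agent.H19.SR
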