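import Pool.Agent.H19.SR.Defs
import Pool.Agent.H73.GC.LuckA
import Pool.Agent.H73.GC.SysB
import Pool.Agent.H73.GC.Bit
import Pool.Agent.H73.GC.Fil
import Pool.Agent.H73.GC.LinA

/-!
# Project SR, module K4: dimensions for the regular representation
-/

set_option autoImplicit false
set_option linter.unusedSectionVars false

open Finset

namespace Pool.Agent.H19.SR

open Pool.Agent.H77.SW Pool.Agent.H73.GC

variable {V : Type} [DecidableEq V] [Fintype V] {P : Type} [Group P] [Fintype P]

/-- `(E v f) p = f p` if `D.b p v = 0`, and `0` otherwise -/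
def bE {G : SimpleGraph V} (D : PG G P) (v : V) : Module.End F2 (P → F2) where
  toFun f p := if D.b p v = 0 then f p else 0
  map_add' f g := by
    funext p
    simp only [Pi.add_apply]
    split_ifs <;> simp
  map_smul' c f := by
    funext p
    simp only [Pi.smul_apply, smul_eq_mul, RingHom.id_apply]
    split_ifs <;> simp

/-- the right regular representation -/
private def Dim_rho {P : Type} [Group P] : P →* Module.End F2 (P → F2) where
  toFun q :=
    { toFun := fun f p => f (p * q)
      map_add' := fun _ _ => rfl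
      map_smul' := fun _ _ => rfl }
  map_one' := by
    ext1 f
    funext p
    show f (p * 1) = f p
    rw [mul_one]
  map_mul' a b := by
    ext1 f
    funext p
    show f (p * (a * b)) = f (p * a * b)
    rw [mul_assoc]

/-- `fil_group` for the right regular representation -/
theorem isN_reg {G : SimpleGraph V} (D : PG G P) : IsN G univ (regP D.g) := by
  refine ⟨fun v _ y => ?_, fun u _ v _ huv y => ?_, ?_⟩
  · funext p
    show y (p * D.g v * D.g v) = y p
    rw [mul_assoc, D.sq, mul_one]
  · funext p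
    show y (p * D.g u * D.g v) = y (p * D.g v * D.g u)
    rw [mul_assoc, mul_assoc, D.comm u v huv]
  · exact fil_group D.two (Dim_rho (P := P)) univ (regP D.g) D.g fun v _ => rfl

theorem isBit_reg {G : SimpleGraph V} (D : PG G P) : IsBit G univ (regP D.g) (bE D) := by
  have hE : ∀ (v : V) (f : P → F2) (p : P), bE D v f p = if D.b p v = 0 then f p else 0 :=
    fun _ _ _ => rfl
  have hR : ∀ (v : V) (f : P → F2) (p : P), regP D.g v f p = f (p * D.g v) := fun _ _ _ => rfl
  refine ⟨fun v _ y => ?_, fun v _ y => ?_, fun u _ v _ huv y => ?_, fun u _ v _ huv y => ?_⟩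
  · funext p
    rw [hE, hE]
    split_ifs <;> rfl
  · funext p
    rw [Pi.add_apply, hE, hR, hR, hE, D.b_mul, D.b_g, if_pos rfl]
    have h2 : ∀ a : ZMod 2, a = 0 ∨ a = 1 := by decide
    rcases h2 (D.b p v) with h | h
    · rw [h, if_pos rfl, if_neg (by decide), add_zero]
    · rw [h, if_neg (by decide), if_pos (by decide), zero_add]
  · funext p
    rw [hE, hR, hR, hE, D.b_mul, D.b_g, if_neg huv.ne', add_zero]
  · funext p
    rw [hE, hE, hE, hE]
    split_ifs <;> rfl

theorem zs_eq {G : SimpleGraph V} (D : PG G P) (n : ℕ) :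
    (Zs (ZMod 2) G n (rP (ZMod 2) D) : Submodule (ZMod 2) (Finset V → P → ZMod 2)) =
      Ch (Sy (Cq G univ) (regP D.g)) n ⊓ LinearMap.ker dd := by
  ext z
  rw [mem_Zs, Submodule.mem_inf, mem_Ch, LinearMap.mem_ker]
  constructor
  · rintro ⟨h1, h2, h3⟩
    refine ⟨fun s => ⟨⟨fun hn => ?_, fun v hv => h2 s v hv⟩, fun hn => ?_⟩, ?_⟩
    · by_contra h0
      exact hn ⟨(h1 s h0).1, subset_univ s⟩
    · by_contra h0
      exact hn (h1 s h0).2
    · funext s
      rw [dd_apply]
      exact h3 s
  · rintro ⟨h1, h3⟩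
    refine ⟨fun s hs => ⟨?_, ?_⟩, fun s v hv => (h1 s).1.2 v hv, fun s => ?_⟩
    · by_contra h0
      exact hs ((h1 s).1.1 fun h => h0 h.1)
    · by_contra h0
      exact hs ((h1 s).2 h0)
    · have h4 := congrFun h3 s
      rw [dd_apply] at h4
      exact h4

open Classical in
/-- the number of the cliques with `n` elements -/
noncomputable def ncl (G : SimpleGraph V) (n : ℕ) : ℕ :=
  ((univ : Finset (Finset V)).filter fun s : Finset V =>
    G.IsClique (s : Set V) ∧ s.card = n).card

/-- `finrank_Ch`, `finrank_Inv` -/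
theorem finrank_ch {G : SimpleGraph V} (D : PG G P) (n : ℕ) :
    Module.finrank F2 (Ch (Sy (Cq G univ) (regP D.g)) n) * 2 ^ n = ncl G n * Fintype.card P := by
  classical
  have hP : Module.finrank F2 (P → F2) = Fintype.card P := Module.finrank_fintype_fun_eq_card F2
  have h1 : ∀ s : Finset V, s.card = n → G.IsClique (s : Set V) →
      Module.finrank F2 (Sy (Cq G univ) (regP D.g) s) * 2 ^ n = Fintype.card P := by
    intro s hs hc
    have hq : Cq G univ s := ⟨hc, subset_univ s⟩
    have h2 : Sy (Cq G univ) (regP D.g) s = Inv (regP D.g) s := by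
      ext y
      rw [mem_Sy, mem_Inv]
      exact ⟨fun h => h.2, fun h => ⟨fun hn => absurd hq hn, h⟩⟩
    rw [h2, ← hs, finrank_Inv (IsBit.bitOn (isN_reg D) (isBit_reg D) hq), hP]
  have h0 : ∀ s : Finset V, ¬ G.IsClique (s : Set V) →
      Module.finrank F2 (Sy (Cq G univ) (regP D.g) s) = 0 := by
    intro s hc
    have h2 : Sy (Cq G univ) (regP D.g) s = ⊥ := by
      rw [eq_bot_iff]
      intro y hy
      exact (Submodule.mem_bot _).2 (hy.1 fun h => hc h.1)
    rw [h2, finrank_bot]
  rw [finrank_Ch, sum_mul]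
  have h3 : ∀ s ∈ (univ : Finset (Finset V)).filter (fun s => s.card = n),
      Module.finrank F2 (Sy (Cq G univ) (regP D.g) s) * 2 ^ n =
        if G.IsClique (s : Set V) then Fintype.card P else 0 := by
    intro s hs
    split_ifs with hc
    · exact h1 s (mem_filter.1 hs).2 hc
    · rw [h0 s hc, zero_mul]
  rw [sum_congr rfl h3, ← sum_filter, sum_const, smul_eq_mul, filter_filter]
  have h4 : ((univ : Finset (Finset V)).filter
      fun s : Finset V => s.card = n ∧ G.IsClique (s : Set V)).card = ncl G n := by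
    unfold ncl
    congr 1
    ext s
    simp only [mem_filter, mem_univ, true_and, and_comm]
  rw [h4]

/-- `hx_eq`, `zs_eq` -/
theorem hX_reg {G : SimpleGraph V} (D : PG G P) (i : ℕ) :
    hX (Cq G univ) (regP D.g) i = (dz (ZMod 2) i D : ℤ) + (dz (ZMod 2) (i + 1) D : ℤ) -
      (Module.finrank F2 (Ch (Sy (Cq G univ) (regP D.g)) (i + 1)) : ℤ) := by
  have hz : ∀ n, dz (ZMod 2) n D = Module.finrank F2
      (Ch (Sy (Cq G univ) (regP D.g)) n ⊓ LinearMap.ker dd :
        Submodule F2 (Finset V → P → F2)) := by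
    intro n
    unfold dz
    rw [zs_eq]
  have hfin : Finite (Finset V → P → F2) := inferInstance
  have h := hx_eq (E := Finset V → P → F2) dd (Ch (Sy (Cq G univ) (regP D.g))) i
  have h1 := hz i
  have h2 := hz (i + 1)
  unfold hX hd
  rw [h, h1, h2]

end Pool.Agent.H19.SR
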