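import Pool.Agent.H19.SR.Defs
import Pool.Agent.H73.GC.LinB
import Pool.Agent.H73.GC.SysA
import Pool.Agent.H73.GC.Res

/-!
# Project SR, module F1: the exact sequence of the links
-/

set_option autoImplicit false
set_option linter.unusedSectionVars false

open Finset

namespace Pool.Agent.H19.SR

open Pool.Agent.H73.GC

variable {V : Type} [DecidableEq V] [Fintype V] {Y : Type} [AddCommGroup Y] [Module F2 Y] [Finite Y]

theorem ph_pos {e s : Finset V} (h : Disjoint e s) (f : Finset V → Y) :
    ph e f s = f (e ∪ s) := if_pos h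

theorem ph_neg {e s : Finset V} (h : ¬ Disjoint e s) (f : Finset V → Y) :
    ph e f s = 0 := if_neg h

/-- `ph` commutes with the boundary on the chains of a complex -/
theorem ph_dd (s : Finset V) (f : Finset V → Y) : ph s (dd f) = dd (ph s f) := by
  funext t
  rw [dd_apply]
  by_cases h : Disjoint s t
  · rw [ph_pos h, dd_apply]
    refine Finset.sum_subset_zero_on_sdiff ?_ ?_ ?_
    · intro v hv
      rw [mem_compl, mem_union, not_or] at hv
      exact mem_compl.2 hv.2
    · intro v hv
      rw [mem_sdiff, mem_compl, mem_compl, mem_union, not_not] at hv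
      refine ph_neg (fun h2 => ?_) f
      have h3 : v ∈ s := hv.2.resolve_right hv.1
      exact disjoint_left.1 h2 h3 (mem_insert_self v t)
    · intro v hv
      rw [mem_compl, mem_union, not_or] at hv
      have h2 : Disjoint s (insert v t) := by
        rw [disjoint_insert_right]
        exact ⟨hv.1, h⟩
      rw [ph_pos h2, union_insert]
  · rw [ph_neg h]
    refine (Finset.sum_eq_zero fun v _ => ph_neg (fun h2 => h ?_) f).symm
    exact h2.mono_right (subset_insert v t)

theorem ph_mem {A : Finset V → Submodule F2 Y} {s : Finset V} {i : ℕ} (hs : s.card ≤ i)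
    {f : Finset V → Y} (hf : f ∈ Ch A i) : ph s f ∈ Ch (res s A) (i - s.card) := by
  intro t
  by_cases h : Disjoint s t
  · rw [ph_pos h]
    refine ⟨⟨(hf _).1, fun h1 => absurd h h1⟩, fun h1 => (hf _).2 ?_⟩
    rw [card_union_of_disjoint h]
    omega
  · rw [ph_neg h]
    exact ⟨Submodule.zero_mem _, fun _ => rfl⟩

/-- boundaries restrict to boundaries -/
theorem map_le_KF {A : Finset V → Submodule F2 Y} (hA : Mono A) {i q : ℕ} (hq : q ≤ i) :
    (Ch A (i + 1)).map dd ≤ KF A i q := by
  rintro _ ⟨f, hf, rfl⟩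
  refine ⟨⟨(isCx_Ch hA).map i f hf, LinearMap.mem_ker.2 (dd_dd f)⟩, ?_⟩
  rw [SetLike.mem_coe, Submodule.mem_iInf]
  intro s
  rw [Submodule.mem_iInf]
  intro hs
  have hs' : s.card = q := (mem_filter.1 hs).2
  rw [Submodule.mem_comap, ph_dd]
  refine ⟨ph s f, ?_, rfl⟩
  have h1 := ph_mem (A := A) (s := s) (i := i + 1) (by omega) hf
  rwa [show i + 1 - s.card = i - q + 1 by omega] at h1

/-! ### Removing vertices -/

/-- the simplices which meet `U` are removed -/
private def dv (U : Finset V) (A : Finset V → Submodule F2 Y) (s : Finset V) : Submodule F2 Y where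
  carrier := {y | y ∈ A s ∧ (¬ Disjoint U s → y = 0)}
  zero_mem' := ⟨Submodule.zero_mem _, fun _ => rfl⟩
  add_mem' := by
    rintro y z ⟨h1, h2⟩ ⟨h3, h4⟩
    exact ⟨Submodule.add_mem _ h1 h3, fun h => by rw [h2 h, h4 h, add_zero]⟩
  smul_mem' := by
    rintro c y ⟨h1, h2⟩
    exact ⟨Submodule.smul_mem _ c h1, fun h => by rw [h2 h, smul_zero]⟩

private theorem dv_empty (A : Finset V → Submodule F2 Y) : dv ∅ A = A := by
  funext s
  ext y
  constructor
  · exact fun h => h.1
  · exact fun h => ⟨h, fun h1 => absurd (disjoint_empty_left s) h1⟩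

private theorem dv_insert (w : V) (U : Finset V) (A : Finset V → Submodule F2 Y) :
    dv (insert w U) A = del {w} (dv U A) := by
  funext s
  ext y
  constructor
  · rintro ⟨h1, h2⟩
    refine ⟨⟨h1, fun h => h2 fun h3 => h (h3.mono_left (subset_insert w U))⟩, fun h => h2 fun h3 => ?_⟩
    exact disjoint_left.1 h3 (mem_insert_self w U) (singleton_subset_iff.1 h)
  · rintro ⟨⟨h1, h2⟩, h3⟩
    refine ⟨h1, fun h => ?_⟩
    rw [disjoint_insert_left, not_and_or, not_not] at h
    rcases h with h | h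
    · exact h3 (singleton_subset_iff.2 h)
    · exact h2 h

private theorem mono_dv {A : Finset V → Submodule F2 Y} (hA : Mono A) (U : Finset V) :
    Mono (dv U A) := by
  rintro s v y ⟨h1, h2⟩
  exact ⟨hA s v h1, fun h => h2 fun h3 => h (h3.mono_right (subset_insert v s))⟩

private theorem res_dv (A : Finset V → Submodule F2 Y) {t U : Finset V} (h : Disjoint t U) :
    res t (dv U A) = dv U (res t A) := by
  funext s
  ext y
  have h0 : Disjoint U (t ∪ s) ↔ Disjoint U s := by
    rw [disjoint_union_right]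
    exact ⟨fun h1 => h1.2, fun h1 => ⟨h.symm, h1⟩⟩
  constructor
  · rintro ⟨⟨h1, h2⟩, h3⟩
    exact ⟨⟨h1, h3⟩, fun h4 => h2 (fun h5 => h4 (h0.1 h5))⟩
  · rintro ⟨⟨h1, h3⟩, h2⟩
    exact ⟨⟨h1, fun h4 => h2 fun h5 => h4 (h0.2 h5)⟩, h3⟩

private theorem res_res (A : Finset V → Submodule F2 Y) {t t' : Finset V} (h : Disjoint t' t) :
    res t (res t' A) = res (t' ∪ t) A := by
  funext s
  ext y
  have h0 : Disjoint t' (t ∪ s) ↔ Disjoint t' s := by
    rw [disjoint_union_right]
    exact ⟨fun h1 => h1.2, fun h1 => ⟨h, h1⟩⟩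
  constructor
  · rintro ⟨⟨h1, h2⟩, h3⟩
    refine ⟨?_, fun h4 => ?_⟩
    · rwa [union_assoc]
    · rw [disjoint_union_left, not_and_or] at h4
      rcases h4 with h4 | h4
      · exact h2 fun h5 => h4 (h0.1 h5)
      · exact h3 h4
  · rintro ⟨h1, h2⟩
    refine ⟨⟨?_, fun h4 => h2 fun h5 => h4 ?_⟩, fun h4 => h2 fun h5 => h4 ?_⟩
    · rwa [union_assoc] at h1
    · exact h0.2 (disjoint_union_left.1 h5).1
    · exact (disjoint_union_left.1 h5).2

private theorem hd_dv {A : Finset V → Submodule F2 Y} (hA : Mono A) (j : ℕ) (U : Finset V) :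
    hd (dv U A) j ≤ ∑ t ∈ U.powerset, hd (res t A) j := by
  induction U using Finset.induction_on generalizing A with
  | empty =>
    rw [dv_empty, powerset_empty, sum_singleton]
    have h1 : res ∅ A = A := by
      funext s
      ext y
      constructor
      · rintro ⟨h, -⟩
        rwa [empty_union] at h
      · intro h
        refine ⟨?_, fun h1 => absurd (disjoint_empty_left s) h1⟩
        rwa [empty_union]
    rw [h1]
  | insert w U hw ih =>
    have hw' : Disjoint ({w} : Finset V) U := disjoint_singleton_left.2 hw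
    rw [dv_insert, sum_powerset_insert hw]
    have h1 := hd_del (mono_dv hA U) {w} j j (by rw [card_singleton])
    rw [res_dv A hw'] at h1
    have h2 := ih (mono_res hA {w})
    have h3 := ih hA
    have h4 : ∑ t ∈ U.powerset, hd (res t (res {w} A)) j =
        ∑ t ∈ U.powerset, hd (res (insert w t) A) j := by
      refine Finset.sum_congr rfl fun t ht => ?_
      rw [res_res A (hw'.mono_right (mem_powerset.1 ht)), singleton_union]
    rw [h4] at h2
    linarith

/-- the kernel of the inclusion of the complex without `w` -/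
private theorem ker_del {A : Finset V → Submodule F2 Y} (hA : Mono A) (w : V) (j : ℕ) :
    (Module.finrank F2 (Ch (del {w} A) j ⊓ (Ch A (j + 1)).map dd : Submodule F2 (Finset V → Y)) : ℤ) ≤
      Module.finrank F2 ((Ch (del {w} A) (j + 1)).map dd) + hd (res {w} A) j := by
  have hker : ∀ j, Ch A j ⊓ LinearMap.ker (ph {w}) = Ch (del {w} A) j := by
    intro j
    ext f
    constructor
    · rintro ⟨h1, h2⟩ s
      refine ⟨⟨(h1 s).1, fun h => ?_⟩, (h1 s).2⟩
      have h3 : ph {w} f (s \ {w}) = 0 := congrFun (LinearMap.mem_ker.1 h2) (s \ {w})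
      rwa [ph_pos disjoint_sdiff, union_sdiff_of_subset h] at h3
    · intro h
      refine ⟨fun s => ⟨(h s).1.1, (h s).2⟩, LinearMap.mem_ker.2 (funext fun s => ?_)⟩
      by_cases hs : Disjoint {w} s
      · rw [ph_pos hs]
        exact (h ({w} ∪ s)).1.2 subset_union_left
      · exact ph_neg hs f
  have hmap : ∀ j, (Ch A (j + 1)).map (ph {w}) = Ch (res {w} A) j := by
    intro j
    ext g
    constructor
    · rintro ⟨f, hf, rfl⟩
      have h1 := ph_mem (A := A) (s := {w}) (i := j + 1) (by rw [card_singleton]; omega) hf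
      rwa [card_singleton, Nat.add_sub_cancel] at h1
    · intro hg
      refine ⟨fun t => if {w} ⊆ t then g (t \ {w}) else 0, fun t => ?_, funext fun s => ?_⟩
      · dsimp only
        by_cases ht : {w} ⊆ t
        · rw [if_pos ht]
          have h1 := (hg (t \ {w})).1.1
          rw [union_sdiff_of_subset ht] at h1
          refine ⟨h1, fun h => (hg (t \ {w})).2 ?_⟩
          rw [card_sdiff_of_subset ht, card_singleton]
          have := card_le_card ht
          rw [card_singleton] at this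
          omega
        · rw [if_neg ht]
          exact ⟨Submodule.zero_mem _, fun _ => rfl⟩
      · by_cases hs : Disjoint {w} s
        · rw [ph_pos hs, if_pos subset_union_left, union_sdiff_cancel_left hs]
        · rw [ph_neg hs]
          exact ((hg s).1.2 hs).symm
  have hk := LinB_key (d := dd) (d' := dd) (C := Ch A) (ph {w}) (fun _ x _ => ph_dd {w} x) (j + 1)
  rw [hker, hmap] at hk
  have e1 : (Ch A (j + 1) ⊓ LinearMap.ker (ph {w} ∘ₗ dd)).map dd =
      Ch (del {w} A) j ⊓ (Ch A (j + 1)).map dd := by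
    ext y
    constructor
    · rintro ⟨x, ⟨hx, h⟩, rfl⟩
      refine ⟨?_, ⟨x, hx, rfl⟩⟩
      rw [← hker]
      exact ⟨(isCx_Ch hA).map j x hx, h⟩
    · rintro ⟨h, ⟨x, hx, rfl⟩⟩
      rw [SetLike.mem_coe, ← hker] at h
      exact ⟨x, ⟨hx, h.2⟩, rfl⟩
  rw [e1] at hk
  have h4 : Module.finrank F2 ((Ch (res {w} A) (j + 1)).map dd) ≤
      Module.finrank F2 ((Ch A (j + 1) ⊓ LinearMap.ker dd).map (ph {w})) := by
    apply LinB_mono
    rw [← hmap]
    rintro z ⟨y, ⟨x, hx, rfl⟩, rfl⟩
    exact ⟨dd x, ⟨(isCx_Ch hA).map (j + 1) x hx, LinearMap.mem_ker.2 (dd_dd x)⟩, ph_dd {w} x⟩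
  simp only [hd, hx]
  omega

private theorem ker_dv {A : Finset V → Submodule F2 Y} (hA : Mono A) (j : ℕ) (U : Finset V) :
    (Module.finrank F2 (Ch (dv U A) j ⊓ (Ch A (j + 1)).map dd : Submodule F2 (Finset V → Y)) : ℤ) ≤
      Module.finrank F2 ((Ch (dv U A) (j + 1)).map dd) +
        ∑ t ∈ U.powerset, if t.card = 0 then 0 else hd (res t A) j := by
  induction U using Finset.induction_on with
  | empty =>
    rw [dv_empty, powerset_empty, sum_singleton, card_empty, if_pos rfl, add_zero]
    have h1 := LinB_mono (M := Finset V → Y)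
      (inf_le_right : Ch A j ⊓ (Ch A (j + 1)).map dd ≤ (Ch A (j + 1)).map dd)
    exact_mod_cast h1
  | insert w U hw ih =>
    have hw' : Disjoint ({w} : Finset V) U := disjoint_singleton_left.2 hw
    have h1 := ker_del (mono_dv hA U) w j
    rw [← dv_insert, res_dv A hw'] at h1
    have h2 := hd_dv (mono_res hA {w}) j U
    have h4 : ∑ t ∈ U.powerset, hd (res t (res {w} A)) j =
        ∑ t ∈ U.powerset, if (insert w t).card = 0 then 0 else hd (res (insert w t) A) j := by
      refine Finset.sum_congr rfl fun t ht => ?_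
      have h5 : w ∉ t := fun h => hw (mem_powerset.1 ht h)
      rw [res_res A (hw'.mono_right (mem_powerset.1 ht)), singleton_union,
        card_insert_of_notMem h5, if_neg (Nat.succ_ne_zero _)]
    rw [h4] at h2
    rw [sum_powerset_insert hw]
    have h6 := Submodule.finrank_sup_add_finrank_inf_eq
      (Ch (dv (insert w U) A) j ⊓ (Ch A (j + 1)).map dd) ((Ch (dv U A) (j + 1)).map dd)
    have h7 : Module.finrank F2 ((Ch (dv (insert w U) A) j ⊓ (Ch A (j + 1)).map dd) ⊔
        (Ch (dv U A) (j + 1)).map dd : Submodule F2 (Finset V → Y)) ≤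
        Module.finrank F2 (Ch (dv U A) j ⊓ (Ch A (j + 1)).map dd : Submodule F2 (Finset V → Y)) := by
      apply LinB_mono
      apply sup_le
      · refine inf_le_inf_right _ ?_
        rw [dv_insert]
        exact fun f hf s => ⟨(hf s).1.1, (hf s).2⟩
      · refine le_inf ?_ ?_
        · rintro _ ⟨x, hx, rfl⟩
          exact (isCx_Ch (mono_dv hA U)).map j x hx
        · exact Submodule.map_mono fun f hf s => ⟨(hf s).1.1, (hf s).2⟩
    have h8 : Module.finrank F2 ((Ch (dv (insert w U) A) j ⊓ (Ch A (j + 1)).map dd) ⊓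
        (Ch (dv U A) (j + 1)).map dd : Submodule F2 (Finset V → Y)) ≤
        Module.finrank F2 (Ch (dv (insert w U) A) j ⊓ (Ch (dv U A) (j + 1)).map dd :
          Submodule F2 (Finset V → Y)) := by
      apply LinB_mono
      exact inf_le_inf_right _ inf_le_left
    omega

/-- a linear map into `M`, and a subspace `N` of `M` -/
private theorem comap_le {E E' : Type} [AddCommGroup E] [Module F2 E] [Finite E] [AddCommGroup E']
    [Module F2 E'] [Finite E'] (g : E →ₗ[F2] E') (K : Submodule F2 E) (M N : Submodule F2 E')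
    (hM : K.map g ≤ M) (hN : N ≤ M) :
    Module.finrank F2 K + Module.finrank F2 N ≤
      Module.finrank F2 (K ⊓ N.comap g : Submodule F2 E) + Module.finrank F2 M := by
  have h1 := LinB_rn K g
  have h2 := LinB_rn (K ⊓ N.comap g) g
  have e1 : (K ⊓ N.comap g) ⊓ LinearMap.ker g = K ⊓ LinearMap.ker g := by
    ext x
    constructor
    · rintro ⟨⟨h3, -⟩, h4⟩
      exact ⟨h3, h4⟩
    · rintro ⟨h3, h4⟩
      refine ⟨⟨h3, ?_⟩, h4⟩
      have h5 : g x = 0 := h4
      change g x ∈ N
      rw [h5]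
      exact Submodule.zero_mem _
  have e2 : (K ⊓ N.comap g).map g = K.map g ⊓ N := by
    ext y
    constructor
    · rintro ⟨x, ⟨h3, h4⟩, rfl⟩
      exact ⟨⟨x, h3, rfl⟩, h4⟩
    · rintro ⟨⟨x, h3, rfl⟩, h4⟩
      exact ⟨x, ⟨h3, h4⟩, rfl⟩
  rw [e1, e2] at h2
  have h3 := Submodule.finrank_sup_add_finrank_inf_eq (K.map g) N
  have h4 := LinB_mono (sup_le hM hN)
  omega

/-- the cycles without the vertices in `U` whose restrictions to the links are boundaries -/
private def KU (A : Finset V → Submodule F2 Y) (i : ℕ) (U : Finset V) :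
    Submodule F2 (Finset V → Y) :=
  (Ch (dv U A) i ⊓ LinearMap.ker dd) ⊓ ⨅ v : V, ((Ch (res {v} A) i).map dd).comap (ph {v})

private theorem mem_KU {A : Finset V → Submodule F2 Y} {i : ℕ} {U : Finset V} {z : Finset V → Y} :
    z ∈ KU A i U ↔ (z ∈ Ch (dv U A) i ∧ dd z = 0) ∧ ∀ v, ph {v} z ∈ (Ch (res {v} A) i).map dd := by
  rw [KU, Submodule.mem_inf, Submodule.mem_inf, LinearMap.mem_ker, Submodule.mem_iInf]
  rfl

private theorem KF_le {A : Finset V → Submodule F2 Y} {i : ℕ} (hi : 1 ≤ i) :
    KF A i 1 ≤ KU A i ∅ := by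
  rintro z ⟨⟨h1, h2⟩, h3⟩
  rw [mem_KU, dv_empty]
  refine ⟨⟨h1, h2⟩, fun v => ?_⟩
  rw [SetLike.mem_coe, Submodule.mem_iInf] at h3
  have h4 := h3 {v}
  rw [Submodule.mem_iInf] at h4
  have h5 := h4 (mem_filter.2 ⟨mem_univ _, card_singleton v⟩)
  rwa [Submodule.mem_comap, Nat.sub_add_cancel hi] at h5

private theorem KU_univ {A : Finset V → Submodule F2 Y} {i : ℕ} (hi : 1 ≤ i) :
    KU A i univ = ⊥ := by
  rw [eq_bot_iff]
  intro z hz
  rw [mem_KU] at hz
  rw [Submodule.mem_bot]
  funext s
  rcases s.eq_empty_or_nonempty with rfl | ⟨v, hv⟩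
  · exact (hz.1.1 ∅).2 (by rw [card_empty]; omega)
  · exact (hz.1.1 s).1.2 fun h => disjoint_left.1 h (mem_univ v) hv

private theorem step_KU {A : Finset V → Submodule F2 Y} (hA : Mono A) {i : ℕ} (hi : 1 ≤ i)
    (u : V) (U : Finset V) (hu : u ∉ U) :
    (Module.finrank F2 (KU A i U ⊔ (Ch A (i + 1)).map dd : Submodule F2 (Finset V → Y)) : ℤ) ≤
      Module.finrank F2 (KU A i (insert u U) ⊔ (Ch A (i + 1)).map dd : Submodule F2 (Finset V → Y)) +
        ∑ t ∈ U.powerset, if t.card = 0 then 0 else hd (res (insert u t) A) (i - 1) := by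
  have hu' : Disjoint ({u} : Finset V) U := disjoint_singleton_left.2 hu
  obtain ⟨j, rfl⟩ : ∃ j, i = j + 1 := ⟨i - 1, by omega⟩
  rw [Nat.add_sub_cancel]
  have hk := ker_dv (mono_res hA {u}) j U
  have h4 : ∑ t ∈ U.powerset, (if t.card = 0 then 0 else hd (res t (res {u} A)) j) =
      ∑ t ∈ U.powerset, if t.card = 0 then 0 else hd (res (insert u t) A) j := by
    refine Finset.sum_congr rfl fun t ht => ?_
    rw [res_res A (hu'.mono_right (mem_powerset.1 ht)), singleton_union]
  rw [h4] at hk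
  have hc := comap_le (ph {u}) (KU A (j + 1) U)
    (Ch (dv U (res {u} A)) j ⊓ (Ch (res {u} A) (j + 1)).map dd)
    ((Ch (dv U (res {u} A)) (j + 1)).map dd) ?_ ?_
  rotate_left
  · rintro _ ⟨z, hz, rfl⟩
    rw [SetLike.mem_coe, mem_KU] at hz
    refine ⟨?_, hz.2 u⟩
    have h1 := ph_mem (A := dv U A) (s := {u}) (i := j + 1) (by rw [card_singleton]; omega) hz.1.1
    rwa [card_singleton, Nat.add_sub_cancel, res_dv A hu'] at h1
  · refine le_inf ?_ ?_
    · rintro _ ⟨x, hx, rfl⟩
      exact (isCx_Ch (mono_dv (mono_res hA {u}) U)).map j x hx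
    · exact Submodule.map_mono fun f hf s => ⟨(hf s).1.1, (hf s).2⟩
  have hle : KU A (j + 1) U ⊓ ((Ch (dv U (res {u} A)) (j + 1)).map dd).comap (ph {u}) ≤
      KU A (j + 1) (insert u U) ⊔ (Ch A (j + 1 + 1)).map dd := by
    rintro z ⟨hz, ⟨y, hy, hyz⟩⟩
    rw [SetLike.mem_coe, mem_KU] at hz
    obtain ⟨x, hx⟩ : ∃ x : Finset V → Y, x = fun t => if {u} ⊆ t then y (t \ {u}) else 0 := ⟨_, rfl⟩
    have hxm : x ∈ Ch (dv U A) (j + 1 + 1) := by
      intro t
      rw [hx]
      dsimp only
      by_cases ht : {u} ⊆ t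
      · rw [if_pos ht]
        have h1 := (hy (t \ {u})).1
        have h2 := h1.1.1
        rw [union_sdiff_of_subset ht] at h2
        refine ⟨⟨h2, fun h => h1.2 fun h3 => h ?_⟩, fun h => (hy (t \ {u})).2 ?_⟩
        · rw [← union_sdiff_of_subset ht, disjoint_union_right]
          exact ⟨hu'.symm, h3⟩
        · rw [card_sdiff_of_subset ht, card_singleton]
          have := card_le_card ht
          rw [card_singleton] at this
          omega
      · rw [if_neg ht]
        exact ⟨Submodule.zero_mem _, fun _ => rfl⟩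
    have hxu : ph {u} x = y := by
      funext s
      by_cases hs : Disjoint {u} s
      · rw [ph_pos hs, hx]
        dsimp only
        rw [if_pos subset_union_left, union_sdiff_cancel_left hs]
      · rw [ph_neg hs]
        exact ((hy s).1.1.2 hs).symm
    have hxA : x ∈ Ch A (j + 1 + 1) := fun s => ⟨(hxm s).1.1, (hxm s).2⟩
    have hz' : z - dd x ∈ KU A (j + 1) (insert u U) := by
      rw [mem_KU]
      refine ⟨⟨?_, ?_⟩, fun v => ?_⟩
      · have h1 : z - dd x ∈ Ch (dv U A) (j + 1) :=
          Submodule.sub_mem _ hz.1.1 ((isCx_Ch (mono_dv hA U)).map (j + 1) x hxm)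
        have h2 : ph {u} (z - dd x) = 0 := by
          rw [map_sub, ph_dd, hxu, hyz, sub_self]
        intro s
        rw [dv_insert]
        refine ⟨⟨(h1 s).1, fun h => ?_⟩, (h1 s).2⟩
        have h3 : ph {u} (z - dd x) (s \ {u}) = 0 := congrFun h2 (s \ {u})
        rwa [ph_pos disjoint_sdiff, union_sdiff_of_subset h] at h3
      · rw [map_sub, hz.1.2, dd_dd, sub_self]
      · rw [map_sub, ph_dd]
        refine Submodule.sub_mem _ (hz.2 v) ⟨ph {v} x, ?_, rfl⟩
        have h1 := ph_mem (A := A) (s := {v}) (i := j + 1 + 1) (by rw [card_singleton]; omega) hxA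
        rwa [card_singleton, Nat.add_sub_cancel] at h1
    rw [show z = (z - dd x) + dd x by abel]
    exact Submodule.add_mem_sup hz' ⟨x, hxA, rfl⟩
  have h5 := LinB_mono (sup_le hle (le_sup_right :
    (Ch A (j + 1 + 1)).map dd ≤ KU A (j + 1) (insert u U) ⊔ (Ch A (j + 1 + 1)).map dd))
  have h6 := Submodule.finrank_sup_add_finrank_inf_eq (KU A (j + 1) U) ((Ch A (j + 1 + 1)).map dd)
  have h7 := Submodule.finrank_sup_add_finrank_inf_eq
    (KU A (j + 1) U ⊓ ((Ch (dv U (res {u} A)) (j + 1)).map dd).comap (ph {u}))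
    ((Ch A (j + 1 + 1)).map dd)
  have h8 : Module.finrank F2 ((KU A (j + 1) U ⊓
      ((Ch (dv U (res {u} A)) (j + 1)).map dd).comap (ph {u})) ⊓ (Ch A (j + 1 + 1)).map dd :
        Submodule F2 (Finset V → Y)) ≤
      Module.finrank F2 (KU A (j + 1) U ⊓ (Ch A (j + 1 + 1)).map dd :
        Submodule F2 (Finset V → Y)) := LinB_mono (inf_le_inf_right _ inf_le_left)
  omega

private theorem main_KU {A : Finset V → Submodule F2 Y} (hA : Mono A) {i : ℕ} (hi : 1 ≤ i)
    (U : Finset V) :
    (Module.finrank F2 (KF A i 1) : ℤ) ≤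
      Module.finrank F2 (KU A i U ⊔ (Ch A (i + 1)).map dd : Submodule F2 (Finset V → Y)) +
        ∑ t ∈ U.powerset, if 2 ≤ t.card then hd (res t A) (i - 1) else 0 := by
  induction U using Finset.induction_on with
  | empty =>
    rw [powerset_empty, sum_singleton, card_empty, if_neg (by omega), add_zero]
    have h1 := LinB_mono (le_sup_of_le_left (KF_le (A := A) hi) :
      KF A i 1 ≤ KU A i ∅ ⊔ (Ch A (i + 1)).map dd)
    exact_mod_cast h1
  | insert u U hu ih =>
    have h1 := step_KU hA hi u U hu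
    rw [sum_powerset_insert hu]
    have h2 : ∑ t ∈ U.powerset, (if 2 ≤ (insert u t).card then hd (res (insert u t) A) (i - 1) else 0) =
        ∑ t ∈ U.powerset, if t.card = 0 then 0 else hd (res (insert u t) A) (i - 1) := by
      refine Finset.sum_congr rfl fun t ht => ?_
      have h5 : u ∉ t := fun h => hu (mem_powerset.1 ht h)
      rw [card_insert_of_notMem h5]
      by_cases h6 : t.card = 0
      · rw [if_pos h6, if_neg (by omega)]
      · rw [if_neg h6, if_pos (by omega)]
    rw [h2]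
    linarith

/-- **The exact sequence.** `C^c` = the double chains `x t τ`, `t ⊆ τ`, `|t| = c`, `x t τ ∈ A τ`, in degree
`j = |τ|`, with the vertical boundary `d x t τ = ∑ v ∉ τ, x t (insert v τ)` (for `t ⊆ τ`), so that `C^0 = Ch A`, and
`hx (C^c) j = ∑ |t| = c, hd (res t A) (j - c)` for `c ≤ j` (`hx` of a direct sum; `σ = τ \ t`); horizontal maps
`h : C^c → C^(c+1)`, `h x t' τ = ∑ v ∈ t', x (t' - v) τ`: `h d = d h`, `h h = 0`, and for `τ ≠ ∅` the sequence of the
`x · τ` is exact (the cochains of the full simplex `τ`: contract with a vertex of `τ`). Let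
`K^c = C^(c+1) ∩ ker h`; it is `h C^c` in the degrees `j ≥ 1`. `hx_sub` with `lam = h`:
`hx (K^c) j ≤ hx (C^(c+1)) j + hx (K^(c+1)) (j + 1)` for `j ≥ 1` and, since `C^c = 0` for `c > |V|`,
`hx (K^1) (i + 1) ≤ ∑ c ≥ 2, hx (C^c) (i + c - 1) = ∑ |t| ≥ 2, hd (res t A) (i - 1)`.
It remains to show `finrank (KF A i 1) ≤ finrank (B_i) + hx (K^1) (i + 1)`: for `z ∈ KF A i 1` choose (linearly in
`z`) `w = (w v)` in `C^1_(i+1)` with `d w = h z`. Then `h w ∈ K^1_(i+1)` is a cycle; if it is a boundary
`d (h w')`, `w' ∈ C^1_(i+2)`, then `w - d w' = h y`, `y ∈ Ch A (i + 1)`, `h z = d h y = h (d y)`, and `z = d y`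
since `h` is injective in degree `i ≥ 1`. So the kernel of `KF A i 1 → H_(i+1)(K^1)` is `B_i`.
(You may use any other representation of the double complex, and any other constant instead of `1` in front of
the sum; F2 only uses that the sum is over the `t` with at least two elements: `2 ^ |V|` terms.) -/
theorem F1 {A : Finset V → Submodule F2 Y} (hA : Mono A) {i : ℕ} (hi : 1 ≤ i) :
    (Module.finrank F2 (KF A i 1) : ℤ) ≤ Module.finrank F2 ((Ch A (i + 1)).map dd) +
      ∑ t ∈ (univ : Finset (Finset V)).filter (fun t => 2 ≤ t.card), hd (res t A) (i - 1) := by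
  have h1 := main_KU hA hi univ
  rwa [KU_univ hi, bot_sup_eq, powerset_univ, ← sum_filter] at h1

end Pool.Agent.H19.SR
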