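import Pool.Agent.H19.SR.F1

/-!
# Project SR, module F2: the iteration
-/

set_option autoImplicit false
set_option linter.unusedSectionVars false

open Finset

namespace Pool.Agent.H19.SR

open Pool.Agent.H73.GC

/-- one step of the dimension count -/
private theorem F2_step {E E' : Type} [AddCommGroup E] [Module F2 E] [Finite E]
    [AddCommGroup E'] [Module F2 E'] [Finite E'] (f : E →ₗ[F2] E') (W : Submodule F2 E)
    {M N : Submodule F2 E'} (hNM : N ≤ M) (hf : W.map f ≤ M) :
    Module.finrank F2 W + Module.finrank F2 N ≤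
      Module.finrank F2 (W ⊓ N.comap f : Submodule F2 E) + Module.finrank F2 M := by
  have key : ∀ U : Submodule F2 E, Module.finrank F2 U =
      Module.finrank F2 (U.map f) + Module.finrank F2 (U ⊓ LinearMap.ker f : Submodule F2 E) := by
    intro U
    have h1 := LinearMap.finrank_range_add_finrank_ker (f.domRestrict U)
    have h2 : LinearMap.range (f.domRestrict U) = U.map f := by
      rw [LinearMap.range_domRestrict]
    have h3 : Module.finrank F2 (LinearMap.ker (f.domRestrict U)) =
        Module.finrank F2 (U ⊓ LinearMap.ker f : Submodule F2 E) := by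
      have h4 : (LinearMap.ker (f.domRestrict U)).map U.subtype = U ⊓ LinearMap.ker f := by
        ext x
        constructor
        · rintro ⟨y, hy, rfl⟩
          exact ⟨y.2, hy⟩
        · rintro ⟨h5, h6⟩
          exact ⟨⟨x, h5⟩, h6, rfl⟩
      rw [← h4]
      exact (LinearEquiv.finrank_eq (Submodule.equivMapOfInjective U.subtype
        (Submodule.injective_subtype U) _))
    rw [h2, h3] at h1
    exact h1.symm
  have h1 := key W
  have h2 := key (W ⊓ N.comap f)
  have h3 : (W ⊓ N.comap f).map f = W.map f ⊓ N := by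
    ext y
    constructor
    · rintro ⟨x, ⟨h4, h5⟩, rfl⟩
      exact ⟨⟨x, h4, rfl⟩, h5⟩
    · rintro ⟨⟨x, h4, rfl⟩, h5⟩
      exact ⟨x, ⟨h4, h5⟩, rfl⟩
  have h4 : W ⊓ N.comap f ⊓ LinearMap.ker f = W ⊓ LinearMap.ker f := by
    ext x
    constructor
    · rintro ⟨⟨h5, _⟩, h6⟩
      exact ⟨h5, h6⟩
    · rintro ⟨h5, h6⟩
      refine ⟨⟨h5, ?_⟩, h6⟩
      change f x ∈ N
      rw [LinearMap.mem_ker.1 h6]
      exact Submodule.zero_mem _
  rw [h3, h4] at h2
  have h5 := Submodule.finrank_sup_add_finrank_inf_eq (W.map f) N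
  have h6 : Module.finrank F2 (W.map f ⊔ N : Submodule F2 E') ≤ Module.finrank F2 M :=
    Submodule.finrank_mono (sup_le hf hNM)
  omega

/-- the dimension count -/
private theorem F2_count {ι E E' : Type} [DecidableEq ι] [AddCommGroup E] [Module F2 E] [Finite E]
    [AddCommGroup E'] [Module F2 E'] [Finite E'] (f : ι → E →ₗ[F2] E') (W : Submodule F2 E)
    (M N : ι → Submodule F2 E') (hNM : ∀ v, N v ≤ M v) (hf : ∀ v, W.map (f v) ≤ M v)
    (S : Finset ι) :
    Module.finrank F2 W + ∑ v ∈ S, Module.finrank F2 (N v) ≤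
      Module.finrank F2 (W ⊓ ⨅ v ∈ S, (N v).comap (f v) : Submodule F2 E) +
        ∑ v ∈ S, Module.finrank F2 (M v) := by
  induction S using Finset.induction_on with
  | empty =>
    have h0 : (W ⊓ ⨅ v ∈ (∅ : Finset ι), (N v).comap (f v) : Submodule F2 E) = W := by
      rw [eq_top_iff.2 (le_iInf₂ fun v hv => absurd hv (notMem_empty v) :
        ⊤ ≤ ⨅ v ∈ (∅ : Finset ι), (N v).comap (f v)), inf_top_eq]
    rw [h0, sum_empty, sum_empty]
  | insert a S ha ih =>
    rw [Finset.sum_insert ha, Finset.sum_insert ha]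
    have h1 := F2_step (f a) (W ⊓ ⨅ v ∈ S, (N v).comap (f v)) (hNM a)
      ((Submodule.map_mono inf_le_left).trans (hf a))
    have h2 : (W ⊓ ⨅ v ∈ insert a S, (N v).comap (f v) : Submodule F2 E) =
        W ⊓ (⨅ v ∈ S, (N v).comap (f v)) ⊓ (N a).comap (f a) := by
      rw [Finset.iInf_insert, inf_comm ((N a).comap (f a)), inf_assoc]
    rw [h2]
    omega

variable {V : Type} [DecidableEq V] [Fintype V] {Y : Type} [AddCommGroup Y] [Module F2 Y] [Finite Y]

private theorem F2_ph_apply (s : Finset V) (f : Finset V → Y) (σ : Finset V) :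
    ph s f σ = if Disjoint s σ then f (s ∪ σ) else 0 := rfl

private theorem F2_ph_empty (f : Finset V → Y) : ph ∅ f = f := by
  funext σ
  rw [F2_ph_apply, if_pos (disjoint_empty_left σ), empty_union]

private theorem F2_res_empty (A : Finset V → Submodule F2 Y) : res ∅ A = A := by
  funext s
  ext y
  constructor
  · rintro ⟨h1, _⟩
    rwa [empty_union] at h1
  · intro h1
    refine ⟨?_, fun h => absurd (disjoint_empty_left s) h⟩
    rwa [empty_union]

private theorem F2_ph_ph {s : Finset V} {v : V} (hv : v ∉ s) (f : Finset V → Y) :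
    ph s (ph {v} f) = ph (insert v s) f := by
  funext σ
  rw [F2_ph_apply, F2_ph_apply, F2_ph_apply]
  have h2 : {v} ∪ (s ∪ σ) = insert v s ∪ σ := by
    rw [← union_assoc]
    rfl
  by_cases h1 : Disjoint s σ
  · rw [if_pos h1]
    by_cases h3 : v ∈ σ
    · rw [if_neg, if_neg]
      · intro h4
        exact disjoint_left.1 h4 (mem_insert_self v s) h3
      · intro h4
        exact disjoint_left.1 h4 (mem_singleton_self v) (mem_union_right s h3)
    · rw [if_pos, if_pos, h2]
      · rw [disjoint_insert_left]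
        exact ⟨h3, h1⟩
      · rw [disjoint_singleton_left, mem_union, not_or]
        exact ⟨hv, h3⟩
  · rw [if_neg h1, if_neg]
    intro h4
    exact h1 (h4.mono_left (subset_insert v s))

private theorem F2_ph_ph_mem {s : Finset V} {v : V} (hv : v ∈ s) (f : Finset V → Y) :
    ph s (ph {v} f) = 0 := by
  funext σ
  rw [F2_ph_apply, F2_ph_apply, Pi.zero_apply]
  split_ifs with h1 h2
  · exact absurd (mem_union_left σ hv) (disjoint_singleton_left.1 h2)
  · rfl
  · rfl

private theorem F2_res_res {s : Finset V} {v : V} (hv : v ∉ s) (A : Finset V → Submodule F2 Y) :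
    res s (res {v} A) = res (insert v s) A := by
  funext σ
  have h2 : {v} ∪ (s ∪ σ) = insert v s ∪ σ := by
    rw [← union_assoc]
    rfl
  ext y
  constructor
  · rintro ⟨⟨h3, h4⟩, h5⟩
    refine ⟨by rwa [← h2], fun h6 => ?_⟩
    by_cases h7 : Disjoint s σ
    · refine h4 fun h8 => h6 ?_
      rw [disjoint_singleton_left, mem_union, not_or] at h8
      rw [disjoint_insert_left]
      exact ⟨h8.2, h7⟩
    · exact h5 h7
  · rintro ⟨h3, h4⟩
    refine ⟨⟨by rwa [h2], fun h6 => h4 fun h8 => h6 ?_⟩, fun h6 => h4 fun h8 =>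
      h6 (h8.mono_left (subset_insert v s))⟩
    rw [disjoint_insert_left] at h8
    rw [disjoint_singleton_left, mem_union, not_or]
    exact ⟨hv, h8.1⟩

private theorem F2_res_mem {s : Finset V} {v : V} (hv : v ∈ s) (A : Finset V → Submodule F2 Y)
    (σ : Finset V) : res s (res {v} A) σ = ⊥ := by
  rw [eq_bot_iff]
  rintro y ⟨⟨_, h4⟩, _⟩
  rw [Submodule.mem_bot]
  refine h4 fun h5 => ?_
  exact absurd (mem_union_left σ hv) (disjoint_singleton_left.1 h5)

private theorem F2_mem_KF {A : Finset V → Submodule F2 Y} {i q : ℕ} {z : Finset V → Y} :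
    z ∈ KF A i q ↔ z ∈ Ch A i ∧ dd z = 0 ∧ ∀ s : Finset V, s.card = q →
      ph s z ∈ (Ch (res s A) (i - q + 1)).map dd := by
  unfold KF
  rw [Submodule.mem_inf, Submodule.mem_inf, LinearMap.mem_ker, and_assoc]
  refine and_congr_right fun _ => and_congr_right fun _ => ?_
  simp only [Submodule.mem_iInf, mem_filter, mem_univ, true_and, Submodule.mem_comap]

/-- **The iteration.** Induction on `q` for all systems `A` and all `i`. `q = 0`: `KF A i 0 ≤ B_i` (`ph ∅ z = z`,
`res ∅ A = A`). `q + 1`: the map `z ↦ (ph {v} z)_v` sends `KF A i (q + 1)` to the product of the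
`KF (res {v} A) (i - 1) q` (`ph s (ph {v} z) = ph (insert v s) z` for `v ∉ s`, and `0` for `v ∈ s`;
`res s (res {v} A) = res (insert v s) A` for `v ∉ s`), and the preimage of the product of the boundaries
`B_(i-1)(res {v} A)` is contained in `KF A i 1`. So
`finrank (KF A i (q + 1)) ≤ finrank (KF A i 1) + ∑ v, (finrank (KF (res {v} A) (i - 1) q) - finrank B)`.
`F1` bounds the first term (`hd (res t A) (i - 1) ≤ c` for `|t| ≥ 2`: `r = 0`), the induction hypothesis the others
(`res t (res {v} A) = res (insert v t) A` or the zero system, `mono_res`). -/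
theorem F2it {A : Finset V → Submodule F2 Y} (hA : Mono A) {i q : ℕ} (hq : q ≤ i) {c : ℕ}
    (h : ∀ r < q, ∀ t : Finset V, r + 2 ≤ t.card → hd (res t A) (i - r - 1) ≤ c) :
    Module.finrank F2 (KF A i q) ≤ Module.finrank F2 ((Ch A (i + 1)).map dd) + cF V q * c := by
  induction q generalizing A i with
  | zero =>
    have h1 : KF A i 0 ≤ (Ch A (i + 1)).map dd := by
      intro z hz
      have h2 := (F2_mem_KF.1 hz).2.2 ∅ card_empty
      rwa [F2_ph_empty, F2_res_empty, Nat.sub_zero] at h2
    exact (Submodule.finrank_mono h1).trans (Nat.le_add_right _ _)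
  | succ q ih =>
    have hi : 1 ≤ i := by omega
    -- the first term
    have hF1 : Module.finrank F2 (KF A i 1) ≤
        Module.finrank F2 ((Ch A (i + 1)).map dd) + 2 ^ Fintype.card V * c := by
      have h1 := F1 hA hi
      have h2 : (∑ t ∈ (univ : Finset (Finset V)).filter (fun t => 2 ≤ t.card),
          hd (res t A) (i - 1)) ≤ ((2 ^ Fintype.card V * c : ℕ) : ℤ) := by
        have h3 : (∑ t ∈ (univ : Finset (Finset V)).filter (fun t => 2 ≤ t.card),
            hd (res t A) (i - 1)) ≤
            ∑ _t ∈ (univ : Finset (Finset V)).filter (fun t => 2 ≤ t.card), (c : ℤ) := by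
          refine sum_le_sum fun t ht => ?_
          rw [mem_filter] at ht
          exact h 0 (Nat.succ_pos q) t (by omega)
        refine h3.trans ?_
        rw [sum_const, nsmul_eq_mul, Nat.cast_mul]
        refine mul_le_mul_of_nonneg_right ?_ (Int.natCast_nonneg c)
        have h4 : ((univ : Finset (Finset V)).filter fun t => 2 ≤ t.card).card ≤
            2 ^ Fintype.card V := by
          refine (card_filter_le _ _).trans (le_of_eq ?_)
          rw [card_univ, Fintype.card_finset]
        exact_mod_cast h4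
      have h5 : (Module.finrank F2 (KF A i 1) : ℤ) ≤
          ((Module.finrank F2 ((Ch A (i + 1)).map dd) + 2 ^ Fintype.card V * c : ℕ) : ℤ) := by
        rw [Nat.cast_add]
        exact h1.trans (add_le_add le_rfl h2)
      exact_mod_cast h5
    -- the other terms
    have hI : ∀ v : V, Module.finrank F2 (KF (res {v} A) (i - 1) q) ≤
        Module.finrank F2 ((Ch (res {v} A) (i - 1 + 1)).map dd) + cF V q * c := by
      intro v
      refine ih (mono_res hA {v}) (by omega) fun r hr t ht => ?_
      by_cases hv : v ∈ t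
      · rw [hd_zero (mono_res (mono_res hA {v}) t) _ fun s _ => F2_res_mem hv A s]
        exact Int.natCast_nonneg c
      · rw [F2_res_res hv]
        have h1 := h (r + 1) (by omega) (insert v t) (by rw [card_insert_of_notMem hv]; omega)
        rwa [show i - (r + 1) - 1 = i - 1 - r - 1 by omega] at h1
    have hmap : ∀ v : V, (KF A i (q + 1)).map (ph {v}) ≤ KF (res {v} A) (i - 1) q := by
      rintro v _ ⟨z, hz, rfl⟩
      obtain ⟨h1, h2, h3⟩ := F2_mem_KF.1 hz
      refine F2_mem_KF.2 ⟨?_, ?_, fun s hs => ?_⟩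
      · have h4 := ph_mem (s := {v}) (by rw [card_singleton]; exact hi) h1
        rwa [card_singleton] at h4
      · rw [← ph_dd, h2, map_zero]
      · by_cases hv : v ∈ s
        · rw [F2_ph_ph_mem hv]
          exact Submodule.zero_mem _
        · rw [F2_ph_ph hv, F2_res_res hv]
          have h4 := h3 (insert v s) (by rw [card_insert_of_notMem hv, hs])
          rwa [show i - (q + 1) + 1 = i - 1 - q + 1 by omega] at h4
    have hcnt := F2_count (fun v : V => (ph {v} : (Finset V → Y) →ₗ[F2] (Finset V → Y)))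
      (KF A i (q + 1)) (fun v => KF (res {v} A) (i - 1) q)
      (fun v => (Ch (res {v} A) (i - 1 + 1)).map dd)
      (fun v => map_le_KF (mono_res hA {v}) (by omega)) hmap univ
    have hsub : (KF A i (q + 1) ⊓ ⨅ v ∈ (univ : Finset V),
        ((Ch (res {v} A) (i - 1 + 1)).map dd).comap (ph {v}) : Submodule F2 (Finset V → Y)) ≤
        KF A i 1 := by
      rintro z ⟨h1, h2⟩
      obtain ⟨h3, h4, _⟩ := F2_mem_KF.1 h1
      refine F2_mem_KF.2 ⟨h3, h4, fun s hs => ?_⟩
      obtain ⟨v, rfl⟩ := card_eq_one.1 hs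
      have h5 := h2
      rw [SetLike.mem_coe] at h5
      simp only [Submodule.mem_iInf, Submodule.mem_comap] at h5
      exact h5 v (mem_univ v)
    have h6 := Submodule.finrank_mono hsub
    have h7 : (∑ v : V, Module.finrank F2 (KF (res {v} A) (i - 1) q)) ≤
        ∑ v : V, (Module.finrank F2 ((Ch (res {v} A) (i - 1 + 1)).map dd) + cF V q * c) :=
      sum_le_sum fun v _ => hI v
    rw [sum_add_distrib, sum_const, smul_eq_mul, card_univ] at h7
    have h8 : cF V (q + 1) * c = 2 ^ Fintype.card V * c + Fintype.card V * (cF V q * c) := by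
      change (2 ^ Fintype.card V + Fintype.card V * cF V q) * c = _
      ring
    rw [h8]
    omega

end Pool.Agent.H19.SR
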