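import Pool.Agent.H19.SR.Hs
import Pool.Agent.H85.VK.Defs

/-!
# Project SR, module T10: cohomology and homology spheres over the field of two elements
-/

set_option autoImplicit false
set_option linter.unusedSectionVars false

open Finset

namespace Pool.Agent.H19.SR

variable {W : Type} [DecidableEq W] [Fintype W]

/-- the boundary and the coboundary are adjoint -/
private theorem HsD_pair (g z : Finset W → ZMod 2) :
    ∑ τ, g τ * bdy2 z τ = ∑ σ : Finset W, (∑ v ∈ σ, g (σ.erase v)) * z σ := by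
  unfold bdy2
  simp only [Finset.mul_sum, Finset.sum_mul]
  rw [Finset.sum_sigma', Finset.sum_sigma']
  refine Finset.sum_nbij' (fun x => ⟨insert x.2 x.1, x.2⟩) (fun x => ⟨x.1.erase x.2, x.2⟩)
    ?_ ?_ ?_ ?_ ?_
  · rintro ⟨τ, v⟩ _
    simp
  · rintro ⟨σ, v⟩ _
    simp
  · rintro ⟨τ, v⟩ h
    simp only [mem_sigma, mem_univ, true_and, mem_compl] at h
    simp [erase_insert h]
  · rintro ⟨σ, v⟩ h
    simp only [mem_sigma, mem_univ, true_and] at h
    simp [insert_erase h]
  · rintro ⟨τ, v⟩ h
    simp only [mem_sigma, mem_univ, true_and, mem_compl] at h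
    simp only
    rw [erase_insert h]

/-- a functional which separates a vector and a subspace -/
private theorem HsD_sep (S : Submodule (ZMod 2) (Finset W → ZMod 2)) {x : Finset W → ZMod 2}
    (hx : x ∉ S) : ∃ f : Finset W → ZMod 2, (∀ s ∈ S, ∑ σ, f σ * s σ = 0) ∧
      ∑ σ, f σ * x σ ≠ 0 := by
  obtain ⟨φ, h1, h2⟩ := Submodule.exists_dual_map_eq_bot_of_notMem hx inferInstance
  have key : ∀ y : Finset W → ZMod 2,
      ∑ σ, φ (fun τ => if σ = τ then 1 else 0) * y σ = φ y := by
    intro y
    rw [LinearMap.pi_apply_eq_sum_univ φ y]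
    refine sum_congr rfl fun σ _ => ?_
    rw [smul_eq_mul, mul_comm]
  refine ⟨fun σ => φ (fun τ => if σ = τ then 1 else 0), fun s hs => ?_, ?_⟩
  · rw [key]
    have h3 : φ s ∈ S.map φ := Submodule.mem_map_of_mem hs
    rw [h2] at h3
    exact (Submodule.mem_bot _).1 h3
  · rw [key]
    exact h1

/-- the boundary as a linear map -/
private def HsD_bd : (Finset W → ZMod 2) →ₗ[ZMod 2] (Finset W → ZMod 2) where
  toFun := bdy2
  map_add' f g := by
    funext s
    simp only [bdy2, Pi.add_apply, sum_add_distrib]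
  map_smul' c f := by
    funext s
    simp only [bdy2, Pi.smul_apply, RingHom.id_apply, smul_sum]

/-- the chains of the link -/
private def HsD_ch (K : SimpleGraph W) (ρ : Finset W) (j : ℕ) :
    Submodule (ZMod 2) (Finset W → ZMod 2) where
  carrier := {z | LinkCh2 K ρ j z}
  zero_mem' σ h := absurd rfl h
  add_mem' := by
    intro f g hf hg σ h
    by_cases h1 : f σ = 0
    · refine hg σ fun h2 => h ?_
      rw [Pi.add_apply, h1, h2, add_zero]
    · exact hf σ h1
  smul_mem' := by
    intro c f hf σ h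
    refine hf σ fun h2 => h ?_
    rw [Pi.smul_apply, h2, smul_zero]

/-- the coboundaries -/
private def HsD_co (L : Set (Finset W)) (j : ℕ) : Submodule (ZMod 2) (Finset W → ZMod 2) where
  carrier := {f | Pool.Agent.H85.VK.Cobound L j f}
  zero_mem' := ⟨0, fun τ _ _ => by simp⟩
  add_mem' := by
    rintro f f' ⟨g, hg⟩ ⟨g', hg'⟩
    refine ⟨g + g', fun τ h1 h2 => ?_⟩
    simp only [Pi.add_apply, sum_add_distrib]
    rw [hg τ h1 h2, hg' τ h1 h2]
  smul_mem' := by
    rintro c f ⟨g, hg⟩
    refine ⟨c • g, fun τ h1 h2 => ?_⟩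
    simp only [Pi.smul_apply]
    rw [hg τ h1 h2, smul_sum]

/-- a coboundary is orthogonal to the cycles -/
private theorem HsD_orth {K : SimpleGraph W} {ρ : Finset W} {j : ℕ} {f z : Finset W → ZMod 2}
    (hf : Pool.Agent.H85.VK.Cobound
      (Pool.Agent.H85.VK.lnk {σ : Finset W | K.IsClique (σ : Set W)} ρ) j f)
    (hz : LinkCh2 K ρ j z) (hb : bdy2 z = 0) : ∑ σ, f σ * z σ = 0 := by
  obtain ⟨g, hg⟩ := hf
  have h1 : ∑ σ, f σ * z σ = ∑ σ : Finset W, (∑ v ∈ σ, g (σ.erase v)) * z σ := by
    refine sum_congr rfl fun σ _ => ?_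
    by_cases h : z σ = 0
    · rw [h, mul_zero, mul_zero]
    · obtain ⟨h2, h3, h4⟩ := hz σ h
      rw [hg σ ⟨h2, h3⟩ h4]
  rw [h1, ← HsD_pair, hb]
  simp

private theorem HsD_dim {K : SimpleGraph W} {n : ℕ}
    (h : Pool.Agent.H85.VK.IsF2Sphere {σ : Finset W | K.IsClique (σ : Set W)} n)
    (σ : Finset W) (hσ : K.IsClique (σ : Set W)) : σ.card ≤ n := by
  classical
  by_contra hcon
  obtain ⟨μ, hμ, hmax⟩ := Finset.exists_max_image
    ((univ : Finset (Finset W)).filter fun τ : Finset W => K.IsClique (τ : Set W)) Finset.card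
    ⟨σ, by simp [hσ]⟩
  simp only [mem_filter, mem_univ, true_and] at hμ hmax
  have hcard : n < μ.card := lt_of_lt_of_le (not_le.1 hcon) (hmax σ hσ)
  have hco : Pool.Agent.H85.VK.Cocycle
      (Pool.Agent.H85.VK.lnk {σ : Finset W | K.IsClique (σ : Set W)} μ) 0 (fun _ => 1) := by
    rintro τ ⟨h1, h2⟩ h3
    exfalso
    have h4 := hmax (τ ∪ μ) h2
    rw [card_union_of_disjoint h1, h3] at h4
    omega
  obtain ⟨g, hg⟩ := h.exact μ hμ 0 (by omega) _ hco
  have h5 := hg ∅ ⟨disjoint_empty_left μ, by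
    rw [empty_union]
    exact hμ⟩ card_empty
  rw [sum_empty] at h5
  exact one_ne_zero h5

/-- **Module T10.** `IsF2Sphere` (`H85/VK/Defs`) is the definition by the cohomology of the links, `HomologySphere2` the
one by homology. `dim`: a maximal clique `σ` has `n` elements (otherwise `exact` for `σ`, `j = 0` fails: `lnk K σ = {∅}`,
every `f` is a cocycle in degree `0` and only `f ∅ = 0` is a coboundary). For a clique `ρ` let `F j` = the functions on
the faces with `j` vertices of the link; `∂ : F (j + 1) → F j` and `δ : F j → F (j + 1)` are adjoint for the standard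
pairings `∑ σ, f σ * g σ`. So `im ∂ = (ker δ)^⊥`, `ker ∂ = (im δ)^⊥`, and exactness of `δ` at `F j` gives exactness of `∂`
at `F j`; in the top degree `j + |ρ| = n` every `f` is a cocycle, `im δ` has codimension one, so `ker ∂` has dimension one.
(Dual spaces: `LinearMap.ker_dualMap_eq_dualAnnihilator_range`, `LinearMap.range_dualMap_eq_dualAnnihilator_ker`; or
direct: a functional which vanishes on the image of `∂` is a cocycle `f`, hence a coboundary, hence vanishes on
`ker ∂`.) -/
theorem hs2_of_f2 {K : SimpleGraph W} {n : ℕ}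
    (h : Pool.Agent.H85.VK.IsF2Sphere {σ : Finset W | K.IsClique (σ : Set W)} n) :
    HomologySphere2 K n := by
  classical
  refine ⟨HsD_dim h, fun ρ hρ j hj z hz hb => ?_, fun ρ hρ j hj => ?_⟩
  · -- exactness below the top degree
    by_contra hcon
    have hzS : z ∉ (HsD_ch K ρ (j + 1)).map HsD_bd := by
      rintro ⟨y, hy, hyz⟩
      exact hcon ⟨y, hy, hyz⟩
    obtain ⟨f, hf1, hf2⟩ := HsD_sep _ hzS
    have hco : Pool.Agent.H85.VK.Cocycle
        (Pool.Agent.H85.VK.lnk {σ : Finset W | K.IsClique (σ : Set W)} ρ) j f := by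
      rintro τ ⟨h1, h2⟩ h3
      have hy : Pi.single τ (1 : ZMod 2) ∈ HsD_ch K ρ (j + 1) := by
        intro σ hσ
        have h4 : σ = τ := by
          by_contra hne
          exact hσ (Pi.single_eq_of_ne hne 1)
        subst h4
        exact ⟨h1, h2, h3⟩
      have h5 := hf1 _ (Submodule.mem_map_of_mem hy)
      have h6 : ∑ σ, f σ * bdy2 (Pi.single τ (1 : ZMod 2)) σ = 0 := h5
      rw [HsD_pair, Finset.sum_eq_single τ] at h6
      · rwa [Pi.single_eq_same, mul_one] at h6
      · intro σ _ hne
        rw [Pi.single_eq_of_ne hne, mul_zero]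
      · intro h7
        exact absurd (mem_univ τ) h7
    exact hf2 (HsD_orth (h.exact ρ hρ j (by omega) f hco) hz hb)
  · -- the top degree
    obtain ⟨f₀, _, h2, h3⟩ := h.top ρ hρ j hj
    have hall : ∀ f, Pool.Agent.H85.VK.Cocycle
        (Pool.Agent.H85.VK.lnk {σ : Finset W | K.IsClique (σ : Set W)} ρ) j f := by
      rintro f τ ⟨h4, h5⟩ h6
      exfalso
      have h7 := HsD_dim h (τ ∪ ρ) h5
      rw [card_union_of_disjoint h4, h6] at h7
      omega
    have hf₀ : f₀ ∉ HsD_co
        (Pool.Agent.H85.VK.lnk {σ : Finset W | K.IsClique (σ : Set W)} ρ) j := h2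
    obtain ⟨o, ho1, ho2⟩ := HsD_sep _ hf₀
    have hoc : LinkCh2 K ρ j o := by
      intro σ hσ
      by_contra hcon
      apply hσ
      have h4 : Pi.single σ (1 : ZMod 2) ∈ HsD_co
          (Pool.Agent.H85.VK.lnk {σ : Finset W | K.IsClique (σ : Set W)} ρ) j := by
        refine ⟨0, fun τ h5 h6 => ?_⟩
        simp only [Pi.zero_apply, sum_const_zero]
        refine Pi.single_eq_of_ne ?_ 1
        rintro rfl
        exact hcon ⟨h5.1, h5.2, h6⟩
      have h7 := ho1 _ h4
      rw [Finset.sum_eq_single σ] at h7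
      · rwa [Pi.single_eq_same, mul_one] at h7
      · intro τ _ hne
        rw [Pi.single_eq_of_ne hne, mul_zero]
      · intro h8
        exact absurd (mem_univ σ) h8
    have hob : bdy2 o = 0 := by
      funext τ
      have h4 : (fun σ : Finset W => ∑ v ∈ σ, (Pi.single τ (1 : ZMod 2) : Finset W → ZMod 2)
          (σ.erase v)) ∈ HsD_co
          (Pool.Agent.H85.VK.lnk {σ : Finset W | K.IsClique (σ : Set W)} ρ) j :=
        ⟨Pi.single τ 1, fun _ _ _ => rfl⟩
      have h5 := ho1 _ h4
      have h6 : ∑ σ : Finset W, (∑ v ∈ σ, (Pi.single τ (1 : ZMod 2) : Finset W → ZMod 2)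
          (σ.erase v)) * o σ = 0 := by
        rw [← h5]
        exact sum_congr rfl fun σ _ => mul_comm _ _
      rw [← HsD_pair, Finset.sum_eq_single τ] at h6
      · rwa [Pi.single_eq_same, one_mul] at h6
      · intro σ _ hne
        rw [Pi.single_eq_of_ne hne, zero_mul]
      · intro h8
        exact absurd (mem_univ τ) h8
    have ho3 : ∑ σ, f₀ σ * o σ ≠ 0 := by
      intro h4
      apply ho2
      rw [← h4]
      exact sum_congr rfl fun σ _ => mul_comm _ _
    -- cycles orthogonal to `f₀` vanish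
    have huniq : ∀ z, LinkCh2 K ρ j z → bdy2 z = 0 → ∑ σ, f₀ σ * z σ = 0 → z = 0 := by
      intro z hz hb h4
      funext σ
      have h5 : ∑ τ, (Pi.single σ (1 : ZMod 2) : Finset W → ZMod 2) τ * z τ = 0 := by
        rcases h3 (Pi.single σ 1) (hall _) with h6 | h6
        · exact HsD_orth h6 hz hb
        · have h7 := HsD_orth h6 hz hb
          simp only [add_mul, sum_add_distrib] at h7
          rwa [h4, add_zero] at h7
      rw [Finset.sum_eq_single σ] at h5
      · rwa [Pi.single_eq_same, one_mul] at h5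
      · intro τ _ hne
        rw [Pi.single_eq_of_ne hne, zero_mul]
      · intro h8
        exact absurd (mem_univ σ) h8
    refine ⟨o, hoc, hob, ?_, fun z hz hb => ?_⟩
    · rintro rfl
      exact ho3 (by simp)
    · by_cases h4 : ∑ σ, f₀ σ * z σ = 0
      · exact Or.inl (huniq z hz hb h4)
      · right
        have h5 : z - o = 0 := by
          refine huniq (z - o) ((HsD_ch K ρ j).sub_mem hz hoc) ?_ ?_
          · have h6 := map_sub (HsD_bd (W := W)) z o
            have h7 : bdy2 (z - o) = bdy2 z - bdy2 o := h6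
            rw [h7, hb, hob, sub_zero]
          · have h6 : ∀ a b : ZMod 2, a ≠ 0 → b ≠ 0 → a - b = 0 := by decide
            have h7 := h6 _ _ h4 ho3
            rw [← h7, ← sum_sub_distrib]
            exact sum_congr rfl fun σ _ => by rw [Pi.sub_apply, mul_sub]
        exact sub_eq_zero.1 h5

end Pool.Agent.H19.SR
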