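import Pool.Agent.H19.SR.Main
import Pool.Agent.H19.SR.HsD
import Pool.Agent.H85.OK.Iso

/-!
# Project SR, module T7: vanishing of the `ℓ²`-homology
-/

set_option autoImplicit false
set_option linter.unusedSectionVars false

open Finset

namespace Pool.Agent.H19.SR

open Pool.Agent.H73.GC

/-- **The high degrees.** `L` is a full subcomplex of a homology sphere of dimension `n - 1` over the field of two
elements, `i ≥ 1` and `(n - i) (n - i + 3) ≤ 2 i`. -/
theorem l2_high {V W : Type} [DecidableEq V] [Fintype V] [DecidableEq W] [Fintype W]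
    {L : SimpleGraph V} {K : SimpleGraph W} {n : ℕ}
    (hK : Pool.Agent.H85.VK.IsF2Sphere {σ : Finset W | K.IsClique (σ : Set W)} n) (e : L ↪g K)
    {i : ℕ} (hi : 1 ≤ i) (hr : (n - i) * (n - i + 3) ≤ 2 * i) :
    Pool.Agent.H4.Singer.L2HomologyZero L i := by
  have h1 : GZ K (univ.map e.toEmbedding) i := range n (hs2_of_f2 hK).isSph i hi hr _
  have h2 := gz_racg h1
  let φ : L ≃g K.comap (Subtype.val : {w // w ∈ univ.map e.toEmbedding} → W) :=
    { toFun := fun v => ⟨e v, mem_map_of_mem _ (mem_univ v)⟩
      invFun := fun w => (mem_map.1 w.2).choose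
      left_inv := by
        intro v
        have h := (mem_map.1 (mem_map_of_mem e.toEmbedding (mem_univ v))).choose_spec.2
        exact e.injective h
      right_inv := by
        rintro ⟨w, hw⟩
        exact Subtype.ext (mem_map.1 hw).choose_spec.2
      map_rel_iff' := by
        intro a b
        exact e.map_adj_iff }
  exact Pool.Agent.H85.OK.l2_iso φ h2

end Pool.Agent.H19.SR
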