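import Pool.Agent.H19.SR.Defs
import Pool.Agent.H73.GC.LuckA

/-!
# Project SR, module M10: flats and retractions
-/

set_option autoImplicit false
set_option linter.unusedSectionVars false

open Finset

namespace Pool.Agent.H19.SR

open Pool.Agent.H77.SW Pool.Agent.H73.GC

variable {V : Type} [DecidableEq V] [Fintype V] {P : Type} [Group P] [Fintype P]

/-- retractions act trivially on the subgroup of their set and map `P` onto it -/
theorem ret_eq {g : V → P} {A : Finset V} {r : P →* P} (hr : ∀ v, r (g v) = if v ∈ A then g v else 1)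
    {x : P} (hx : x ∈ Subgroup.closure (g '' (A : Set V))) : r x = x := by
  induction hx using Subgroup.closure_induction with
  | mem x hx =>
    obtain ⟨u, hu, rfl⟩ := hx
    rw [hr, if_pos (mem_coe.1 hu)]
  | one => exact map_one r
  | mul x y _ _ hx hy => rw [map_mul, hx, hy]
  | inv x _ hx => rw [map_inv, hx]

theorem ret_mem {g : V → P} (hg : Subgroup.closure (Set.range g) = ⊤) {A : Finset V} {r : P →* P}
    (hr : ∀ v, r (g v) = if v ∈ A then g v else 1) (x : P) :
    r x ∈ Subgroup.closure (g '' (A : Set V)) := by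
  have hx : x ∈ Subgroup.closure (Set.range g) := by
    rw [hg]
    exact Subgroup.mem_top x
  induction hx using Subgroup.closure_induction with
  | mem x hx =>
    obtain ⟨u, rfl⟩ := hx
    rw [hr]
    split_ifs with h
    · exact Subgroup.subset_closure ⟨u, mem_coe.2 h, rfl⟩
    · exact Subgroup.one_mem _
  | one =>
    rw [map_one]
    exact Subgroup.one_mem _
  | mul x y _ _ hx hy =>
    rw [map_mul]
    exact Subgroup.mul_mem _ hx hy
  | inv x _ hx =>
    rw [map_inv]
    exact Subgroup.inv_mem _ hx

private theorem Flat_ret {g : V → P} {A : Finset V} {r : P →* P}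
    (hr : ∀ v, r (g v) = if v ∈ A then g v else 1) (I : Set V) {x : P}
    (hx : x ∈ Subgroup.closure (g '' I)) : r x ∈ Subgroup.closure (g '' (I ∩ A)) := by
  induction hx using Subgroup.closure_induction with
  | mem x hx =>
    obtain ⟨u, hu, rfl⟩ := hx
    rw [hr]
    split_ifs with h
    · exact Subgroup.subset_closure ⟨u, ⟨hu, mem_coe.2 h⟩, rfl⟩
    · exact Subgroup.one_mem _
  | one =>
    rw [map_one]
    exact Subgroup.one_mem _
  | mul x y _ _ hx hy =>
    rw [map_mul]
    exact Subgroup.mul_mem _ hx hy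
  | inv x _ hx =>
    rw [map_inv]
    exact Subgroup.inv_mem _ hx

private theorem Flat_lkF {G : SimpleGraph V} {t : Finset V} {w : V} :
    w ∈ lkF G t ↔ ∀ v ∈ t, G.Adj v w := by
  classical
  unfold lkF
  rw [mem_filter]
  exact ⟨fun h => h.2, fun h => ⟨mem_univ w, h⟩⟩

/-- the walls of the types in the clique `s` through a vertex intersect in a coset of the subgroup of the star of
`s` (`Ret`: `r_A r_B = r_(A ∩ B)`; a clique `s`: the intersection of the stars of its vertices is `s ∪ lkF G s`) -/
theorem wl_inter {G : SimpleGraph V} (D : PG G P) (hR : Ret D.g) {s : Finset V}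
    (hs : G.IsClique (s : Set V)) (hne : s.Nonempty) {x : P} (hx : ∀ v ∈ s, x ∈ wl D v) :
    x ∈ Subgroup.closure (D.g '' ((s ∪ lkF G s : Finset V) : Set V)) := by
  classical
  have key : ∀ t : Finset V, t ⊆ s →
      x ∈ Subgroup.closure (D.g '' {u | ∀ v ∈ t, u = v ∨ G.Adj v u}) := by
    intro t
    induction t using Finset.induction_on with
    | empty =>
      intro _
      have h : {u : V | ∀ v ∈ (∅ : Finset V), u = v ∨ G.Adj v u} = Set.univ := by
        ext u
        simp
      rw [h, Set.image_univ, hR.gen]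
      exact Subgroup.mem_top x
    | insert v t hv ih =>
      intro hsub
      have h1 := ih ((subset_insert v t).trans hsub)
      have h2 := hx v (hsub (mem_insert_self v t))
      obtain ⟨r, hr⟩ := hR.ret (univ.filter fun u => u = v ∨ G.Adj v u)
      have h3 : r x = x := by
        refine ret_eq hr ?_
        have e : ((univ.filter fun u => u = v ∨ G.Adj v u : Finset V) : Set V) =
            {u | u = v ∨ G.Adj v u} := by
          ext u
          simp
        rw [e]
        exact h2
      have h4 := Flat_ret hr _ h1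
      rw [h3] at h4
      refine Subgroup.closure_mono (Set.image_mono ?_) h4
      rintro u ⟨hu1, hu2⟩ w hw
      rcases mem_insert.1 hw with rfl | hw
      · exact (mem_filter.1 (mem_coe.1 hu2)).2
      · exact hu1 w hw
  refine Subgroup.closure_mono (Set.image_mono ?_) (key s (Subset.refl s))
  intro u hu
  rw [mem_coe, mem_union]
  by_cases h : u ∈ s
  · exact Or.inl h
  · refine Or.inr (Flat_lkF.2 fun v hv => ?_)
    rcases hu v hv with rfl | h'
    · exact absurd hv h
    · exact h'

/-! ### Cells -/

private theorem Flat_b_one {G : SimpleGraph V} (D : PG G P) (v : V) : D.b 1 v = 0 := by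
  have h := D.b_mul 1 1 v
  rw [mul_one] at h
  exact left_eq_add.1 h

private theorem Flat_b_inv {G : SimpleGraph V} (D : PG G P) (p : P) (v : V) :
    D.b p⁻¹ v = - D.b p v := by
  have h := D.b_mul p⁻¹ p v
  rw [inv_mul_cancel, Flat_b_one] at h
  exact eq_neg_of_add_eq_zero_left h.symm

private theorem Flat_b_closure {G : SimpleGraph V} (D : PG G P) (S : Set V)
    (v : V) (hv : v ∉ S) (q : P) (hq : q ∈ Subgroup.closure (D.g '' S)) : D.b q v = 0 := by
  induction hq using Subgroup.closure_induction with
  | mem x hx =>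
    obtain ⟨u, hu, rfl⟩ := hx
    rw [D.b_g, if_neg]
    rintro rfl
    exact hv hu
  | one => exact Flat_b_one D v
  | mul x y _ _ hx hy => rw [D.b_mul, hx, hy, add_zero]
  | inv x _ hx => rw [Flat_b_inv, hx, neg_zero]

/-- the subgroup of a clique with one more vertex -/
private theorem Flat_dec {G : SimpleGraph V} (D : PG G P) {s : Finset V} {v : V} (hv : v ∉ s)
    (hcl : G.IsClique ((insert v s : Finset V) : Set V)) (q : P) :
    q ∈ Subgroup.closure (D.g '' ((insert v s : Finset V) : Set V)) ↔
      (q ∈ Subgroup.closure (D.g '' (s : Set V)) ∨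
        D.g v * q ∈ Subgroup.closure (D.g '' (s : Set V))) := by
  have hcomm : ∀ r ∈ Subgroup.closure (D.g '' (s : Set V)), D.g v * r = r * D.g v := by
    intro r hr
    induction hr using Subgroup.closure_induction with
    | mem x hx =>
      obtain ⟨u, hu, rfl⟩ := hx
      have hne : v ≠ u := by
        rintro rfl
        exact hv (mem_coe.1 hu)
      exact D.comm v u (hcl (by rw [coe_insert]; exact Set.mem_insert _ _)
        (by rw [coe_insert]; exact Set.mem_insert_of_mem _ hu) hne)
    | one => rw [mul_one, one_mul]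
    | mul x y _ _ hx hy => rw [← mul_assoc, hx, mul_assoc, hy, mul_assoc]
    | inv x _ hx =>
      rw [mul_inv_eq_iff_eq_mul, mul_assoc, hx, inv_mul_cancel_left]
  have hsq : D.g v * D.g v = 1 := D.sq v
  have hgq : ∀ q : P, D.g v * (D.g v * q) = q := by
    intro q
    rw [← mul_assoc, hsq, one_mul]
  have hmono : Subgroup.closure (D.g '' (s : Set V)) ≤
      Subgroup.closure (D.g '' ((insert v s : Finset V) : Set V)) :=
    Subgroup.closure_mono (Set.image_mono (coe_subset.2 (subset_insert v s)))
  have hgv : D.g v ∈ Subgroup.closure (D.g '' ((insert v s : Finset V) : Set V)) :=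
    Subgroup.subset_closure ⟨v, mem_coe.2 (mem_insert_self v s), rfl⟩
  constructor
  · intro hq
    induction hq using Subgroup.closure_induction with
    | mem x hx =>
      obtain ⟨u, hu, rfl⟩ := hx
      rw [coe_insert] at hu
      rcases hu with rfl | hu
      · right
        rw [hsq]
        exact Subgroup.one_mem _
      · exact Or.inl (Subgroup.subset_closure ⟨u, hu, rfl⟩)
    | one => exact Or.inl (Subgroup.one_mem _)
    | mul x y _ _ hx hy =>
      rcases hx with hx | hx <;> rcases hy with hy | hy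
      · exact Or.inl (Subgroup.mul_mem _ hx hy)
      · right
        have h := Subgroup.mul_mem _ hx hy
        rwa [← mul_assoc, ← hcomm x hx, mul_assoc] at h
      · right
        have h := Subgroup.mul_mem _ hx hy
        rwa [mul_assoc] at h
      · left
        have h := Subgroup.mul_mem _ hx hy
        have e : D.g v * x * D.g v = x := by rw [← hcomm _ hx, hgq]
        rwa [← mul_assoc (D.g v * x), e] at h
    | inv x _ hx =>
      rcases hx with hx | hx
      · exact Or.inl (Subgroup.inv_mem _ hx)
      · right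
        have h := Subgroup.inv_mem _ hx
        have hinv : (D.g v)⁻¹ = D.g v := inv_eq_of_mul_eq_one_left hsq
        rw [mul_inv_rev, hinv] at h
        have e : D.g v * (x⁻¹ * D.g v) = x⁻¹ := by
          rw [hcomm _ h, mul_assoc, hsq, mul_one]
        have e2 : D.g v * x⁻¹ = x⁻¹ * D.g v := by
          rw [← hgq (x⁻¹ * D.g v), e]
        rwa [e2]
  · rintro (h | h)
    · exact hmono h
    · have h2 := Subgroup.mul_mem _ hgv (hmono h)
      rwa [hgq] at h2

private theorem Flat_sub {G : SimpleGraph V} {s : Finset V} {v : V}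
    (hcl : G.IsClique ((insert v s : Finset V) : Set V)) : G.IsClique (s : Set V) :=
  hcl.subset (coe_subset.2 (subset_insert v s))

/-- an element of the subgroup of a clique with zero bits on the clique is trivial -/
private theorem Flat_clique {G : SimpleGraph V} (D : PG G P) (s : Finset V) :
    G.IsClique (s : Set V) → ∀ q ∈ Subgroup.closure (D.g '' (s : Set V)),
      (∀ v ∈ s, D.b q v = 0) → q = 1 := by
  induction s using Finset.induction_on with
  | empty =>
    intro _ q hq _
    rw [coe_empty, Set.image_empty, Subgroup.closure_empty] at hq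
    exact Subgroup.mem_bot.1 hq
  | insert v s hv ih =>
    intro hcl q hq hb
    rcases (Flat_dec D hv hcl q).1 hq with h | h
    · exact ih (Flat_sub hcl) _ h fun u hu => hb u (mem_insert_of_mem hu)
    · exfalso
      have h1 := Flat_b_closure D _ v (fun h => hv (mem_coe.1 h)) _ h
      rw [D.b_mul, D.b_g, if_pos rfl, hb v (mem_insert_self _ _), add_zero] at h1
      exact one_ne_zero h1

/-- a coset of the subgroup of a clique contains an element with bits zero on the clique -/
private theorem Flat_rep {G : SimpleGraph V} (D : PG G P) (q : P) (s : Finset V) :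
    ∃ p, (∀ v ∈ s, D.b p v = 0) ∧ p⁻¹ * q ∈ Subgroup.closure (D.g '' (s : Set V)) := by
  induction s using Finset.induction_on with
  | empty =>
    refine ⟨q, fun v hv => absurd hv (notMem_empty v), ?_⟩
    rw [inv_mul_cancel]
    exact Subgroup.one_mem _
  | insert v s hv ih =>
    obtain ⟨p, h1, h2⟩ := ih
    have hmono : Subgroup.closure (D.g '' (s : Set V)) ≤
        Subgroup.closure (D.g '' ((insert v s : Finset V) : Set V)) :=
      Subgroup.closure_mono (Set.image_mono (coe_subset.2 (subset_insert v s)))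
    have hgv : D.g v ∈ Subgroup.closure (D.g '' ((insert v s : Finset V) : Set V)) :=
      Subgroup.subset_closure ⟨v, mem_coe.2 (mem_insert_self v s), rfl⟩
    have h01 : ∀ a : ZMod 2, a = 0 ∨ a + 1 = 0 := by decide
    rcases h01 (D.b p v) with h | h
    · refine ⟨p, fun u hu => ?_, hmono h2⟩
      rcases mem_insert.1 hu with rfl | hu
      · exact h
      · exact h1 u hu
    · refine ⟨p * D.g v, fun u hu => ?_, ?_⟩
      · rcases mem_insert.1 hu with rfl | hu
        · rw [D.b_mul, D.b_g, if_pos rfl, h]
        · rw [D.b_mul, D.b_g, if_neg (fun e : v = u => hv (e ▸ hu)), h1 u hu, add_zero]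
      · rw [mul_inv_rev, mul_assoc]
        exact Subgroup.mul_mem _ (Subgroup.inv_mem _ hgv) (hmono h2)

open Classical in
/-- the cell of the type `B` at `p` in the link of `s`, as a chain -/
private noncomputable def Flat_cell {G : SimpleGraph V} (D : PG G P) (s B : Finset V) (p : P) :
    Finset V → P → F2 := fun σ q =>
  if σ = B ∧ p⁻¹ * q ∈ Subgroup.closure (D.g '' ((s ∪ B : Finset V) : Set V)) then 1 else 0

private theorem Flat_cell_ne {G : SimpleGraph V} (D : PG G P) {s B σ : Finset V} (h : σ ≠ B)
    (p : P) : Flat_cell D s B p σ = 0 := by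
  funext q
  exact if_neg fun h' => h h'.1

open Classical in
private theorem Flat_cell_eq {G : SimpleGraph V} (D : PG G P) (s B : Finset V) (p q : P) :
    Flat_cell D s B p B q =
      if p⁻¹ * q ∈ Subgroup.closure (D.g '' ((s ∪ B : Finset V) : Set V)) then 1 else 0 := by
  unfold Flat_cell
  by_cases h : p⁻¹ * q ∈ Subgroup.closure (D.g '' ((s ∪ B : Finset V) : Set V))
  · rw [if_pos h, if_pos ⟨rfl, h⟩]
  · rw [if_neg h, if_neg fun h' => h h'.2]

private theorem Flat_cell_inv {G : SimpleGraph V} (D : PG G P) {s B : Finset V} {v : V}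
    (hv : v ∈ s ∪ B) (p : P) : Flat_cell D s B (p * D.g v) = Flat_cell D s B p := by
  classical
  funext σ
  by_cases h : σ = B
  · subst h
    funext q
    rw [Flat_cell_eq, Flat_cell_eq]
    have hg : (D.g v)⁻¹ ∈ Subgroup.closure (D.g '' ((s ∪ σ : Finset V) : Set V)) :=
      Subgroup.inv_mem _ (Subgroup.subset_closure ⟨v, mem_coe.2 hv, rfl⟩)
    have e : (p * D.g v)⁻¹ * q ∈ Subgroup.closure (D.g '' ((s ∪ σ : Finset V) : Set V)) ↔
        p⁻¹ * q ∈ Subgroup.closure (D.g '' ((s ∪ σ : Finset V) : Set V)) := by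
      rw [mul_inv_rev, mul_assoc]
      exact Subgroup.mul_mem_cancel_left _ hg
    rw [if_congr e rfl rfl]
  · rw [Flat_cell_ne D h, Flat_cell_ne D h]

private theorem Flat_cell_mem {G : SimpleGraph V} (D : PG G P) {s A : Finset V}
    (hd : Disjoint s A) (hcl : G.IsClique ((s ∪ A : Finset V) : Set V)) (p : P) :
    Flat_cell D s A p ∈ Ch (res s (Sy (Cq G univ) (regP D.g))) A.card := by
  classical
  intro σ
  by_cases h : σ = A
  · subst h
    refine ⟨⟨⟨fun hn => absurd ⟨hcl, subset_univ _⟩ hn, fun v hv => ?_⟩, fun hn => absurd hd hn⟩,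
      fun hn => absurd rfl hn⟩
    funext q
    show Flat_cell D s σ p σ (q * D.g v) = Flat_cell D s σ p σ q
    rw [Flat_cell_eq, Flat_cell_eq]
    have hg : D.g v ∈ Subgroup.closure (D.g '' ((s ∪ σ : Finset V) : Set V)) :=
      Subgroup.subset_closure ⟨v, mem_coe.2 hv, rfl⟩
    have e : p⁻¹ * (q * D.g v) ∈ Subgroup.closure (D.g '' ((s ∪ σ : Finset V) : Set V)) ↔
        p⁻¹ * q ∈ Subgroup.closure (D.g '' ((s ∪ σ : Finset V) : Set V)) := by
      rw [← mul_assoc]
      exact Subgroup.mul_mem_cancel_right _ hg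
    rw [if_congr e rfl rfl]
  · rw [Flat_cell_ne D h]
    exact ⟨Submodule.zero_mem _, fun _ => rfl⟩

private theorem Flat_cell_dd {G : SimpleGraph V} (D : PG G P) {s A : Finset V}
    (hd : Disjoint s A) (hcl : G.IsClique ((s ∪ A : Finset V) : Set V)) (p : P) :
    dd (Flat_cell D s A p) =
      ∑ v ∈ A, (Flat_cell D s (A.erase v) p + Flat_cell D s (A.erase v) (p * D.g v)) := by
  classical
  funext τ
  rw [dd_apply, Finset.sum_apply]
  by_cases h : ∃ v ∈ A, τ = A.erase v
  · obtain ⟨v, hv, rfl⟩ := h
    rw [sum_eq_single v, sum_eq_single v, insert_erase hv]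
    · funext q
      rw [Pi.add_apply, Pi.add_apply, Flat_cell_eq, Flat_cell_eq, Flat_cell_eq]
      have hvs : v ∉ s ∪ A.erase v := by
        rw [mem_union, not_or]
        exact ⟨fun h => disjoint_left.1 hd h hv, notMem_erase v A⟩
      have e : insert v (s ∪ A.erase v) = s ∪ A := by
        rw [← union_insert, insert_erase hv]
      have h1 := Flat_dec D hvs (by rw [e]; exact hcl) (p⁻¹ * q)
      rw [e] at h1
      have hinv : (D.g v)⁻¹ = D.g v := inv_eq_of_mul_eq_one_left (D.sq v)
      have h2 : (p * D.g v)⁻¹ * q = D.g v * (p⁻¹ * q) := by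
        rw [mul_inv_rev, hinv, mul_assoc]
      rw [h2]
      by_cases h3 : p⁻¹ * q ∈ Subgroup.closure (D.g '' ((s ∪ A.erase v : Finset V) : Set V))
      · have h4 : D.g v * (p⁻¹ * q) ∉
            Subgroup.closure (D.g '' ((s ∪ A.erase v : Finset V) : Set V)) := by
          intro h4
          have h5 := Flat_b_closure D _ v (fun h => hvs (mem_coe.1 h)) _ h4
          have h6 := Flat_b_closure D _ v (fun h => hvs (mem_coe.1 h)) _ h3
          rw [D.b_mul, D.b_g, if_pos rfl, h6, add_zero] at h5
          exact one_ne_zero h5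
        rw [if_pos (h1.2 (Or.inl h3)), if_pos h3, if_neg h4, add_zero]
      · by_cases h4 : D.g v * (p⁻¹ * q) ∈
            Subgroup.closure (D.g '' ((s ∪ A.erase v : Finset V) : Set V))
        · rw [if_pos (h1.2 (Or.inr h4)), if_neg h3, if_pos h4, zero_add]
        · have h5 : ¬ p⁻¹ * q ∈ Subgroup.closure (D.g '' ((s ∪ A : Finset V) : Set V)) := by
            intro h5
            rcases h1.1 h5 with h6 | h6
            · exact h3 h6
            · exact h4 h6
          rw [if_neg h5, if_neg h3, if_neg h4, add_zero]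
    · intro w hw hwv
      have h1 : A.erase v ≠ A.erase w := by
        intro h1
        have h2 : w ∈ A.erase v := mem_erase.2 ⟨hwv, hw⟩
        rw [h1] at h2
        exact notMem_erase w A h2
      rw [Pi.add_apply, Flat_cell_ne D h1, Flat_cell_ne D h1, add_zero]
    · exact fun h => absurd hv h
    · intro w hw hwv
      refine Flat_cell_ne D (fun h1 => hwv ?_) p
      have h2 : w ∈ A := by
        rw [← h1]
        exact mem_insert_self _ _
      by_contra h3
      exact (mem_compl.1 hw) (mem_erase.2 ⟨h3, h2⟩)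
    · intro h
      exact absurd (mem_compl.2 (notMem_erase v A)) h
  · rw [sum_eq_zero, sum_eq_zero]
    · intro v hv
      have h1 : τ ≠ A.erase v := fun e => h ⟨v, hv, e⟩
      rw [Pi.add_apply, Flat_cell_ne D h1, Flat_cell_ne D h1, add_zero]
    · intro w hw
      refine Flat_cell_ne D (fun h1 => h ⟨w, ?_, ?_⟩) p
      · rw [← h1]
        exact mem_insert_self _ _
      · rw [← h1, erase_insert (mem_compl.1 hw)]

/-- chains are combinations of cells -/
private theorem Flat_expand {G : SimpleGraph V} (D : PG G P) {s : Finset V} {j : ℕ}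
    {y : Finset V → P → F2} (hy : y ∈ Ch (res s (Sy (Cq G univ) (regP D.g))) j) :
    y = ∑ σ : Finset V, ∑ p ∈ univ.filter (fun p => ∀ v ∈ s ∪ σ, D.b p v = 0),
      y σ p • Flat_cell D s σ p := by
  classical
  funext τ
  funext q
  simp only [Finset.sum_apply, Pi.smul_apply, smul_eq_mul]
  rw [sum_eq_single τ]
  · by_cases hcl : Cq G univ (s ∪ τ)
    · have hinv : ∀ x ∈ Subgroup.closure (D.g '' ((s ∪ τ : Finset V) : Set V)), ∀ p,
          y τ (p * x) = y τ p := by
        intro x hx
        induction hx using Subgroup.closure_induction with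
        | mem x hx =>
          obtain ⟨v, hv, rfl⟩ := hx
          intro p
          exact congrFun ((hy τ).1.1.2 v (mem_coe.1 hv)) p
        | one =>
          intro p
          rw [mul_one]
        | mul x x' _ _ hx hx' =>
          intro p
          rw [← mul_assoc, hx', hx]
        | inv x _ hx =>
          intro p
          rw [← hx (p * x⁻¹), inv_mul_cancel_right]
      obtain ⟨p, hp, hpq⟩ := Flat_rep D q (s ∪ τ)
      rw [sum_eq_single p]
      · rw [Flat_cell_eq, if_pos hpq, mul_one]
        have h1 := hinv _ hpq p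
        rwa [mul_inv_cancel_left] at h1
      · intro p' hp' hne
        rw [Flat_cell_eq, if_neg, mul_zero]
        intro h1
        apply hne
        have h2 := Subgroup.mul_mem _ h1 (Subgroup.inv_mem _ hpq)
        rw [mul_inv_rev, inv_inv, mul_assoc, mul_inv_cancel_left] at h2
        have h3 := Flat_clique D (s ∪ τ) hcl.1 _ h2 fun v hv => by
          rw [D.b_mul, Flat_b_inv, (mem_filter.1 hp').2 v hv, hp v hv, neg_zero, add_zero]
        exact (inv_mul_eq_one.1 h3)
      · intro h1
        exact absurd (mem_filter.2 ⟨mem_univ p, hp⟩) h1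
    · have h0 : y τ = 0 := (hy τ).1.1.1 hcl
      rw [h0]
      exact (sum_eq_zero fun p _ => by rw [Pi.zero_apply, zero_mul]).symm
  · intro σ _ hσ
    refine sum_eq_zero fun p _ => ?_
    rw [Flat_cell_ne D (fun e => hσ e.symm), Pi.zero_apply, mul_zero]
  · exact fun h => absurd (mem_univ τ) h

private theorem Flat_cst (a : ZMod 2) : cst (ZMod 2) a = a := by
  have h : ∀ a : ZMod 2, (if a = 0 then (0 : ZMod 2) else 1) = a := by decide
  exact h a

/-- **The restriction to the link of `s` is a boundary.** `y = ph s z` is a cycle of degree `i - |s|` of the system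
`res s (Sy (Cq G univ) (regP D.g))`. If it is not a boundary, there is a linear form `λ` on the functions
`Finset V → P → F2` which vanishes on the boundaries and not on `y` (finite dimension). On the chains
`Ch (res s (Sy ..)) (i - |s|)` it has the form `λ y = ∑ σ, ∑ p (bits 0 on s ∪ σ), γ σ p * y σ p` (`y σ` is invariant
under the `g v`, `v ∈ s ∪ σ`; `σ` cliques of `lkF G s`). Applied to the boundaries of single cells: `γ` is a cocycle:
`∑ v ∈ σ', (γ (σ' - v) p + γ (σ' - v) (p g_v)) = 0` for cliques `σ'` of `lkF G s` with `i - |s| + 1` elements and `p`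
with bits `0` on `s ∪ σ'`. Decompose `λ` along the cosets `p₀ P_(s ∪ lkF s)` (flats, `p₀` with bits `0` on `s`); one of
the parts is not `0` at `y`. With the retraction `r` for the set `lkF G s` put
`γ' B p = if B ⊆ lkF G s then γ B (p₀ * r (p₀⁻¹ * p)) else 0`. This is a cocycle on all of `P` (`Coc D (i - |s|) γ'`):
`A ⊆ lkF s`: the cocycle condition of `γ` at the point `p₀ r (p₀⁻¹ p)`, whose bits vanish on `s ∪ A`; if exactly one
`v ∈ A` is not in `lkF s`, then `r (g v) = 1` and the two terms agree. On the vertices `p` of the flat with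
bits `0` on `s` we have `p₀ * r (p₀⁻¹ * p) = p`. So the orthogonality in `TL` (for `γ'`, `p₀`; `cst F2 a = a`, `wl_inter`
for the description of `fl D s A p₀`) says that this part vanishes at `y`. -/
theorem flat {G : SimpleGraph V} (D : PG G P) (hR : Ret D.g) {s : Finset V}
    (hs : G.IsClique (s : Set V)) (hne : s.Nonempty) {i : ℕ} (hsi : s.card ≤ i)
    {z : Finset V → P → ZMod 2} (hz : z ∈ TL (ZMod 2) D i s) :
    ph s z ∈ (Ch (res s (Sy (Cq G univ) (regP D.g))) (i - s.card + 1)).map dd := by
  classical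
  by_contra hnot
  obtain ⟨lam, hlam, hB⟩ := Submodule.exists_dual_map_eq_bot_of_notMem hnot inferInstance
  have hB' : ∀ f ∈ Ch (res s (Sy (Cq G univ) (regP D.g))) (i - s.card + 1), lam (dd f) = 0 := by
    intro f hf
    have h1 : lam (dd f) ∈ ((Ch (res s (Sy (Cq G univ) (regP D.g))) (i - s.card + 1)).map dd).map
        lam := ⟨dd f, ⟨f, hf, rfl⟩, rfl⟩
    rw [hB] at h1
    exact (Submodule.mem_bot F2).1 h1
  apply hlam
  obtain ⟨hZ, hT⟩ := mem_TL.1 hz
  obtain ⟨hz1, hz2, -⟩ := mem_Zs.1 hZ
  have hz1' : ∀ A : Finset V, ¬ (G.IsClique (A : Set V) ∧ A.card = i) → z A = 0 := by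
    intro A hA
    by_contra h
    exact hA (hz1 A h)
  have hph : ∀ σ, Disjoint s σ → ph s z σ = z (s ∪ σ) := fun σ h => if_pos h
  have hph' : ∀ σ, ¬ Disjoint s σ → ph s z σ = 0 := fun σ h => if_neg h
  -- the restriction is a chain
  have hy : ph s z ∈ Ch (res s (Sy (Cq G univ) (regP D.g))) (i - s.card) := by
    intro σ
    by_cases hd : Disjoint s σ
    · rw [hph σ hd]
      refine ⟨⟨⟨fun hn => hz1' _ fun h => hn ⟨h.1, subset_univ _⟩, fun v hv => hz2 _ v hv⟩,
        fun h => absurd hd h⟩, fun hn => hz1' _ fun h => hn ?_⟩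
      have h1 := h.2
      rw [card_union_of_disjoint hd] at h1
      omega
    · rw [hph' σ hd]
      exact ⟨Submodule.zero_mem _, fun _ => rfl⟩
  -- the cocycle
  obtain ⟨γ, hγ⟩ : ∃ γ : Finset V → P → ZMod 2, ∀ B p, γ B p = lam (Flat_cell D s B p) :=
    ⟨fun B p => lam (Flat_cell D s B p), fun _ _ => rfl⟩
  have hγ1 : ∀ B, ∀ v ∈ s ∪ B, ∀ p, γ B (p * D.g v) = γ B p := by
    intro B v hv p
    rw [hγ, hγ, Flat_cell_inv D hv]
  have hγ2 : ∀ A, Disjoint s A → G.IsClique ((s ∪ A : Finset V) : Set V) →
      A.card = i - s.card + 1 → ∀ p, ∑ v ∈ A, (γ (A.erase v) p + γ (A.erase v) (p * D.g v)) = 0 := by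
    intro A hd hcl hc p
    have h1 := hB' _ (hc ▸ Flat_cell_mem D hd hcl p)
    rw [Flat_cell_dd D hd hcl, map_sum] at h1
    rw [← h1]
    refine sum_congr rfl fun v _ => ?_
    rw [hγ, hγ, map_add]
  have hlk : ∀ A, A ⊆ lkF G s → G.IsClique (A : Set V) →
      Disjoint s A ∧ G.IsClique ((s ∪ A : Finset V) : Set V) := by
    intro A hA hcl
    have h3 : ∀ v ∈ s, ∀ w ∈ A, G.Adj v w := fun v hv w hw => Flat_lkF.1 (hA hw) v hv
    refine ⟨disjoint_left.2 fun v hv hw => (h3 v hv v hw).ne rfl, fun a ha b hb hab => ?_⟩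
    rcases mem_union.1 (mem_coe.1 ha) with ha | ha
    · rcases mem_union.1 (mem_coe.1 hb) with hb | hb
      · exact hs (mem_coe.2 ha) (mem_coe.2 hb) hab
      · exact h3 a ha b hb
    · rcases mem_union.1 (mem_coe.1 hb) with hb | hb
      · exact (h3 b hb a ha).symm
      · exact hcl (mem_coe.2 ha) (mem_coe.2 hb) hab
  -- the subgroup of the flats
  obtain ⟨H, hH⟩ : ∃ H : Subgroup P,
      H = Subgroup.closure (D.g '' ((s ∪ lkF G s : Finset V) : Set V)) := ⟨_, rfl⟩
  have hHw : ∀ x, (∀ v ∈ s, x ∈ wl D v) ↔ x ∈ H := by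
    intro x
    constructor
    · intro h
      rw [hH]
      exact wl_inter D hR hs hne h
    · intro h v hv
      rw [hH] at h
      refine Subgroup.closure_mono (Set.image_mono ?_) h
      intro u hu
      rcases mem_union.1 (mem_coe.1 hu) with hu | hu
      · by_cases e : u = v
        · exact Or.inl e
        · exact Or.inr (hs (mem_coe.2 hv) (mem_coe.2 hu) fun e' => e e'.symm)
      · exact Or.inr (Flat_lkF.1 hu v hv)
  obtain ⟨r, hr⟩ := hR.ret (s ∪ lkF G s)
  have hrH : ∀ x ∈ H, r x = x := by
    intro x hx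
    rw [hH] at hx
    exact ret_eq hr hx
  have h2 : ∀ a : ZMod 2, a + a = 0 := by decide
  -- the relation for one flat
  have hflat : ∀ c : P ⧸ H, ∑ A ∈ (univ : Finset (Finset V)).filter (fun A => s ⊆ A),
      ∑ p ∈ univ.filter (fun p => (∀ v ∈ A, D.b p v = 0) ∧ (p : P ⧸ H) = c),
        z A p * γ (A \ s) p = 0 := by
    intro c
    obtain ⟨p₀, hp₀⟩ : ∃ p₀ : P, (p₀ : P ⧸ H) = c := ⟨c.out, QuotientGroup.out_eq' c⟩
    have hcoc : Coc D (i - s.card)
        (fun B p => if B ⊆ lkF G s then γ B (p₀ * r (p₀⁻¹ * p)) else 0) := by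
      intro A hA hc p _
      have hrg : ∀ v, p₀ * r (p₀⁻¹ * (p * D.g v)) = p₀ * r (p₀⁻¹ * p) * r (D.g v) := by
        intro v
        rw [← mul_assoc p₀⁻¹, map_mul, mul_assoc p₀]
      by_cases hsub : A ⊆ lkF G s
      · have h3 := hγ2 A (hlk A hsub hA).1 (hlk A hsub hA).2 hc (p₀ * r (p₀⁻¹ * p))
        rw [← h3]
        refine sum_congr rfl fun v hv => ?_
        have h4 : A.erase v ⊆ lkF G s := (erase_subset v A).trans hsub
        simp only [if_pos h4]
        rw [hrg, hr, if_pos (mem_union_right _ (hsub hv))]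
      · obtain ⟨u, hu, hul⟩ : ∃ u ∈ A, u ∉ lkF G s := by
          by_contra h
          push Not at h
          exact hsub h
        refine sum_eq_zero fun v hv => ?_
        by_cases hvu : v = u
        · subst hvu
          by_cases h4 : A.erase v ⊆ lkF G s
          · simp only [if_pos h4]
            rw [hrg, hr]
            split_ifs with h5
            · rw [hγ1 _ v (mem_union_left _ ((mem_union.1 h5).resolve_right hul)), h2]
            · rw [mul_one, h2]
          · simp only [if_neg h4]
            rfl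
        · have h4 : ¬ A.erase v ⊆ lkF G s := fun h =>
            hul (h (mem_erase.2 ⟨fun e => hvu e.symm, hu⟩))
          simp only [if_neg h4]
          rfl
    have h3 := hT _ hcoc p₀
    refine Eq.trans (sum_congr rfl fun A hA => ?_) h3
    have hsA : s ⊆ A := (mem_filter.1 hA).2
    by_cases hzA : z A = 0
    · rw [hzA]
      simp only [Pi.zero_apply, zero_mul, mul_zero, sum_const_zero]
    · have hclA := (hz1 A hzA).1
      have hAl : A \ s ⊆ lkF G s := by
        intro w hw
        rw [mem_sdiff] at hw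
        exact Flat_lkF.2 fun v hv => hclA (mem_coe.2 (hsA hv)) (mem_coe.2 hw.1)
          fun e => hw.2 (e ▸ hv)
      have hfl : fl D s A p₀ =
          univ.filter (fun p => (∀ v ∈ A, D.b p v = 0) ∧ (p : P ⧸ H) = c) := by
        unfold fl
        ext p
        rw [mem_filter, mem_filter, hHw, ← hp₀, eq_comm (a := (p : P ⧸ H)), QuotientGroup.eq]
      rw [hfl]
      refine sum_congr rfl fun p hp => ?_
      have h5 : p₀⁻¹ * p ∈ H := by
        rw [← QuotientGroup.eq, hp₀]
        exact (mem_filter.1 hp).2.2.symm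
      rw [Flat_cst, if_pos hAl, hrH _ h5, mul_inv_cancel_left, mul_comm]
  -- conclusion
  have hex := Flat_expand D hy
  have hval : lam (ph s z) = ∑ σ : Finset V,
      ∑ p ∈ univ.filter (fun p => ∀ v ∈ s ∪ σ, D.b p v = 0), ph s z σ p * γ σ p := by
    conv_lhs => rw [hex]
    rw [map_sum]
    refine sum_congr rfl fun σ _ => ?_
    rw [map_sum]
    refine sum_congr rfl fun p _ => ?_
    rw [map_smul, smul_eq_mul, hγ]
  have hval2 : lam (ph s z) = ∑ A ∈ (univ : Finset (Finset V)).filter (fun A => s ⊆ A),
      ∑ p ∈ univ.filter (fun p => ∀ v ∈ A, D.b p v = 0), z A p * γ (A \ s) p := by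
    rw [hval, ← sum_filter_add_sum_filter_not univ (fun σ => Disjoint s σ)]
    have h5 : ∑ σ ∈ univ.filter (fun σ => ¬ Disjoint s σ),
        ∑ p ∈ univ.filter (fun p => ∀ v ∈ s ∪ σ, D.b p v = 0), ph s z σ p * γ σ p = 0 := by
      refine sum_eq_zero fun σ hσ => sum_eq_zero fun p _ => ?_
      rw [hph' σ (mem_filter.1 hσ).2, Pi.zero_apply, zero_mul]
    rw [h5, add_zero]
    refine sum_nbij' (fun σ => s ∪ σ) (fun A => A \ s) ?_ ?_ ?_ ?_ ?_
    · intro σ _
      exact mem_filter.2 ⟨mem_univ _, subset_union_left⟩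
    · intro A _
      exact mem_filter.2 ⟨mem_univ _, disjoint_sdiff⟩
    · intro σ hσ
      exact union_sdiff_cancel_left (mem_filter.1 hσ).2
    · intro A hA
      exact union_sdiff_of_subset (mem_filter.1 hA).2
    · intro σ hσ
      have hd : Disjoint s σ := (mem_filter.1 hσ).2
      refine sum_congr rfl fun p _ => ?_
      rw [hph σ hd, union_sdiff_cancel_left hd]
  rw [hval2]
  have hfib : ∀ A : Finset V, ∑ p ∈ univ.filter (fun p => ∀ v ∈ A, D.b p v = 0),
      z A p * γ (A \ s) p = ∑ c : P ⧸ H,
        ∑ p ∈ univ.filter (fun p => (∀ v ∈ A, D.b p v = 0) ∧ (p : P ⧸ H) = c),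
          z A p * γ (A \ s) p := by
    intro A
    rw [← sum_fiberwise (univ.filter (fun p => ∀ v ∈ A, D.b p v = 0)) (fun p : P => (p : P ⧸ H))]
    refine sum_congr rfl fun c _ => ?_
    rw [filter_filter]
  rw [sum_congr rfl fun A _ => hfib A, sum_comm]
  exact sum_eq_zero fun c _ => hflat c

end Pool.Agent.H19.SR
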