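import Pool.Agent.H19.SR.Defs

/-!
# Project SR, module M3: change of the frame
-/

set_option autoImplicit false
set_option linter.unusedSectionVars false

open Finset

namespace Pool.Agent.H19.SR

variable {V : Type} [DecidableEq V] {R : Type} [CommRing R]

/-- the product of two elements after the change of the frame `1 + c E_u` -/
private theorem inv_one [CharP R 2] (u : V) (c : R) {X X' Y Y' : Finset V → R}
    (hX : ∀ A, X A = X' A + if u ∈ A then c * X' (A.erase u) else 0)
    (hY : ∀ A, Y A = Y' A + if u ∈ A then c * Y' (A.erase u) else 0) (ρ : Finset V) :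
    ∑ A ∈ ρ.powerset, X A * Y (ρ \ A) = ∑ A ∈ ρ.powerset, X' A * Y' (ρ \ A) := by
  by_cases hu : u ∈ ρ
  · obtain ⟨σ, hσ, rfl⟩ : ∃ σ, u ∉ σ ∧ insert u σ = ρ :=
      ⟨ρ.erase u, Finset.notMem_erase u ρ, Finset.insert_erase hu⟩
    rw [Finset.sum_powerset_insert hσ, Finset.sum_powerset_insert hσ, ← Finset.sum_add_distrib,
      ← Finset.sum_add_distrib]
    refine Finset.sum_congr rfl fun A hA => ?_
    have hA' := Finset.mem_powerset.1 hA
    have huA : u ∉ A := fun h => hσ (hA' h)
    have h1 : insert u σ \ A = insert u (σ \ A) := Finset.insert_sdiff_of_notMem σ huA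
    have h2 : insert u σ \ insert u A = σ \ A := by
      ext w
      simp only [Finset.mem_sdiff, Finset.mem_insert]
      constructor
      · rintro ⟨h3 | h3, h4⟩
        · exact absurd (Or.inl h3) h4
        · exact ⟨h3, fun h5 => h4 (Or.inr h5)⟩
      · rintro ⟨h3, h4⟩
        refine ⟨Or.inr h3, ?_⟩
        rintro (h5 | h5)
        · exact hσ (h5 ▸ h3)
        · exact h4 h5
    have h3 : u ∉ σ \ A := fun h => hσ (Finset.mem_sdiff.1 h).1
    rw [h1, h2, hX A, if_neg huA, add_zero, hX (insert u A), if_pos (Finset.mem_insert_self u A),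
      Finset.erase_insert huA, hY (σ \ A), if_neg h3, add_zero, hY (insert u (σ \ A)),
      if_pos (Finset.mem_insert_self u _), Finset.erase_insert h3]
    have h4 : X' A * (Y' (insert u (σ \ A)) + c * Y' (σ \ A)) +
        (X' (insert u A) + c * X' A) * Y' (σ \ A) =
        X' A * Y' (insert u (σ \ A)) + X' (insert u A) * Y' (σ \ A) +
          (c * X' A * Y' (σ \ A) + c * X' A * Y' (σ \ A)) := by ring
    rw [h4, CharTwo.add_self_eq_zero, add_zero]
  · refine Finset.sum_congr rfl fun A hA => ?_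
    have hA' := Finset.mem_powerset.1 hA
    rw [hX, hY, if_neg fun h => hu (hA' h), if_neg fun h => hu (Finset.mem_sdiff.1 h).1, add_zero,
      add_zero]

private theorem VV_expand (ν : V → ℕ) (a : Finset V → Finset V → Finset V → R)
    (h : Finset V → R) (b : V) (ρ : Finset V) (m : ℕ) (B C : Finset V) :
    VV ν a h b ρ (m + 1) B C = ∑ M ∈ B.powersetCard m, ∑ D ∈ (B \ M).powerset,
      ∑ A ∈ ρ.powerset,
        (a (insert b A) (M ∪ D) (C ∪ ((B \ (M ∪ D)).filter fun v => ¬ Even (bel ν M v))) +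
          h C * a A (M ∪ D) (C ∪ ((B \ (M ∪ D)).filter fun v => ¬ Even (bel ν M v)))) *
        a (ρ \ A) (B \ D) (C ∪ D.filter fun v => Even (bel ν M v)) := by
  unfold VV cups cupc
  have h1 : ∀ A : Finset V,
      (∑ M ∈ B.powersetCard m, ∑ D ∈ (B \ M).powerset,
        a (insert b A) (M ∪ D) (C ∪ ((B \ (M ∪ D)).filter fun v => ¬ Even (bel ν M v))) *
          a (ρ \ A) (B \ D) (C ∪ D.filter fun v => Even (bel ν M v))) +
      h C * ∑ M ∈ B.powersetCard m, ∑ D ∈ (B \ M).powerset,
        a A (M ∪ D) (C ∪ ((B \ (M ∪ D)).filter fun v => ¬ Even (bel ν M v))) *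
          a (ρ \ A) (B \ D) (C ∪ D.filter fun v => Even (bel ν M v)) =
      ∑ M ∈ B.powersetCard m, ∑ D ∈ (B \ M).powerset,
        (a (insert b A) (M ∪ D) (C ∪ ((B \ (M ∪ D)).filter fun v => ¬ Even (bel ν M v))) +
          h C * a A (M ∪ D) (C ∪ ((B \ (M ∪ D)).filter fun v => ¬ Even (bel ν M v)))) *
        a (ρ \ A) (B \ D) (C ∪ D.filter fun v => Even (bel ν M v)) := by
    intro A
    rw [Finset.mul_sum, ← Finset.sum_add_distrib]
    refine Finset.sum_congr rfl fun M _ => ?_
    rw [Finset.mul_sum, ← Finset.sum_add_distrib]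
    exact Finset.sum_congr rfl fun D _ => by ring
  rw [Finset.sum_congr rfl fun A _ => h1 A, Finset.sum_comm]
  exact Finset.sum_congr rfl fun M _ => Finset.sum_comm

private theorem VV_inv [CharP R 2] {ν : V → ℕ} {a a' : Finset V → Finset V → Finset V → R}
    {h h' : Finset V → R} (u : V) (c : R)
    (ha : ∀ A B C : Finset V, u ∉ B → u ∉ C →
      a A B (insert u C) = a' A B C + if u ∈ A then c * a' (A.erase u) B C else 0)
    {b : V} (hhp : ∀ C : Finset V, u ∉ C → h (insert u C) = h' C + if b = u then c else 0)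
    {ρ : Finset V} (hb : b ∉ ρ) (j : ℕ) {B C : Finset V} (hB : u ∉ B) (hC : u ∉ C) :
    VV ν a h b ρ j B (insert u C) = VV ν a' h' b ρ j B C := by
  rcases j with _ | m
  · unfold VV cups
    simp
  · rw [VV_expand, VV_expand]
    refine Finset.sum_congr rfl fun M hM => Finset.sum_congr rfl fun D hD => ?_
    have hMB := (Finset.mem_powersetCard.1 hM).1
    have hDB : D ⊆ B := (Finset.mem_powerset.1 hD).trans Finset.sdiff_subset
    obtain ⟨X₁, hX₁⟩ : ∃ X₁, X₁ = (B \ (M ∪ D)).filter fun v => ¬ Even (bel ν M v) := ⟨_, rfl⟩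
    obtain ⟨X₂, hX₂⟩ : ∃ X₂, X₂ = D.filter fun v => Even (bel ν M v) := ⟨_, rfl⟩
    rw [← hX₁, ← hX₂, Finset.insert_union, Finset.insert_union]
    have huX₁ : u ∉ C ∪ X₁ := by
      rw [Finset.mem_union, hX₁]
      rintro (h1 | h1)
      · exact hC h1
      · exact hB (Finset.mem_sdiff.1 (Finset.mem_filter.1 h1).1).1
    have huX₂ : u ∉ C ∪ X₂ := by
      rw [Finset.mem_union, hX₂]
      rintro (h1 | h1)
      · exact hC h1
      · exact hB (hDB (Finset.mem_filter.1 h1).1)
    have huMD : u ∉ M ∪ D := fun h1 => hB (Finset.union_subset hMB hDB h1)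
    have huBD : u ∉ B \ D := fun h1 => hB (Finset.mem_sdiff.1 h1).1
    by_cases hbu : b = u
    · subst hbu
      refine Finset.sum_congr rfl fun A hA => ?_
      have hbA : b ∉ A := fun h1 => hb (Finset.mem_powerset.1 hA h1)
      have hbA' : b ∉ ρ \ A := fun h1 => hb (Finset.mem_sdiff.1 h1).1
      rw [ha _ _ _ huMD huX₁, ha _ _ _ huMD huX₁, ha _ _ _ huBD huX₂,
        if_pos (Finset.mem_insert_self b A), Finset.erase_insert hbA, if_neg hbA, if_neg hbA',
        add_zero, add_zero, hhp C hC, if_pos rfl]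
      have h4 : a' (insert b A) (M ∪ D) (C ∪ X₁) + c * a' A (M ∪ D) (C ∪ X₁) +
          (h' C + c) * a' A (M ∪ D) (C ∪ X₁) =
          a' (insert b A) (M ∪ D) (C ∪ X₁) + h' C * a' A (M ∪ D) (C ∪ X₁) +
            (c * a' A (M ∪ D) (C ∪ X₁) + c * a' A (M ∪ D) (C ∪ X₁)) := by ring
      rw [h4, CharTwo.add_self_eq_zero, add_zero]
    · apply inv_one u c (X := fun A => a (insert b A) (M ∪ D) (insert u (C ∪ X₁)) +
          h (insert u C) * a A (M ∪ D) (insert u (C ∪ X₁)))
        (X' := fun A => a' (insert b A) (M ∪ D) (C ∪ X₁) + h' C * a' A (M ∪ D) (C ∪ X₁))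
        (Y := fun A => a A (B \ D) (insert u (C ∪ X₂))) (Y' := fun A => a' A (B \ D) (C ∪ X₂))
      · intro A
        rw [ha _ _ _ huMD huX₁, ha _ _ _ huMD huX₁, hhp C hC, if_neg hbu, add_zero]
        have h1 : u ∈ insert b A ↔ u ∈ A := by
          rw [Finset.mem_insert]
          exact ⟨fun h2 => h2.resolve_left fun h3 => hbu h3.symm, Or.inr⟩
        by_cases huA : u ∈ A
        · rw [if_pos (h1.2 huA), if_pos huA, if_pos huA, Finset.erase_insert_of_ne hbu]
          ring
        · rw [if_neg fun h2 => huA (h1.1 h2), if_neg huA, if_neg huA]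
          ring
      · intro A
        exact ha _ _ _ huBD huX₂

/-- **Invariance of `VT`** (cf. `Pool.Agent.H37.TM.Inv`, `VT_smul`, with the relation `Corr`). The data `a, hp` at
the faces `(B, insert u C)` and the data `a', hp'` at the faces `(B, C)` correspond to each other by the change of
frame `1 + c E_u`: `a A = a' A + [u ∈ A] c a' (A - u)`, `hp u = hp' u + c`, `hp b = hp' b` for `b ≠ u`. The relation
must hold for all `B, C` which do not contain `u`. Main steps: for all `ρ`
`∑ A ∈ ρ.powerset, a A t * a (ρ \ A) t' = ∑ A ∈ ρ.powerset, a' A t * a' (ρ \ A) t'` (characteristic 2: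
`(1 + c E_u) ^ 2 = 1`) and for `b ∉ ρ`
`∑ A ∈ ρ.powerset, (a (insert b A) t + hp b w * a A t) * a (ρ \ A) t' = ` the same with `a', hp'`
(`t, t'` faces, `w` a vertex); then `cups` is a sum of products of values, so `VV` is invariant; `dcup` only
contains the sums `hp b w + hp b w'`. Note `C ∪ X` with `u ∉ X`: `insert u C ∪ X = insert u (C ∪ X)`. -/
theorem VT_inv [CharP R 2] {ν : V → ℕ} {a a' : Finset V → Finset V → Finset V → R}
    {hp hp' : V → Finset V → R} (u : V) (c : R)
    (ha : ∀ A B C : Finset V, u ∉ B → u ∉ C →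
      a A B (insert u C) = a' A B C + if u ∈ A then c * a' (A.erase u) B C else 0)
    (hhp : ∀ (b : V) (C : Finset V), u ∉ C → hp b (insert u C) = hp' b C + if b = u then c else 0)
    {q : ℕ} : ∀ (l : List V), l.Nodup → ∀ B C : Finset V, u ∉ B → u ∉ C →
      VT ν a hp q l B (insert u C) = VT ν a' hp' q l B C
  | [], _, _, _, _, _ => rfl
  | b :: l, hl, B, C, hB, hC => by
    obtain ⟨hb, hl'⟩ := List.nodup_cons.1 hl
    have hb' : b ∉ l.toFinset := fun h => hb (List.mem_toFinset.1 h)
    show (if l.length < q then VV ν a (hp b) b l.toFinset (q - l.length) B (insert u C) else 0) +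
        dcup (hp b) (VT ν a hp q l) B (insert u C) =
      (if l.length < q then VV ν a' (hp' b) b l.toFinset (q - l.length) B C else 0) +
        dcup (hp' b) (VT ν a' hp' q l) B C
    rw [VV_inv u c ha (hhp b) hb' _ hB hC]
    congr 1
    unfold dcup
    refine Finset.sum_congr rfl fun v hv => ?_
    have huv : u ≠ v := fun h => hB (h ▸ hv)
    have huC : u ∉ insert v C := by
      rw [Finset.mem_insert]
      rintro (h1 | h1)
      · exact huv h1
      · exact hC h1
    rw [Finset.insert_comm v u C, hhp b C hC, hhp b _ huC,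
      VT_inv u c ha hhp l hl' _ _ (fun h => hB (Finset.mem_of_mem_erase h)) huC]
    congr 1
    have h4 : ∀ x y z : R, x + z + (y + z) = x + y + (z + z) := fun x y z => by ring
    rw [h4, CharTwo.add_self_eq_zero, add_zero]

end Pool.Agent.H19.SR
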