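import Pool.Agent.H19.SR.Unst
import Pool.Agent.H19.SR.Inv

/-!
# Project SR, module M5: the relation for a twisted cocycle on the cube complex of `P`
-/

set_option autoImplicit false
set_option linter.unusedSectionVars false

open Finset

namespace Pool.Agent.H19.SR

open Pool.Agent.H77.SW

variable {V : Type} [DecidableEq V] [Fintype V] {P : Type} [Group P]

/-- the products of commuting marked elements -/
theorem gp_empty (g : V → P) : gp g ∅ = 1 := by
  simp [gp]

private theorem list_insert {G : SimpleGraph V} (D : PG G P) {C : Finset V} {v : V} (hv : v ∉ C)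
    (hC : G.IsClique ((insert v C : Finset V) : Set V)) : ∀ L : List V, L.Nodup →
      ((L.filter fun u => u ∈ insert v C).map D.g).prod =
        ((L.filter fun u => u ∈ C).map D.g).prod * if v ∈ L then D.g v else 1
  | [], _ => by simp
  | x :: L, hL => by
    have hx : x ∉ L := (List.nodup_cons.1 hL).1
    have ih := list_insert D hv hC L (List.nodup_cons.1 hL).2
    by_cases hxv : x = v
    · subst hxv
      have h1 : decide (x ∈ insert x C) = true := by simp
      have h2 : decide (x ∈ C) = false := by simpa using hv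
      rw [List.filter_cons_of_pos (by simp), List.filter_cons_of_neg (by simpa using hv)]
      rw [List.map_cons, List.prod_cons, ih, if_neg hx, mul_one, if_pos (List.mem_cons_self)]
      have h3 : Commute (D.g x) ((L.filter fun u => u ∈ C).map D.g).prod := by
        refine Commute.list_prod_right _ _ fun y hy => ?_
        obtain ⟨u, hu, rfl⟩ := List.mem_map.1 hy
        have hu' : u ∈ C := by simpa using (List.mem_filter.1 hu).2
        have hux : x ≠ u := fun h => hv (h ▸ hu')
        refine D.comm x u (hC ?_ ?_ hux)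
        · simp
        · simp [hu']
      exact h3
    · have h4 : (v ∈ x :: L) ↔ v ∈ L := by
        rw [List.mem_cons]
        constructor
        · rintro (h | h)
          · exact absurd h.symm hxv
          · exact h
        · exact Or.inr
      have h5 : (if v ∈ x :: L then D.g v else 1) = if v ∈ L then D.g v else 1 := by
        by_cases h : v ∈ L
        · rw [if_pos h, if_pos (h4.2 h)]
        · rw [if_neg h, if_neg (fun h' => h (h4.1 h'))]
      rw [h5]
      by_cases hxC : x ∈ C
      · rw [List.filter_cons_of_pos (by simp [hxC]), List.filter_cons_of_pos (by simpa using hxC),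
          List.map_cons, List.prod_cons, List.map_cons, List.prod_cons, ih, mul_assoc]
      · rw [List.filter_cons_of_neg (by simp [hxC, hxv]), List.filter_cons_of_neg
          (by simpa using hxC), ih]

theorem gp_insert {G : SimpleGraph V} (D : PG G P) {C : Finset V} {v : V} (hv : v ∉ C)
    (hC : G.IsClique ((insert v C : Finset V) : Set V)) : gp D.g (insert v C) = gp D.g C * D.g v := by
  have h := list_insert D hv hC (univ : Finset V).toList (Finset.nodup_toList _)
  rw [if_pos (Finset.mem_toList.2 (mem_univ v))] at h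
  exact h

private theorem gp_comm {G : SimpleGraph V} (D : PG G P) {C : Finset V} {v : V}
    (hC : G.IsClique ((insert v C : Finset V) : Set V)) :
    gp D.g C * D.g v = D.g v * gp D.g C := by
  have h3 : Commute (D.g v) (gp D.g C) := by
    refine Commute.list_prod_right _ _ fun y hy => ?_
    obtain ⟨u, hu, rfl⟩ := List.mem_map.1 hy
    have hu' : u ∈ C := by simpa using (List.mem_filter.1 hu).2
    by_cases hux : v = u
    · rw [hux]
    · refine D.comm v u (hC ?_ ?_ hux)
      · simp
      · simp [hu']
  exact h3.eq.symm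

private theorem star_list {K : Type} {G : SimpleGraph V} (D : PG G P) {t : V → P → K}
    (ht : StarInv D t) (v : V) : ∀ (L : List V), (∀ u ∈ L, u = v ∨ G.Adj v u) → ∀ p,
      t v (p * (L.map D.g).prod) = t v p
  | [], _, p => by simp
  | x :: L, h, p => by
    rw [List.map_cons, List.prod_cons, ← mul_assoc,
      star_list D ht v L (fun u hu => h u (List.mem_cons_of_mem _ hu)) (p * D.g x)]
    exact ht v x (h x List.mem_cons_self) p

private theorem star_gp {K : Type} {G : SimpleGraph V} (D : PG G P) {t : V → P → K}
    (ht : StarInv D t) {v : V} {C : Finset V}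
    (hC : G.IsClique ((insert v C : Finset V) : Set V)) (p : P) :
    t v (p * gp D.g C) = t v p := by
  refine star_list D ht v _ (fun u hu => ?_) p
  have hu' : u ∈ C := by simpa using (List.mem_filter.1 hu).2
  by_cases h : u = v
  · exact Or.inl h
  · refine Or.inr (hC ?_ ?_ (Ne.symm h))
    · simp
    · simp [hu']

section Congr

variable {R : Type} [CommRing R]

private theorem cups_congr (ν : V → ℕ) (Q : Finset V) {x x' y y' : Finset V → Finset V → R}
    (hx : ∀ B C, B ∪ C ⊆ Q → x B C = x' B C) (hy : ∀ B C, B ∪ C ⊆ Q → y B C = y' B C) :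
    ∀ (j : ℕ) (B C : Finset V), B ∪ C ⊆ Q → cups ν j x y B C = cups ν j x' y' B C
  | 0, B, C, _ => rfl
  | m + 1, B, C, h => by
    show cupc ν m x y B C = cupc ν m x' y' B C
    unfold cupc
    refine sum_congr rfl fun M hM => sum_congr rfl fun E hE => ?_
    have hB : B ⊆ Q := subset_union_left.trans h
    have hC : C ⊆ Q := subset_union_right.trans h
    have hMB : M ⊆ B := (mem_powersetCard.1 hM).1
    have hEB : E ⊆ B := (mem_powerset.1 hE).trans sdiff_subset
    rw [hx, hy]
    · refine union_subset (sdiff_subset.trans hB) (union_subset hC ?_)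
      exact (filter_subset _ _).trans (hEB.trans hB)
    · refine union_subset ((union_subset hMB hEB).trans hB) (union_subset hC ?_)
      exact (filter_subset _ _).trans (sdiff_subset.trans hB)

private theorem dcup_congr (Q : Finset V) {h h' : Finset V → R} {w w' : Finset V → Finset V → R}
    (hh : ∀ C, C ⊆ Q → h C = h' C) (hw : ∀ B C, B ∪ C ⊆ Q → w B C = w' B C)
    (B C : Finset V) (hBC : B ∪ C ⊆ Q) : dcup h w B C = dcup h' w' B C := by
  unfold dcup
  refine sum_congr rfl fun v hv => ?_
  have hB : B ⊆ Q := subset_union_left.trans hBC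
  have hC : C ⊆ Q := subset_union_right.trans hBC
  have h1 : insert v C ⊆ Q := insert_subset (hB hv) hC
  rw [hh C hC, hh _ h1, hw _ _ (union_subset ((erase_subset _ _).trans hB) h1)]

private theorem VT_congr (ν : V → ℕ) (Q : Finset V) {a a' : Finset V → Finset V → Finset V → R}
    {hp hp' : V → Finset V → R} (q : ℕ)
    (ha : ∀ S B C, B ∪ C ⊆ Q → a S B C = a' S B C) (hh : ∀ b C, C ⊆ Q → hp b C = hp' b C) :
    ∀ (l : List V) (B C : Finset V), B ∪ C ⊆ Q → VT ν a hp q l B C = VT ν a' hp' q l B C
  | [], B, C, _ => rfl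
  | b :: l, B, C, h => by
    have hC : C ⊆ Q := subset_union_right.trans h
    show (if l.length < q then VV ν a (hp b) b l.toFinset (q - l.length) B C else 0) +
      dcup (hp b) (VT ν a hp q l) B C =
      (if l.length < q then VV ν a' (hp' b) b l.toFinset (q - l.length) B C else 0) +
      dcup (hp' b) (VT ν a' hp' q l) B C
    rw [dcup_congr Q (hh b) (VT_congr ν Q q ha hh l) B C h]
    have h1 : VV ν a (hp b) b l.toFinset (q - l.length) B C =
        VV ν a' (hp' b) b l.toFinset (q - l.length) B C := by
      unfold VV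
      refine sum_congr rfl fun A _ => ?_
      rw [cups_congr ν Q (ha (insert b A)) (ha (l.toFinset \ A)) _ B C h,
        cups_congr ν Q (ha A) (ha (l.toFinset \ A)) _ B C h, hh b C hC]
    rw [h1]

end Congr

variable {K : Type} [Field K] [CharP K 2]

/-- the components of the twisted cochain `a` on the faces of the cube at `p`, in the frame of the vertex `p` -/
noncomputable def fr {G : SimpleGraph V} (D : PG G P) (t : V → P → K)
    (a : Finset V → Finset V × P → K) (p : P) (S B C : Finset V) : K :=
  ∑ T ∈ (S ∩ C).powerset, (∏ v ∈ T, t v p) * a B (S \ T, p * gp D.g C)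

/-- the frame operator -/
private noncomputable def rC {G : SimpleGraph V} (D : PG G P) (t : V → P → K) (p : P)
    (S C : Finset V) (f : Finset V × P → K) : K :=
  ∑ T ∈ (S ∩ C).powerset, (∏ v ∈ T, t v p) * f (S \ T, p * gp D.g C)

private theorem rC_add {G : SimpleGraph V} (D : PG G P) (t : V → P → K) (p : P)
    (S C : Finset V) (f f' : Finset V × P → K) :
    rC D t p S C (f + f') = rC D t p S C f + rC D t p S C f' := by
  unfold rC
  rw [← sum_add_distrib]
  refine sum_congr rfl fun T _ => ?_
  rw [Pi.add_apply, mul_add]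

private theorem rC_zero {G : SimpleGraph V} (D : PG G P) (t : V → P → K) (p : P)
    (S C : Finset V) : rC D t p S C 0 = 0 := by
  unfold rC
  simp

private theorem rC_sum {G : SimpleGraph V} (D : PG G P) (t : V → P → K) (p : P)
    (S C : Finset V) (B : Finset V) (F : V → Finset V × P → K) :
    rC D t p S C (∑ v ∈ B, F v) = ∑ v ∈ B, rC D t p S C (F v) := by
  classical
  induction B using Finset.induction_on with
  | empty => simp [rC_zero]
  | insert x B hx ih => rw [sum_insert hx, sum_insert hx, rC_add, ih]

private theorem rC_insert {G : SimpleGraph V} (D : PG G P) {t : V → P → K} (ht : StarInv D t)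
    {s : Finset V} (p : P) {S C : Finset V} (hS : S ⊆ s) {v : V} (hv : v ∉ C)
    (hC : G.IsClique ((insert v C : Finset V) : Set V)) (f : Finset V × P → K) :
    rC D t p S (insert v C) f = rC D t p S C (rE D s t v f) := by
  have hE : ∀ x : Finset V × P, rE D s t v f x = f (x.1, x.2 * D.g v) +
      if v ∈ s ∧ v ∈ x.1 then t v x.2 * f (x.1.erase v, x.2 * D.g v) else 0 := fun _ => rfl
  unfold rC
  by_cases hvS : v ∈ S
  · have h1 : S ∩ insert v C = insert v (S ∩ C) := by
      rw [inter_insert_of_mem hvS]
    have h2 : v ∉ S ∩ C := fun h => hv (mem_inter.1 h).2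
    rw [h1, sum_powerset_insert h2, ← sum_add_distrib]
    refine sum_congr rfl fun T hT => ?_
    have hT' : T ⊆ S ∩ C := mem_powerset.1 hT
    have hvT : v ∉ T := fun h => h2 (hT' h)
    rw [hE]
    simp only
    rw [if_pos ⟨hS hvS, mem_sdiff.2 ⟨hvS, hvT⟩⟩, star_gp D ht hC p, gp_insert D hv hC,
      prod_insert hvT, ← mul_assoc p]
    have h3 : S \ insert v T = (S \ T).erase v := by
      ext x
      simp only [mem_sdiff, mem_insert, mem_erase, not_or]
      tauto
    rw [h3]
    ring
  · have h1 : S ∩ insert v C = S ∩ C := by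
      rw [inter_insert_of_notMem hvS]
    rw [h1]
    refine sum_congr rfl fun T hT => ?_
    rw [hE]
    simp only
    rw [if_neg (fun h => hvS (mem_sdiff.1 h.2).1), add_zero, gp_insert D hv hC, ← mul_assoc p]

/-- change of the frame -/
private theorem rC_frame {G : SimpleGraph V} (D : PG G P) {t : V → P → K} (ht : StarInv D t)
    (p : P) {S C : Finset V} {v : V} (hv : v ∉ C)
    (hC : G.IsClique ((insert v C : Finset V) : Set V)) (f : Finset V × P → K) :
    rC D t p S (insert v C) f = rC D t (p * D.g v) S C f +
      if v ∈ S then t v p * rC D t (p * D.g v) (S.erase v) C f else 0 := by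
  have hgp : p * gp D.g (insert v C) = p * D.g v * gp D.g C := by
    rw [gp_insert D hv hC, gp_comm D hC, mul_assoc]
  have hprod : ∀ T : Finset V, T ⊆ C → ∏ w ∈ T, t w p = ∏ w ∈ T, t w (p * D.g v) := by
    intro T hT
    refine prod_congr rfl fun w hw => ?_
    refine (ht w v ?_ p).symm
    have hwC := hT hw
    refine Or.inr (hC ?_ ?_ fun h => hv (h ▸ hwC))
    · simp [hwC]
    · simp
  unfold rC
  by_cases hvS : v ∈ S
  · have h1 : S ∩ insert v C = insert v (S ∩ C) := by
      rw [inter_insert_of_mem hvS]
    have h2 : v ∉ S ∩ C := fun h => hv (mem_inter.1 h).2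
    have h3 : S.erase v ∩ C = S ∩ C := by
      ext x
      simp only [mem_inter, mem_erase]
      constructor
      · rintro ⟨⟨_, h⟩, h'⟩
        exact ⟨h, h'⟩
      · rintro ⟨h, h'⟩
        exact ⟨⟨fun h4 => hv (h4 ▸ h'), h⟩, h'⟩
    rw [h1, sum_powerset_insert h2, if_pos hvS, h3, mul_sum]
    refine congrArg₂ _ (sum_congr rfl fun T hT => ?_) (sum_congr rfl fun T hT => ?_)
    · have hT' : T ⊆ S ∩ C := mem_powerset.1 hT
      rw [hgp, hprod T (hT'.trans inter_subset_right)]
    · have hT' : T ⊆ S ∩ C := mem_powerset.1 hT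
      have hvT : v ∉ T := fun h => h2 (hT' h)
      rw [hgp, prod_insert hvT, hprod T (hT'.trans inter_subset_right)]
      have h4 : S \ insert v T = S.erase v \ T := by
        ext x
        simp only [mem_sdiff, mem_insert, mem_erase, not_or]
        tauto
      rw [h4]
      ring
  · have h1 : S ∩ insert v C = S ∩ C := by
      rw [inter_insert_of_notMem hvS]
    rw [h1, if_neg hvS, add_zero]
    refine sum_congr rfl fun T hT => ?_
    have hT' : T ⊆ S ∩ C := mem_powerset.1 hT
    rw [hgp, hprod T (hT'.trans inter_subset_right)]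

private theorem clq_mono {G : SimpleGraph V} {Q B : Finset V} (hQ : G.IsClique (Q : Set V))
    (h : B ⊆ Q) : G.IsClique (B : Set V) :=
  Set.Pairwise.mono (Finset.coe_subset.2 h) hQ

/-- the restricted data -/
private noncomputable def ar {G : SimpleGraph V} (D : PG G P) (t : V → P → K)
    (a : Finset V → Finset V × P → K) (s Q : Finset V) (p : P) (S B C : Finset V) : K :=
  if S ⊆ s ∧ B ∪ C ⊆ Q then fr D t a p S B C else 0

/-- the restricted potentials -/
private noncomputable def hr (t : V → P → K) (s Q : Finset V) (p : P) (b : V) (C : Finset V) : K :=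
  if b ∈ C then (if b ∈ s ∧ b ∈ Q then t b p else 0) else 0

private theorem ar_cob {G : SimpleGraph V} (D : PG G P) {s : Finset V} {t : V → P → K}
    (ht : StarInv D t) {a : Finset V → Finset V × P → K}
    (hcoc : ∀ τ : Finset V, G.IsClique (τ : Set V) →
      ∑ v ∈ τ, (a (τ.erase v) + rE D s t v (a (τ.erase v))) = 0)
    {Q : Finset V} (hQ : G.IsClique (Q : Set V)) (p : P) (S B C : Finset V)
    (hBC : Face Q B C) : cob (ar D t a s Q p S) B C = 0 := by
  unfold cob
  have hB : B ⊆ Q := subset_union_left.trans hBC.2
  have hC : C ⊆ Q := subset_union_right.trans hBC.2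
  by_cases hS : S ⊆ s
  · have h1 : ∀ v ∈ B, ar D t a s Q p S (B.erase v) C + ar D t a s Q p S (B.erase v) (insert v C) =
        rC D t p S C (a (B.erase v) + rE D s t v (a (B.erase v))) := by
      intro v hv
      have hvC : v ∉ C := fun h => (disjoint_left.1 hBC.1) hv h
      have h2 : insert v C ⊆ Q := insert_subset (hB hv) hC
      have h3 : B.erase v ⊆ Q := (erase_subset _ _).trans hB
      unfold ar
      rw [if_pos ⟨hS, union_subset h3 hC⟩, if_pos ⟨hS, union_subset h3 h2⟩, rC_add,
        ← rC_insert D ht p hS hvC (clq_mono hQ h2)]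
      rfl
    rw [sum_congr rfl h1, ← rC_sum, hcoc B (clq_mono hQ hB), rC_zero]
  · refine sum_eq_zero fun v _ => ?_
    unfold ar
    rw [if_neg (fun h => hS h.1), if_neg (fun h => hS h.1), add_zero]

private theorem ar_frame {G : SimpleGraph V} (D : PG G P) {s : Finset V} {t : V → P → K}
    (ht : StarInv D t) (a : Finset V → Finset V × P → K)
    {Q : Finset V} (hQ : G.IsClique (Q : Set V)) (p : P) {u : V} (hu : u ∈ Q) (S B C : Finset V)
    (huC : u ∉ C) :
    ar D t a s Q p S B (insert u C) = ar D t a s Q (p * D.g u) S B C +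
      if u ∈ S then (if u ∈ s then t u p else 0) * ar D t a s Q (p * D.g u) (S.erase u) B C
        else 0 := by
  unfold ar
  by_cases hBC : B ∪ C ⊆ Q
  · have hB : B ⊆ Q := subset_union_left.trans hBC
    have hC : C ⊆ Q := subset_union_right.trans hBC
    have h2 : insert u C ⊆ Q := insert_subset hu hC
    have h3 : B ∪ insert u C ⊆ Q := union_subset hB h2
    by_cases hS : S ⊆ s
    · have h4 := rC_frame D ht p (S := S) huC (clq_mono hQ h2) (a B)
      by_cases huS : u ∈ S
      · rw [if_pos huS] at h4 ⊢
        rw [if_pos ⟨hS, h3⟩, if_pos ⟨hS, hBC⟩, if_pos (hS huS),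
          if_pos ⟨(erase_subset _ _).trans hS, hBC⟩]
        exact h4
      · rw [if_neg huS] at h4 ⊢
        rw [if_pos ⟨hS, h3⟩, if_pos ⟨hS, hBC⟩]
        exact h4
    · rw [if_neg (fun h => hS h.1), if_neg (fun h => hS h.1), zero_add]
      by_cases huS : u ∈ S
      · rw [if_pos huS]
        by_cases hus : u ∈ s
        · have hS' : ¬ (S.erase u ⊆ s ∧ B ∪ C ⊆ Q) := by
            rintro ⟨h, -⟩
            refine hS fun x hx => ?_
            by_cases hxu : x = u
            · rw [hxu]; exact hus
            · exact h (mem_erase.2 ⟨hxu, hx⟩)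
          rw [if_neg hS', mul_zero]
        · rw [if_neg hus, zero_mul]
      · rw [if_neg huS]
  · have h3 : ¬ B ∪ insert u C ⊆ Q := fun h => hBC ((union_subset_union_right
      (subset_insert _ _)).trans h)
    have h5 : ¬ (S.erase u ⊆ s ∧ B ∪ C ⊆ Q) := fun h => hBC h.2
    rw [if_neg (fun h => h3 h.2), if_neg (fun h => hBC h.2), if_neg h5, mul_zero, zero_add,
      ite_self]

private theorem hr_frame {G : SimpleGraph V} (D : PG G P) {s : Finset V} {t : V → P → K}
    (ht : StarInv D t) {Q : Finset V} (hQ : G.IsClique (Q : Set V)) (p : P) {u : V} (hu : u ∈ Q)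
    (b : V) (C : Finset V) (huC : u ∉ C) :
    hr t s Q p b (insert u C) = hr t s Q (p * D.g u) b C +
      if b = u then (if u ∈ s then t u p else 0) else 0 := by
  unfold hr
  by_cases hbu : b = u
  · subst hbu
    rw [if_pos (mem_insert_self _ _), if_neg huC, if_pos rfl, zero_add]
    by_cases hbs : b ∈ s
    · rw [if_pos ⟨hbs, hu⟩, if_pos hbs]
    · rw [if_neg (fun h => hbs h.1), if_neg hbs]
  · rw [if_neg hbu, add_zero]
    by_cases hbC : b ∈ C
    · rw [if_pos (mem_insert_of_mem hbC), if_pos hbC]
      by_cases h : b ∈ s ∧ b ∈ Q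
      · rw [if_pos h, if_pos h]
        exact (ht b u (Or.inr (hQ h.2 hu hbu)) p).symm
      · rw [if_neg h, if_neg h]
    · rw [if_neg (fun h => hbC ((mem_insert.1 h).resolve_left hbu)), if_neg hbC]

/-- **The relation.** `a` is a twisted cocycle of degree `j` (with the coefficients `rE D s t`), `s` has `j + 1`
elements. Then the product of the walls of the types in `s` and of the square of `a_∅` is a coboundary.
`U B p = VT ν (fr D t a p) (fun b C => if b ∈ C then t b p else 0) (j + 1) s.toList B ∅`
(`ν` an injective numbering of `V`; only the components `S ⊆ s` occur in `VT`, but `fr` is defined for all `S`; if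
necessary put `fr ... = 0` for `S ⊄ s` in the data).
* cocycle: `cob (fr D t a p S) B C = 0` for `Face A B C`, `A` a clique: it is the component `S` of `r_C` applied to
  `∑ v ∈ B, (a (B - v) + r v (a (B - v))) = 0`, `r_C` = the composition of the commuting operators
  `rE D s t v`, `v ∈ C` (for `S ⊆ s`).
* `WW_eq` at `Q = A`, `(B, C) = (A, ∅)`; `WW_val` and `PQ_sq` give the left side: `fr D t a p ∅ (A \ s) s =
  a (A \ s) (∅, p * gp D.g s)`.
* `VT` of the data at `p` on the face `(A - v, insert v ∅)` is `VT` of the data at `p * g v` on `(A - v, ∅)`, by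
  `VT_inv` with `u = v`, `c = t v p` if `v ∈ s` and `c = 0` otherwise (only faces inside the clique `A` matter;
  `gp D.g (insert v C) = D.g v * gp D.g C` there; to have the hypothesis for all `B, C` multiply the data by
  the indicator function of the faces with `B ∪ C ⊆ A`, which does not change `VT` on these faces, or restrict
  `VT_inv` in the same way), `t b (p * g v) = t b p` for `b ∈ s`, `v ∈ A`. -/
theorem frm {G : SimpleGraph V} (D : PG G P) {s : Finset V} (hs : G.IsClique (s : Set V)) {j : ℕ}
    (hj : s.card = j + 1) {t : V → P → K} (ht : StarInv D t)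
    {a : Finset V → Finset V × P → K}
    (ha : ∀ τ, a τ ≠ 0 → G.IsClique (τ : Set V) ∧ τ.card = j)
    (hcoc : ∀ τ : Finset V, G.IsClique (τ : Set V) →
      ∑ v ∈ τ, (a (τ.erase v) + rE D s t v (a (τ.erase v))) = 0) :
    ∃ U : Finset V → P → K, ∀ A : Finset V, G.IsClique (A : Set V) → ∀ p : P,
      (if s ⊆ A then (∏ v ∈ s, t v p) * a (A \ s) (∅, p * gp D.g s) ^ 2 else 0) =
        ∑ v ∈ A, (U (A.erase v) p + U (A.erase v) (p * D.g v)) := by
  classical
  obtain ⟨ν, hν⟩ : ∃ ν : V → ℕ, Function.Injective ν :=
    ⟨fun v => (Fintype.equivFin V v : ℕ), fun v w h =>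
      (Fintype.equivFin V).injective (Fin.ext h)⟩
  have hl : s.toList.Nodup := Finset.nodup_toList s
  have hlen : s.toList.length = j + 1 := by rw [Finset.length_toList, hj]
  have hlf : s.toList.toFinset = s := Finset.toList_toFinset s
  refine ⟨fun B p => VT ν (fun S B C => if S ⊆ s then fr D t a p S B C else 0)
    (fun b C => if b ∈ C then (if b ∈ s then t b p else 0) else 0) (j + 1) s.toList B ∅,
    fun A hA p => ?_⟩
  -- the data inside the clique `A`
  have hU : ∀ B : Finset V, B ⊆ A → ∀ p : P,
      VT ν (fun S B C => if S ⊆ s then fr D t a p S B C else 0)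
        (fun b C => if b ∈ C then (if b ∈ s then t b p else 0) else 0) (j + 1) s.toList B ∅ =
      VT ν (ar D t a s A p) (hr t s A p) (j + 1) s.toList B ∅ := by
    intro B hB p
    refine VT_congr ν A (j + 1) (fun S B C hBC => ?_) (fun b C hC => ?_) s.toList B ∅
      (by rwa [union_empty])
    · unfold ar
      by_cases hS : S ⊆ s
      · rw [if_pos hS, if_pos ⟨hS, hBC⟩]
      · rw [if_neg hS, if_neg (fun h => hS h.1)]
    · unfold hr
      by_cases hb : b ∈ C
      · rw [if_pos hb, if_pos hb]
        by_cases hbs : b ∈ s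
        · rw [if_pos hbs, if_pos ⟨hbs, hC hb⟩]
        · rw [if_neg hbs, if_neg (fun h => hbs h.1)]
      · rw [if_neg hb, if_neg hb]
  have hR : ∑ v ∈ A, (VT ν (fun S B C => if S ⊆ s then fr D t a p S B C else 0)
        (fun b C => if b ∈ C then (if b ∈ s then t b p else 0) else 0) (j + 1) s.toList
          (A.erase v) ∅ +
      VT ν (fun S B C => if S ⊆ s then fr D t a (p * D.g v) S B C else 0)
        (fun b C => if b ∈ C then (if b ∈ s then t b (p * D.g v) else 0) else 0) (j + 1) s.toList
          (A.erase v) ∅) =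
      cob (VT ν (ar D t a s A p) (hr t s A p) (j + 1) s.toList) A ∅ := by
    unfold cob
    refine sum_congr rfl fun v hv => ?_
    rw [hU _ (erase_subset _ _) p, hU _ (erase_subset _ _) (p * D.g v)]
    rw [VT_inv (a := ar D t a s A p) (a' := ar D t a s A (p * D.g v)) (hp := hr t s A p)
      (hp' := hr t s A (p * D.g v)) v (if v ∈ s then t v p else 0)
      (fun S B C _ hvC => ar_frame D ht a hA p hv S B C hvC)
      (fun b C hvC => hr_frame D ht hA p hv b C hvC) s.toList hl (A.erase v) ∅
      (notMem_erase _ _) (notMem_empty _)]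
  refine Eq.trans ?_ hR.symm
  rw [← WW_eq hν hl hlen.ge (fun S B C hBC => ar_cob D ht hcoc hA p S B C hBC)
    (show Face A A ∅ from ⟨disjoint_empty_right _, by rw [union_empty]⟩)]
  have hW := WW_val (ν := ν) (a := ar D t a s A p) (fun b => if b ∈ s ∧ b ∈ A then t b p else 0)
    (q := j + 1) s.toList hl A ∅ (disjoint_empty_right _)
  refine Eq.trans ?_ hW.symm
  rw [hlf]
  by_cases hsA : s ⊆ A
  · rw [if_pos hsA, if_pos hsA, PQ_sq (q := j)]
    · have h1 : ∏ b ∈ s, (if b ∈ s ∧ b ∈ A then t b p else 0) = ∏ b ∈ s, t b p :=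
        prod_congr rfl fun b hb => by rw [if_pos ⟨hb, hsA hb⟩]
      rw [h1, empty_union]
      have h2 : ar D t a s A p ∅ (A \ s) s = a (A \ s) (∅, p * gp D.g s) := by
        unfold ar
        rw [if_pos ⟨empty_subset _, union_subset sdiff_subset hsA⟩]
        unfold fr
        simp
      rw [h2]
    · intro B C hBC
      unfold ar at hBC
      by_cases h : (∅ : Finset V) ⊆ s ∧ B ∪ C ⊆ A
      · rw [if_pos h] at hBC
        by_contra hcard
        apply hBC
        have h3 : a B = 0 := by
          by_contra h4
          exact hcard (ha B h4).2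
        unfold fr
        simp [h3]
      · rw [if_neg h] at hBC
        exact absurd rfl hBC
  · rw [if_neg hsA, if_neg hsA]

end Pool.Agent.H19.SR
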