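import Pool.Agent.H19.SR.Defs
import Pool.Agent.H85.Fold4.Base
import Pool.Agent.H4.Singer.ActBasic

/-!
# Project SR, modules T8, T9: homology spheres over the field of two elements
-/

set_option autoImplicit false
set_option linter.unusedSectionVars false

open Finset

namespace Pool.Agent.H19.SR

variable {V : Type} [DecidableEq V] [Fintype V]

/-- simplicial chains over the field of two elements of degree `j` (on simplices with `j` vertices) of the link
of the clique `ρ` in the clique complex of `G` -/
def LinkCh2 (G : SimpleGraph V) (ρ : Finset V) (j : ℕ) (z : Finset V → ZMod 2) : Prop :=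
  ∀ σ, z σ ≠ 0 → Disjoint σ ρ ∧ G.IsClique ((σ ∪ ρ : Finset V) : Set V) ∧ σ.card = j

/-- the simplicial boundary -/
def bdy2 (z : Finset V → ZMod 2) (σ : Finset V) : ZMod 2 := ∑ v ∈ σᶜ, z (insert v σ)

/-- The clique complex of `G` is a homology sphere of dimension `n - 1` over the field of two elements: for every
clique `ρ` (also for `ρ = ∅`) the link of `ρ` has the reduced homology over the field of two elements of the sphere
of dimension `n - 1 - |ρ|`. -/
structure HomologySphere2 (G : SimpleGraph V) (n : ℕ) : Prop where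
  dim : ∀ σ : Finset V, G.IsClique (σ : Set V) → σ.card ≤ n
  low : ∀ ρ : Finset V, G.IsClique (ρ : Set V) → ∀ j, j + ρ.card < n → ∀ z, LinkCh2 G ρ j z →
    bdy2 z = 0 → ∃ y, LinkCh2 G ρ (j + 1) y ∧ bdy2 y = z
  top : ∀ ρ : Finset V, G.IsClique (ρ : Set V) → ∀ j, j + ρ.card = n →
    ∃ o, LinkCh2 G ρ j o ∧ bdy2 o = 0 ∧ o ≠ 0 ∧ ∀ z, LinkCh2 G ρ j z → bdy2 z = 0 → z = 0 ∨ z = o

section aux

private theorem z2 : ∀ a : ZMod 2, a ≠ 0 → a = 1 := by decide

/-- translation to the link -/
private def tr (s : Finset V) (f : Finset V → ZMod 2) (σ : Finset V) : ZMod 2 :=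
  if Disjoint σ s then f (σ ∪ s) else 0

omit [Fintype V] in
private theorem tr_of {s σ : Finset V} (hd : Disjoint σ s) (f : Finset V → ZMod 2) : tr s f σ = f (σ ∪ s) :=
  if_pos hd

omit [Fintype V] in
private theorem tr_not {s σ : Finset V} (hd : ¬ Disjoint σ s) (f : Finset V → ZMod 2) : tr s f σ = 0 :=
  if_neg hd

omit [Fintype V] in
private theorem nd_of_mem {s σ : Finset V} {v : V} (h1 : v ∈ σ) (h2 : v ∈ s) : ¬ Disjoint σ s := fun h =>
  Finset.disjoint_left.1 h h1 h2

private theorem bdy_tr {s σ : Finset V} (hd : Disjoint σ s) (f : Finset V → ZMod 2) :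
    bdy2 (tr s f) σ = ∑ v ∈ (σ ∪ s)ᶜ, f (insert v (σ ∪ s)) := by
  unfold bdy2
  have hsub : (σ ∪ s)ᶜ ⊆ σᶜ := Finset.compl_subset_compl.2 Finset.subset_union_left
  rw [← Finset.sum_subset hsub]
  · refine Finset.sum_congr rfl fun v hv => ?_
    rw [Finset.mem_compl, Finset.mem_union, not_or] at hv
    rw [tr_of, Finset.insert_union]
    rw [Finset.disjoint_insert_left]
    exact ⟨hv.2, hd⟩
  · intro v hv hv'
    rw [Finset.mem_compl] at hv hv'
    rw [not_not, Finset.mem_union] at hv'
    exact tr_not (nd_of_mem (Finset.mem_insert_self v σ) (hv'.resolve_left hv)) f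

private theorem bdy_tr' {s σ : Finset V} (hd : ¬ Disjoint σ s) (f : Finset V → ZMod 2) :
    bdy2 (tr s f) σ = 0 := by
  unfold bdy2
  refine Finset.sum_eq_zero fun v _ => tr_not (fun h => hd ?_) f
  exact Finset.disjoint_of_subset_left (Finset.subset_insert v σ) h

omit [Fintype V] in
private theorem tr_link {G : SimpleGraph V} {s : Finset V} {j : ℕ} {f : Finset V → ZMod 2}
    (hf : ∀ t, f t ≠ 0 → G.IsClique (t : Set V) ∧ s ⊆ t ∧ t.card = j + s.card) : LinkCh2 G s j (tr s f) := by
  intro σ hσ
  by_cases hd : Disjoint σ s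
  · rw [tr_of hd] at hσ
    obtain ⟨h1, _, h3⟩ := hf _ hσ
    rw [Finset.card_union_of_disjoint hd] at h3
    exact ⟨hd, h1, by omega⟩
  · exact absurd (tr_not hd f) hσ

private theorem bdy_tr_zero {s : Finset V} {f : Finset V → ZMod 2}
    (hf : ∀ t, s ⊆ t → ∑ v ∈ tᶜ, f (insert v t) = 0) : bdy2 (tr s f) = 0 := by
  funext σ
  by_cases hd : Disjoint σ s
  · rw [bdy_tr hd]
    exact hf _ Finset.subset_union_right
  · exact bdy_tr' hd f

/-- translation back -/
private theorem sum_back {G : SimpleGraph V} {s : Finset V} {j : ℕ} {y : Finset V → ZMod 2}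
    (hy : LinkCh2 G s j y) {t : Finset V} (ht : s ⊆ t) :
    ∑ v ∈ tᶜ, (if s ⊆ insert v t then y (insert v t \ s) else 0) = bdy2 y (t \ s) := by
  unfold bdy2
  have hsub : tᶜ ⊆ (t \ s)ᶜ := Finset.compl_subset_compl.2 Finset.sdiff_subset
  rw [← Finset.sum_subset hsub]
  · refine Finset.sum_congr rfl fun v hv => ?_
    rw [Finset.mem_compl] at hv
    rw [if_pos (ht.trans (Finset.subset_insert v t)), Finset.insert_sdiff_of_notMem _ fun h => hv (ht h)]
  · intro v hv hv'
    rw [Finset.mem_compl] at hv hv'
    rw [not_not] at hv'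
    rw [Finset.mem_sdiff, not_and, not_not] at hv
    by_contra hne
    exact nd_of_mem (Finset.mem_insert_self v (t \ s)) (hv hv') (hy _ hne).1

variable {G : SimpleGraph V} {n : ℕ}

private theorem uniq (h : HomologySphere2 G n) {s : Finset V} (hs : G.IsClique (s : Set V)) {j : ℕ}
    (hj : j + s.card = n) {z z' : Finset V → ZMod 2} (h1 : LinkCh2 G s j z) (h2 : bdy2 z = 0) (h3 : z ≠ 0)
    (h1' : LinkCh2 G s j z') (h2' : bdy2 z' = 0) (h3' : z' ≠ 0) : z = z' := by
  obtain ⟨o, _, _, _, ho⟩ := h.top s hs j hj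
  rw [(ho z h1 h2).resolve_left h3, (ho z' h1' h2').resolve_left h3']

/-- existence of facets -/
private theorem facet (h : HomologySphere2 G n) {s : Finset V} (hs : G.IsClique (s : Set V)) :
    ∃ σ : Finset V, Disjoint σ s ∧ G.IsClique ((σ ∪ s : Finset V) : Set V) ∧ σ.card + s.card = n := by
  have hc := h.dim s hs
  obtain ⟨o, h1, _, h3, _⟩ := h.top s hs (n - s.card) (by omega)
  obtain ⟨σ, hσ⟩ := Function.ne_iff.1 h3
  obtain ⟨h4, h5, h6⟩ := h1 σ hσ
  exact ⟨σ, h4, h5, by omega⟩

/-- restriction to the link of a vertex -/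
private def ov (o : Finset V → ZMod 2) (v : V) (σ : Finset V) : ZMod 2 := if v ∈ σ then 0 else o (insert v σ)

omit [Fintype V] in
private theorem ov_link {s : Finset V} {k : ℕ} {o : Finset V → ZMod 2} (ho : LinkCh2 G s (k + 1) o) (v : V) :
    LinkCh2 G (insert v s) k (ov o v) := by
  intro σ hσ
  unfold ov at hσ
  split_ifs at hσ with hv
  · exact absurd rfl hσ
  · obtain ⟨h1, h2, h3⟩ := ho _ hσ
    rw [Finset.disjoint_insert_left] at h1
    rw [Finset.card_insert_of_notMem hv] at h3
    refine ⟨?_, ?_, by omega⟩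
    · rw [Finset.disjoint_insert_right]
      exact ⟨hv, h1.2⟩
    · rwa [Finset.union_insert, ← Finset.insert_union]

private theorem ov_bdy {o : Finset V → ZMod 2} (ho : bdy2 o = 0) (v : V) : bdy2 (ov o v) = 0 := by
  funext σ
  show ∑ w ∈ σᶜ, ov o v (insert w σ) = 0
  by_cases hv : v ∈ σ
  · exact Finset.sum_eq_zero fun w _ => if_pos (Finset.mem_insert_of_mem hv)
  · have h1 : (∑ w ∈ (insert v σ)ᶜ, o (insert w (insert v σ))) = 0 := congrFun ho (insert v σ)
    rw [← h1]
    have hsub : (insert v σ)ᶜ ⊆ σᶜ := Finset.compl_subset_compl.2 (Finset.subset_insert v σ)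
    rw [← Finset.sum_subset hsub]
    · refine Finset.sum_congr rfl fun w hw => ?_
      rw [Finset.mem_compl, Finset.mem_insert, not_or] at hw
      have h2 : v ∉ insert w σ := by
        rw [Finset.mem_insert, not_or]
        exact ⟨fun h => hw.1 h.symm, hv⟩
      show (if v ∈ insert w σ then 0 else o (insert v (insert w σ))) = _
      rw [if_neg h2, Finset.insert_comm]
    · intro w hw hw'
      rw [Finset.mem_compl] at hw hw'
      rw [not_not, Finset.mem_insert] at hw'
      have h3 : w = v := hw'.resolve_right hw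
      rw [h3]
      exact if_pos (Finset.mem_insert_self v σ)

/-- the sum of two vertices -/
private def two (v w : V) (σ : Finset V) : ZMod 2 := if σ = {v} ∨ σ = {w} then 1 else 0

omit [Fintype V] in
private theorem two_link {s : Finset V} {v w : V} (hv : v ∉ s) (hv' : G.IsClique ((insert v s : Finset V) : Set V))
    (hw : w ∉ s) (hw' : G.IsClique ((insert w s : Finset V) : Set V)) : LinkCh2 G s 1 (two v w) := by
  intro σ hσ
  unfold two at hσ
  split_ifs at hσ with h
  · rcases h with rfl | rfl
    · exact ⟨Finset.disjoint_singleton_left.2 hv, by rwa [← Finset.insert_eq], Finset.card_singleton v⟩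
    · exact ⟨Finset.disjoint_singleton_left.2 hw, by rwa [← Finset.insert_eq], Finset.card_singleton w⟩
  · exact absurd rfl hσ

private theorem two_bdy {v w : V} (hvw : v ≠ w) : bdy2 (two v w) = 0 := by
  funext σ
  show ∑ u ∈ σᶜ, two v w (insert u σ) = 0
  rcases Finset.eq_empty_or_nonempty σ with rfl | ⟨x, hx⟩
  · have h1 : ∀ u : V, two v w (insert u ∅) = (if u = v then 1 else 0) + (if u = w then 1 else 0) := by
      intro u
      unfold two
      rw [insert_empty_eq]
      simp only [Finset.singleton_inj]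
      by_cases h1 : u = v
      · have h2 : u ≠ w := fun h => hvw (h1.symm.trans h)
        simp [h1, hvw]
      · by_cases h2 : u = w
        · simp [h2]
          intro h3
          exact absurd h3.symm hvw
        · simp [h1, h2]
    rw [Finset.sum_congr rfl fun u _ => h1 u, Finset.sum_add_distrib]
    simp
    decide
  · refine Finset.sum_eq_zero fun u hu => ?_
    rw [Finset.mem_compl] at hu
    unfold two
    rw [if_neg]
    have h2 : ∀ y : V, insert u σ ≠ {y} := by
      intro y hy
      have h3 : u = y := Finset.mem_singleton.1 (hy ▸ Finset.mem_insert_self u σ)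
      have h4 : x = y := Finset.mem_singleton.1 (hy ▸ Finset.mem_insert_of_mem hx)
      exact hu (by rw [h3, ← h4]; exact hx)
    rintro (h | h)
    · exact h2 v h
    · exact h2 w h

private theorem sum_symm (P : Finset V) (g : V → V → ZMod 2) (h1 : ∀ u x, g u x = g x u) (h2 : ∀ u, g u u = 0) :
    ∑ u ∈ P, ∑ x ∈ P, g u x = 0 := by
  rw [← Finset.sum_product']
  refine Finset.sum_involution (fun a _ => (a.2, a.1)) ?_ ?_ ?_ ?_
  · intro a _
    show g a.1 a.2 + g a.2 a.1 = 0
    rw [h1 a.2 a.1]
    exact CharTwo.add_self_eq_zero _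
  · intro a _ hne heq
    apply hne
    have h3 : a.2 = a.1 := congrArg Prod.fst heq
    show g a.1 a.2 = 0
    rw [h3]
    exact h2 _
  · intro a ha
    rw [Finset.mem_product] at ha ⊢
    exact ⟨ha.2, ha.1⟩
  · intro a _
    rfl

/-- the cycle of the top degree is one on all facets -/
private theorem ind (h : HomologySphere2 G n) : ∀ k : ℕ, ∀ s : Finset V, G.IsClique (s : Set V) →
    k + s.card = n → ∀ o : Finset V → ZMod 2, LinkCh2 G s k o → bdy2 o = 0 → o ≠ 0 →
      ∀ σ : Finset V, Disjoint σ s → G.IsClique ((σ ∪ s : Finset V) : Set V) → σ.card = k → o σ = 1 := by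
  intro k
  induction k with
  | zero =>
    intro s _ _ o h1 _ h3 σ _ _ hσ
    obtain ⟨τ, hτ⟩ := Function.ne_iff.1 h3
    have h4 := (h1 τ hτ).2.2
    rw [Finset.card_eq_zero] at h4 hσ
    rw [hσ, ← h4]
    exact z2 _ hτ
  | succ k ih =>
    intro s hs hk o h1 h2 h3 σ hσ1 hσ2 hσ3
    classical
    have hcl : ∀ {v : V} {τ : Finset V}, v ∈ τ → G.IsClique ((τ ∪ s : Finset V) : Set V) →
        G.IsClique ((insert v s : Finset V) : Set V) := by
      intro v τ hv hτ
      refine hτ.subset ?_
      intro x hx
      rw [Finset.mem_coe, Finset.mem_insert] at hx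
      rw [Finset.mem_coe, Finset.mem_union]
      rcases hx with rfl | hx
      · exact Or.inl hv
      · exact Or.inr hx
    -- if the restriction to `v` is not zero, then the cycle is one on the facets with `v`
    have key : ∀ v : V, v ∉ s → G.IsClique ((insert v s : Finset V) : Set V) → ov o v ≠ 0 →
        ∀ τ : Finset V, v ∈ τ → Disjoint τ s → G.IsClique ((τ ∪ s : Finset V) : Set V) →
          τ.card = k + 1 → o τ = 1 := by
      intro v hv hv' hne τ hvτ hτ1 hτ2 hτ3
      have h5 : k + (insert v s).card = n := by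
        rw [Finset.card_insert_of_notMem hv]
        omega
      have h6 := ih (insert v s) hv' h5 (ov o v) (ov_link h1 v) (ov_bdy h2 v) hne (τ.erase v) ?_ ?_ ?_
      · have h7 : ov o v (τ.erase v) = o τ := by
          unfold ov
          rw [if_neg (Finset.notMem_erase v τ), Finset.insert_erase hvτ]
        rw [← h7, h6]
      · rw [Finset.disjoint_insert_right]
        exact ⟨Finset.notMem_erase v τ, Finset.disjoint_of_subset_left (Finset.erase_subset v τ) hτ1⟩
      · rw [Finset.union_insert, ← Finset.insert_union, Finset.insert_erase hvτ]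
        exact hτ2
      · rw [Finset.card_erase_of_mem hvτ, hτ3]
        rfl
    -- conversely
    have key' : ∀ v : V, ∀ τ : Finset V, v ∈ τ → o τ = 1 → ov o v ≠ 0 := by
      intro v τ hvτ hτ h8
      have h7 : ov o v (τ.erase v) = o τ := by
        unfold ov
        rw [if_neg (Finset.notMem_erase v τ), Finset.insert_erase hvτ]
      rw [h8, hτ, Pi.zero_apply] at h7
      exact absurd h7 (by decide)
    -- a vertex where the restriction is not zero
    obtain ⟨τ, hτ⟩ := Function.ne_iff.1 h3
    obtain ⟨hτ1, hτ2, hτ3⟩ := h1 τ hτ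
    obtain ⟨v, hv⟩ : τ.Nonempty := by
      rw [← Finset.card_pos, hτ3]
      omega
    have hvs : v ∉ s := Finset.disjoint_left.1 hτ1 hv
    have hvc := hcl hv hτ2
    have hvne : ov o v ≠ 0 := key' v τ hv (z2 _ hτ)
    obtain ⟨w, hw⟩ : σ.Nonempty := by
      rw [← Finset.card_pos, hσ3]
      omega
    have hws : w ∉ s := Finset.disjoint_left.1 hσ1 hw
    have hwc := hcl hw hσ2
    by_cases hwne : ov o w = 0
    swap
    · exact key w hws hwc hwne σ hw hσ1 hσ2 hσ3
    exfalso
    have hvw : v ≠ w := by
      rintro rfl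
      exact hvne hwne
    have hz1 := two_link hvs hvc hws hwc
    have hz2 : bdy2 (two v w) = 0 := two_bdy hvw
    rcases Nat.eq_zero_or_pos k with hk0 | hk0
    · have hz3 : two v w ≠ 0 := by
        intro h9
        have h10 := congrFun h9 {v}
        unfold two at h10
        rw [if_pos (Or.inl rfl), Pi.zero_apply] at h10
        exact absurd h10 (by decide)
      subst hk0
      have h11 := uniq h hs hk h1 h2 h3 hz1 hz2 hz3
      refine key' w {w} (Finset.mem_singleton_self w) ?_ hwne
      rw [h11]
      exact if_pos (Or.inr rfl)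
    · obtain ⟨y, hy1, hy2⟩ := h.low s hs 1 (by omega) (two v w) hz1 hz2
      set P : Finset V := univ.filter fun u =>
        u ∉ s ∧ G.IsClique ((insert u s : Finset V) : Set V) ∧ ov o u ≠ 0 with hP
      have hPcl : ∀ u ∈ P, ∀ x, x ≠ u → y {x, u} ≠ 0 → x ∈ P := by
        intro u hu x hxu hne
        rw [hP, Finset.mem_filter] at hu ⊢
        obtain ⟨-, hu1, hu2, hu3⟩ := hu
        obtain ⟨hd, hc, -⟩ := hy1 _ hne
        have hxs : x ∉ s := Finset.disjoint_left.1 hd (Finset.mem_insert_self x _)
        refine ⟨Finset.mem_univ x, hxs, hcl (Finset.mem_insert_self x {u}) hc, ?_⟩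
        obtain ⟨η, he1, he2, he3⟩ := facet h hc
        refine key' x (η ∪ {x, u}) ?_ ?_
        · exact Finset.mem_union_right _ (Finset.mem_insert_self x _)
        · refine key u hu1 hu2 hu3 _ ?_ ?_ ?_ ?_
          · exact Finset.mem_union_right _ (Finset.mem_insert_of_mem (Finset.mem_singleton_self u))
          · rw [Finset.disjoint_union_left]
            exact ⟨Finset.disjoint_of_subset_right Finset.subset_union_right he1, hd⟩
          · rw [Finset.union_assoc]
            exact he2
          · have e1 : Disjoint η ({x, u} : Finset V) :=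
              Finset.disjoint_of_subset_right Finset.subset_union_left he1
            rw [Finset.card_union_of_disjoint hd] at he3
            rw [Finset.card_union_of_disjoint e1]
            omega
      have e1 : ∑ u ∈ P, two v w {u} = 1 := by
        rw [Finset.sum_eq_single v]
        · exact if_pos (Or.inl rfl)
        · intro u hu huv
          unfold two
          rw [if_neg]
          rintro (h12 | h12)
          · exact huv (Finset.singleton_injective h12)
          · rw [Finset.singleton_injective h12, hP, Finset.mem_filter] at hu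
            exact hu.2.2.2 hwne
        · intro hv'
          exfalso
          apply hv'
          rw [hP, Finset.mem_filter]
          exact ⟨Finset.mem_univ v, hvs, hvc, hvne⟩
      have e2 : ∑ u ∈ P, two v w {u} = 0 := by
        have e3 : ∀ u ∈ P, two v w {u} = ∑ x ∈ P, (if x = u then 0 else y {x, u}) := by
          intro u hu
          rw [← hy2]
          show ∑ x ∈ ({u} : Finset V)ᶜ, y (insert x {u}) = _
          have e4 : ∑ x ∈ ({u} : Finset V)ᶜ, y (insert x {u}) = ∑ x : V, (if x = u then 0 else y {x, u}) := by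
            rw [← Finset.sum_subset (Finset.subset_univ ({u} : Finset V)ᶜ)]
            · refine Finset.sum_congr rfl fun x hx => ?_
              rw [Finset.mem_compl, Finset.mem_singleton] at hx
              rw [if_neg hx]
            · intro x _ hx
              rw [Finset.mem_compl, Finset.mem_singleton, not_not] at hx
              rw [if_pos hx]
          rw [e4]
          symm
          refine Finset.sum_subset (Finset.subset_univ P) fun x _ hx => ?_
          by_contra hne
          by_cases hxu : x = u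
          · rw [if_pos hxu] at hne
            exact hne rfl
          · rw [if_neg hxu] at hne
            exact hx (hPcl u hu x hxu hne)
        rw [Finset.sum_congr rfl e3]
        refine sum_symm P (fun u x => if x = u then 0 else y {x, u}) (fun u x => ?_) fun u => if_pos rfl
        by_cases hxu : x = u
        · simp [hxu]
        · have hux : ¬ u = x := fun h => hxu h.symm
          simp only [hxu, hux, if_false]
          rw [Finset.pair_comm]
      rw [e1] at e2
      exact absurd e2 (by decide)

end aux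

/-- **Module T9.** `t = σ ∪ ρ` translates `low`. `facet`: `top` (`o ≠ 0`). `top`: show by induction on `n - |ρ|` that
the cycle `o` of `ρ` is `1` on all facets which contain `ρ`: for `v` in the link the restriction of `o` to the
simplices with `v` is a cycle of the link of `insert v ρ`, so it is `0` or everywhere `1` on the facets which contain
`insert v ρ`; for adjacent `v, w` in the link the same case holds (a facet contains `insert v (insert w ρ)`); the
link is connected if `n - |ρ| ≥ 2` (`low`, `j = 1`: the indicator function of a union of components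
minus ...; or `j = 1` for the difference of two vertices); if `n - |ρ| = 1`, then the space of cycles is one-dimensional,
so there are exactly two vertices. -/
theorem HomologySphere2.isSph {G : SimpleGraph V} {n : ℕ} (h : HomologySphere2 G n) : IsSph G n := by
  refine ⟨h.dim, ?_, ?_, ?_⟩
  · intro s hs
    obtain ⟨σ, h1, h2, h3⟩ := facet h hs
    refine ⟨σ ∪ s, Finset.subset_union_right, h2, ?_⟩
    rw [Finset.card_union_of_disjoint h1]
    exact h3
  · intro s hs j hj f hf hf0
    by_cases hsj : s.card ≤ j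
    · obtain ⟨y, hy1, hy2⟩ := h.low s hs (j - s.card) (by omega) (tr s f)
        (tr_link fun t ht => by
          obtain ⟨h1, h2, h3⟩ := hf t ht
          exact ⟨h1, h2, by omega⟩) (bdy_tr_zero hf0)
      refine ⟨fun t => if s ⊆ t then y (t \ s) else 0, fun t ht => ?_, fun t ht => ?_⟩
      · have ht' : (if s ⊆ t then y (t \ s) else 0) ≠ 0 := ht
        split_ifs at ht' with hst
        · obtain ⟨_, h2, h3⟩ := hy1 _ ht'
          rw [Finset.sdiff_union_of_subset hst] at h2
          rw [Finset.card_sdiff_of_subset hst] at h3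
          have h4 := Finset.card_le_card hst
          exact ⟨h2, hst, by omega⟩
        · exact absurd rfl ht'
      · show ∑ v ∈ tᶜ, (if s ⊆ insert v t then y (insert v t \ s) else 0) = f t
        rw [sum_back hy1 ht, hy2, tr_of Finset.sdiff_disjoint, Finset.sdiff_union_of_subset ht]
    · refine ⟨0, fun t ht => absurd rfl ht, fun t _ => ?_⟩
      have h1 : f t = 0 := by
        by_contra hne
        obtain ⟨_, h2, h3⟩ := hf t hne
        have h4 := Finset.card_le_card h2
        omega
      rw [h1]
      exact Finset.sum_eq_zero fun _ _ => rfl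
  · intro s hs f hf
    have hc := h.dim s hs
    have hk : (n - s.card) + s.card = n := by omega
    have hlink : LinkCh2 G s (n - s.card) (tr s f) := tr_link fun t ht => by
      obtain ⟨h1, h2, h3⟩ := hf t ht
      exact ⟨h1, h2, by omega⟩
    have hback : ∀ t : Finset V, s ⊆ t → f t = tr s f (t \ s) := fun t ht => by
      rw [tr_of Finset.sdiff_disjoint, Finset.sdiff_union_of_subset ht]
    constructor
    · intro h0
      by_cases hz : tr s f = 0
      · refine ⟨0, fun t _ h2 _ => ?_⟩
        rw [hback t h2, hz]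
        rfl
      · refine ⟨1, fun t h1 h2 h3 => ?_⟩
        rw [hback t h2]
        refine ind h _ s hs hk _ hlink (bdy_tr_zero h0) hz _ Finset.sdiff_disjoint ?_ ?_
        · rw [Finset.sdiff_union_of_subset h2]
          exact h1
        · rw [Finset.card_sdiff_of_subset h2, h3]
    · rintro ⟨c, hc⟩ t ht
      by_cases hc0 : c = 0
      · refine Finset.sum_eq_zero fun v _ => ?_
        by_contra hne
        obtain ⟨h1, h2, h3⟩ := hf _ hne
        exact hne ((hc _ h1 h2 h3).trans hc0)
      · have hc1 := z2 c hc0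
        obtain ⟨o, h1, h2, h3, _⟩ := h.top s hs (n - s.card) hk
        have h4 := ind h _ s hs hk o h1 h2 h3
        have h5 : tr s f = o := by
          funext σ
          by_cases hd : Disjoint σ s ∧ G.IsClique ((σ ∪ s : Finset V) : Set V) ∧ σ.card = n - s.card
          · rw [h4 σ hd.1 hd.2.1 hd.2.2, tr_of hd.1, ← hc1]
            refine hc _ hd.2.1 Finset.subset_union_right ?_
            rw [Finset.card_union_of_disjoint hd.1, hd.2.2]
            omega
          · have e1 : tr s f σ = 0 := by
              by_contra hne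
              exact hd (hlink σ hne)
            have e2 : o σ = 0 := by
              by_contra hne
              exact hd (h1 σ hne)
            rw [e1, e2]
        have h6 := bdy_tr (s := s) (σ := t \ s) Finset.sdiff_disjoint f
        rw [Finset.sdiff_union_of_subset ht, h5, h2] at h6
        exact h6.symm

section RankCmp

private theorem exists_minor {m n K : Type} [Fintype m] [Fintype n] [Field K] (A : Matrix m n K) :
    ∃ (r : Fin A.rank → m) (c : Fin A.rank → n), (A.submatrix r c).det ≠ 0 := by
  classical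
  have h1 : A.rank = Module.finrank K (Submodule.span K (Set.range A.row)) :=
    Matrix.rank_eq_finrank_span_row A
  obtain ⟨f, hf, -, hli⟩ := Submodule.exists_fun_fin_finrank_span_eq K (Set.range A.row)
  choose r0 hr0 using hf
  have hli' : LinearIndependent K (fun i : Fin A.rank => A (r0 (Fin.cast h1 i))) := by
    have h2 : (fun i : Fin A.rank => A (r0 (Fin.cast h1 i))) = f ∘ (Fin.cast h1) := by
      funext i
      exact hr0 _
    rw [h2]
    exact hli.comp _ (Fin.cast_injective h1)
  set r : Fin A.rank → m := fun i => r0 (Fin.cast h1 i) with hr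
  let B : Matrix (Fin A.rank) n K := A.submatrix r id
  have hB : B.rank = A.rank := by
    have := LinearIndependent.rank_matrix (M := B) hli'
    simpa using this
  have h3 : B.rank = Module.finrank K (Submodule.span K (Set.range B.col)) :=
    Matrix.rank_eq_finrank_span_cols B
  obtain ⟨g, hg, -, hgli⟩ := Submodule.exists_fun_fin_finrank_span_eq K (Set.range B.col)
  choose c0 hc0 using hg
  have h4 : A.rank = Module.finrank K (Submodule.span K (Set.range B.col)) := by
    rw [← h3, hB]
  refine ⟨r, fun i => c0 (Fin.cast h4 i), ?_⟩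
  have hli2 : LinearIndependent K (fun i : Fin A.rank => B.col (c0 (Fin.cast h4 i))) := by
    have h2 : (fun i : Fin A.rank => B.col (c0 (Fin.cast h4 i))) = g ∘ (Fin.cast h4) := by
      funext i
      exact hc0 _
    rw [h2]
    exact hgli.comp _ (Fin.cast_injective h4)
  have h5 : IsUnit (A.submatrix r fun i => c0 (Fin.cast h4 i)) := by
    rw [← Matrix.linearIndependent_cols_iff_isUnit]
    exact hli2
  exact ((Matrix.isUnit_iff_isUnit_det _).1 h5).ne_zero

/-- the rank of an integer matrix over a field of characteristic zero is at least the rank over any field -/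
private theorem rank_int_le' {m n : Type} [Fintype m] [Fintype n] (A : Matrix m n ℤ) (F K : Type) [Field F]
    [Field K] [CharZero K] :
    (A.map (Int.cast : ℤ → F)).rank ≤ (A.map (Int.cast : ℤ → K)).rank := by
  classical
  obtain ⟨r, c, hdet⟩ := exists_minor (A.map (Int.cast : ℤ → F))
  generalize (A.map (Int.cast : ℤ → F)).rank = k at r c hdet ⊢
  have h1 : (((A.submatrix r c).det : ℤ) : F) ≠ 0 := by
    have : ((A.map (Int.cast : ℤ → F)).submatrix r c) =
        (Int.castRingHom F).mapMatrix (A.submatrix r c) := by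
      ext i j
      simp
    rw [this, ← RingHom.map_det] at hdet
    simpa using hdet
  have h2 : (A.submatrix r c).det ≠ 0 := by
    intro h
    rw [h] at h1
    simp at h1
  have h3 : ((A.map (Int.cast : ℤ → K)).submatrix r c).det ≠ 0 := by
    have : ((A.map (Int.cast : ℤ → K)).submatrix r c) =
        (Int.castRingHom K).mapMatrix (A.submatrix r c) := by
      ext i j
      simp
    rw [this, ← RingHom.map_det]
    simpa using h2
  have h4 : LinearIndependent K ((A.map (Int.cast : ℤ → K)).submatrix r c).row := by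
    rw [Matrix.linearIndependent_rows_iff_isUnit, Matrix.isUnit_iff_isUnit_det]
    exact isUnit_iff_ne_zero.2 h3
  have h5 : LinearIndependent K (fun i => (A.map (Int.cast : ℤ → K)).row (r i)) := by
    refine LinearIndependent.of_comp (LinearMap.funLeft K K c) ?_
    exact h4
  rw [Matrix.rank_eq_finrank_span_row]
  have h6 : Submodule.span K (Set.range fun i => (A.map (Int.cast : ℤ → K)).row (r i)) ≤
      Submodule.span K (Set.range (A.map (Int.cast : ℤ → K)).row) := by
    refine Submodule.span_mono ?_
    rintro _ ⟨i, rfl⟩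
    exact ⟨r i, rfl⟩
  have h7 := Submodule.finrank_mono h6
  rw [finrank_span_eq_card h5] at h7
  simpa using h7

/-- functions supported on the simplices with the property `P` -/
private def Cs (F : Type) [Field F] (P : Finset V → Prop) : Submodule F (Finset V → F) where
  carrier := {z | ∀ σ, z σ ≠ 0 → P σ}
  zero_mem' := fun σ h => absurd rfl h
  add_mem' := by
    rintro f g hf hg σ h
    by_cases h1 : f σ = 0
    · by_cases h2 : g σ = 0
      · exact absurd (by simp [h1, h2]) h
      · exact hg σ h2
    · exact hf σ h1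
  smul_mem' := by
    rintro c f hf σ h
    exact hf σ fun h0 => h (by simp [h0])

private theorem mem_Cs {F : Type} [Field F] {P : Finset V → Prop} {z : Finset V → F} :
    z ∈ Cs F P ↔ ∀ σ, z σ ≠ 0 → P σ := Iff.rfl

/-- the boundary operator -/
private def bd (F : Type) [Field F] (ν : V → ℕ) : (Finset V → F) →ₗ[F] (Finset V → F) where
  toFun f τ := ∑ v ∈ τᶜ, (Pool.Agent.H4.Singer.sg ν v τ : F) * f (insert v τ)
  map_add' f g := by
    funext τ
    simp [mul_add, Finset.sum_add_distrib]
  map_smul' c f := by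
    funext τ
    simp only [Pi.smul_apply, smul_eq_mul, RingHom.id_apply, Finset.mul_sum]
    exact Finset.sum_congr rfl fun v _ => by ring

private theorem bd_apply (F : Type) [Field F] (ν : V → ℕ) (f : Finset V → F) (τ : Finset V) :
    bd F ν f τ = ∑ v ∈ τᶜ, (Pool.Agent.H4.Singer.sg ν v τ : F) * f (insert v τ) := rfl

private theorem bd_bd (F : Type) [Field F] (ν : V → ℕ) (hν : Function.Injective ν) (f : Finset V → F) :
    bd F ν (bd F ν f) = 0 := by
  have h := Pool.Agent.H4.Singer.dl_dl (F := F) ν hν (fun τ (_ : Unit) => f τ)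
  funext τ
  exact congrFun (congrFun h τ) ()

private theorem bdy_eq (ν : V → ℕ) (z : Finset V → ℝ) :
    Pool.Agent.H85.Fold4.bdy ν z = bd ℝ ν z := by
  funext σ
  rw [bd_apply]
  unfold Pool.Agent.H85.Fold4.bdy Pool.Agent.H4.Singer.sg
  refine Finset.sum_congr rfl fun v _ => ?_
  push_cast
  rfl

private theorem bdy2_eq (ν : V → ℕ) (z : Finset V → ZMod 2) : bdy2 z = bd (ZMod 2) ν z := by
  funext σ
  rw [bd_apply]
  unfold bdy2 Pool.Agent.H4.Singer.sg
  refine Finset.sum_congr rfl fun v _ => ?_
  have h : (-1 : ZMod 2) = 1 := by decide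
  push_cast
  rw [h, one_pow, one_mul]

open Classical in
private theorem exists_mat (P : Finset V → Prop) (ν : V → ℕ) :
    ∃ (I : Type) (_ : Fintype I) (D : Matrix (Finset V) I ℤ), ∀ (F : Type) [Field F],
      Module.finrank F ((Cs F P).map (bd F ν)) = (D.map (Int.cast : ℤ → F)).rank ∧
      Module.finrank F (Cs F P ⊓ LinearMap.ker (bd F ν) : Submodule F (Finset V → F)) +
        (D.map (Int.cast : ℤ → F)).rank = Fintype.card I := by
  let I := {σ : Finset V // P σ}
  let D : Matrix (Finset V) I ℤ := fun τ c =>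
    ∑ v ∈ τᶜ, Pool.Agent.H4.Singer.sg ν v τ * (if insert v τ = c.1 then 1 else 0)
  refine ⟨I, inferInstance, D, fun F _ => ?_⟩
  let φ : (I → F) →ₗ[F] (Finset V → F) :=
    { toFun := fun x σ => ∑ c : I, ((if σ = c.1 then 1 else 0 : ℤ) : F) * x c
      map_add' := by
        intro x y
        funext σ
        simp [mul_add, Finset.sum_add_distrib]
      map_smul' := by
        intro a x
        funext σ
        simp only [Pi.smul_apply, smul_eq_mul, RingHom.id_apply, Finset.mul_sum]
        exact Finset.sum_congr rfl fun c _ => by ring }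
  have hφ0 : ∀ (x : I → F) (σ : Finset V), φ x σ =
      ∑ c : I, ((if σ = c.1 then 1 else 0 : ℤ) : F) * x c := fun _ _ => rfl
  have hres : ∀ (x : I → F) (c : I), φ x c.1 = x c := by
    intro x c
    rw [hφ0, Finset.sum_eq_single c]
    · simp
    · intro d _ hd
      rw [if_neg (fun h => hd (Subtype.ext h.symm))]
      simp
    · intro h
      exact absurd (Finset.mem_univ _) h
  have hz : ∀ (x : I → F) (σ : Finset V), ¬ P σ → φ x σ = 0 := by
    intro x σ h
    rw [hφ0]
    refine Finset.sum_eq_zero fun c _ => ?_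
    rw [if_neg (fun h' : σ = c.1 => h (by rw [h']; exact c.2))]
    simp
  have hinj : Function.Injective φ := by
    intro x y hxy
    funext c
    rw [← hres x c, ← hres y c, hxy]
  have hrange : LinearMap.range φ = Cs F P := by
    apply le_antisymm
    · rintro _ ⟨x, rfl⟩
      rw [mem_Cs]
      intro σ h
      by_contra hc
      exact h (hz x σ hc)
    · intro f hf
      rw [mem_Cs] at hf
      refine ⟨fun c => f c.1, ?_⟩
      funext σ
      by_cases h : P σ
      · exact hres _ ⟨σ, h⟩
      · rw [hz _ σ h]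
        by_contra hc
        exact h (hf σ (Ne.symm hc))
  have hcomp : (bd F ν).comp φ = (D.map (Int.cast : ℤ → F)).mulVecLin := by
    refine LinearMap.ext fun x => ?_
    funext τ
    rw [LinearMap.comp_apply, bd_apply, Matrix.mulVecLin_apply]
    simp only [Matrix.mulVec, dotProduct, Matrix.map_apply]
    have h1 : ∀ v ∈ τᶜ, (Pool.Agent.H4.Singer.sg ν v τ : F) * φ x (insert v τ) =
        ∑ c : I, (Pool.Agent.H4.Singer.sg ν v τ : F) *
          (((if insert v τ = c.1 then 1 else 0 : ℤ) : F) * x c) := by
      intro v _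
      rw [← Finset.mul_sum, hφ0]
    rw [Finset.sum_congr rfl h1, Finset.sum_comm]
    refine Finset.sum_congr rfl fun c _ => ?_
    have h2 : ((D τ c : ℤ) : F) = ∑ v ∈ τᶜ, (Pool.Agent.H4.Singer.sg ν v τ : F) *
        ((if insert v τ = c.1 then 1 else 0 : ℤ) : F) := by
      change ((∑ v ∈ τᶜ, Pool.Agent.H4.Singer.sg ν v τ * (if insert v τ = c.1 then 1 else 0) : ℤ) : F) = _
      rw [Int.cast_sum]
      exact Finset.sum_congr rfl fun v _ => Int.cast_mul _ _
    rw [h2, Finset.sum_mul]
    exact Finset.sum_congr rfl fun v _ => by ring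
  have hr1 : Module.finrank F ((Cs F P).map (bd F ν)) = (D.map (Int.cast : ℤ → F)).rank := by
    rw [← hrange, ← LinearMap.range_comp, hcomp]
    rfl
  refine ⟨hr1, ?_⟩
  have hker : (Cs F P ⊓ LinearMap.ker (bd F ν) : Submodule F (Finset V → F)) =
      (LinearMap.ker ((bd F ν).comp φ)).map φ := by
    rw [← hrange]
    ext f
    constructor
    · rintro ⟨⟨x, rfl⟩, hx⟩
      exact ⟨x, hx, rfl⟩
    · rintro ⟨x, hx, rfl⟩
      exact ⟨⟨x, rfl⟩, hx⟩
  have h1 : Module.finrank F (Cs F P ⊓ LinearMap.ker (bd F ν) : Submodule F (Finset V → F)) =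
      Module.finrank F (LinearMap.ker ((bd F ν).comp φ)) := by
    rw [hker]
    exact (Submodule.equivMapOfInjective φ hinj _).finrank_eq.symm
  have h2 := LinearMap.finrank_range_add_finrank_ker ((bd F ν).comp φ)
  have h3 : Module.finrank F (LinearMap.range ((bd F ν).comp φ)) =
      (D.map (Int.cast : ℤ → F)).rank := by
    rw [hcomp]
    rfl
  have h4 : Module.finrank F (I → F) = Fintype.card I := Module.finrank_fintype_fun_eq_card F
  omega

/-- the simplices of the link of `ρ` with `j` vertices -/
private def PL (G : SimpleGraph V) (ρ : Finset V) (j : ℕ) (σ : Finset V) : Prop :=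
  Disjoint σ ρ ∧ G.IsClique ((σ ∪ ρ : Finset V) : Set V) ∧ σ.card = j

private theorem map_le (F : Type) [Field F] (G : SimpleGraph V) (ρ : Finset V) (ν : V → ℕ)
    (hν : Function.Injective ν) (j : ℕ) :
    (Cs F (PL G ρ (j + 1))).map (bd F ν) ≤ Cs F (PL G ρ j) ⊓ LinearMap.ker (bd F ν) := by
  rintro _ ⟨f, hf, rfl⟩
  refine ⟨?_, ?_⟩
  · change bd F ν f ∈ Cs F (PL G ρ j)
    rw [mem_Cs]
    intro τ h
    rw [bd_apply] at h
    obtain ⟨u, hu, hne⟩ := Finset.exists_ne_zero_of_sum_ne_zero h
    rw [Finset.mem_compl] at hu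
    obtain ⟨h3, h4, h5⟩ := hf _ (right_ne_zero_of_mul hne)
    refine ⟨Disjoint.mono_left (Finset.subset_insert _ _) h3, h4.subset ?_, ?_⟩
    · intro x hx
      simp only [Finset.coe_union, Set.mem_union, Finset.mem_coe, Finset.mem_insert] at hx ⊢
      tauto
    · rw [Finset.card_insert_of_notMem hu] at h5
      omega
  · exact LinearMap.mem_ker.2 (bd_bd F ν hν f)

private theorem map_zero_eq (F : Type) [Field F] (G : SimpleGraph V) (ρ : Finset V) (ν : V → ℕ) :
    (Cs F (PL G ρ 0)).map (bd F ν) = ⊥ := by
  rw [eq_bot_iff]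
  rintro _ ⟨f, hf, rfl⟩
  rw [Submodule.mem_bot]
  funext τ
  rw [bd_apply]
  refine Finset.sum_eq_zero fun v _ => ?_
  have : f (insert v τ) = 0 := by
    by_contra hc
    have := (hf _ hc).2.2
    rw [Finset.card_eq_zero] at this
    exact Finset.insert_ne_empty _ _ this
  rw [this, mul_zero]

end RankCmp

/-- **Module T8.** For each clique `ρ` and each `j` let `∂_j` be the integral boundary matrix from degree `j + 1` to
degree `j`. The rank over `ℝ` is at least the rank over `ZMod 2` (`Pool.Agent.H4.Singer.rank_int_le`). Exactness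
below the top over `ZMod 2` gives `rank₂ ∂_j + rank₂ ∂_(j-1) = c_j`, over `ℝ` `rank ∂_j + rank ∂_(j-1) ≤ c_j`, so
all ranks agree and the complex is exact over `ℝ` below the top; in the top degree the kernel has dimension
`c - rank = 1`. -/
theorem HomologySphere2.real {G : SimpleGraph V} {n : ℕ} (h : HomologySphere2 G n) :
    Pool.Agent.H85.Fold4.HomologySphere G n := by
  classical
  -- ranks over the reals and over the field of two elements
  have hcmp : ∀ (ν : V → ℕ) (ρ : Finset V) (j : ℕ),
      Module.finrank (ZMod 2) ((Cs (ZMod 2) (PL G ρ j)).map (bd (ZMod 2) ν)) ≤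
        Module.finrank ℝ ((Cs ℝ (PL G ρ j)).map (bd ℝ ν)) ∧
      Module.finrank ℝ (Cs ℝ (PL G ρ j) ⊓ LinearMap.ker (bd ℝ ν) : Submodule ℝ (Finset V → ℝ)) +
        Module.finrank ℝ ((Cs ℝ (PL G ρ j)).map (bd ℝ ν)) =
      Module.finrank (ZMod 2) (Cs (ZMod 2) (PL G ρ j) ⊓ LinearMap.ker (bd (ZMod 2) ν) :
        Submodule (ZMod 2) (Finset V → ZMod 2)) +
        Module.finrank (ZMod 2) ((Cs (ZMod 2) (PL G ρ j)).map (bd (ZMod 2) ν)) := by
    intro ν ρ j
    obtain ⟨I, _, D, hD⟩ := exists_mat (PL G ρ j) ν
    obtain ⟨h1, h2⟩ := hD ℝ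
    obtain ⟨h3, h4⟩ := hD (ZMod 2)
    have h5 := rank_int_le' D (ZMod 2) ℝ
    omega
  have hlow2 : ∀ (ν : V → ℕ), Function.Injective ν → ∀ ρ : Finset V, G.IsClique (ρ : Set V) →
      ∀ j, j + ρ.card < n → (Cs (ZMod 2) (PL G ρ (j + 1))).map (bd (ZMod 2) ν) =
        Cs (ZMod 2) (PL G ρ j) ⊓ LinearMap.ker (bd (ZMod 2) ν) := by
    intro ν hν ρ hρ j hj
    refine le_antisymm (map_le _ G ρ ν hν j) ?_
    rintro z ⟨hz1, hz2⟩
    obtain ⟨y, hy1, hy2⟩ := h.low ρ hρ j hj z hz1 (by rw [bdy2_eq ν]; exact hz2)
    exact ⟨y, hy1, by rw [← bdy2_eq ν]; exact hy2⟩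
  -- exactness over the reals and equality of the ranks
  have key : ∀ (ν : V → ℕ), Function.Injective ν → ∀ ρ : Finset V, G.IsClique (ρ : Set V) →
      ∀ j, j + ρ.card < n →
      Module.finrank ℝ ((Cs ℝ (PL G ρ (j + 1))).map (bd ℝ ν)) =
        Module.finrank (ZMod 2) ((Cs (ZMod 2) (PL G ρ (j + 1))).map (bd (ZMod 2) ν)) ∧
      (Cs ℝ (PL G ρ (j + 1))).map (bd ℝ ν) = Cs ℝ (PL G ρ j) ⊓ LinearMap.ker (bd ℝ ν) := by
    intro ν hν ρ hρ j hj
    have h1 := map_le ℝ G ρ ν hν j
    have h2 := Submodule.finrank_mono h1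
    have h3 := hlow2 ν hν ρ hρ j hj
    obtain ⟨h4, h5⟩ := hcmp ν ρ j
    obtain ⟨h6, -⟩ := hcmp ν ρ (j + 1)
    rw [← h3] at h5
    have h7 : Module.finrank ℝ ((Cs ℝ (PL G ρ (j + 1))).map (bd ℝ ν)) =
        Module.finrank ℝ (Cs ℝ (PL G ρ j) ⊓ LinearMap.ker (bd ℝ ν) :
          Submodule ℝ (Finset V → ℝ)) := by omega
    exact ⟨by omega, Submodule.eq_of_le_of_finrank_eq h1 h7⟩
  refine ⟨h.dim, ?_, ?_⟩
  · intro ν hν ρ hρ j hj z hz hb
    have hz' : z ∈ (Cs ℝ (PL G ρ (j + 1))).map (bd ℝ ν) := by
      rw [(key ν hν ρ hρ j hj).2]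
      exact ⟨hz, LinearMap.mem_ker.2 (by rw [← bdy_eq]; exact hb)⟩
    obtain ⟨y, hy1, hy2⟩ := hz'
    exact ⟨y, hy1, by rw [bdy_eq]; exact hy2⟩
  · intro ν hν ρ hρ j hj
    -- the ranks in the top degree agree
    have hr : Module.finrank ℝ ((Cs ℝ (PL G ρ j)).map (bd ℝ ν)) =
        Module.finrank (ZMod 2) ((Cs (ZMod 2) (PL G ρ j)).map (bd (ZMod 2) ν)) := by
      rcases j with _ | j
      · rw [map_zero_eq, map_zero_eq, finrank_bot, finrank_bot]
      · exact (key ν hν ρ hρ j (by omega)).1
    obtain ⟨-, h5⟩ := hcmp ν ρ j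
    obtain ⟨o, ho1, ho2, ho3, ho4⟩ := h.top ρ hρ j hj
    have h2 : Module.finrank (ZMod 2) (Cs (ZMod 2) (PL G ρ j) ⊓ LinearMap.ker (bd (ZMod 2) ν) :
        Submodule (ZMod 2) (Finset V → ZMod 2)) = 1 := by
      have ho : o ∈ (Cs (ZMod 2) (PL G ρ j) ⊓ LinearMap.ker (bd (ZMod 2) ν) :
          Submodule (ZMod 2) (Finset V → ZMod 2)) :=
        ⟨ho1, LinearMap.mem_ker.2 (by rw [← bdy2_eq ν]; exact ho2)⟩
      rw [finrank_eq_one_iff']
      refine ⟨⟨o, ho⟩, fun hc => ho3 (congrArg Subtype.val hc), ?_⟩
      rintro ⟨w, hw1, hw2⟩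
      rcases ho4 w hw1 (by rw [bdy2_eq ν]; exact hw2) with hw | hw
      · refine ⟨0, ?_⟩
        ext1
        simp [hw]
      · refine ⟨1, ?_⟩
        ext1
        simp [hw]
    have h1 : Module.finrank ℝ (Cs ℝ (PL G ρ j) ⊓ LinearMap.ker (bd ℝ ν) :
        Submodule ℝ (Finset V → ℝ)) = 1 := by omega
    rw [finrank_eq_one_iff'] at h1
    obtain ⟨⟨u, hu1, hu2⟩, hu3, hu4⟩ := h1
    refine ⟨u, hu1, by rw [bdy_eq]; exact hu2, fun hc => hu3 (Subtype.ext hc), ?_⟩
    intro z hz hb
    obtain ⟨c, hc⟩ := hu4 ⟨z, hz, LinearMap.mem_ker.2 (by rw [← bdy_eq]; exact hb)⟩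
    exact ⟨c, (congrArg Subtype.val hc).symm⟩

end Pool.Agent.H19.SR
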