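import Pool.Agent.H19.SR.Zig

/-!
# Project SR, module M7: the pairing along the zig-zag, and Stokes
-/

set_option autoImplicit false
set_option linter.unusedSectionVars false

open Finset

namespace Pool.Agent.H19.SR

open Pool.Agent.H77.SW

variable {V : Type} [DecidableEq V] [Fintype V] {P : Type} [Group P] [Fintype P] {K : Type}
  [Field K] [CharP K 2]

open Classical in
/-- the vertices of `P` whose bits vanish on `A` -/
noncomputable def bz {G : SimpleGraph V} (D : PG G P) (A : Finset V) : Finset P :=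
  univ.filter fun p => ∀ v ∈ A, D.b p v = 0

open Classical in
/-- the pairing of the plain cochain `β` (degree `i`) and of the square of the component `∅` of the double chain
`y` in bidegree `(k, i + k)` -/
noncomputable def prW {G : SimpleGraph V} (D : PG G P) (β : Finset V → P → K)
    (y : Finset V → Finset V → (Finset V × P → K)) : K :=
  ∑ A ∈ (univ : Finset (Finset V)).filter (fun A : Finset V => G.IsClique (A : Set V)),
    ∑ p ∈ bz D A, ∑ τ ∈ A.powerset, β (A \ τ) p * y τ A (∅, p * gp D.g (A \ τ)) ^ 2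

private theorem list_insert {G : SimpleGraph V} (D : PG G P) {C : Finset V} {v : V} (hv : v ∉ C)
    (hC : G.IsClique ((insert v C : Finset V) : Set V)) : ∀ L : List V, L.Nodup →
      ((L.filter fun u => u ∈ insert v C).map D.g).prod =
        ((L.filter fun u => u ∈ C).map D.g).prod * if v ∈ L then D.g v else 1
  | [], _ => by simp
  | x :: L, hL => by
    have hx : x ∉ L := (List.nodup_cons.1 hL).1
    have ih := list_insert D hv hC L (List.nodup_cons.1 hL).2
    by_cases hxv : x = v
    · subst hxv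
      rw [List.filter_cons_of_pos (by simp), List.filter_cons_of_neg (by simpa using hv)]
      rw [List.map_cons, List.prod_cons, ih, if_neg hx, mul_one, if_pos (List.mem_cons_self)]
      have h3 : Commute (D.g x) ((L.filter fun u => u ∈ C).map D.g).prod := by
        refine Commute.list_prod_right _ _ fun y hy => ?_
        obtain ⟨u, hu, rfl⟩ := List.mem_map.1 hy
        have hu' : u ∈ C := by simpa using (List.mem_filter.1 hu).2
        have hux : x ≠ u := fun h => hv (h ▸ hu')
        refine D.comm x u (hC ?_ ?_ hux)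
        · simp
        · simp [hu']
      exact h3
    · have h4 : (v ∈ x :: L) ↔ v ∈ L := by
        rw [List.mem_cons]
        constructor
        · rintro (h | h)
          · exact absurd h.symm hxv
          · exact h
        · exact Or.inr
      have h5 : (if v ∈ x :: L then D.g v else 1) = if v ∈ L then D.g v else 1 := by
        by_cases h : v ∈ L
        · rw [if_pos h, if_pos (h4.2 h)]
        · rw [if_neg h, if_neg (fun h' => h (h4.1 h'))]
      rw [h5]
      by_cases hxC : x ∈ C
      · rw [List.filter_cons_of_pos (by simp [hxC]), List.filter_cons_of_pos (by simpa using hxC),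
          List.map_cons, List.prod_cons, List.map_cons, List.prod_cons, ih, mul_assoc]
      · rw [List.filter_cons_of_neg (by simp [hxC, hxv]), List.filter_cons_of_neg
          (by simpa using hxC), ih]

/-- `gp (B - v) g_v = gp B` for a clique `B` -/
private theorem gp_erase_mul {G : SimpleGraph V} (D : PG G P) {B : Finset V} {v : V} (hv : v ∈ B)
    (hB : G.IsClique (B : Set V)) : gp D.g (B.erase v) * D.g v = gp D.g B := by
  have hB' : G.IsClique ((insert v (B.erase v) : Finset V) : Set V) := by
    rw [insert_erase hv]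
    exact hB
  have h := list_insert D (notMem_erase v B) hB' (univ : Finset V).toList (Finset.nodup_toList _)
  rw [if_pos (Finset.mem_toList.2 (mem_univ v))] at h
  rw [insert_erase hv] at h
  exact h.symm

/-- `g_v gp (B - v) = gp B` for a clique `B` -/
private theorem mul_gp_erase {G : SimpleGraph V} (D : PG G P) {B : Finset V} {v : V} (hv : v ∈ B)
    (hB : G.IsClique (B : Set V)) : D.g v * gp D.g (B.erase v) = gp D.g B := by
  have h3 : Commute (D.g v) (gp D.g (B.erase v)) := by
    refine Commute.list_prod_right _ _ fun y hy => ?_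
    obtain ⟨u, hu, rfl⟩ := List.mem_map.1 hy
    have hu' : u ∈ B.erase v := by simpa using (List.mem_filter.1 hu).2
    have hux : v ≠ u := fun h => (mem_erase.1 hu').1 h.symm
    exact D.comm v u (hB hv (mem_erase.1 hu').2 hux)
  rw [← gp_erase_mul D hv hB]
  exact h3

private theorem clique_sub {G : SimpleGraph V} {A B : Finset V} (h : G.IsClique (A : Set V))
    (hB : B ⊆ A) : G.IsClique (B : Set V) := h.subset (by exact_mod_cast hB)

/-- `p ↦ p g_v` exchanges the vertices with `v`-bit `0` and `1` -/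
theorem sum_bz {G : SimpleGraph V} (D : PG G P) {A : Finset V} {v : V} (hv : v ∉ A)
    (F : P → K) : ∑ p ∈ bz D A, F p = ∑ p ∈ bz D (insert v A), (F p + F (p * D.g v)) := by
  classical
  rw [sum_add_distrib]
  rw [← sum_filter_add_sum_filter_not (bz D A) (fun p => D.b p v = 0)]
  congr 1
  · refine sum_congr ?_ fun _ _ => rfl
    ext p
    simp only [bz, mem_filter, mem_univ, true_and, mem_insert, forall_eq_or_imp]
    tauto
  · have hb : ∀ (p : P) (u : V), D.b (p * D.g v) u = D.b p u + if v = u then 1 else 0 := by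
      intro p u
      rw [D.b_mul, D.b_g]
    have hsq : ∀ p : P, p * D.g v * D.g v = p := by
      intro p
      rw [mul_assoc, D.sq, mul_one]
    symm
    refine sum_bij (fun p _ => p * D.g v) ?_ ?_ ?_ ?_
    · intro p hp
      simp only [bz, mem_filter, mem_univ, true_and, mem_insert, forall_eq_or_imp] at hp ⊢
      refine ⟨fun u hu => ?_, ?_⟩
      · rw [hb, hp.2 u hu, if_neg (fun h : v = u => hv (by rw [h]; exact hu)), add_zero]
      · rw [hb, hp.1, if_pos rfl, zero_add]
        exact one_ne_zero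
    · intro p _ q _ h
      exact mul_right_cancel h
    · intro q hq
      simp only [bz, mem_filter, mem_univ, true_and, mem_insert, forall_eq_or_imp] at hq ⊢
      refine ⟨q * D.g v, ⟨?_, fun u hu => ?_⟩, hsq q⟩
      · rw [hb, if_pos rfl]
        have h1 : ∀ a : ZMod 2, ¬ a = 0 → a + 1 = 0 := by decide
        exact h1 _ hq.2
      · rw [hb, hq.1 u hu, if_neg (fun h : v = u => hv (by rw [h]; exact hu)), add_zero]
    · intro p _
      rfl

/-- **The pairing does not change along the zig-zag.** For `w` in bidegree `(k, i + k + 1)`: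
`prW (e1 w) = prW (e2 w)`. Both sides are sums over the cliques `A` (`i + k + 1` elements), `p ∈ bz D A`, `σ ⊆ A`
(`k` elements) and `v ∈ B = A \ σ` (`i + 1` elements):
left: `β (B - v) p * (w σ A (∅, p gp (B - v)) + w σ A (∅, p gp B)) ^ 2`;
right (`sum_bz` for `A - v`): `β (B - v) p * w σ A (∅, p gp (B - v)) ^ 2 +
β (B - v) (p g_v) * w σ A (∅, p gp B) ^ 2` (`g_v gp (B - v) = gp B`). The difference is
`w σ A (∅, p gp B) ^ 2 * ∑ v ∈ B, (β (B - v) p + β (B - v) (p g_v)) = 0`. The component `∅` of `rE D s t v f` is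
`p ↦ f (∅, p g_v)`. `hβ` is needed for cliques `B` with `i + 1` elements only: other `β (A \ τ)` do not occur
because of the bidegree. -/
theorem prW_step {G : SimpleGraph V} (D : PG G P) (s : Finset V) (t : V → P → K) {i k : ℕ}
    {β : Finset V → P → K} (hβ : Coc D i β)
    {w : Finset V → Finset V → (Finset V × P → K)} (hw : IsW G k (i + k + 1) w) :
    prW D β (e1 (rE D s t) w) = prW D β (e2 w) := by
  classical
  -- the left hand side
  have hL : prW D β (e1 (rE D s t) w) =
      ∑ A ∈ (univ : Finset (Finset V)).filter (fun A : Finset V => G.IsClique (A : Set V)),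
        ∑ p ∈ bz D A, ∑ σ ∈ A.powerset, ∑ v ∈ A \ σ, β ((A \ σ).erase v) p *
          (w σ A (∅, p * gp D.g ((A \ σ).erase v)) ^ 2 + w σ A (∅, p * gp D.g (A \ σ)) ^ 2) := by
    unfold prW
    refine sum_congr ?_ fun A hA => sum_congr rfl fun p hp => ?_
    · ext A
      simp
    have hA' : G.IsClique (A : Set V) := (mem_filter.1 hA).2
    have h1 : ∀ τ ∈ A.powerset, β (A \ τ) p *
        e1 (rE D s t) w τ A (∅, p * gp D.g (A \ τ)) ^ 2 =
        ∑ v ∈ τ, β (A \ τ) p * (w (τ.erase v) A (∅, p * gp D.g (A \ τ)) ^ 2 +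
          w (τ.erase v) A (∅, p * gp D.g (A \ τ) * D.g v) ^ 2) := by
      intro τ hτ
      have hτ' : τ ⊆ A := mem_powerset.1 hτ
      have h2 : e1 (rE D s t) w τ A (∅, p * gp D.g (A \ τ)) =
          ∑ v ∈ τ, (w (τ.erase v) A (∅, p * gp D.g (A \ τ)) +
            w (τ.erase v) A (∅, p * gp D.g (A \ τ) * D.g v)) := by
        unfold e1
        rw [if_pos hτ', Finset.sum_apply]
        refine sum_congr rfl fun v _ => ?_
        rw [Pi.add_apply]
        congr 1
        show w (τ.erase v) A (∅, p * gp D.g (A \ τ) * D.g v) +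
          (if v ∈ s ∧ v ∈ (∅ : Finset V) then
            t v (p * gp D.g (A \ τ)) * w (τ.erase v) A
              ((∅ : Finset V).erase v, p * gp D.g (A \ τ) * D.g v) else 0) = _
        rw [if_neg (fun h => absurd h.2 (notMem_empty v)), add_zero]
      rw [h2, CharTwo.sum_sq, mul_sum]
      refine sum_congr rfl fun v _ => ?_
      rw [CharTwo.add_sq]
    rw [sum_congr rfl h1, sum_sigma', sum_sigma']
    refine sum_bij' (fun x _ => ⟨x.1.erase x.2, x.2⟩) (fun x _ => ⟨insert x.2 x.1, x.2⟩)
      ?_ ?_ ?_ ?_ ?_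
    · rintro ⟨τ, v⟩ h
      rw [mem_sigma, mem_powerset] at h
      rw [mem_sigma, mem_powerset]
      refine ⟨(erase_subset _ _).trans h.1, ?_⟩
      rw [mem_sdiff]
      exact ⟨h.1 h.2, notMem_erase _ _⟩
    · rintro ⟨σ, v⟩ h
      rw [mem_sigma, mem_powerset, mem_sdiff] at h
      rw [mem_sigma, mem_powerset]
      exact ⟨insert_subset h.2.1 h.1, mem_insert_self _ _⟩
    · rintro ⟨τ, v⟩ h
      rw [mem_sigma] at h
      simp only [insert_erase h.2]
    · rintro ⟨σ, v⟩ h
      rw [mem_sigma, mem_powerset, mem_sdiff] at h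
      simp only [erase_insert h.2.2]
    · rintro ⟨τ, v⟩ h
      rw [mem_sigma, mem_powerset] at h
      have h3 : (A \ τ.erase v).erase v = A \ τ := by
        ext u
        simp only [mem_erase, mem_sdiff]
        constructor
        · rintro ⟨h4, h5, h6⟩
          exact ⟨h5, fun h7 => h6 ⟨h4, h7⟩⟩
        · rintro ⟨h4, h5⟩
          exact ⟨fun h6 => h5 (h6 ▸ h.2), h4, fun h6 => h5 h6.2⟩
      have h4 : v ∈ A \ τ.erase v := mem_sdiff.2 ⟨h.1 h.2, notMem_erase _ _⟩
      have h5 := gp_erase_mul D h4 (clique_sub hA' sdiff_subset)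
      show β (A \ τ) p * (w (τ.erase v) A (∅, p * gp D.g (A \ τ)) ^ 2 +
          w (τ.erase v) A (∅, p * gp D.g (A \ τ) * D.g v) ^ 2) =
        β ((A \ τ.erase v).erase v) p *
          (w (τ.erase v) A (∅, p * gp D.g ((A \ τ.erase v).erase v)) ^ 2 +
            w (τ.erase v) A (∅, p * gp D.g (A \ τ.erase v)) ^ 2)
      rw [← h5, h3, mul_assoc p]
  -- the right hand side
  have hR : prW D β (e2 w) =
      ∑ A ∈ (univ : Finset (Finset V)).filter (fun A : Finset V => G.IsClique (A : Set V)),
        ∑ p ∈ bz D A, ∑ σ ∈ A.powerset, ∑ v ∈ A \ σ,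
          (β ((A \ σ).erase v) p * w σ A (∅, p * gp D.g ((A \ σ).erase v)) ^ 2 +
            β ((A \ σ).erase v) (p * D.g v) * w σ A (∅, p * gp D.g (A \ σ)) ^ 2) := by
    have h0 : prW D β (e2 w) =
        ∑ A ∈ (univ : Finset (Finset V)).filter (fun A : Finset V => G.IsClique (A : Set V)),
          ∑ v ∈ Aᶜ, ∑ p ∈ bz D A, ∑ τ ∈ A.powerset, β (A \ τ) p *
            w τ (insert v A) (∅, p * gp D.g (A \ τ)) ^ 2 := by
      unfold prW
      refine sum_congr ?_ fun A hA => ?_
      · ext A
        simp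
      conv_rhs => rw [sum_comm]
      refine sum_congr rfl fun p _ => ?_
      conv_rhs => rw [sum_comm]
      refine sum_congr rfl fun τ hτ => ?_
      have hτ' : τ ⊆ A := mem_powerset.1 hτ
      unfold e2
      rw [if_pos hτ', Finset.sum_apply, CharTwo.sum_sq, mul_sum]
    rw [h0, sum_sigma']
    -- the pairs `(A', v)`, `v ∈ A'`
    have h1 : (∑ x ∈ ((univ : Finset (Finset V)).filter
          (fun A : Finset V => G.IsClique (A : Set V))).sigma (fun A : Finset V => Aᶜ),
        (∑ p ∈ bz D x.1, ∑ τ ∈ x.1.powerset, β (x.1 \ τ) p *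
            w τ (insert x.2 x.1) (∅, p * gp D.g (x.1 \ τ)) ^ 2 : K)) =
        ∑ x ∈ ((univ : Finset (Finset V)).filter
          (fun A : Finset V => G.IsClique (A : Set V))).sigma (fun A : Finset V => A),
        (∑ p ∈ bz D (x.1.erase x.2), ∑ τ ∈ (x.1.erase x.2).powerset, β (x.1.erase x.2 \ τ) p *
            w τ x.1 (∅, p * gp D.g (x.1.erase x.2 \ τ)) ^ 2 : K) := by
      rw [← sum_filter_add_sum_filter_not (((univ : Finset (Finset V)).filter
          (fun A : Finset V => G.IsClique (A : Set V))).sigma (fun A : Finset V => Aᶜ))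
          (fun x => G.IsClique ((insert x.2 x.1 : Finset V) : Set V))]
      have h2 : (∑ x ∈ (((univ : Finset (Finset V)).filter
          (fun A : Finset V => G.IsClique (A : Set V))).sigma (fun A : Finset V => Aᶜ)).filter
          (fun x => ¬ G.IsClique ((insert x.2 x.1 : Finset V) : Set V)),
          (∑ p ∈ bz D x.1, ∑ τ ∈ x.1.powerset, β (x.1 \ τ) p *
            w τ (insert x.2 x.1) (∅, p * gp D.g (x.1 \ τ)) ^ 2 : K)) = 0 := by
        refine sum_eq_zero fun x hx => ?_
        refine sum_eq_zero fun p _ => sum_eq_zero fun τ _ => ?_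
        have h3 : w τ (insert x.2 x.1) = 0 := by
          by_contra h4
          exact (mem_filter.1 hx).2 (hw _ _ h4).2.1
        rw [h3]
        simp
      rw [h2, add_zero]
      refine sum_bij' (fun x _ => ⟨insert x.2 x.1, x.2⟩) (fun x _ => ⟨x.1.erase x.2, x.2⟩)
        ?_ ?_ ?_ ?_ ?_
      · rintro ⟨A, v⟩ h
        simp only [mem_filter, mem_sigma, mem_univ, true_and, mem_compl] at h ⊢
        exact ⟨h.2, mem_insert_self _ _⟩
      · rintro ⟨A, v⟩ h
        simp only [mem_filter, mem_sigma, mem_univ, true_and, mem_compl] at h ⊢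
        refine ⟨⟨clique_sub h.1 (erase_subset _ _), notMem_erase _ _⟩, ?_⟩
        rw [insert_erase h.2]
        exact h.1
      · rintro ⟨A, v⟩ h
        simp only [mem_filter, mem_sigma, mem_univ, true_and, mem_compl] at h
        simp only [erase_insert h.1.2]
      · rintro ⟨A, v⟩ h
        simp only [mem_sigma, mem_filter, mem_univ, true_and] at h
        simp only [insert_erase h.2]
      · rintro ⟨A, v⟩ h
        simp only [mem_filter, mem_sigma, mem_univ, true_and, mem_compl] at h
        simp only [erase_insert h.1.2]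
    rw [h1, ← sum_sigma' _ _ (fun A v => ∑ p ∈ bz D (A.erase v), ∑ τ ∈ (A.erase v).powerset,
      β (A.erase v \ τ) p * w τ A (∅, p * gp D.g (A.erase v \ τ)) ^ 2)]
    refine sum_congr rfl fun A hA => ?_
    have hA' : G.IsClique (A : Set V) := (mem_filter.1 hA).2
    have h2 : ∀ v ∈ A, ∑ p ∈ bz D (A.erase v), ∑ τ ∈ (A.erase v).powerset,
        β (A.erase v \ τ) p * w τ A (∅, p * gp D.g (A.erase v \ τ)) ^ 2 =
        ∑ p ∈ bz D A, ∑ τ ∈ (A.erase v).powerset,
          (β ((A \ τ).erase v) p * w τ A (∅, p * gp D.g ((A \ τ).erase v)) ^ 2 +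
            β ((A \ τ).erase v) (p * D.g v) * w τ A (∅, p * gp D.g (A \ τ)) ^ 2) := by
      intro v hv
      rw [sum_bz D (notMem_erase v A), insert_erase hv]
      refine sum_congr rfl fun p _ => ?_
      rw [← sum_add_distrib]
      refine sum_congr rfl fun τ hτ => ?_
      have h3 : A.erase v \ τ = (A \ τ).erase v := by
        rw [erase_sdiff_comm]
      have h4 : v ∈ A \ τ :=
        mem_sdiff.2 ⟨hv, fun h => notMem_erase v A (mem_powerset.1 hτ h)⟩
      rw [h3, ← mul_gp_erase D h4 (clique_sub hA' sdiff_subset), mul_assoc p]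
    rw [sum_congr rfl h2, sum_comm]
    refine sum_congr rfl fun p _ => ?_
    rw [sum_sigma', sum_sigma']
    refine sum_bij' (fun x _ => ⟨x.2, x.1⟩) (fun x _ => ⟨x.2, x.1⟩) ?_ ?_ ?_ ?_ ?_
    · rintro ⟨v, τ⟩ h
      rw [mem_sigma, mem_powerset] at h
      rw [mem_sigma, mem_powerset, mem_sdiff]
      exact ⟨h.2.trans (erase_subset _ _), h.1, fun h3 => notMem_erase v A (h.2 h3)⟩
    · rintro ⟨τ, v⟩ h
      rw [mem_sigma, mem_powerset, mem_sdiff] at h
      rw [mem_sigma, mem_powerset]
      exact ⟨h.2.1, fun u hu => mem_erase.2 ⟨fun h3 => h.2.2 (by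
        have h4 : u = v := h3
        rw [← h4]
        exact hu), h.1 hu⟩⟩
    · rintro ⟨v, τ⟩ h
      rfl
    · rintro ⟨τ, v⟩ h
      rfl
    · rintro ⟨v, τ⟩ h
      rfl
  rw [hL, hR]
  refine sum_congr rfl fun A hA => sum_congr rfl fun p hp => sum_congr rfl fun σ hσ => ?_
  have hA' : G.IsClique (A : Set V) := (mem_filter.1 hA).2
  by_cases hz : w σ A = 0
  · refine sum_congr rfl fun v _ => ?_
    rw [hz]
    simp
  obtain ⟨h1, _, h2, h3⟩ := hw σ A hz
  have h4 : (A \ σ).card = i + 1 := by
    rw [card_sdiff_of_subset h1, h2, h3]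
    omega
  have h5 := hβ (A \ σ) (clique_sub hA' sdiff_subset) h4 p
    (fun v hv => by
      have h6 := (mem_filter.1 hp).2
      exact h6 v (mem_sdiff.1 hv).1)
  rw [← sub_eq_zero, ← sum_sub_distrib]
  have h6 : ∀ v ∈ A \ σ, β ((A \ σ).erase v) p *
      (w σ A (∅, p * gp D.g ((A \ σ).erase v)) ^ 2 + w σ A (∅, p * gp D.g (A \ σ)) ^ 2) -
      (β ((A \ σ).erase v) p * w σ A (∅, p * gp D.g ((A \ σ).erase v)) ^ 2 +
        β ((A \ σ).erase v) (p * D.g v) * w σ A (∅, p * gp D.g (A \ σ)) ^ 2) =
      (β ((A \ σ).erase v) p + β ((A \ σ).erase v) (p * D.g v)) *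
        w σ A (∅, p * gp D.g (A \ σ)) ^ 2 := by
    intro v _
    rw [CharTwo.sub_eq_add]
    have h7 : β ((A \ σ).erase v) p * w σ A (∅, p * gp D.g ((A \ σ).erase v)) ^ 2 +
        β ((A \ σ).erase v) p * w σ A (∅, p * gp D.g ((A \ σ).erase v)) ^ 2 = 0 :=
      CharTwo.add_self_eq_zero _
    linear_combination h7
  rw [sum_congr rfl h6, ← sum_mul, h5, zero_mul]

open Classical in
/-- **Stokes.** The integral of a coboundary vanishes: every clique `B` with `n - 1` elements is contained in an even
number of facets (`IsSph.top`, for the function which is `1` on the facets which contain `B`, at `t = B`). -/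
theorem stokes {G : SimpleGraph V} {n : ℕ} (hS : IsSph G n) (D : PG G P)
    (ξ : Finset V → P → K) :
    ∑ A ∈ (univ : Finset (Finset V)).filter (fun A : Finset V => G.IsClique (A : Set V) ∧ A.card = n), ∑ p ∈ bz D A,
      ∑ v ∈ A, (ξ (A.erase v) p + ξ (A.erase v) (p * D.g v)) = 0 := by
  classical
  have h1 : ∀ A : Finset V, ∑ p ∈ bz D A, ∑ v ∈ A, (ξ (A.erase v) p +
      ξ (A.erase v) (p * D.g v)) = ∑ v ∈ A, ∑ p ∈ bz D (A.erase v), ξ (A.erase v) p := by
    intro A
    rw [sum_comm]
    refine sum_congr rfl fun v hv => ?_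
    rw [sum_bz D (notMem_erase v A), insert_erase hv]
  rw [sum_congr rfl fun A _ => h1 A, sum_sigma']
  have h2 : (∑ x ∈ ((univ : Finset (Finset V)).filter (fun A : Finset V =>
        G.IsClique (A : Set V) ∧ A.card = n)).sigma (fun A : Finset V => A),
        (∑ p ∈ bz D (x.1.erase x.2), ξ (x.1.erase x.2) p : K)) =
      ∑ B : Finset V, ∑ v ∈ Bᶜ.filter (fun v => G.IsClique ((insert v B : Finset V) : Set V) ∧
        (insert v B).card = n), ∑ p ∈ bz D B, ξ B p := by
    conv_rhs => rw [sum_sigma']
    refine sum_bij' (fun x _ => ⟨x.1.erase x.2, x.2⟩) (fun x _ => ⟨insert x.2 x.1, x.2⟩)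
      ?_ ?_ ?_ ?_ ?_
    · rintro ⟨A, v⟩ h
      simp only [mem_filter, mem_sigma, mem_univ, true_and, mem_compl] at h ⊢
      refine ⟨notMem_erase _ _, ?_⟩
      rw [insert_erase h.2]
      exact h.1
    · rintro ⟨A, v⟩ h
      simp only [mem_filter, mem_sigma, mem_univ, true_and, mem_compl] at h ⊢
      exact ⟨h.2, mem_insert_self _ _⟩
    · rintro ⟨A, v⟩ h
      simp only [mem_filter, mem_sigma, mem_univ, true_and] at h
      simp only [insert_erase h.2]
    · rintro ⟨A, v⟩ h
      simp only [mem_filter, mem_sigma, mem_univ, true_and, mem_compl] at h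
      simp only [erase_insert h.1]
    · rintro ⟨A, v⟩ h
      rfl
  rw [h2]
  refine sum_eq_zero fun B _ => ?_
  rw [sum_const]
  have h3 : ((Bᶜ.filter (fun v => G.IsClique ((insert v B : Finset V) : Set V) ∧
        (insert v B).card = n)).card : ZMod 2) = 0 := by
    by_cases hB : G.IsClique (B : Set V)
    · have h4 := (hS.top B hB (fun t => if G.IsClique (t : Set V) ∧ B ⊆ t ∧ t.card = n then 1
        else 0) (fun t ht => by
          by_contra h5
          exact ht (if_neg h5))).2 ⟨1, fun t h5 h6 h7 => if_pos ⟨h5, h6, h7⟩⟩ B Subset.rfl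
      rw [card_eq_sum_ones, Nat.cast_sum, sum_filter]
      refine Eq.trans (sum_congr rfl fun v _ => ?_) h4
      by_cases h5 : G.IsClique ((insert v B : Finset V) : Set V) ∧ (insert v B).card = n
      · rw [if_pos h5, if_pos ⟨h5.1, subset_insert _ _, h5.2⟩]
        exact Nat.cast_one
      · rw [if_neg h5, if_neg (fun h6 => h5 ⟨h6.1, h6.2.2⟩)]
    · rw [filter_eq_empty_iff.2, card_empty, Nat.cast_zero]
      intro v _ h4
      exact hB (clique_sub h4.1 (subset_insert _ _))
  have h4 : Even (Bᶜ.filter (fun v => G.IsClique ((insert v B : Finset V) : Set V) ∧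
        (insert v B).card = n)).card := by
    rw [even_iff_two_dvd]
    exact (ZMod.natCast_eq_zero_iff _ _).1 h3
  obtain ⟨m, hm⟩ := h4
  rw [hm, add_smul]
  exact CharTwo.add_self_eq_zero _

end Pool.Agent.H19.SR
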