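import Pool.Agent.H19.SR.Frm
import Pool.Agent.H19.SR.Pair

/-!
# Project SR, module M8: the relation for cycles
-/

set_option autoImplicit false
set_option linter.unusedSectionVars false

open Finset

namespace Pool.Agent.H19.SR

open Pool.Agent.H77.SW

variable {V : Type} [DecidableEq V] [Fintype V] {P : Type} [Group P] [Fintype P] {K : Type}
  [Field K] [CharP K 2]

/-! ### the operators `rE` -/

private theorem keyM_two (x : K) : x + x = 0 := by
  have h : (2 : K) = 0 := by
    have := CharP.cast_eq_zero K 2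
    exact_mod_cast this
  linear_combination x * h

private theorem rE_apply {G : SimpleGraph V} (D : PG G P) (s : Finset V) (t : V → P → K) (v : V)
    (f : Finset V × P → K) (A : Finset V) (p : P) :
    rE D s t v f (A, p) = f (A, p * D.g v) +
      if v ∈ s ∧ v ∈ A then t v p * f (A.erase v, p * D.g v) else 0 := rfl

private theorem rE_sq {G : SimpleGraph V} (D : PG G P) (s : Finset V) {t : V → P → K}
    (ht : StarInv D t) (v : V) (f : Finset V × P → K) : rE D s t v (rE D s t v f) = f := by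
  funext x
  obtain ⟨A, p⟩ := x
  rw [rE_apply, rE_apply, rE_apply]
  have h1 : p * D.g v * D.g v = p := by rw [mul_assoc, D.sq, mul_one]
  have h2 : t v (p * D.g v) = t v p := ht v v (Or.inl rfl) p
  have h3 : ¬ (v ∈ s ∧ v ∈ A.erase v) := fun h => absurd rfl (Finset.mem_erase.1 h.2).1
  rw [h1, h2, if_neg h3, add_zero]
  by_cases h : v ∈ s ∧ v ∈ A
  · simp only [if_pos h]
    rw [add_assoc, keyM_two, add_zero]
  · simp only [if_neg h]
    rw [add_zero, add_zero]

private theorem rE_comm {G : SimpleGraph V} (D : PG G P) (s : Finset V) {t : V → P → K}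
    (ht : StarInv D t) {u v : V} (huv : G.Adj u v) (f : Finset V × P → K) :
    rE D s t u (rE D s t v f) = rE D s t v (rE D s t u f) := by
  funext x
  obtain ⟨A, p⟩ := x
  simp only [rE_apply]
  have h1 : p * D.g v * D.g u = p * D.g u * D.g v := by
    rw [mul_assoc, mul_assoc, D.comm u v huv]
  have h2 : t v (p * D.g u) = t v p := ht v u (Or.inr huv.symm) p
  have h3 : t u (p * D.g v) = t u p := ht u v (Or.inr huv) p
  have h4 : (v ∈ s ∧ v ∈ A.erase u) ↔ (v ∈ s ∧ v ∈ A) := by
    rw [Finset.mem_erase]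
    exact ⟨fun h => ⟨h.1, h.2.2⟩, fun h => ⟨h.1, huv.ne', h.2⟩⟩
  have h5 : (u ∈ s ∧ u ∈ A.erase v) ↔ (u ∈ s ∧ u ∈ A) := by
    rw [Finset.mem_erase]
    exact ⟨fun h => ⟨h.1, h.2.2⟩, fun h => ⟨h.1, huv.ne, h.2⟩⟩
  have h6 : (A.erase u).erase v = (A.erase v).erase u := Finset.erase_right_comm
  rw [h1, h2, h3, h6]
  simp only [h4, h5]
  by_cases hu : u ∈ s ∧ u ∈ A <;> by_cases hv : v ∈ s ∧ v ∈ A <;> simp only [hu, hv] <;>
    simp <;> ring

/-! ### constants -/

private theorem cst_zero : cst K 0 = 0 := if_pos rfl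

private theorem cst_add (a b : ZMod 2) : cst K (a + b) = cst K a + cst K b := by
  have h01 : ∀ x : ZMod 2, x = 0 ∨ x = 1 := by decide
  have h10 : (1 : ZMod 2) ≠ 0 := by decide
  have h11 : (1 : ZMod 2) + 1 = 0 := by decide
  unfold cst
  rcases h01 a with rfl | rfl <;> rcases h01 b with rfl | rfl
  · rw [add_zero, if_pos rfl, add_zero]
  · rw [zero_add, if_neg h10, if_pos rfl, zero_add]
  · rw [add_zero, if_neg h10, if_pos rfl, add_zero]
  · rw [h11, if_pos rfl, if_neg h10, keyM_two]

private theorem cst_sum {ι : Type} (I : Finset ι) (f : ι → ZMod 2) :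
    cst K (∑ i ∈ I, f i) = ∑ i ∈ I, cst K (f i) := by
  classical
  induction I using Finset.induction_on with
  | empty => rw [sum_empty, sum_empty, cst_zero]
  | insert a I ha ih => rw [sum_insert ha, sum_insert ha, cst_add, ih]

/-! ### products -/

private theorem clique_sub {G : SimpleGraph V} {A C : Finset V} (hA : G.IsClique (A : Set V))
    (h : C ⊆ A) : G.IsClique (C : Set V) := hA.subset (by exact_mod_cast h)

/-- the element `g v` commutes with the product over a clique -/
private theorem gp_comm {G : SimpleGraph V} (D : PG G P) {v : V} (C : Finset V)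
    (hC : G.IsClique ((insert v C : Finset V) : Set V)) : gp D.g C * D.g v = D.g v * gp D.g C := by
  induction C using Finset.induction_on with
  | empty => rw [gp_empty, one_mul, mul_one]
  | insert a C ha ih =>
    have h1 : G.IsClique ((insert a C : Finset V) : Set V) :=
      clique_sub hC (Finset.subset_insert _ _)
    have h2 : G.IsClique ((insert v C : Finset V) : Set V) :=
      clique_sub hC (Finset.insert_subset_insert _ (Finset.subset_insert _ _))
    rw [gp_insert D ha h1]
    by_cases hav : a = v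
    · subst hav
      rw [← mul_assoc, ← ih h2]
    · have h3 : G.Adj a v := by
        refine hC ?_ ?_ hav
        · exact_mod_cast Finset.mem_insert_of_mem (Finset.mem_insert_self a C)
        · exact_mod_cast Finset.mem_insert_self v _
      rw [mul_assoc, D.comm a v h3, ← mul_assoc, ih h2, mul_assoc]

/-- the product over a disjoint union -/
private theorem gp_union {G : SimpleGraph V} (D : PG G P) (C s : Finset V) (hd : Disjoint C s)
    (h : G.IsClique ((C ∪ s : Finset V) : Set V)) : gp D.g (C ∪ s) = gp D.g C * gp D.g s := by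
  induction s using Finset.induction_on with
  | empty => rw [Finset.union_empty, gp_empty, mul_one]
  | insert a s ha ih =>
    rw [Finset.disjoint_insert_right] at hd
    have h1 : a ∉ C ∪ s := by
      rw [Finset.mem_union]
      tauto
    have h2 : C ∪ insert a s = insert a (C ∪ s) := Finset.union_insert a C s
    rw [h2] at h ⊢
    rw [gp_insert D h1 h, ih hd.2 (clique_sub h (Finset.subset_insert _ _)),
      gp_insert D ha (clique_sub h (Finset.insert_subset_insert _ Finset.subset_union_right)),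
      mul_assoc]

/-- the functions `t v`, `v ∈ s`, are constant on the cosets of the clique -/
private theorem t_gp {G : SimpleGraph V} (D : PG G P) {t : V → P → K} (ht : StarInv D t) {v : V}
    (C : Finset V) (hC : G.IsClique ((insert v C : Finset V) : Set V)) (p : P) :
    t v (p * gp D.g C) = t v p := by
  induction C using Finset.induction_on with
  | empty => rw [gp_empty, mul_one]
  | insert a C ha ih =>
    have h1 : G.IsClique ((insert a C : Finset V) : Set V) :=
      clique_sub hC (Finset.subset_insert _ _)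
    have h2 : G.IsClique ((insert v C : Finset V) : Set V) :=
      clique_sub hC (Finset.insert_subset_insert _ (Finset.subset_insert _ _))
    rw [gp_insert D ha h1, ← mul_assoc, ht v a ?_, ih h2]
    by_cases hav : a = v
    · exact Or.inl hav
    · refine Or.inr (hC ?_ ?_ (Ne.symm hav))
      · exact_mod_cast Finset.mem_insert_self v _
      · exact_mod_cast Finset.mem_insert_of_mem (Finset.mem_insert_self a C)

private theorem t_gp' {G : SimpleGraph V} (D : PG G P) {t : V → P → K} (ht : StarInv D t)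
    {s C A : Finset V} (hA : G.IsClique (A : Set V)) (hs : s ⊆ A) (hC : C ⊆ A) (p : P) :
    ∏ v ∈ s, t v (p * gp D.g C) = ∏ v ∈ s, t v p :=
  Finset.prod_congr rfl fun v hv => t_gp D ht C (clique_sub hA
    (Finset.insert_subset (hs hv) hC)) p

/-- the component `∅` of a cycle is constant on the cosets -/
private theorem z_gp {G : SimpleGraph V} (D : PG G P) {s : Finset V} {t : V → P → K}
    {A : Finset V} (hA : G.IsClique (A : Set V)) {f : Finset V × P → K}
    (hf : ∀ v ∈ A, rE D s t v f = f) (C : Finset V) (hC : C ⊆ A) (p : P) :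
    f (∅, p * gp D.g C) = f (∅, p) := by
  induction C using Finset.induction_on with
  | empty => rw [gp_empty, mul_one]
  | insert a C ha ih =>
    have h1 : C ⊆ A := (Finset.subset_insert a C).trans hC
    have h2 : a ∈ A := hC (Finset.mem_insert_self a C)
    rw [gp_insert D ha (clique_sub hA hC), ← mul_assoc, ← ih h1]
    have h3 := congrFun (hf a h2) (∅, p * gp D.g C)
    rw [rE_apply] at h3
    simpa using h3

/-! ### the cochain `β` -/

/-- the product of the cocycle `γ` and of the walls -/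
private noncomputable def bta (s : Finset V) (t : V → P → K) (γ : Finset V → P → ZMod 2)
    (C : Finset V) (p : P) : K :=
  if s ⊆ C then cst K (γ (C \ s) p) * ∏ v ∈ s, t v p else 0

private theorem coc_bta {G : SimpleGraph V} (D : PG G P) {s : Finset V} {t : V → P → K}
    (ht : StarInv D t) {i : ℕ} (hsi : s.card ≤ i) {γ : Finset V → P → ZMod 2}
    (hγ : Coc D (i - s.card) γ) : Coc D i (bta (K := K) s t γ) := by
  intro A hA hAc p hp
  by_cases hs : s ⊆ A
  · have h1 : ∀ v ∈ A, bta (K := K) s t γ (A.erase v) p + bta (K := K) s t γ (A.erase v) (p * D.g v) =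
        if v ∈ A \ s then (∏ v ∈ s, t v p) *
          cst K (γ ((A \ s).erase v) p + γ ((A \ s).erase v) (p * D.g v)) else 0 := by
      intro v hv
      unfold bta
      by_cases hvs : v ∈ s
      · have h2 : ¬ s ⊆ A.erase v := fun h => (Finset.mem_erase.1 (h hvs)).1 rfl
        rw [if_neg h2, if_neg h2, if_neg fun h => (Finset.mem_sdiff.1 h).2 hvs, add_zero]
      · have h2 : s ⊆ A.erase v := fun u hu => Finset.mem_erase.2 ⟨fun h => hvs (h ▸ hu), hs hu⟩
        have h3 : A.erase v \ s = (A \ s).erase v := by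
          ext u
          simp only [Finset.mem_sdiff, Finset.mem_erase]
          tauto
        have h4 : ∏ u ∈ s, t u (p * D.g v) = ∏ u ∈ s, t u p := by
          refine Finset.prod_congr rfl fun u hu => ht u v (Or.inr ?_) p
          exact hA (by exact_mod_cast hs hu) (by exact_mod_cast hv) fun h => hvs (h ▸ hu)
        rw [if_pos h2, if_pos h2, if_pos (Finset.mem_sdiff.2 ⟨hv, hvs⟩), h3, h4, cst_add]
        ring
    rw [Finset.sum_congr rfl h1, ← Finset.sum_filter]
    have h2 : A.filter (fun v => v ∈ A \ s) = A \ s := by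
      ext v
      simp only [Finset.mem_filter, Finset.mem_sdiff]
      tauto
    rw [h2, ← Finset.mul_sum, ← cst_sum, hγ (A \ s) (clique_sub hA Finset.sdiff_subset) ?_ p ?_,
      cst_zero, mul_zero]
    · rw [Finset.card_sdiff_of_subset hs, hAc]
      omega
    · exact fun v hv => hp v (Finset.mem_sdiff.1 hv).1
  · refine Finset.sum_eq_zero fun v _ => ?_
    have h2 : ¬ s ⊆ A.erase v := fun h => hs (h.trans (Finset.erase_subset v A))
    unfold bta
    rw [if_neg h2, if_neg h2, add_zero]

/-! ### the pairing along the sequence -/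

private theorem prW_seq {G : SimpleGraph V} (D : PG G P) (s : Finset V) (t : V → P → K) {i m : ℕ}
    {β : Finset V → P → K} (hβ : Coc D i β)
    {y w : ℕ → Finset V → Finset V → (Finset V × P → K)}
    (hw : ∀ k < m, IsW G k (i + k + 1) (w k)) (h1 : ∀ k < m, y k = e2 (w k))
    (h2 : ∀ k < m, y (k + 1) = e1 (rE D s t) (w k)) : ∀ k ≤ m, prW D β (y 0) = prW D β (y k) := by
  intro k
  induction k with
  | zero => exact fun _ => rfl
  | succ k ih =>
    intro hk
    rw [ih (by omega), h2 k hk, prW_step D s t hβ (hw k hk), ← h1 k hk]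

/-- the left side -/
private theorem left_side {G : SimpleGraph V} (D : PG G P) {s : Finset V} {t : V → P → K} {i : ℕ}
    {γ : Finset V → P → ZMod 2} {z : Finset V → (Finset V × P → K)}
    (hz : z ∈ Zs K G i (rE D s t)) {y : Finset V → Finset V → (Finset V × P → K)}
    (hy : IsW G 0 i y) (hyz : ∀ A, y ∅ A = z A) :
    ∑ A ∈ (univ : Finset (Finset V)).filter (fun A => s ⊆ A), ∑ p ∈ bz D A,
      cst K (γ (A \ s) p) * (∏ v ∈ s, t v p) * z A (∅, p) ^ 2 = prW D (bta s t γ) y := by
  classical
  obtain ⟨hz1, hz2, -⟩ := mem_Zs.1 hz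
  unfold prW
  rw [Finset.sum_filter, Finset.sum_filter]
  refine Finset.sum_congr rfl fun A _ => ?_
  by_cases hA : G.IsClique (A : Set V)
  · rw [if_pos hA]
    have h1 : ∀ p ∈ bz D A, ∑ τ ∈ A.powerset, bta s t γ (A \ τ) p * y τ A (∅, p * gp D.g (A \ τ)) ^ 2 =
        bta s t γ A p * z A (∅, p) ^ 2 := by
      intro p _
      rw [Finset.sum_eq_single_of_mem ∅ (Finset.empty_mem_powerset A)]
      · rw [Finset.sdiff_empty, hyz, z_gp D hA (hz2 A) A subset_rfl]
      · intro τ _ hτ
        have h2 : y τ A = 0 := by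
          by_contra h
          exact hτ (Finset.card_eq_zero.1 (hy τ A h).2.2.1)
        rw [h2, Pi.zero_apply]
        ring
    rw [Finset.sum_congr rfl h1]
    by_cases hs : s ⊆ A
    · rw [if_pos hs]
      refine Finset.sum_congr rfl fun p _ => ?_
      unfold bta
      rw [if_pos hs]
    · rw [if_neg hs]
      symm
      refine Finset.sum_eq_zero fun p _ => ?_
      unfold bta
      rw [if_neg hs, zero_mul]
  · rw [if_neg hA]
    have h1 : z A = 0 := by
      by_contra h
      exact hA (hz1 A h).1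
    split_ifs
    · refine Finset.sum_eq_zero fun p _ => ?_
      rw [h1, Pi.zero_apply]
      ring
    · rfl

/-! ### combinatorial sums -/

private theorem sum_pc {M : Type} [AddCommMonoid M] (A : Finset V) (d : ℕ)
    (f : V → Finset V → M) :
    ∑ v ∈ A, ∑ H ∈ (A.erase v).powersetCard d, f v H =
      ∑ J ∈ A.powersetCard (d + 1), ∑ v ∈ J, f v (J.erase v) := by
  rw [Finset.sum_sigma', Finset.sum_sigma']
  refine Finset.sum_bij' (fun x _ => ⟨insert x.1 x.2, x.1⟩) (fun x _ => ⟨x.2, x.1.erase x.2⟩)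
    ?_ ?_ ?_ ?_ ?_
  · rintro ⟨v, H⟩ h
    rw [Finset.mem_sigma, Finset.mem_powersetCard] at h
    obtain ⟨h1, h2, h3⟩ := h
    dsimp only at h1 h2 h3
    have h4 : v ∉ H := fun h => (Finset.mem_erase.1 (h2 h)).1 rfl
    rw [Finset.mem_sigma, Finset.mem_powersetCard]
    refine ⟨⟨Finset.insert_subset h1 (h2.trans (Finset.erase_subset v A)), ?_⟩,
      Finset.mem_insert_self v H⟩
    rw [Finset.card_insert_of_notMem h4, h3]
  · rintro ⟨J, v⟩ h
    rw [Finset.mem_sigma, Finset.mem_powersetCard] at h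
    obtain ⟨⟨h1, h2⟩, h3⟩ := h
    dsimp only at h1 h2 h3
    rw [Finset.mem_sigma, Finset.mem_powersetCard]
    refine ⟨h1 h3, Finset.erase_subset_erase v h1, ?_⟩
    show (J.erase v).card = d
    rw [Finset.card_erase_of_mem h3, h2]
    omega
  · rintro ⟨v, H⟩ h
    rw [Finset.mem_sigma, Finset.mem_powersetCard] at h
    have h4 : v ∉ H := fun h' => (Finset.mem_erase.1 (h.2.1 h')).1 rfl
    show (⟨v, (insert v H).erase v⟩ : (_ : V) × Finset V) = ⟨v, H⟩
    rw [Finset.erase_insert h4]
  · rintro ⟨J, v⟩ h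
    rw [Finset.mem_sigma] at h
    show (⟨insert v (J.erase v), v⟩ : (_ : Finset V) × V) = ⟨J, v⟩
    rw [Finset.insert_erase h.2]
  · rintro ⟨v, H⟩ h
    rw [Finset.mem_sigma, Finset.mem_powersetCard] at h
    have h4 : v ∉ H := fun h' => (Finset.mem_erase.1 (h.2.1 h')).1 rfl
    show f v H = f v ((insert v H).erase v)
    rw [Finset.erase_insert h4]

private theorem sum_pc' {M : Type} [AddCommMonoid M] (A : Finset V) (d : ℕ)
    (f : V → Finset V → M) :
    ∑ H ∈ A.powersetCard d, ∑ v ∈ A \ H, f v H =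
      ∑ v ∈ A, ∑ H ∈ (A.erase v).powersetCard d, f v H := by
  refine Finset.sum_comm' fun H v => ?_
  rw [Finset.mem_powersetCard, Finset.mem_powersetCard, Finset.mem_sdiff]
  constructor
  · rintro ⟨⟨h1, h2⟩, h3, h4⟩
    exact ⟨⟨fun u hu => Finset.mem_erase.2 ⟨fun h => h4 (h ▸ hu), h1 hu⟩, h2⟩, h3⟩
  · rintro ⟨⟨h1, h2⟩, h3⟩
    exact ⟨⟨h1.trans (Finset.erase_subset v A), h2⟩, h3, fun h => (Finset.mem_erase.1 (h1 h)).1 rfl⟩

/-- the Leibniz rule -/
private theorem leib {G : SimpleGraph V} (D : PG G P) {d : ℕ} {γ : Finset V → P → ZMod 2}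
    (hγ : Coc D d γ) (U : Finset V → P → K) {A : Finset V} (hA : G.IsClique (A : Set V)) {p : P}
    (hp : p ∈ bz D A) :
    ∑ H ∈ A.powersetCard d, cst K (γ H p) * ∑ v ∈ A \ H,
      (U ((A \ H).erase v) (p * gp D.g H) + U ((A \ H).erase v) (p * gp D.g H * D.g v)) =
      ∑ v ∈ A, ((∑ H ∈ (A.erase v).powersetCard d,
          cst K (γ H p) * U (A.erase v \ H) (p * gp D.g H)) +
        ∑ H ∈ (A.erase v).powersetCard d,
          cst K (γ H (p * D.g v)) * U (A.erase v \ H) (p * D.g v * gp D.g H)) := by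
  classical
  have hp' : ∀ v ∈ A, D.b p v = 0 := (Finset.mem_filter.1 hp).2
  simp only [Finset.mul_sum]
  rw [sum_pc']
  simp only [← Finset.sum_add_distrib]
  have h1 : ∀ v ∈ A, ∀ H ∈ (A.erase v).powersetCard d,
      cst K (γ H p) * (U ((A \ H).erase v) (p * gp D.g H) +
        U ((A \ H).erase v) (p * gp D.g H * D.g v)) =
      (cst K (γ H p) * U (A.erase v \ H) (p * gp D.g H) +
        cst K (γ H (p * D.g v)) * U (A.erase v \ H) (p * D.g v * gp D.g H)) +
      (cst K (γ H p) + cst K (γ H (p * D.g v))) * U (A.erase v \ H) (p * D.g v * gp D.g H) := by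
    intro v hv H hH
    obtain ⟨h2, -⟩ := Finset.mem_powersetCard.1 hH
    have h3 : (A \ H).erase v = A.erase v \ H := by
      ext u
      simp only [Finset.mem_erase, Finset.mem_sdiff]
      tauto
    have h4 : p * gp D.g H * D.g v = p * D.g v * gp D.g H := by
      rw [mul_assoc, mul_assoc, gp_comm D H (clique_sub hA
        (Finset.insert_subset hv (h2.trans (Finset.erase_subset v A))))]
    rw [h3, h4]
    have h5 := keyM_two (cst K (γ H (p * D.g v)) * U (A.erase v \ H) (p * D.g v * gp D.g H))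
    linear_combination -h5
  rw [Finset.sum_congr rfl fun v hv => Finset.sum_congr rfl (h1 v hv)]
  simp only [Finset.sum_add_distrib]
  rw [add_eq_left, sum_pc A d fun v H => (cst K (γ H p) + cst K (γ H (p * D.g v))) *
    U (A.erase v \ H) (p * D.g v * gp D.g H)]
  refine Finset.sum_eq_zero fun J hJ => ?_
  obtain ⟨h2, h3⟩ := Finset.mem_powersetCard.1 hJ
  have h4 : ∀ v ∈ J, (cst K (γ (J.erase v) p) + cst K (γ (J.erase v) (p * D.g v))) *
      U (A.erase v \ J.erase v) (p * D.g v * gp D.g (J.erase v)) =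
      cst K (γ (J.erase v) p + γ (J.erase v) (p * D.g v)) * U (A \ J) (p * gp D.g J) := by
    intro v hv
    have h5 : A.erase v \ J.erase v = A \ J := by
      ext u
      simp only [Finset.mem_erase, Finset.mem_sdiff]
      constructor
      · rintro ⟨⟨h6, h7⟩, h8⟩
        exact ⟨h7, fun h => h8 ⟨h6, h⟩⟩
      · rintro ⟨h6, h7⟩
        exact ⟨⟨fun h => h7 (h ▸ hv), h6⟩, fun h => h7 h.2⟩
    have h6 : insert v (J.erase v) = J := Finset.insert_erase hv
    have h7 : G.IsClique ((insert v (J.erase v) : Finset V) : Set V) := by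
      rw [h6]
      exact clique_sub hA h2
    have h8 : p * D.g v * gp D.g (J.erase v) = p * gp D.g J := by
      rw [mul_assoc, ← gp_comm D _ h7, ← gp_insert D (Finset.notMem_erase v J) h7, h6]
    rw [h5, h8, cst_add]
  rw [Finset.sum_congr rfl h4, ← Finset.sum_mul, ← cst_sum,
    hγ J (clique_sub hA h2) h3 p (fun v hv => hp' v (h2 hv)), cst_zero, zero_mul]

open Classical in
/-- the right side -/
private theorem right_side {G : SimpleGraph V} (D : PG G P) {s : Finset V} {t : V → P → K}
    (ht : StarInv D t) {i n : ℕ} (hi : i + s.card = n + 1) (hsi : s.card ≤ i) (hs1 : 1 ≤ s.card)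
    {γ : Finset V → P → ZMod 2} {y : Finset V → Finset V → (Finset V × P → K)}
    {a : Finset V → (Finset V × P → K)} {U : Finset V → P → K}
    (hy : IsW G (n - i) n y)
    (hya : ∀ τ A : Finset V, τ ⊆ A → G.IsClique (A : Set V) → A.card = n → y τ A = a τ)
    (ha : ∀ τ, a τ ≠ 0 → G.IsClique (τ : Set V) ∧ τ.card = n - i)
    (hU : ∀ A : Finset V, G.IsClique (A : Set V) → ∀ p : P,
      (if s ⊆ A then (∏ v ∈ s, t v p) * a (A \ s) (∅, p * gp D.g s) ^ 2 else 0) =
        ∑ v ∈ A, (U (A.erase v) p + U (A.erase v) (p * D.g v))) :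
    prW D (bta s t γ) y =
      ∑ A ∈ (univ : Finset (Finset V)).filter (fun A : Finset V => G.IsClique (A : Set V) ∧ A.card = n), ∑ p ∈ bz D A,
        ∑ H ∈ A.powersetCard (i - s.card), cst K (γ H p) * ∑ v ∈ A \ H,
          (U ((A \ H).erase v) (p * gp D.g H) + U ((A \ H).erase v) (p * gp D.g H * D.g v)) := by
  classical
  unfold prW
  rw [Finset.sum_filter, Finset.sum_filter]
  refine Finset.sum_congr rfl fun A _ => ?_
  by_cases hA : G.IsClique (A : Set V)
  swap
  · rw [if_neg hA, if_neg fun h => hA h.1]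
  by_cases hAn : A.card = n
  swap
  · rw [if_pos hA, if_neg fun h => hAn h.2]
    refine Finset.sum_eq_zero fun p _ => Finset.sum_eq_zero fun τ _ => ?_
    have h1 : y τ A = 0 := by
      by_contra h
      exact hAn (hy τ A h).2.2.2
    rw [h1, Pi.zero_apply]
    ring
  rw [if_pos hA, if_pos ⟨hA, hAn⟩]
  refine Finset.sum_congr rfl fun p _ => ?_
  -- the left side: only the `τ` disjoint from `s` with `n - i` elements
  by_cases hs : s ⊆ A
  swap
  · rw [Finset.sum_eq_zero, Finset.sum_eq_zero]
    · intro H hH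
      rw [← hU (A \ H) (clique_sub hA Finset.sdiff_subset),
        if_neg fun h => hs (h.trans Finset.sdiff_subset), mul_zero]
    · intro τ _
      unfold bta
      rw [if_neg fun h => hs (h.trans Finset.sdiff_subset), zero_mul]
  have hL : ∑ τ ∈ A.powerset, bta s t γ (A \ τ) p * y τ A (∅, p * gp D.g (A \ τ)) ^ 2 =
      ∑ τ ∈ A.powerset.filter (fun τ => s ⊆ A \ τ ∧ τ.card = n - i),
        cst K (γ ((A \ τ) \ s) p) * ((∏ v ∈ s, t v p) * a τ (∅, p * gp D.g (A \ τ)) ^ 2) := by
    rw [Finset.sum_filter]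
    refine Finset.sum_congr rfl fun τ hτ => ?_
    have h1 := Finset.mem_powerset.1 hτ
    rw [hya τ A h1 hA hAn]
    unfold bta
    by_cases h2 : s ⊆ A \ τ
    · by_cases h3 : τ.card = n - i
      · rw [if_pos h2, if_pos ⟨h2, h3⟩]
        ring
      · have h4 : a τ = 0 := by
          by_contra h
          exact h3 (ha τ h).2
        rw [if_neg (fun h : s ⊆ A \ τ ∧ τ.card = n - i => h3 h.2), h4, Pi.zero_apply]
        ring
    · rw [if_neg h2, if_neg (fun h : s ⊆ A \ τ ∧ τ.card = n - i => h2 h.1), zero_mul]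
  have hR : ∑ H ∈ A.powersetCard (i - s.card), cst K (γ H p) * ∑ v ∈ A \ H,
      (U ((A \ H).erase v) (p * gp D.g H) + U ((A \ H).erase v) (p * gp D.g H * D.g v)) =
      ∑ H ∈ (A.powersetCard (i - s.card)).filter (fun H => s ⊆ A \ H),
        cst K (γ H p) * ((∏ v ∈ s, t v p) * a ((A \ H) \ s) (∅, p * gp D.g H * gp D.g s) ^ 2) := by
    rw [Finset.sum_filter]
    refine Finset.sum_congr rfl fun H hH => ?_
    have h1 := (Finset.mem_powersetCard.1 hH).1
    rw [← hU (A \ H) (clique_sub hA Finset.sdiff_subset)]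
    by_cases h2 : s ⊆ A \ H
    · rw [if_pos h2, if_pos h2, t_gp' D ht hA hs h1]
    · rw [if_neg h2, if_neg h2, mul_zero]
  rw [hL, hR]
  have hback : ∀ τ : Finset V, τ ⊆ A → s ⊆ A \ τ → (A \ ((A \ τ) \ s)) \ s = τ := by
    intro τ h1 h2
    ext v
    simp only [Finset.mem_sdiff, not_and, not_not]
    constructor
    · rintro ⟨⟨h3, h4⟩, h5⟩
      by_contra h6
      exact h5 (h4 ⟨h3, h6⟩)
    · intro h3
      exact ⟨⟨h1 h3, fun h4 => absurd h3 h4.2⟩, fun h4 => (Finset.mem_sdiff.1 (h2 h4)).2 h3⟩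
  refine Finset.sum_bij' (fun τ _ => (A \ τ) \ s) (fun H _ => (A \ H) \ s) ?_ ?_ ?_ ?_ ?_
  · intro τ hτ
    rw [Finset.mem_filter, Finset.mem_powerset] at hτ
    obtain ⟨h1, h2, h3⟩ := hτ
    rw [Finset.mem_filter, Finset.mem_powersetCard]
    refine ⟨⟨Finset.sdiff_subset.trans Finset.sdiff_subset, ?_⟩, fun v hv => ?_⟩
    · rw [Finset.card_sdiff_of_subset h2, Finset.card_sdiff_of_subset h1, hAn, h3]
      omega
    · rw [Finset.mem_sdiff, Finset.mem_sdiff]
      exact ⟨hs hv, fun h => h.2 hv⟩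
  · intro H hH
    rw [Finset.mem_filter, Finset.mem_powersetCard] at hH
    obtain ⟨⟨h1, h3⟩, h2⟩ := hH
    rw [Finset.mem_filter, Finset.mem_powerset]
    refine ⟨Finset.sdiff_subset.trans Finset.sdiff_subset, fun v hv => ?_, ?_⟩
    · rw [Finset.mem_sdiff, Finset.mem_sdiff]
      exact ⟨hs hv, fun h => h.2 hv⟩
    · rw [Finset.card_sdiff_of_subset h2, Finset.card_sdiff_of_subset h1, hAn, h3]
      omega
  · intro τ hτ
    rw [Finset.mem_filter, Finset.mem_powerset] at hτ
    exact hback τ hτ.1 hτ.2.1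
  · intro H hH
    rw [Finset.mem_filter, Finset.mem_powersetCard] at hH
    exact hback H hH.1.1 hH.2
  · intro τ hτ
    rw [Finset.mem_filter, Finset.mem_powerset] at hτ
    obtain ⟨h1, h2, h3⟩ := hτ
    rw [hback τ h1 h2]
    have h4 : A \ τ = ((A \ τ) \ s) ∪ s := by
      rw [Finset.sdiff_union_of_subset h2]
    have h5 : gp D.g (A \ τ) = gp D.g ((A \ τ) \ s) * gp D.g s := by
      conv_lhs => rw [h4]
      refine gp_union D _ _ Finset.sdiff_disjoint ?_
      rw [← h4]
      exact clique_sub hA Finset.sdiff_subset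
    rw [h5, mul_assoc]

/-- **The relation for cycles.** `s` is a clique with `q` elements, `i + q = n + 1`, `q ≤ i`, `z` a cycle of degree
`i` with coefficients in `rE D s t`, `γ` a cocycle of degree `i - q` over `ZMod 2`.
* `zig` gives `a` (cocycle of degree `q - 1 = n - i`), `frm` gives `U` with
  `[s ⊆ A] ∏ t * a (A \ s) (∅, p gp s) ^ 2 = (d U) A p` for all cliques `A`.
* Let `β C p = if s ⊆ C then cst K (γ (C \ s) p) * ∏ v ∈ s, t v p else 0`. It satisfies `Coc D i β` (a clique `C`
  with `i + 1` elements and `s ⊆ C`: terms with `v ∈ s` vanish, the others give the cocycle condition of `γ` at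
  `C \ s`, `t v (p g_u) = t v p`; if `s ⊄ C` all terms vanish). Then the left side is `prW D β (y 0)` (`z A` is
  invariant: `z A (∅, p gp A) = z A (∅, p)`), and by `prW_step` it is `prW D β (y (n - i))`, which is
  `∑ A facets, ∑ p ∈ bz A, ∑ τ ⊆ A, β (A \ τ) p * a τ (∅, p gp (A \ τ)) ^ 2`
  `= ∑ A, ∑ p, ∑ H ⊆ A (i - q elements), cst (γ H p) * (d U) (A \ H) (p gp H)` (`A \ τ = H ∪ s`, `H ∩ s = ∅`).
* With `ξ E p = ∑ H ∈ E.powersetCard (i - q), cst (γ H p) * U (E \ H) (p gp H)` the last sum equals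
  `∑ A, ∑ p, ∑ v ∈ A, (ξ (A - v) p + ξ (A - v) (p g_v))`: the difference is
  `∑ v, ∑ H ⊆ A - v, (cst (γ H p) + cst (γ H (p g_v))) * U ((A - v) \ H) (p g_v gp H)`, with `J = H ∪ {v}` it is
  `∑ J, U (A \ J) (p gp J) * ∑ v ∈ J, (cst (γ (J - v) p) + cst (γ (J - v) (p g_v))) = 0`. `stokes`. -/
theorem keyM {G : SimpleGraph V} {n : ℕ} (hS : IsSph G n) (D : PG G P) {s : Finset V}
    (hs : G.IsClique (s : Set V)) {i : ℕ} (hi : i + s.card = n + 1) (hsi : s.card ≤ i)
    (hs1 : 1 ≤ s.card) {t : V → P → K} (ht : StarInv D t) {γ : Finset V → P → ZMod 2}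
    (hγ : Coc D (i - s.card) γ) {z : Finset V → (Finset V × P → K)}
    (hz : z ∈ Zs K G i (rE D s t)) :
    ∑ A ∈ (univ : Finset (Finset V)).filter (fun A => s ⊆ A), ∑ p ∈ bz D A,
      cst K (γ (A \ s) p) * (∏ v ∈ s, t v p) * z A (∅, p) ^ 2 = 0 := by
  have hin : i ≤ n := by omega
  obtain ⟨y, w, a, h1, h2, h3, h4, h5, h6, h7, h8⟩ := zig hS (fun v f => rE_sq D s ht v f)
    (fun u v huv f => rE_comm D s ht huv f) hin hz
  have hj : s.card = (n - i) + 1 := by omega
  obtain ⟨U, hU⟩ := frm D hs hj ht h6 h8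
  rw [left_side D hz (h1 0 (by omega)) h3,
    prW_seq D s t (coc_bta D ht hsi hγ) h2 h4 h5 (n - i) le_rfl]
  have h9 : IsW G (n - i) n (y (n - i)) := by
    have h := h1 (n - i) le_rfl
    rwa [show i + (n - i) = n by omega] at h
  rw [right_side D ht hi hsi hs1 h9 h7 h6 hU]
  rw [← stokes hS D fun E p => ∑ H ∈ E.powersetCard (i - s.card),
    cst K (γ H p) * U (E \ H) (p * gp D.g H)]
  classical
  refine Finset.sum_congr rfl fun A hA => Finset.sum_congr rfl fun p hp => ?_
  rw [Finset.mem_filter] at hA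
  exact leib D hγ U hA.2.1 hp

end Pool.Agent.H19.SR
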