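import Pool.Agent.H19.SR.Pair
import Pool.Agent.H77.SW.Seq

/-!
# Project SR: the relation, as a property of a graph

`KeyT`, `PropK` and `Step` use of the manifold only the property `KeyRel` (`keyM` for flag homology spheres).
-/

set_option autoImplicit false
set_option linter.unusedSectionVars false

open Finset

namespace Pool.Agent.H19.SR

open Pool.Agent.H77.SW

/-- **The relation for the walls of the clique `s` in degree `i`**: for every finite quotient `D`, all coefficients
`t` of the walls, all cocycles `γ` of degree `i - |s|` and all cycles `z` with coefficients in `rE D s t` the sum of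
`γ ∏ t` and of the square of the component `∅` of `z` vanishes. -/
def KeyRel {V : Type} [DecidableEq V] [Fintype V] (G : SimpleGraph V) (i : ℕ) (s : Finset V) : Prop :=
  ∀ (K : Type) [Field K] [CharP K 2] (P : Type) [Group P] [Fintype P] (D : PG G P),
    Subgroup.closure (Set.range D.g) = ⊤ → ∀ t : V → P → K, StarInv D t →
    ∀ γ : Finset V → P → ZMod 2, Coc D (i - s.card) γ →
    ∀ z ∈ Zs K G i (rE D s t),
      ∑ A ∈ (univ : Finset (Finset V)).filter (fun A => s ⊆ A), ∑ p ∈ bz D A,
        cst K (γ (A \ s) p) * (∏ v ∈ s, t v p) * z A (∅, p) ^ 2 = 0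

/-- The coefficients of the relation: for every finite quotient `D` there are coefficients `τ` of the walls (from a
generic sequence), such that the component `∅` of every cycle with coefficients in `rE D s t`,
`t v p = τ (ι v p)`, is in `TL K D i s` -/
def KeyAt {V : Type} [DecidableEq V] [Fintype V] (G : SimpleGraph V) (i : ℕ) (s : Finset V) : Prop :=
  ∀ (K : Type) [Field K] [CharP K 2], GenSeq K → ∀ (P : Type) [Group P] [Fintype P] (D : PG G P),
    Subgroup.closure (Set.range D.g) = ⊤ →
    ∃ (I : Type) (_ : Fintype I) (_ : DecidableEq I) (ι : V → P → I) (τ : I → K),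
      (∀ v u, (u = v ∨ G.Adj v u) → ∀ p, ι v (p * D.g u) = ι v p) ∧
      ∀ z ∈ Zs K G i (rE D s fun v p => τ (ι v p)), (fun σ p => z σ (∅, p)) ∈ TL K D i s

end Pool.Agent.H19.SR
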