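import Pool.Agent.H19.SR.KeyP

/-!
# Project SR, module M9: the coefficients of the relation
-/

set_option autoImplicit false
set_option linter.unusedSectionVars false

open Finset

namespace Pool.Agent.H19.SR

open Pool.Agent.H77.SW

variable {V : Type} [DecidableEq V] [Fintype V] {P : Type} [Group P] [Fintype P] {K : Type}
  [Field K] [CharP K 2]

/-- The square of a sum in characteristic two. -/
private theorem KeyT_sum_sq {α : Type} (S : Finset α) (f : α → K) :
    (∑ a ∈ S, f a) ^ 2 = ∑ a ∈ S, f a ^ 2 := by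
  classical
  induction S using Finset.induction_on with
  | empty => rw [sum_empty, sum_empty, zero_pow two_ne_zero]
  | insert a S ha ih =>
    rw [sum_insert ha, sum_insert ha, CharTwo.add_sq, ih]

private theorem KeyT_cst (a : ZMod 2) : cst K a ^ 2 = cst K a := by
  unfold cst
  split_ifs
  · rw [zero_pow two_ne_zero]
  · rw [one_pow]

/-- Grouping of a sum by the monomials. -/
private theorem KeyT_group (X : GenSeq K) {α : Type} [DecidableEq α] (T : Finset α)
    (M : α → Finset ℕ) (f : α → K) (h : ∑ a ∈ T, (∏ j ∈ M a, X.x j) * f a ^ 2 = 0) (S : Finset ℕ) :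
    ∑ a ∈ T.filter (fun a => M a = S), f a = 0 := by
  classical
  by_cases hS : S ∈ T.image M
  · refine X.indep (T.image M) (fun S => ∑ a ∈ T.filter (fun a => M a = S), f a) ?_ S hS
    rw [← h, ← sum_fiberwise_of_maps_to (g := M) (t := T.image M)
      (fun a ha => mem_image_of_mem M ha)]
    refine sum_congr rfl fun S' _ => ?_
    rw [KeyT_sum_sq, mul_sum]
    refine sum_congr rfl fun a ha => ?_
    rw [(mem_filter.1 ha).2]
  · refine (sum_congr ?_ fun _ _ => rfl).trans (sum_empty (f := f))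
    refine filter_eq_empty_iff.2 fun a ha h1 => hS ?_
    rw [← h1]
    exact mem_image_of_mem M ha

/-- **The coefficients.** The walls are the pairs `(v, p wl D v)`: `I = Σ v, P ⧸ wl D v`,
`ι v p = ⟨v, p⟩`, `τ` = the elements of the sequence `X` at an injective numbering of `I`
(cf. `Pool.Agent.H77.SX.exists_gen`, `Pool.Agent.H77.SW.exists_gen`). For a cycle `z` with coefficients in
`rE D s t`, `t v p = τ (ι v p)`, the component `z_∅` is in `TL K D i s`: it is a cycle for `rP K D`
(`rE` at the component `∅`), and for the orthogonality use `KeyRel`: group the sum over the pairs `(A, p)` by the set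
of the indices `ι v p`, `v ∈ s` (`s.card` different indices, which determine the `p wl D v`), write
`cst * z ^ 2 = (cst * z) ^ 2` and add the squares (characteristic two) to get
`∑ S, (∏ x ∈ S, X.x) * c S ^ 2 = 0`, and `X.indep`. The set of the pairs with the index set of `p₀` is given by
`fl D s A p₀`. -/
theorem keyT {G : SimpleGraph V} {i : ℕ} {s : Finset V} (hK : KeyRel G i s) : KeyAt G i s := by
  intro K _ _ X P _ _ D hgen
  classical
  have hI : Fintype (Σ v : V, P ⧸ wl D v) := by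
    have : ∀ v, Fintype (P ⧸ wl D v) := fun v => Fintype.ofFinite _
    infer_instance
  obtain ⟨e⟩ : Nonempty ((Σ v : V, P ⧸ wl D v) ≃ Fin (Fintype.card (Σ v : V, P ⧸ wl D v))) :=
    ⟨Fintype.equivFin _⟩
  obtain ⟨ι, hι⟩ : ∃ ι : V → P → (Σ v : V, P ⧸ wl D v), ∀ v p, ι v p = ⟨v, (p : P ⧸ wl D v)⟩ :=
    ⟨fun v p => ⟨v, (p : P ⧸ wl D v)⟩, fun _ _ => rfl⟩
  have hinv : ∀ v u, (u = v ∨ G.Adj v u) → ∀ p, ι v (p * D.g u) = ι v p := by
    intro v u hu p
    rw [hι, hι]
    congr 1
    rw [QuotientGroup.eq, mul_inv_rev, mul_assoc, inv_mul_cancel, mul_one]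
    exact Subgroup.inv_mem _ (Subgroup.subset_closure ⟨u, hu, rfl⟩)
  refine ⟨(Σ v : V, P ⧸ wl D v), hI, Classical.decEq _, ι, fun i => X.x (e i).val, hinv, ?_⟩
  intro z hz
  obtain ⟨z1, z2, z3⟩ := mem_Zs.1 hz
  rw [mem_TL]
  refine ⟨mem_Zs.2 ⟨fun σ h => z1 σ fun h0 => h ?_, fun σ v hv => ?_, fun κ => ?_⟩, ?_⟩
  · funext p
    show z σ (∅, p) = 0
    rw [h0]
    rfl
  · funext p
    have h1 := congrFun (z2 σ v hv) (∅, p)
    have h2 : z σ (∅, p * D.g v) + (if v ∈ s ∧ v ∈ (∅ : Finset V) then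
        X.x (e (ι v p)).val * z σ ((∅ : Finset V).erase v, p * D.g v) else 0) = z σ (∅, p) := h1
    rw [if_neg (fun h => absurd h.2 (notMem_empty v)), add_zero] at h2
    exact h2
  · funext p
    have h1 := congrFun (z3 κ) (∅, p)
    rw [Finset.sum_apply] at h1 ⊢
    exact h1
  intro γ hγ p₀
  -- the monomials
  obtain ⟨M, hM⟩ : ∃ M : P → Finset ℕ, ∀ p, M p = s.image fun v => (e (ι v p)).val :=
    ⟨fun p => s.image fun v => (e (ι v p)).val, fun _ => rfl⟩
  have hinj1 : ∀ v w p q, (e (ι v p)).val = (e (ι w q)).val → v = w ∧ p⁻¹ * q ∈ wl D v := by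
    intro v w p q h
    have h1 : ι v p = ι w q := e.injective (Fin.val_injective h)
    rw [hι, hι] at h1
    have h2 : v = w := congrArg Sigma.fst h1
    subst h2
    refine ⟨rfl, ?_⟩
    have h3 : (p : P ⧸ wl D v) = (q : P ⧸ wl D v) := eq_of_heq (Sigma.mk.inj h1).2
    exact QuotientGroup.eq.1 h3
  have hprod : ∀ p, ∏ v ∈ s, X.x (e (ι v p)).val = ∏ i ∈ M p, X.x i := by
    intro p
    rw [hM, prod_image]
    intro v _ w _ h
    exact (hinj1 v w p p h).1
  have hMeq : ∀ p, M p = M p₀ ↔ ∀ v ∈ s, p₀⁻¹ * p ∈ wl D v := by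
    intro p
    constructor
    · intro h v hv
      have h2 : (e (ι v p₀)).val ∈ M p := by
        rw [h, hM]
        exact mem_image_of_mem _ hv
      rw [hM, mem_image] at h2
      obtain ⟨w, _, hw⟩ := h2
      exact (hinj1 v w p₀ p hw.symm).2
    · intro h
      rw [hM, hM]
      refine image_congr fun v hv => ?_
      have h1 : ι v p = ι v p₀ := by
        rw [hι, hι]
        congr 1
        exact (QuotientGroup.eq.2 (h v hv)).symm
      show (e (ι v p)).val = (e (ι v p₀)).val
      rw [h1]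
  -- the relation
  have hrel := hK K P D hgen (fun v p => X.x (e (ι v p)).val)
    (fun v u hu p => congrArg (fun x => X.x (e x).val) (hinv v u hu p)) γ hγ z hz
  let T : Finset (Σ _ : Finset V, P) :=
    ((univ : Finset (Finset V)).filter fun A => s ⊆ A).sigma fun A => bz D A
  let f : (Σ _ : Finset V, P) → K := fun x => cst K (γ (x.1 \ s) x.2) * z x.1 (∅, x.2)
  have hg := KeyT_group X T (fun x => M x.2) f (by
    rw [← hrel, sum_sigma]
    refine sum_congr rfl fun A _ => sum_congr rfl fun p _ => ?_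
    show (∏ j ∈ M p, X.x j) * (cst K (γ (A \ s) p) * z A (∅, p)) ^ 2 =
      cst K (γ (A \ s) p) * (∏ v ∈ s, X.x (e (ι v p)).val) * z A (∅, p) ^ 2
    rw [hprod, mul_pow, KeyT_cst]
    ring) (M p₀)
  rw [← hg]
  have hT : T.filter (fun x => M x.2 = M p₀) =
      ((univ : Finset (Finset V)).filter fun A => s ⊆ A).sigma fun A => fl D s A p₀ := by
    ext ⟨A, p⟩
    rw [mem_filter, mem_sigma, mem_sigma]
    unfold bz fl
    rw [mem_filter, mem_filter, mem_filter]
    show ((_ ∧ _ ∧ _) ∧ M p = M p₀) ↔ _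
    rw [hMeq]
    constructor
    · rintro ⟨⟨h1, h2, h3⟩, h4⟩
      exact ⟨h1, h2, h3, h4⟩
    · rintro ⟨h1, h2, h3, h4⟩
      exact ⟨⟨h1, h2, h3⟩, h4⟩
  rw [hT, sum_sigma]

end Pool.Agent.H19.SR
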