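import Pool.Agent.H19.SR.Defs
import Pool.Agent.H73.GC.Half
import Pool.Agent.H73.GC.Prod2

/-!
# Project SR, module T2: homology of links, common modules
-/

set_option autoImplicit false
set_option linter.unusedSectionVars false

open Finset

namespace Pool.Agent.H19.SR

open Pool.Agent.H73.GC

variable {V : Type} [DecidableEq V] [Fintype V] {Y : Type} [AddCommGroup Y] [Module F2 Y] [Finite Y]

/-- the map `1 + R` on a subspace `W` on which it is injective -/
private theorem LkH_aux {A B : Finset V → Submodule F2 Y} {W : Submodule F2 Y}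
    (j : Module.End F2 Y) (hj : ∀ y ∈ W, j y = 0 → y = 0)
    (h1 : ∀ s, ∀ y ∈ A s, y ∈ W → j y ∈ B s)
    (h2 : ∀ s, ∀ z ∈ B s, ∃ y ∈ A s, y ∈ W ∧ j y = z) (i : ℕ) :
    hd (fun s => A s ⊓ W) i = hd B i := by
  have e1 := hd_map (fun s => (A s).comap W.subtype) W.subtype W.injective_subtype i
  have hinj : Function.Injective (j ∘ₗ W.subtype) := by
    rw [injective_iff_map_eq_zero]
    intro y hy
    exact Subtype.ext (hj y.1 y.2 hy)
  have e2 := hd_map (fun s => (A s).comap W.subtype) (j ∘ₗ W.subtype) hinj i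
  have f1 : (fun s => ((A s).comap W.subtype).map W.subtype) = fun s => A s ⊓ W := by
    funext s
    rw [Submodule.map_comap_subtype, inf_comm]
  have f2 : (fun s => ((A s).comap W.subtype).map (j ∘ₗ W.subtype)) = B := by
    funext s
    ext z
    constructor
    · rintro ⟨y, hy, rfl⟩
      exact h1 s y.1 hy y.2
    · intro hz
      obtain ⟨y, hy, hyW, hyz⟩ := h2 s z hz
      exact ⟨⟨y, hyW⟩, hy, hyz⟩
  rw [f1] at e1
  rw [f2] at e2
  rw [e1, e2]

/-- `hd_half` for a general system which is preserved by `r u` and `E u` -/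
private theorem LkH_half {A : Finset V → Submodule F2 Y} (hA : Mono A)
    {r E : V → Module.End F2 Y} {u : V} (hsq : ∀ y, r u (r u y) = y)
    (hid : ∀ y, E u (E u y) = E u y) (hbit : ∀ y, E u (r u y) + r u (E u y) = r u y)
    (hEA : ∀ s, ∀ y ∈ A s, E u y ∈ A s) (hrA : ∀ s, ∀ y ∈ A s, r u y ∈ A s) (i : ℕ) :
    2 * hd (fun s => A s ⊓ Inv r {u}) i = hd A i := by
  have hB1 : ∀ s, ∀ y ∈ A s, (1 + r u) y ∈ A s ⊓ Inv r {u} := by
    intro s y hy
    refine ⟨Submodule.add_mem _ hy (hrA s y hy), ?_⟩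
    intro v hv
    rw [mem_singleton] at hv
    rw [hv, LinearMap.add_apply, Module.End.one_apply, map_add, hsq, add_comm]
  have hBz : ∀ s, ∀ z ∈ A s ⊓ Inv r {u}, r u z = z := fun s z hz => hz.2 u (mem_singleton_self u)
  have hdec : ∀ z, r u z = z → E u z + r u (E u z) = z := by
    intro z hz
    have := hbit z
    rwa [hz] at this
  have hk : ∀ y, (1 + r u) y = 0 → r u y = y := by
    intro y hy
    rw [LinearMap.add_apply, Module.End.one_apply] at hy
    have h2 := ZModModule.add_self y
    exact add_left_cancel (hy.trans h2.symm)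
  -- the kernel of the projection
  have e1 : hd (fun s => A s ⊓ LinearMap.ker (E u)) i =
      hd (fun s => A s ⊓ Inv r {u}) i := by
    refine LkH_aux (1 + r u) ?_ (fun s y hy _ => hB1 s y hy) ?_ i
    · intro y hy h0
      have h1 := hdec y (hk y h0)
      rw [LinearMap.mem_ker] at hy
      rw [hy, map_zero, add_zero] at h1
      exact h1.symm
    · intro s z hz
      refine ⟨r u (E u z), hrA s _ (hEA s z hz.1), ?_, ?_⟩
      · rw [LinearMap.mem_ker]
        have h1 := hbit (E u z)
        rw [hid] at h1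
        exact (add_eq_right.mp h1)
      · rw [LinearMap.add_apply, Module.End.one_apply, hsq, add_comm]
        exact hdec z (hBz s z hz)
  -- the image of the projection
  have e2 : hd (fun s => (A s).map (E u)) i =
      hd (fun s => A s ⊓ Inv r {u}) i := by
    have f1 : (fun s => (A s).map (E u)) = fun s => A s ⊓ LinearMap.range (E u) := by
      funext s
      ext z
      constructor
      · rintro ⟨y, hy, rfl⟩
        exact ⟨hEA s y hy, LinearMap.mem_range_self _ y⟩
      · rintro ⟨hz, y, rfl⟩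
        exact ⟨E u y, hz, hid y⟩
    rw [f1]
    refine LkH_aux (1 + r u) ?_ (fun s y hy _ => hB1 s y hy) ?_ i
    · rintro y ⟨w, rfl⟩ h0
      have h1 := hbit (E u w)
      rw [hk _ h0, hid, hk _ h0] at h1
      exact (add_eq_right.mp h1)
    · intro s z hz
      refine ⟨E u z, hEA s z hz.1, LinearMap.mem_range_self _ z, ?_⟩
      rw [LinearMap.add_apply, Module.End.one_apply]
      exact hdec z (hBz s z hz)
  have e3 := hd_split hA (E u) (fun s y _ => hid y) hEA i
  rw [e3, e1, e2, two_mul]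

private theorem LkH_lkF {G : SimpleGraph V} {t : Finset V} {w : V} :
    w ∈ lkF G t ↔ ∀ v ∈ t, G.Adj v w := by
  classical
  unfold lkF
  rw [mem_filter]
  exact ⟨fun h => h.2, fun h => ⟨mem_univ w, h⟩⟩

/-- the induction -/
private theorem LkH_ind {G : SimpleGraph V} {r E : V → Module.End F2 Y} (hN : IsN G univ r)
    (hB : IsBit G univ r E) {t : Finset V} (ht : G.IsClique (t : Set V)) (j : ℕ) (t' : Finset V) :
    t' ⊆ t → hd (fun s => Sy (Cq G (lkF G t)) r s ⊓ Inv r t') j ≤ hX (Cq G (lkF G t)) r j := by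
  induction t' using Finset.induction_on with
  | empty =>
    intro _
    have e : (fun s => Sy (Cq G (lkF G t)) r s ⊓ Inv r ∅) = Sy (Cq G (lkF G t)) r := by
      funext s
      refine inf_eq_left.2 fun y _ v hv => ?_
      exact absurd hv (notMem_empty v)
    rw [e]
    exact le_refl _
  | insert u t' hu ih =>
    intro hsub
    have hut : u ∈ t := hsub (mem_insert_self u t')
    have ht't : t' ⊆ t := (subset_insert u t').trans hsub
    have hadj : ∀ v ∈ t', G.Adj u v := fun v hv =>
      ht (mem_coe.2 hut) (mem_coe.2 (ht't hv)) fun e => hu (e ▸ hv)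
    have hm : Mono (fun s => Sy (Cq G (lkF G t)) r s ⊓ Inv r t') := by
      intro s v y hy
      exact ⟨mono_Sy (mono_Cq G _) r s v hy.1, hy.2⟩
    have e : (fun s => Sy (Cq G (lkF G t)) r s ⊓ Inv r (insert u t')) =
        fun s => (Sy (Cq G (lkF G t)) r s ⊓ Inv r t') ⊓ Inv r {u} := by
      funext s
      ext y
      constructor
      · rintro ⟨h1, h2⟩
        refine ⟨⟨h1, fun v hv => h2 v (mem_insert_of_mem hv)⟩, fun v hv => ?_⟩
        rw [mem_singleton] at hv
        rw [hv]
        exact h2 u (mem_insert_self u t')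
      · rintro ⟨⟨h1, h2⟩, h3⟩
        refine ⟨h1, fun v hv => ?_⟩
        rcases mem_insert.1 hv with hv | hv
        · rw [hv]
          exact h3 u (mem_singleton_self u)
        · exact h2 v hv
    have hpres : ∀ F : Module.End F2 Y, (∀ v, G.Adj u v → ∀ y, F (r v y) = r v (F y)) →
        ∀ s, ∀ y ∈ Sy (Cq G (lkF G t)) r s ⊓ Inv r t', F y ∈ Sy (Cq G (lkF G t)) r s ⊓ Inv r t' := by
      rintro F hF s y ⟨h1, h2⟩
      refine ⟨⟨fun hn => ?_, fun v hv => ?_⟩, fun v hv => ?_⟩
      · rw [h1.1 hn, map_zero]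
      · by_cases hs : Cq G (lkF G t) s
        · rw [← hF v (LkH_lkF.1 (hs.2 hv) u hut), h1.2 v hv]
        · rw [h1.1 hs, map_zero, map_zero]
      · rw [← hF v (hadj v hv), h2 v hv]
    have h := LkH_half hm (r := r) (E := E) (u := u) (hN.sq u (mem_univ u)) (hB.idem u (mem_univ u))
      (hB.bit u (mem_univ u)) (hpres (E u) fun v hv => hB.er u (mem_univ u) v (mem_univ v) hv)
      (hpres (r u) fun v hv => hN.comm u (mem_univ u) v (mem_univ v) hv) j
    have hm2 : Mono (fun s => (Sy (Cq G (lkF G t)) r s ⊓ Inv r t') ⊓ Inv r {u}) := by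
      intro s v y hy
      exact ⟨hm s v hy.1, hy.2⟩
    have h0 := hd_nonneg hm2 j
    have h1 := ih ht't
    rw [e]
    linarith

/-- **The homology of the link of `t`.** If `t` is not a clique, `res t (Sy ..)` is `0`. If `t` is a clique, then
`2 ^ |t| * hd (res t (Sy (Cq G univ) r)) j = hX (Cq G (lkF G t)) r j` (cf. `hd_half`, and its use in `gz_rem`, for one
vertex): induction on `t` for systems `s ↦ Sy (Cq G U) r s ⊓ Inv r t`, `U` = the common neighbours; the proof of
`hd_half` works for these systems, or apply `hd_half` to the module `Inv r t`. (`hd_nonneg`.) -/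
theorem hd_res_le {G : SimpleGraph V} {r E : V → Module.End F2 Y} (hN : IsN G univ r)
    (hB : IsBit G univ r E) (t : Finset V) (j : ℕ) :
    hd (res t (Sy (Cq G univ) r)) j ≤ hX (Cq G (lkF G t)) r j := by
  have h0 : 0 ≤ hX (Cq G (lkF G t)) r j := hd_nonneg (mono_Sy (mono_Cq G _) r) j
  by_cases ht : G.IsClique (t : Set V)
  · have e : res t (Sy (Cq G univ) r) = fun s => Sy (Cq G (lkF G t)) r s ⊓ Inv r t := by
      funext s
      have hcl : (Cq G univ (t ∪ s) ∧ Disjoint t s) ↔ Cq G (lkF G t) s := by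
        constructor
        · rintro ⟨h1, h2⟩
          refine ⟨h1.1.subset (coe_subset.2 subset_union_right), fun w hw => LkH_lkF.2 fun v hv => ?_⟩
          exact h1.1 (mem_coe.2 (mem_union_left _ hv)) (mem_coe.2 (mem_union_right _ hw))
            fun e => disjoint_left.1 h2 hv (e ▸ hw)
        · rintro ⟨h1, h2⟩
          have h3 : ∀ v ∈ t, ∀ w ∈ s, G.Adj v w := fun v hv w hw => LkH_lkF.1 (h2 hw) v hv
          refine ⟨⟨fun a ha b hb hab => ?_, subset_univ _⟩, ?_⟩
          · rcases mem_union.1 (mem_coe.1 ha) with ha | ha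
            · rcases mem_union.1 (mem_coe.1 hb) with hb | hb
              · exact ht (mem_coe.2 ha) (mem_coe.2 hb) hab
              · exact h3 a ha b hb
            · rcases mem_union.1 (mem_coe.1 hb) with hb | hb
              · exact (h3 b hb a ha).symm
              · exact h1 (mem_coe.2 ha) (mem_coe.2 hb) hab
          · exact disjoint_left.2 fun v hv hs => (h3 v hv v hs).ne rfl
      ext y
      show (y ∈ Sy (Cq G univ) r (t ∪ s) ∧ (¬ Disjoint t s → y = 0)) ↔ _
      rw [mem_Sy, Submodule.mem_inf, mem_Sy, mem_Inv]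
      constructor
      · rintro ⟨⟨h1, h2⟩, h3⟩
        refine ⟨⟨fun hc => ?_, fun w hw => h2 w (mem_union_right _ hw)⟩,
          fun w hw => h2 w (mem_union_left _ hw)⟩
        by_cases hd : Disjoint t s
        · exact h1 fun h4 => hc (hcl.1 ⟨h4, hd⟩)
        · exact h3 hd
      · rintro ⟨⟨h1, h2⟩, h3⟩
        refine ⟨⟨fun hc => h1 fun h4 => hc (hcl.2 h4).1, fun w hw => ?_⟩,
          fun hd => h1 fun h4 => hd (hcl.2 h4).2⟩
        rcases mem_union.1 hw with hw | hw
        · exact h3 w hw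
        · exact h2 w hw
    rw [e]
    exact LkH_ind hN hB ht j t (Subset.refl t)
  · have hz : ∀ s, res t (Sy (Cq G univ) r) s = ⊥ := by
      intro s
      rw [eq_bot_iff]
      rintro y ⟨h1, -⟩
      refine (Submodule.mem_bot F2).2 ((mem_Sy.1 h1).1 fun hc => ht ?_)
      exact hc.1.subset (coe_subset.2 subset_union_left)
    have hm : Mono (res t (Sy (Cq G univ) r)) := by
      intro s v
      rw [hz, hz]
    rw [hd_zero hm j fun s _ => hz s]
    exact h0

/-- the property of a module to be small for the complex `U` in degree `j` -/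
def Sm (G : SimpleGraph V) (U : Finset V) (j : ℕ) (c : ℝ) (Y : Type) [AddCommGroup Y] [Module F2 Y]
    (r : V → Module.End F2 Y) : Prop :=
  (hX (Cq G U) r j : ℝ) ≤ c * Module.finrank F2 Y

/-- **Common modules.** Induction on `S`: tensor products, `prod_le`, `prod_le'` (`X = Cq G (U k)`), `isN_tens`,
`isBit_tens_left`; `S = ∅`: the functions on the cube (see `gz_high`). -/
theorem common (G : SimpleGraph V) {ι : Type} (S : Finset ι) (U : ι → Finset V) (d : ι → ℕ)
    (c : ι → ℝ) (h : ∀ k ∈ S, ∃ (Y : Type) (_ : AddCommGroup Y) (_ : Module F2 Y) (_ : Finite Y)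
      (r E : V → Module.End F2 Y), IsN G univ r ∧ IsBit G univ r E ∧ 0 < Module.finrank F2 Y ∧
        Sm G (U k) (d k) (c k) Y r) :
    ∃ (Y : Type) (_ : AddCommGroup Y) (_ : Module F2 Y) (_ : Finite Y)
      (r E : V → Module.End F2 Y), IsN G univ r ∧ IsBit G univ r E ∧ 0 < Module.finrank F2 Y ∧
        ∀ k ∈ S, Sm G (U k) (d k) (c k) Y r := by
  classical
  induction S using Finset.induction_on with
  | empty =>
    have hh : GZ G univ (Fintype.card V + 1) := gz_high fun s _ hs => by
      have := card_le_univ s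
      omega
    obtain ⟨Y, i1, i2, i3, r, E, hN, hB, hp, -⟩ := hh 1 one_pos
    exact ⟨Y, i1, i2, i3, r, E, hN, hB, hp, fun k hk => absurd hk (notMem_empty k)⟩
  | insert k S hk ih =>
    obtain ⟨Y₁, _, _, _, r₁, E₁, hN₁, hB₁, hp₁, hS₁⟩ := ih fun k' hk' => h k' (mem_insert_of_mem hk')
    obtain ⟨Y₂, _, _, _, r₂, E₂, hN₂, hB₂, hp₂, hS₂⟩ := h k (mem_insert_self k S)
    have hf : Module.finrank F2 (TensorProduct F2 Y₁ Y₂) =
        Module.finrank F2 Y₁ * Module.finrank F2 Y₂ := Module.finrank_tensorProduct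
    refine ⟨TensorProduct F2 Y₁ Y₂, inferInstance, inferInstance, finite_tens, tens r₁ r₂,
      fun v => TensorProduct.map (E₁ v) LinearMap.id, isN_tens hN₁ hN₂, isBit_tens_left hB₁,
      by rw [hf]; exact Nat.mul_pos hp₁ hp₂, ?_⟩
    intro k' hk'
    have hc : ∀ s, Cq G (U k') s → Cq G univ s := fun s hs => ⟨hs.1, subset_univ s⟩
    unfold Sm
    rw [hf]
    push_cast
    rcases mem_insert.1 hk' with rfl | hk'
    · have h3 := prod_le' hN₁ hN₂ hB₂ (X := Cq G (U k')) hc (mono_Cq G _) (d k')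
      have h4 : (hX (Cq G (U k')) (tens r₁ r₂) (d k') : ℝ) ≤
          Module.finrank F2 Y₁ * (hX (Cq G (U k')) r₂ (d k') : ℝ) := by exact_mod_cast h3
      have h5 : (Module.finrank F2 Y₁ : ℝ) * (hX (Cq G (U k')) r₂ (d k') : ℝ) ≤
          Module.finrank F2 Y₁ * (c k' * Module.finrank F2 Y₂) :=
        mul_le_mul_of_nonneg_left hS₂ (Nat.cast_nonneg _)
      linarith
    · have h3 := prod_le hN₁ hB₁ hN₂ (X := Cq G (U k')) hc (mono_Cq G _) (d k')
      have h4 : (hX (Cq G (U k')) (tens r₁ r₂) (d k') : ℝ) ≤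
          Module.finrank F2 Y₂ * (hX (Cq G (U k')) r₁ (d k') : ℝ) := by exact_mod_cast h3
      have h5 : (Module.finrank F2 Y₂ : ℝ) * (hX (Cq G (U k')) r₁ (d k') : ℝ) ≤
          Module.finrank F2 Y₂ * (c k' * Module.finrank F2 Y₁) :=
        mul_le_mul_of_nonneg_left (hS₁ k' hk') (Nat.cast_nonneg _)
      linarith

/-- `gz_two` with `gz_high` for `univ` in a degree above `|V|` -/
theorem gz_univ {G : SimpleGraph V} {U : Finset V} {j : ℕ} (h : GZ G U j) {ε : ℝ} (hε : 0 < ε) :
    ∃ (Y : Type) (_ : AddCommGroup Y) (_ : Module F2 Y) (_ : Finite Y)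
      (r E : V → Module.End F2 Y), IsN G univ r ∧ IsBit G univ r E ∧ 0 < Module.finrank F2 Y ∧
        Sm G U j ε Y r := by
  have hh : GZ G univ (Fintype.card V + 1) := gz_high fun s _ hs => by
    have := card_le_univ s
    omega
  obtain ⟨Y, i1, i2, i3, r, E, hN, hB, hp, -, hY⟩ := gz_two (subset_univ U) hh h ε hε
  exact ⟨Y, i1, i2, i3, r, E, hN, hB, hp, hY⟩

end Pool.Agent.H19.SR
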