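import Pool.Agent.H19.SR.Defs
import Pool.Agent.H73.GC.SysB

/-!
# Project SR, modules T4, T6a: links of spheres, change of the vertex set
-/

set_option autoImplicit false
set_option linter.unusedSectionVars false

open Finset

namespace Pool.Agent.H19.SR

open Pool.Agent.H73.GC

/-! ### Links -/

section Link

variable {V : Type} [DecidableEq V] [Fintype V] (G : SimpleGraph V) (t : Finset V)

private theorem Lks_mem {w : V} : w ∈ lkF G t ↔ ∀ v ∈ t, G.Adj v w := by
  unfold lkF
  simp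


/-- the simplex of the complex which belongs to the simplex of the link -/
private noncomputable def Lup (u : Finset {w // w ∈ lkF G t}) : Finset V := t ∪ u.map (Function.Embedding.subtype _)

/-- the simplex of the link -/
private noncomputable def Ldn (u : Finset V) : Finset {w // w ∈ lkF G t} := u.subtype fun w => w ∈ lkF G t

private theorem Lks_dis {w : V} (hw : w ∈ lkF G t) : w ∉ t := fun h =>
  (((Lks_mem G t).1 hw) w h).ne rfl

private theorem Ldn_up (u : Finset {w // w ∈ lkF G t}) : Ldn G t (Lup G t u) = u := by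
  ext ⟨w, hw⟩
  unfold Ldn Lup
  rw [mem_subtype, mem_union, mem_map]
  constructor
  · rintro (h | ⟨x, hx, hxw⟩)
    · exact absurd h (Lks_dis G t hw)
    · have h1 : x = ⟨w, hw⟩ := Subtype.ext hxw
      rw [← h1]
      exact hx
  · intro h
    exact Or.inr ⟨_, h, rfl⟩

private theorem Lup_inj {u u' : Finset {w // w ∈ lkF G t}} (h : Lup G t u = Lup G t u') : u = u' := by
  rw [← Ldn_up G t u, h, Ldn_up]

private theorem mem_Lup {u : Finset {w // w ∈ lkF G t}} {w : V} :
    w ∈ Lup G t u ↔ w ∈ t ∨ ∃ h : w ∈ lkF G t, (⟨w, h⟩ : {w // w ∈ lkF G t}) ∈ u := by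
  unfold Lup
  rw [mem_union, mem_map]
  refine or_congr_right ?_
  constructor
  · rintro ⟨x, hx, rfl⟩
    exact ⟨x.2, hx⟩
  · rintro ⟨h, hx⟩
    exact ⟨_, hx, rfl⟩

private theorem Lup_dn {u : Finset V} (h1 : t ⊆ u) (h2 : ∀ w ∈ u, w ∈ t ∨ w ∈ lkF G t) :
    Lup G t (Ldn G t u) = u := by
  ext w
  rw [mem_Lup]
  unfold Ldn
  constructor
  · rintro (h | ⟨h, h'⟩)
    · exact h1 h
    · exact mem_subtype.1 h'
  · intro h
    rcases h2 w h with h3 | h3
    · exact Or.inl h3
    · exact Or.inr ⟨h3, mem_subtype.2 h⟩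

private theorem Lup_sub (u : Finset {w // w ∈ lkF G t}) : t ⊆ Lup G t u := subset_union_left

private theorem Lks_clq {u : Finset V} (h1 : t ⊆ u) (hu : G.IsClique (u : Set V)) :
    ∀ w ∈ u, w ∈ t ∨ w ∈ lkF G t := by
  intro w hw
  by_cases h : w ∈ t
  · exact Or.inl h
  · refine Or.inr ((Lks_mem G t).2 fun v hv => ?_)
    exact hu (mem_coe.2 (h1 hv)) (mem_coe.2 hw) fun he => h (he ▸ hv)

private theorem Lup_clq (ht : G.IsClique (t : Set V)) {u : Finset {w // w ∈ lkF G t}} :
    G.IsClique (Lup G t u : Set V) ↔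
      (G.comap (Subtype.val : {w // w ∈ lkF G t} → V)).IsClique (u : Set {w // w ∈ lkF G t}) := by
  constructor
  · intro h a ha b hb hab
    exact h (mem_coe.2 ((mem_Lup G t).2 (Or.inr ⟨a.2, mem_coe.1 ha⟩)))
      (mem_coe.2 ((mem_Lup G t).2 (Or.inr ⟨b.2, mem_coe.1 hb⟩))) fun hc => hab (Subtype.ext hc)
  · intro h a ha b hb hab
    rcases (mem_Lup G t).1 (mem_coe.1 ha) with ha | ⟨ha', ha⟩
    · rcases (mem_Lup G t).1 (mem_coe.1 hb) with hb | ⟨hb', hb⟩
      · exact ht (mem_coe.2 ha) (mem_coe.2 hb) hab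
      · exact (Lks_mem G t).1 hb' a ha
    · rcases (mem_Lup G t).1 (mem_coe.1 hb) with hb | ⟨hb', hb⟩
      · exact ((Lks_mem G t).1 ha' b hb).symm
      · exact h (mem_coe.2 ha) (mem_coe.2 hb) fun hc => hab (congrArg Subtype.val hc)

private theorem Lup_card (u : Finset {w // w ∈ lkF G t}) : (Lup G t u).card = t.card + u.card := by
  unfold Lup
  rw [card_union_of_disjoint, card_map]
  rw [disjoint_left]
  intro w hw h
  obtain ⟨x, -, rfl⟩ := mem_map.1 h
  exact Lks_dis G t x.2 hw

private theorem Lup_mono {u u' : Finset {w // w ∈ lkF G t}} :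
    Lup G t u ⊆ Lup G t u' ↔ u ⊆ u' := by
  constructor
  · intro h x hx
    have h1 : x.1 ∈ Lup G t u' := h ((mem_Lup G t).2 (Or.inr ⟨x.2, hx⟩))
    rcases (mem_Lup G t).1 h1 with h2 | ⟨h2, h3⟩
    · exact absurd h2 (Lks_dis G t x.2)
    · exact h3
  · intro h
    exact union_subset_union_right (map_subset_map.2 h)

private theorem Lup_ins (u : Finset {w // w ∈ lkF G t}) (x : {w // w ∈ lkF G t}) :
    Lup G t (insert x u) = insert x.1 (Lup G t u) := by
  unfold Lup
  rw [map_insert, union_insert]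
  rfl

/-- the sums over the complement -/
private theorem Lks_sum (F : Finset V → ZMod 2) (u : Finset {w // w ∈ lkF G t})
    (hF : ∀ w, w ∉ Lup G t u → w ∉ lkF G t → F (insert w (Lup G t u)) = 0) :
    ∑ w ∈ (Lup G t u)ᶜ, F (insert w (Lup G t u)) = ∑ x ∈ uᶜ, F (Lup G t (insert x u)) := by
  symm
  refine sum_bij_ne_zero (fun x _ _ => x.1) ?_ ?_ ?_ ?_
  · intro x hx _
    rw [mem_compl] at hx ⊢
    intro h
    rcases (mem_Lup G t).1 h with h2 | ⟨h2, h3⟩
    · exact Lks_dis G t x.2 h2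
    · exact hx h3
  · intro x _ _ y _ _ h
    exact Subtype.ext h
  · intro w hw hne
    rw [mem_compl] at hw
    have hl : w ∈ lkF G t := by
      by_contra h
      exact hne (hF w hw h)
    refine ⟨⟨w, hl⟩, ?_, ?_, rfl⟩
    · rw [mem_compl]
      intro h
      exact hw ((mem_Lup G t).2 (Or.inr ⟨hl, h⟩))
    · rw [Lup_ins]
      exact hne
  · intro x _ _
    rw [Lup_ins]

open Classical in
/-- the extension of a chain of the link -/
private noncomputable def Lex (f : Finset {w // w ∈ lkF G t} → ZMod 2) (u : Finset V) : ZMod 2 :=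
  if Lup G t (Ldn G t u) = u then f (Ldn G t u) else 0

private theorem Lex_up (f : Finset {w // w ∈ lkF G t} → ZMod 2) (u : Finset {w // w ∈ lkF G t}) :
    Lex G t f (Lup G t u) = f u := by
  unfold Lex
  rw [Ldn_up, if_pos rfl]

private theorem Lex_ne {f : Finset {w // w ∈ lkF G t} → ZMod 2} {u : Finset V}
    (h : Lex G t f u ≠ 0) : ∃ u', u = Lup G t u' ∧ f u' ≠ 0 := by
  unfold Lex at h
  split_ifs at h with h1
  · exact ⟨_, h1.symm, h⟩
  · exact absurd rfl h

/-- cycles -/
private theorem Lex_cyc {f : Finset {w // w ∈ lkF G t} → ZMod 2} {s : Finset {w // w ∈ lkF G t}} :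
    (∀ u, s ⊆ u → ∑ x ∈ uᶜ, f (insert x u) = 0) ↔
      ∀ u, Lup G t s ⊆ u → ∑ w ∈ uᶜ, Lex G t f (insert w u) = 0 := by
  have hkey : ∀ u', ∑ w ∈ (Lup G t u')ᶜ, Lex G t f (insert w (Lup G t u')) =
      ∑ x ∈ u'ᶜ, f (insert x u') := by
    intro u'
    rw [Lks_sum G t (Lex G t f) u']
    · exact sum_congr rfl fun x _ => Lex_up G t f _
    · intro w hw hwl
      by_contra hne
      obtain ⟨u1, h1, -⟩ := Lex_ne G t hne
      have h2 : w ∈ Lup G t u1 := h1 ▸ mem_insert_self _ _
      rcases (mem_Lup G t).1 h2 with h3 | ⟨h3, -⟩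
      · exact hw (Lup_sub G t _ h3)
      · exact hwl h3
  constructor
  · intro h u hu
    by_cases h1 : Lup G t (Ldn G t u) = u
    · rw [← h1, hkey]
      refine h _ ?_
      rw [← Lup_mono G t, h1]
      exact hu
    · refine sum_eq_zero fun w hw => ?_
      by_contra hne
      obtain ⟨u1, h2, -⟩ := Lex_ne G t hne
      refine h1 (Lup_dn G t ((Lup_sub G t s).trans hu) fun x hx => ?_)
      have h3 : x ∈ Lup G t u1 := h2 ▸ mem_insert_of_mem hx
      rcases (mem_Lup G t).1 h3 with h4 | ⟨h4, -⟩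
      · exact Or.inl h4
      · exact Or.inr h4
  · intro h u hu
    rw [← hkey]
    exact h _ ((Lup_mono G t).2 hu)

end Link

/-- **Links of spheres are spheres**: the cliques `t'` of the link of `t` correspond to the cliques `t ∪ t'` -/
theorem IsSph.link {V : Type} [DecidableEq V] [Fintype V] {G : SimpleGraph V} {n : ℕ}
    (h : IsSph G n) {t : Finset V} (ht : G.IsClique (t : Set V)) :
    IsSph (G.comap (Subtype.val : {w // w ∈ lkF G t} → V)) (n - t.card) := by
  have htn : t.card ≤ n := h.card_le t ht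
  have hsupp : ∀ (s : Finset {w // w ∈ lkF G t}) (j : ℕ) (f : Finset {w // w ∈ lkF G t} → ZMod 2),
      (∀ u, f u ≠ 0 → (G.comap (Subtype.val : {w // w ∈ lkF G t} → V)).IsClique (u : Set {w // w ∈ lkF G t}) ∧
        s ⊆ u ∧ u.card = j) →
      ∀ u, Lex G t f u ≠ 0 → G.IsClique (u : Set V) ∧ Lup G t s ⊆ u ∧ u.card = t.card + j := by
    intro s j f hf u hu
    obtain ⟨u', rfl, h1⟩ := Lex_ne G t hu
    obtain ⟨h2, h3, h4⟩ := hf u' h1
    exact ⟨(Lup_clq G t ht).2 h2, (Lup_mono G t).2 h3, by rw [Lup_card, h4]⟩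
  refine ⟨fun s hs => ?_, fun s hs => ?_, fun s hs j hj f hf hc => ?_, fun s hs f hf => ?_⟩
  · have h1 := h.card_le _ ((Lup_clq G t ht).2 hs)
    rw [Lup_card] at h1
    omega
  · obtain ⟨u, h1, h2, h3⟩ := h.facet _ ((Lup_clq G t ht).2 hs)
    have htu : t ⊆ u := (Lup_sub G t s).trans h1
    have h4 := Lup_dn G t htu (Lks_clq G t htu h2)
    refine ⟨Ldn G t u, ?_, ?_, ?_⟩
    · rw [← Lup_mono G t, h4]
      exact h1
    · rw [← Lup_clq G t ht, h4]
      exact h2
    · have h5 := Lup_card G t (Ldn G t u)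
      rw [h4, h3] at h5
      omega
  · obtain ⟨y, hy1, hy2⟩ := h.low (Lup G t s) ((Lup_clq G t ht).2 hs) (t.card + j) (by omega)
      (Lex G t f) (hsupp s j f hf) ((Lex_cyc G t).1 hc)
    refine ⟨fun u => y (Lup G t u), fun u hu => ?_, fun u hu => ?_⟩
    · obtain ⟨h2, h3, h4⟩ := hy1 _ hu
      rw [Lup_card] at h4
      exact ⟨(Lup_clq G t ht).1 h2, (Lup_mono G t).1 h3, by omega⟩
    · have h1 := hy2 (Lup G t u) ((Lup_mono G t).2 hu)
      rw [Lex_up, Lks_sum G t y u] at h1
      · exact h1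
      · intro w hw hwl
        by_contra hne
        have h3 := (hy1 _ hne).1
        rcases Lks_clq G t ((Lup_sub G t u).trans (subset_insert _ _)) h3 w (mem_insert_self _ _)
          with h4 | h4
        · exact hw (Lup_sub G t _ h4)
        · exact hwl h4
  · have h1 := h.top (Lup G t s) ((Lup_clq G t ht).2 hs) (Lex G t f) (fun u hu => by
      obtain ⟨h2, h3, h4⟩ := hsupp s _ f hf u hu
      exact ⟨h2, h3, by omega⟩)
    rw [Lex_cyc G t, h1]
    constructor
    · rintro ⟨c, hc⟩
      refine ⟨c, fun u hu1 hu2 hu3 => ?_⟩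
      rw [← hc (Lup G t u) ((Lup_clq G t ht).2 hu1) ((Lup_mono G t).2 hu2)
        (by rw [Lup_card, hu3]; omega), Lex_up]
    · rintro ⟨c, hc⟩
      refine ⟨c, fun u hu1 hu2 hu3 => ?_⟩
      have htu : t ⊆ u := (Lup_sub G t s).trans hu2
      have h4 := Lup_dn G t htu (Lks_clq G t htu hu1)
      have h5 := Lup_card G t (Ldn G t u)
      rw [h4, hu3] at h5
      rw [← h4, Lex_up]
      refine hc _ ?_ ?_ (by omega)
      · rw [← Lup_clq G t ht, h4]
        exact hu1
      · rw [← Lup_mono G t, h4]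
        exact hu2

/-! ### Change of the vertex set -/

section Map

variable {V' V : Type} [Fintype V'] [DecidableEq V'] [DecidableEq V] [Fintype V] (e : V' ↪ V)
variable {Y : Type} [AddCommGroup Y] [Module F2 Y]

open Classical in
/-- the operators on the new vertex set -/
private noncomputable def Mop (d : Module.End F2 Y) (r : V' → Module.End F2 Y) (v : V) :
    Module.End F2 Y :=
  if h : ∃ u, e u = v then r h.choose else d

private theorem Mop_e (d : Module.End F2 Y) (r : V' → Module.End F2 Y) (u : V') :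
    Mop e d r (e u) = r u := by
  unfold Mop
  have h : ∃ u', e u' = e u := ⟨u, rfl⟩
  rw [dif_pos h]
  congr 1
  exact e.injective h.choose_spec

/-- the chains on the new vertex set -/
private noncomputable def Mex : (Finset V' → Y) →ₗ[F2] (Finset V → Y) where
  toFun f σ := if σ ⊆ univ.map e then f (univ.filter fun u => e u ∈ σ) else 0
  map_add' f g := by
    funext σ
    simp only [Pi.add_apply]
    split_ifs <;> simp
  map_smul' c f := by
    funext σ
    simp only [Pi.smul_apply, RingHom.id_apply]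
    split_ifs <;> simp

private theorem Mex_apply (f : Finset V' → Y) (σ : Finset V) :
    Mex e f σ = if σ ⊆ univ.map e then f (univ.filter fun u => e u ∈ σ) else 0 := rfl

private theorem Mfil (τ : Finset V') : (univ.filter fun u => e u ∈ τ.map e) = τ := by
  ext u
  simp

private theorem Mex_map (f : Finset V' → Y) (τ : Finset V') : Mex e f (τ.map e) = f τ := by
  rw [Mex_apply, if_pos (map_subset_map.2 (subset_univ _)), Mfil]

private theorem Mmap {σ : Finset V} (h : σ ⊆ univ.map e) :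
    (univ.filter fun u => e u ∈ σ).map e = σ := by
  ext v
  simp only [mem_map, mem_filter, mem_univ, true_and]
  constructor
  · rintro ⟨u, hu, rfl⟩
    exact hu
  · intro hv
    obtain ⟨u, -, rfl⟩ := mem_map.1 (h hv)
    exact ⟨u, hv, rfl⟩

private theorem Mex_inj : Function.Injective (Mex e : (Finset V' → Y) →ₗ[F2] (Finset V → Y)) := by
  intro f g h
  funext τ
  rw [← Mex_map e f, h, Mex_map]

private theorem Mex_dd (f : Finset V' → Y) : dd (Mex e f) = Mex e (dd f) := by
  funext σ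
  rw [dd_apply]
  by_cases hσ : σ ⊆ univ.map e
  · rw [← Mmap e hσ, Mex_map, dd_apply]
    generalize (univ.filter fun u => e u ∈ σ) = τ
    symm
    refine sum_bij_ne_zero (fun u _ _ => e u) ?_ ?_ ?_ ?_
    · intro u hu _
      rw [mem_compl] at hu ⊢
      intro h
      obtain ⟨u', hu', h'⟩ := mem_map.1 h
      exact hu (e.injective h' ▸ hu')
    · intro u _ _ u' _ _ h
      exact e.injective h
    · intro v hv hne
      rw [Mex_apply] at hne
      split_ifs at hne with h1
      · obtain ⟨u, -, rfl⟩ := mem_map.1 (h1 (mem_insert_self _ _))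
        refine ⟨u, ?_, ?_, rfl⟩
        · rw [mem_compl] at hv ⊢
          intro h
          exact hv (mem_map_of_mem _ h)
        · rw [← map_insert, Mfil] at hne
          exact hne
      · exact absurd rfl hne
    · intro u _ _
      rw [← map_insert, Mex_map]
  · rw [Mex_apply, if_neg hσ]
    refine sum_eq_zero fun v _ => ?_
    rw [Mex_apply, if_neg fun h => hσ ((subset_insert _ _).trans h)]

private theorem Mcq {G : SimpleGraph V} {U : Finset V'} {τ : Finset V'} :
    Cq G (U.map e) (τ.map e) ↔ Cq (G.comap e) U τ := by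
  unfold Cq
  refine and_congr ?_ map_subset_map
  constructor
  · intro h a ha b hb hab
    exact h (mem_coe.2 (mem_map_of_mem _ (mem_coe.1 ha)))
      (mem_coe.2 (mem_map_of_mem _ (mem_coe.1 hb))) fun hc => hab (e.injective hc)
  · intro h a ha b hb hab
    obtain ⟨a', ha', rfl⟩ := mem_map.1 (mem_coe.1 ha)
    obtain ⟨b', hb', rfl⟩ := mem_map.1 (mem_coe.1 hb)
    exact h (mem_coe.2 ha') (mem_coe.2 hb') fun hc => hab (congrArg e hc)

private theorem Mch {G : SimpleGraph V} {U : Finset V'} (d : Module.End F2 Y)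
    (r : V' → Module.End F2 Y) (j : ℕ) :
    (Ch (Sy (Cq (G.comap e) U) r) j).map (Mex e) =
      Ch (Sy (Cq G (U.map e)) (Mop e d r)) j := by
  ext g
  constructor
  · rintro ⟨f, hf, rfl⟩
    refine mem_Ch.2 fun σ => ?_
    by_cases hσ : σ ⊆ univ.map e
    · rw [← Mmap e hσ, Mex_map]
      generalize (univ.filter fun u => e u ∈ σ) = τ
      obtain ⟨h1, h2⟩ := mem_Ch.1 hf τ
      refine ⟨mem_Sy.2 ⟨fun hn => h1.1 fun h' => hn ((Mcq e).2 h'), fun v hv => ?_⟩, fun hn => ?_⟩
      · obtain ⟨u, hu, rfl⟩ := mem_map.1 hv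
        rw [Mop_e]
        exact h1.2 u hu
      · rw [card_map] at hn
        exact h2 hn
    · rw [Mex_apply, if_neg hσ]
      exact ⟨Submodule.zero_mem _, fun _ => rfl⟩
  · intro hg
    refine ⟨fun τ => g (τ.map e), mem_Ch.2 fun τ => ?_, ?_⟩
    · obtain ⟨h1, h2⟩ := mem_Ch.1 hg (τ.map e)
      refine ⟨mem_Sy.2 ⟨fun hn => h1.1 fun h' => hn ((Mcq e).1 h'), fun u hu => ?_⟩, fun hn => ?_⟩
      · have h3 := h1.2 (e u) (mem_map_of_mem _ hu)
        rw [Mop_e] at h3
        exact h3
      · exact h2 (by rwa [card_map])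
    · funext σ
      by_cases hσ : σ ⊆ univ.map e
      · rw [← Mmap e hσ, Mex_map]
      · rw [Mex_apply, if_neg hσ]
        symm
        refine (mem_Ch.1 hg σ).1.1 fun h => hσ ?_
        exact h.2.trans (map_subset_map.2 (subset_univ _))

end Map

/-- **Change of the vertex set**: `r' v = r u` if `v = e u`, and `id` for the other vertices (`E' v = E u`, `0`);
the chains correspond to each other by `Finset.map e`. -/
theorem gz_map {V' V : Type} [DecidableEq V'] [Fintype V'] [DecidableEq V] [Fintype V] (e : V' ↪ V)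
    (G : SimpleGraph V) (U : Finset V') {i : ℕ} (h : GZ (G.comap e) U i) : GZ G (U.map e) i := by
  intro ε hε
  obtain ⟨Y, _, _, _, r, E, hN, hB, hpos, hbd⟩ := h ε hε
  refine ⟨Y, inferInstance, inferInstance, inferInstance, Mop e LinearMap.id r, Mop e 0 E,
    ⟨?_, ?_, ?_⟩, ⟨?_, ?_, ?_, ?_⟩, hpos, ?_⟩
  · intro v hv y
    obtain ⟨u, hu, rfl⟩ := mem_map.1 hv
    rw [Mop_e]
    exact hN.sq u hu y
  · intro v hv w hw hvw y
    obtain ⟨u, hu, rfl⟩ := mem_map.1 hv
    obtain ⟨x, hx, rfl⟩ := mem_map.1 hw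
    rw [Mop_e, Mop_e]
    exact hN.comm u hu x hx hvw y
  · obtain ⟨m, F, h1, h2, h3, h4⟩ := hN.fil
    refine ⟨m, F, h1, h2, h3, fun j v hv y hy => ?_⟩
    obtain ⟨u, hu, rfl⟩ := mem_map.1 hv
    rw [Mop_e]
    exact h4 j u hu y hy
  · intro v hv y
    obtain ⟨u, hu, rfl⟩ := mem_map.1 hv
    rw [Mop_e]
    exact hB.idem u hu y
  · intro v hv y
    obtain ⟨u, hu, rfl⟩ := mem_map.1 hv
    rw [Mop_e, Mop_e]
    exact hB.bit u hu y
  · intro v hv w hw hvw y
    obtain ⟨u, hu, rfl⟩ := mem_map.1 hv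
    obtain ⟨x, hx, rfl⟩ := mem_map.1 hw
    rw [Mop_e, Mop_e]
    exact hB.er u hu x hx hvw y
  · intro v hv w hw hvw y
    obtain ⟨u, hu, rfl⟩ := mem_map.1 hv
    obtain ⟨x, hx, rfl⟩ := mem_map.1 hw
    rw [Mop_e, Mop_e]
    exact hB.ee u hu x hx hvw y
  · have h1 : hX (Cq G (U.map e)) (Mop e LinearMap.id r) i = hX (Cq (G.comap e) U) r i := by
      have hk : (Ch (Sy (Cq (G.comap e) U) r) i ⊓ LinearMap.ker dd :
          Submodule F2 (Finset V' → Y)).map (Mex e) =
            (Ch (Sy (Cq G (U.map e)) (Mop e LinearMap.id r)) i ⊓ LinearMap.ker dd :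
              Submodule F2 (Finset V → Y)) := by
        rw [← Mch e LinearMap.id r i]
        ext g
        constructor
        · rintro ⟨f, ⟨h1, h2⟩, rfl⟩
          refine ⟨⟨f, h1, rfl⟩, ?_⟩
          change dd (Mex e f) = 0
          have h3 : dd f = 0 := h2
          rw [Mex_dd, h3, map_zero]
        · rintro ⟨⟨f, h1, rfl⟩, h2⟩
          have h3 : dd (Mex e f) = 0 := h2
          rw [Mex_dd] at h3
          exact ⟨f, ⟨h1, Mex_inj e (h3.trans (map_zero _).symm)⟩, rfl⟩
      have hm : ((Ch (Sy (Cq (G.comap e) U) r) (i + 1)).map dd).map (Mex e) =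
          (Ch (Sy (Cq G (U.map e)) (Mop e LinearMap.id r)) (i + 1)).map dd := by
        rw [← Mch e LinearMap.id r (i + 1)]
        ext g
        simp only [Submodule.mem_map]
        constructor
        · rintro ⟨_, ⟨f, h1, rfl⟩, rfl⟩
          exact ⟨_, ⟨f, h1, rfl⟩, Mex_dd e f⟩
        · rintro ⟨_, ⟨f, h1, rfl⟩, rfl⟩
          exact ⟨_, ⟨f, h1, rfl⟩, (Mex_dd e f).symm⟩
      unfold hX hd hx
      rw [← hk, ← hm, ← (Submodule.equivMapOfInjective _ (Mex_inj e) _).finrank_eq,
        ← (Submodule.equivMapOfInjective _ (Mex_inj e) _).finrank_eq]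
    rw [h1]
    exact hbd

end Pool.Agent.H19.SR
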