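import Pool.Agent.H19.SR.Step
import Pool.Agent.H19.SR.KeyM
import Pool.Agent.H19.SR.KeyT
import Pool.Agent.H19.SR.Lks
import Pool.Agent.H19.SR.Base
import Pool.Agent.H19.SR.Hs
import Pool.Agent.H32.S2.Good
import Pool.Agent.H73.GC.Rem
import Pool.Agent.H73.GC.Good

/-!
# Project SR, module T6: the induction
-/

set_option autoImplicit false
set_option linter.unusedSectionVars false

open Finset

namespace Pool.Agent.H19.SR

open Pool.Agent.H73.GC

private theorem aux_q {m i : ℕ} (hi : 1 ≤ i) (h : m * (m + 3) ≤ 2 * i) : m + 1 ≤ i := by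
  rcases Nat.eq_zero_or_pos m with rfl | hm
  · omega
  · nlinarith

private theorem aux_i {m i r : ℕ} (h : m * (m + 3) ≤ 2 * i) (hr : r ≤ m)
    (h0 : m = 0 → 2 ≤ i) (h1 : m = 1 → 3 ≤ i) : 1 ≤ i - r - 1 := by
  rcases Nat.lt_or_ge m 2 with hm | hm
  · interval_cases m
    · have := h0 rfl
      omega
    · have := h1 rfl
      omega
  · have h2 : m + 2 ≤ i := by nlinarith
    omega

private theorem aux_c {m i r k : ℕ} (h : m * (m + 3) ≤ 2 * i) (hr : r ≤ m) (hm : m + 1 ≤ i)
    (hk : k ≤ m - 1) : k * (k + 3) ≤ 2 * (i - r - 1) := by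
  obtain ⟨l, hl⟩ : ∃ l, i - r - 1 = l := ⟨_, rfl⟩
  have h1 : i = l + r + 1 := by omega
  rw [hl]
  rcases Nat.eq_zero_or_pos m with rfl | hm0
  · have : k = 0 := by omega
    subst this
    simp
  · obtain ⟨a, rfl⟩ : ∃ a, m = a + 1 := ⟨m - 1, by omega⟩
    have hk' : k ≤ a := by omega
    have h2 : k * (k + 3) ≤ a * (a + 3) := Nat.mul_le_mul hk' (by omega)
    subst h1
    nlinarith

/-- **The range.** Strong induction on `n`. If `n < i`: `gz_high`. `U = univ`: if `n = 3`, `i = 2`: `IsSph.fs`,
`fs_good`, `Good.gz`. Otherwise `step` with `q = n - i + 1`: for `r < q` and a clique `t`, `|t| ≥ r + 2`, the induction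
hypothesis for the link of `t` (`IsSph.link`, `n' = n - |t|`, `i' = i - r - 1`, `U = univ`) and `gz_map`; with
`m = n - i`: `i' ≥ 1` (`m = 0`: `|t| ≤ n = i`, so `i ≥ 2`; `m = 1`: `i ≥ 3`, `r ≤ 1`; `m ≥ 2`:
`i' ≥ i - m - 1 ≥ (m - 1)(m + 2)/2`), `n' - i' ≤ m - 1`. Other `U`: induction on the number of the elements of the
complement, `gz_rem`; `lk G U v ⊆ lkF G {v}`, induction hypothesis for the link of `v` and the subset
`lk G U v`, `gz_map`. -/
theorem range (n : ℕ) : ∀ {V : Type} [DecidableEq V] [Fintype V] {G : SimpleGraph V},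
    IsSph G n → ∀ i, 1 ≤ i → (n - i) * (n - i + 3) ≤ 2 * i → ∀ U : Finset V, GZ G U i := by
  induction n using Nat.strong_induction_on with
  | _ n ih =>
  intro V _ _ G hS i hi hc
  rcases Nat.lt_or_ge n i with hni | hni
  · intro U
    refine gz_high fun s hs hc' => ?_
    have := hS.card_le s hs.1
    omega
  obtain ⟨m, rfl⟩ : ∃ m, n = i + m := ⟨n - i, by omega⟩
  have hm : i + m - i = m := by omega
  rw [hm] at hc
  have hmi := aux_q hi hc
  -- the whole complex
  have huniv : GZ G univ i := by
    by_cases h3 : m = 1 ∧ i = 2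
    · obtain ⟨rfl, rfl⟩ := h3
      exact (Pool.Agent.H32.S2.fs_good (IsSph.fs hS)).gz 2 le_rfl
    · refine step (q := m + 1) (fun s hs hsc => keyT fun K _ _ P _ _ D _ t hst γ hγ z hz =>
        keyM hS D hs (by omega) (by omega) (by omega) hst hγ hz) hmi (by omega) fun r hr t ht hrt => ?_
      have htn := hS.card_le t ht
      have hi' : 1 ≤ i - r - 1 := aux_i hc (by omega) (fun h0 => by omega) (fun h1 => by
        have h4 : i ≠ 2 := fun h => h3 ⟨h1, h⟩
        omega)
      have h5 := ih (i + m - t.card) (by omega) (hS.link ht) (i - r - 1) hi'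
        (aux_c hc (by omega) hmi (by omega)) univ
      have h6 := gz_map (Function.Embedding.subtype fun w => w ∈ lkF G t) G univ h5
      have h7 : (univ : Finset {w // w ∈ lkF G t}).map
          (Function.Embedding.subtype fun w => w ∈ lkF G t) = lkF G t := by
        ext w
        rw [mem_map]
        constructor
        · rintro ⟨a, _, rfl⟩
          exact a.2
        · intro hw
          exact ⟨⟨w, hw⟩, mem_univ _, rfl⟩
      rw [h7] at h6
      exact h6
  -- the other full subcomplexes
  have hsub : ∀ C : Finset V, GZ G (univ \ C) i := by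
    intro C
    induction C using Finset.induction_on with
    | empty =>
      rw [sdiff_empty]
      exact huniv
    | insert v C hv ihC =>
      have h1 : univ \ insert v C = (univ \ C).erase v := by
        ext w
        simp only [mem_sdiff, mem_univ, true_and, mem_insert, mem_erase, not_or]
      rw [h1]
      refine gz_rem (mem_sdiff.2 ⟨mem_univ _, hv⟩) ihC ?_
      have hcl : G.IsClique (({v} : Finset V) : Set V) := by
        rw [coe_singleton]
        exact SimpleGraph.isClique_singleton v
      have hlk : ∀ w, w ∈ lk G (univ \ C) v → w ∈ lkF G {v} := by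
        classical
        intro w hw
        unfold lk at hw
        unfold lkF
        rw [mem_filter] at hw ⊢
        refine ⟨mem_univ _, fun u hu => ?_⟩
        rw [mem_singleton] at hu
        rw [hu]
        exact hw.2
      have hk : i + m - ({v} : Finset V).card - i ≤ m := by
        rw [card_singleton]
        omega
      have hlt : i + m - ({v} : Finset V).card < i + m := by
        rw [card_singleton]
        omega
      have h5 := ih (i + m - ({v} : Finset V).card) hlt (hS.link hcl) i hi
        ((Nat.mul_le_mul hk (by omega)).trans hc)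
        (univ.filter fun w : {w // w ∈ lkF G {v}} => w.1 ∈ lk G (univ \ C) v)
      have h6 := gz_map (Function.Embedding.subtype fun w => w ∈ lkF G {v}) G _ h5
      have h7 : (univ.filter fun w : {w // w ∈ lkF G {v}} => w.1 ∈ lk G (univ \ C) v).map
          (Function.Embedding.subtype fun w => w ∈ lkF G {v}) = lk G (univ \ C) v := by
        ext w
        rw [mem_map]
        constructor
        · rintro ⟨a, ha, rfl⟩
          exact (mem_filter.1 ha).2
        · intro hw
          exact ⟨⟨w, hlk w hw⟩, mem_filter.2 ⟨mem_univ _, hw⟩, rfl⟩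
      rw [h7] at h6
      exact h6
  intro U
  have h := hsub (univ \ U)
  rw [sdiff_sdiff_right_self, inf_eq_inter, univ_inter] at h
  exact h

end Pool.Agent.H19.SR
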