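import Pool.Agent.H19.SR.Step6
import Pool.Agent.H19.SR.Main

/-!
# Project SR6: the induction
-/

set_option autoImplicit false
set_option linter.unusedSectionVars false

open Finset

namespace Pool.Agent.H19.SR

open Pool.Agent.H73.GC

private theorem aux6_q {m i : ℕ} (h : m * (m + 1) + 2 ≤ 2 * i) : m ≤ i := by
  rcases Nat.lt_or_ge m 2 with hm | hm
  · interval_cases m <;> omega
  · nlinarith

private theorem aux6_i {m i r : ℕ} (h : m * (m + 1) + 2 ≤ 2 * i) (hr : r < m) : 1 ≤ i - r - 1 := by
  have h1 : m + 1 ≤ i := by
    rcases Nat.lt_or_ge m 2 with hm | hm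
    · interval_cases m <;> omega
    · nlinarith
  omega

private theorem aux6_c {m i r t : ℕ} (h : m * (m + 1) + 2 ≤ 2 * i) (hr : r < m) (ht : r + 2 ≤ t) :
    (i + m - t - (i - r - 1)) * (i + m - t - (i - r - 1) + 1) + 2 ≤ 2 * (i - r - 1) := by
  have h1 := aux6_i h hr
  obtain ⟨c, hc⟩ : ∃ c, c = i + m - t - (i - r - 1) := ⟨_, rfl⟩
  have h2 : c ≤ m - 1 := by omega
  obtain ⟨k, rfl⟩ : ∃ k, m = k + 1 := ⟨m - 1, by omega⟩
  rw [← hc]
  have h3 : c ≤ k := by omega
  have h4 : c * (c + 1) ≤ k * (k + 1) := Nat.mul_le_mul h3 (by omega)
  have h5 : (k + 1) * (k + 1 + 1) = k * (k + 1) + 2 * (k + 1) := by ring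
  rw [h5] at h
  omega

/-- **The range.** Strong induction on `n`, as `range`, with one letter less. -/
theorem range6_of
    (hP : ∀ {V : Type} [DecidableEq V] [Fintype V] {G : SimpleGraph V} {n i : ℕ} {s : Finset V},
      IsSph G n → G.IsClique (s : Set V) → i + s.card = n → s.card < i → 1 ≤ s.card →
      PropAt G i s) (n : ℕ) : ∀ {V : Type} [DecidableEq V] [Fintype V] {G : SimpleGraph V},
    IsSph G n → ∀ i, 1 ≤ i → (n - i) * (n - i + 1) + 2 ≤ 2 * i → ∀ U : Finset V, GZ G U i := by
  induction n using Nat.strong_induction_on with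
  | _ n ih =>
  intro V _ _ G hS i hi hc
  rcases Nat.lt_or_ge n i with hni | hni
  · intro U
    refine gz_high fun s hs hc' => ?_
    have := hS.card_le s hs.1
    omega
  obtain ⟨m, rfl⟩ : ∃ m, n = i + m := ⟨n - i, by omega⟩
  have hm : i + m - i = m := by omega
  rw [hm] at hc
  have hmi := aux6_q hc
  -- the whole complex
  have huniv : GZ G univ i := by
    rcases Nat.eq_zero_or_pos m with rfl | hm0
    · exact range _ hS i hi (by simp) univ
    · have hmi' : m < i := by
        have := aux6_i hc hm0
        rcases Nat.lt_or_ge m 2 with h2 | h2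
        · interval_cases m
          omega
        · nlinarith
      refine step6 (q := m) (fun s hs hsc => hP hS hs (by omega) (by omega) (by omega)) hmi hm0
        fun r hr t ht hrt => ?_
      have htn := hS.card_le t ht
      have hi' : 1 ≤ i - r - 1 := aux6_i hc hr
      have h5 := ih (i + m - t.card) (by omega) (hS.link ht) (i - r - 1) hi'
        (aux6_c hc hr hrt) univ
      have h6 := gz_map (Function.Embedding.subtype fun w => w ∈ lkF G t) G univ h5
      have h7 : (univ : Finset {w // w ∈ lkF G t}).map
          (Function.Embedding.subtype fun w => w ∈ lkF G t) = lkF G t := by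
        ext w
        rw [mem_map]
        constructor
        · rintro ⟨a, _, rfl⟩
          exact a.2
        · intro hw
          exact ⟨⟨w, hw⟩, mem_univ _, rfl⟩
      rw [h7] at h6
      exact h6
  -- the other full subcomplexes
  have hsub : ∀ C : Finset V, GZ G (univ \ C) i := by
    intro C
    induction C using Finset.induction_on with
    | empty =>
      rw [sdiff_empty]
      exact huniv
    | insert v C hv ihC =>
      have h1 : univ \ insert v C = (univ \ C).erase v := by
        ext w
        simp only [mem_sdiff, mem_univ, true_and, mem_insert, mem_erase, not_or]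
      rw [h1]
      refine gz_rem (mem_sdiff.2 ⟨mem_univ _, hv⟩) ihC ?_
      have hcl : G.IsClique (({v} : Finset V) : Set V) := by
        rw [coe_singleton]
        exact SimpleGraph.isClique_singleton v
      have hlk : ∀ w, w ∈ lk G (univ \ C) v → w ∈ lkF G {v} := by
        classical
        intro w hw
        unfold lk at hw
        unfold lkF
        rw [mem_filter] at hw ⊢
        refine ⟨mem_univ _, fun u hu => ?_⟩
        rw [mem_singleton] at hu
        rw [hu]
        exact hw.2
      have hk : i + m - ({v} : Finset V).card - i ≤ m := by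
        rw [card_singleton]
        omega
      have hlt : i + m - ({v} : Finset V).card < i + m := by
        rw [card_singleton]
        omega
      have h5 := ih (i + m - ({v} : Finset V).card) hlt (hS.link hcl) i hi
        ((Nat.add_le_add_right (Nat.mul_le_mul hk (by omega)) 2).trans hc)
        (univ.filter fun w : {w // w ∈ lkF G {v}} => w.1 ∈ lk G (univ \ C) v)
      have h6 := gz_map (Function.Embedding.subtype fun w => w ∈ lkF G {v}) G _ h5
      have h7 : (univ.filter fun w : {w // w ∈ lkF G {v}} => w.1 ∈ lk G (univ \ C) v).map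
          (Function.Embedding.subtype fun w => w ∈ lkF G {v}) = lk G (univ \ C) v := by
        ext w
        rw [mem_map]
        constructor
        · rintro ⟨a, ha, rfl⟩
          exact (mem_filter.1 ha).2
        · intro hw
          exact ⟨⟨w, hlk w hw⟩, mem_filter.2 ⟨mem_univ _, hw⟩, rfl⟩
      rw [h7] at h6
      exact h6
  intro U
  have h := hsub (univ \ U)
  rw [sdiff_sdiff_right_self, inf_eq_inter, univ_inter] at h
  exact h

end Pool.Agent.H19.SR
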