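import Pool.Agent.H77.SW.Defs

/-!
# Singer without colours: the filtration of the extension module
-/

set_option autoImplicit false
set_option linter.unusedSectionVars false

open Finset

namespace Pool.Agent.H19.SR

open Pool.Agent.H77.SW (PG Zs dz rP rE StarInv mem_Zs)

variable {V : Type} [DecidableEq V] [Fintype V] {K : Type} [Field K]

/-- dimension count for a linear map -/
private theorem Filt_rank {M M' : Type} [AddCommGroup M] [Module K M] [FiniteDimensional K M]
    [AddCommGroup M'] [Module K M'] [FiniteDimensional K M'] (f : M →ₗ[K] M') (S S' : Submodule K M)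
    (T : Submodule K M') (h1 : ∀ z ∈ S, f z ∈ T) (h2 : ∀ z ∈ S, f z = 0 → z ∈ S') :
    Module.finrank K S ≤ Module.finrank K T + Module.finrank K S' := by
  let g : S →ₗ[K] T := (f.domRestrict S).codRestrict T fun z => h1 z.1 z.2
  have e := LinearMap.finrank_range_add_finrank_ker g
  have hr : Module.finrank K (LinearMap.range g) ≤ Module.finrank K T := Submodule.finrank_le _
  have hk : ∀ z : S, z ∈ LinearMap.ker g → z.1 ∈ S' := by
    intro z hz
    refine h2 z.1 z.2 ?_
    have h3 : g z = 0 := hz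
    exact congrArg Subtype.val h3
  let j : LinearMap.ker g →ₗ[K] S' := ((Submodule.subtype S).comp (Submodule.subtype (LinearMap.ker g))).codRestrict S' fun z => hk z.1 z.2
  have hj : Function.Injective j := by
    intro a b hab
    apply Subtype.ext
    apply Subtype.ext
    have h5 : ((j a : S') : M) = ((j b : S') : M) := by rw [hab]
    exact h5
  have h4 := LinearMap.finrank_le_finrank_of_injective hj
  omega

/-- the elements of the extension module which vanish at the sets outside `𝓤` -/
private def Filt_Z (G : SimpleGraph V) (n : ℕ) {P : Type} [Group P] (D : PG G P)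
    (s : Finset V) (t : V → P → K) (𝓤 : Finset (Finset V)) : Submodule K (Finset V → (Finset V × P → K)) where
  carrier := {z | z ∈ Zs K G n (rE D s t) ∧ ∀ τ A p, A ∉ 𝓤 → z τ (A, p) = 0}
  zero_mem' := ⟨Submodule.zero_mem _, fun _ _ _ _ => rfl⟩
  add_mem' := by
    rintro z w ⟨h1, h2⟩ ⟨h3, h4⟩
    refine ⟨Submodule.add_mem _ h1 h3, fun τ A p hA => ?_⟩
    rw [Pi.add_apply, Pi.add_apply, h2 τ A p hA, h4 τ A p hA, add_zero]
  smul_mem' := by
    rintro c z ⟨h1, h2⟩
    refine ⟨Submodule.smul_mem _ c h1, fun τ A p hA => ?_⟩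
    rw [Pi.smul_apply, Pi.smul_apply, h2 τ A p hA, smul_zero]

/-- the component at `A` -/
private def Filt_ev (K : Type) [Field K] (P : Type) (A : Finset V) : (Finset V → (Finset V × P → K)) →ₗ[K] (Finset V → P → K) where
  toFun z := fun τ p => z τ (A, p)
  map_add' _ _ := rfl
  map_smul' _ _ := rfl

private theorem Filt_mem {G : SimpleGraph V} {n : ℕ} {P : Type} [Group P] {D : PG G P}
    {s : Finset V} {t : V → P → K} {A : Finset V} {z : Finset V → (Finset V × P → K)}
    (hz : z ∈ Zs K G n (rE D s t)) (h0 : ∀ τ, ∀ v ∈ A, ∀ p, z τ (A.erase v, p) = 0) :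
    Filt_ev K P A z ∈ Zs K G n (rP K D) := by
  obtain ⟨h1, h2, h3⟩ := mem_Zs.1 hz
  rw [mem_Zs]
  refine ⟨fun σ hσ => h1 σ fun h => hσ ?_, fun σ v hv => ?_, fun κ => ?_⟩
  · funext p
    exact congrFun h (A, p)
  · funext p
    have h4 := congrFun (h2 σ v hv) (A, p)
    have h5 : z σ (A, p * D.g v) + (if v ∈ s ∧ v ∈ A then t v p * z σ (A.erase v, p * D.g v) else 0) = z σ (A, p) := h4
    have h6 : (if v ∈ s ∧ v ∈ A then t v p * z σ (A.erase v, p * D.g v) else 0) = 0 := by
      split_ifs with h
      · rw [h0 σ v h.2, mul_zero]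
      · rfl
    rw [h6, add_zero] at h5
    exact h5
  · funext p
    have h4 := congrFun (h3 κ) (A, p)
    rw [Finset.sum_apply] at h4 ⊢
    exact h4

private theorem Filt_up (G : SimpleGraph V) (n : ℕ) {P : Type} [Group P] [Fintype P] (D : PG G P)
    (s : Finset V) (t : V → P → K) (m : ℕ) : ∀ 𝓤 : Finset (Finset V), 𝓤.card = m →
      (∀ A ∈ 𝓤, ∀ B, A ⊆ B → B ∈ 𝓤) →
      Module.finrank K (Filt_Z G n D s t 𝓤) ≤ 𝓤.card * dz K n D := by
  induction m with
  | zero =>
    intro 𝓤 hc _
    have hz : ∀ z ∈ Filt_Z G n D s t 𝓤, z = 0 := by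
      rintro z ⟨-, h2⟩
      funext τ x
      refine h2 τ x.1 x.2 ?_
      rw [Finset.card_eq_zero.1 hc]
      exact notMem_empty _
    have h1 : Filt_Z G n D s t 𝓤 = ⊥ := (Submodule.eq_bot_iff _).2 hz
    rw [h1, finrank_bot]
    exact Nat.zero_le _
  | succ m ih =>
    intro 𝓤 hc hup
    have hne : 𝓤.Nonempty := by
      rw [← Finset.card_pos, hc]
      exact Nat.succ_pos m
    obtain ⟨A, hA, hmin⟩ := Finset.exists_min_image 𝓤 Finset.card hne
    have hmin' : ∀ B ∈ 𝓤, B ⊆ A → B = A := fun B hB hBA => Finset.eq_of_subset_of_card_le hBA (hmin B hB)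
    have hce : (𝓤.erase A).card = m := by rw [card_erase_of_mem hA, hc, Nat.add_sub_cancel]
    have h1 := ih (𝓤.erase A) hce (by
      intro B hB C hBC
      rw [mem_erase] at hB ⊢
      refine ⟨?_, hup B hB.2 C hBC⟩
      rintro rfl
      exact hB.1 (hmin' B hB.2 hBC))
    have h2 := Filt_rank (Filt_ev K P A) (Filt_Z G n D s t 𝓤) (Filt_Z G n D s t (𝓤.erase A)) (Zs K G n (rP K D))
      (by
        rintro z ⟨hz1, hz2⟩
        refine Filt_mem hz1 fun τ v hv p => hz2 τ _ p fun h => ?_
        have h3 := hmin' _ h (erase_subset v A)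
        rw [Finset.erase_eq_self] at h3
        exact h3 hv)
      (by
        rintro z ⟨hz1, hz2⟩ h0
        refine ⟨hz1, fun τ B p hB => ?_⟩
        by_cases hBA : B = A
        · rw [hBA]
          exact congrFun (congrFun h0 τ) p
        · exact hz2 τ B p fun h => hB (mem_erase.2 ⟨hBA, h⟩))
    rw [hce] at h1
    have h3 : Module.finrank K (Zs K G n (rP K D)) = dz K n D := rfl
    rw [h3] at h2
    rw [hc]
    calc _ ≤ dz K n D + m * dz K n D := by omega
      _ = (m + 1) * dz K n D := by ring

/-- **The upper bound for the extension module** (`W` contains the components `∅` of the cycles). -/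
theorem upper (G : SimpleGraph V) (n : ℕ) {P : Type} [Group P] [Fintype P] (D : PG G P)
    (s : Finset V) (t : V → P → K) (W : Submodule K (Finset V → P → K))
    (hW : ∀ z ∈ Zs K G n (rE D s t), (fun σ p => z σ (∅, p)) ∈ W) :
    Module.finrank K (Zs K G n (rE D s t)) ≤
      Module.finrank K W + (2 ^ Fintype.card V - 1) * dz K n D := by
  have h1 := Filt_rank (Filt_ev K P ∅) (Zs K G n (rE D s t)) (Filt_Z G n D s t (univ.erase ∅)) W
    (by
      intro z hz
      exact hW z hz)
    (by
      intro z hz h0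
      refine ⟨hz, fun τ B p hB => ?_⟩
      have hB0 : B = ∅ := by
        by_contra h
        exact hB (mem_erase.2 ⟨h, mem_univ B⟩)
      rw [hB0]
      exact congrFun (congrFun h0 τ) p)
  have h2 := Filt_up G n D s t _ (univ.erase ∅) rfl (by
    intro A hA B hAB
    rw [mem_erase] at hA ⊢
    refine ⟨?_, mem_univ B⟩
    rintro rfl
    exact hA.1 (subset_empty.1 hAB))
  have h3 : ((univ : Finset (Finset V)).erase ∅).card = 2 ^ Fintype.card V - 1 := by
    rw [card_erase_of_mem (mem_univ _), card_univ, Fintype.card_finset]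
  rw [h3] at h2
  omega

theorem upper_all (G : SimpleGraph V) (n : ℕ) {P : Type} [Group P] [Fintype P] (D : PG G P)
    (s : Finset V) (t : V → P → K) :
    Module.finrank K (Zs K G n (rE D s t)) ≤ 2 ^ Fintype.card V * dz K n D := by
  have h := upper G n D s t (Zs K G n (rP K D)) fun z hz =>
    Filt_mem hz fun τ v hv => absurd hv (notMem_empty v)
  have h1 : Module.finrank K (Zs K G n (rP K D)) = dz K n D := rfl
  have h2 : 1 ≤ 2 ^ Fintype.card V := Nat.one_le_two_pow
  rw [h1] at h
  obtain ⟨k, hk⟩ : ∃ k, 2 ^ Fintype.card V = k + 1 := ⟨2 ^ Fintype.card V - 1, by omega⟩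
  rw [hk, Nat.add_sub_cancel] at h
  rw [hk, Nat.succ_mul, add_comm]
  exact h

end Pool.Agent.H19.SR
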