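import Pool.Agent.H19.SR.KeyP
import Pool.Agent.H19.SR.Bc
import Pool.Agent.H19.SR.Dim
import Pool.Agent.H19.SR.Low
import Pool.Agent.H19.SR.Upp
import Pool.Agent.H77.SW.Seq

/-!
# Project SR, module K5: the codimension of `TL`
-/

set_option autoImplicit false
set_option linter.unusedSectionVars false

open Finset

namespace Pool.Agent.H19.SR

open Pool.Agent.H77.SW Pool.Agent.H73.GC

variable {V : Type} [DecidableEq V] [Fintype V] {P : Type} [Group P] [Fintype P]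

/-- the arithmetic -/
private theorem PropK_arith {N m m' z₁ z₂ z₁' z₂' w c c' δ : ℝ} (hm' : 0 < m')
    (h1 : N * m * z₁' ≤ m' * (w + (N - 1) * z₁)) (h2 : N * m * z₂' ≤ m' * (N * z₂))
    (h3 : δ * m' ≤ z₁' + z₂' - c') (h4 : c' * m = c * m') (hN : 0 ≤ N) (hm : 0 ≤ m) :
    z₁ - w ≤ N * (z₁ + z₂ - c - δ * m) := by
  have h5 : N * m * (δ * m') ≤ N * m * (z₁' + z₂' - c') :=
    mul_le_mul_of_nonneg_left h3 (mul_nonneg hN hm)
  have h6 : m' * (N * (δ * m + c)) ≤ m' * (w + (N - 1) * z₁ + N * z₂) := by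
    have h7 : N * m * c' = N * (c * m') := by rw [← h4]; ring
    linarith
  have h8 := le_of_mul_le_mul_left h6 hm'
  linarith

/-- **The codimension of `TL`.** `K, X` from `exists_genSeq`, `ι, τ` from the hypothesis `KeyAt`, `P', D'` from `lower_all`. Write
`N = 2 ^ |V|`, `m = |P|`, `z_n = dz K n D` (the same over `ZMod 2` by `bc_Zs`), `w = finrank (TL K D i s)` (`bc_TL`),
`c = finrank Ch (i + 1)`. `lower_all`: `N m z'_n ≤ |P'| z_n(rE)`, `n = i, i + 1`; `upper` with `W = TL K D i s`: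
`z_i(rE) ≤ w + (N - 1) z_i`; `upper_all`: `z_(i+1)(rE) ≤ N z_(i+1)`. `hX_reg` and `hδ` for `D'`:
`z'_i + z'_(i+1) ≥ δ |P'| + c'`, `finrank_ch`: `m c' = |P'| c`. So
`N |P'| (m δ + c) ≤ N m (z'_i + z'_(i+1)) ≤ |P'| (w + (N - 1) z_i + N z_(i+1))`, i.e.
`z_i - w ≤ N (z_i + z_(i+1) - c - m δ)`. -/
theorem propK {G : SimpleGraph V} {i : ℕ} {δ : ℝ}
    (hδ : ∀ (P' : Type) [Group P'] [Fintype P'] (D' : PG G P'),
      δ * Fintype.card P' ≤ (hX (Cq G univ) (regP D'.g) i : ℝ))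
    (D : PG G P) (hg : Subgroup.closure (Set.range D.g) = ⊤) {s : Finset V} (hK : KeyAt G i s) :
    (dz (ZMod 2) i D : ℝ) - Module.finrank (ZMod 2) (TL (ZMod 2) D i s) ≤
      2 ^ Fintype.card V * ((hX (Cq G univ) (regP D.g) i : ℝ) - δ * Fintype.card P) := by
  obtain ⟨K, fK, cK, ⟨X⟩⟩ := exists_genSeq
  obtain ⟨I, fI, dI, ι, τ, hι, hτ⟩ := hK K X P D hg
  obtain ⟨P', gP', fP', D', hlow⟩ := lower_all (K := K) G D s ι τ hι
  have hup1 := upper G i D s (fun v p => τ (ι v p)) (TL K D i s) hτ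
  have hup2 := upper_all G (i + 1) D s (fun v p => τ (ι v p))
  have hl1 := hlow i
  have hl2 := hlow (i + 1)
  have hd := hδ P' D'
  have hc1 := finrank_ch D (i + 1)
  have hc2 := finrank_ch D' (i + 1)
  rw [bc_TL] at hup1
  rw [bc_Zs] at hup1 hup2 hl1 hl2
  rw [hX_reg] at hd
  rw [hX_reg]
  have hcard : ((Fintype.card (Finset V × P) : ℕ) : ℝ) = 2 ^ Fintype.card V * Fintype.card P := by
    rw [Fintype.card_prod, Fintype.card_finset]
    push_cast
    rfl
  have hm' : (0 : ℝ) < Fintype.card P' := by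
    exact_mod_cast Fintype.card_pos
  have hsub : ((2 ^ Fintype.card V - 1 : ℕ) : ℝ) = 2 ^ Fintype.card V - 1 := by
    rw [Nat.cast_sub Nat.one_le_two_pow]
    push_cast
    rfl
  have g1 : (2 : ℝ) ^ Fintype.card V * Fintype.card P * dz (ZMod 2) i D' ≤
      Fintype.card P' * (Module.finrank (ZMod 2) (TL (ZMod 2) D i s) +
        (2 ^ Fintype.card V - 1) * dz (ZMod 2) i D) := by
    rw [← hcard, ← hsub]
    exact_mod_cast hl1.trans (Nat.mul_le_mul_left _ hup1)
  have g2 : (2 : ℝ) ^ Fintype.card V * Fintype.card P * dz (ZMod 2) (i + 1) D' ≤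
      Fintype.card P' * (2 ^ Fintype.card V * dz (ZMod 2) (i + 1) D) := by
    rw [← hcard]
    exact_mod_cast hl2.trans (Nat.mul_le_mul_left _ hup2)
  have g4 : (Module.finrank F2 (Ch (Sy (Cq G univ) (regP D'.g)) (i + 1)) : ℝ) * Fintype.card P =
      Module.finrank F2 (Ch (Sy (Cq G univ) (regP D.g)) (i + 1)) * Fintype.card P' := by
    have h2 : (0 : ℝ) < 2 ^ (i + 1) := by positivity
    have e1 : (Module.finrank F2 (Ch (Sy (Cq G univ) (regP D.g)) (i + 1)) : ℝ) * 2 ^ (i + 1) =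
        ncl G (i + 1) * Fintype.card P := by exact_mod_cast hc1
    have e2 : (Module.finrank F2 (Ch (Sy (Cq G univ) (regP D'.g)) (i + 1)) : ℝ) * 2 ^ (i + 1) =
        ncl G (i + 1) * Fintype.card P' := by exact_mod_cast hc2
    apply mul_right_cancel₀ h2.ne'
    linear_combination (Fintype.card P : ℝ) * e2 - (Fintype.card P' : ℝ) * e1
  have g3 : δ * Fintype.card P' ≤ (dz (ZMod 2) i D' : ℝ) + dz (ZMod 2) (i + 1) D' -
      Module.finrank F2 (Ch (Sy (Cq G univ) (regP D'.g)) (i + 1)) := by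
    refine hd.trans (le_of_eq ?_)
    push_cast
    ring
  have h := PropK_arith hm' g1 g2 g3 g4 (by positivity) (by positivity)
  refine h.trans (le_of_eq ?_)
  push_cast
  ring

end Pool.Agent.H19.SR
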