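import Pool.Agent.H19.SR.Dim
import Pool.Agent.H73.GC.Fil
import Pool.Agent.H73.GC.LuckC

/-!
# Project SR, module T1: groups with retractions
-/

set_option autoImplicit false
set_option linter.unusedSectionVars false

open Finset

namespace Pool.Agent.H19.SR

open Pool.Agent.H77.SW Pool.Agent.H73.GC

variable {V : Type} [DecidableEq V] [Fintype V] {Y : Type} [AddCommGroup Y] [Module F2 Y] [Finite Y]

/-- the marked involutions of the product -/
private def RetG_g {G : SimpleGraph V} {P : Type} [Group P] (D : PG G P) (v : V) :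
    Finset V → P := fun T => if v ∈ T then D.g v else 1

/-- the group generated by the marked involutions of the product -/
private def RetG_S {G : SimpleGraph V} {P : Type} [Group P] (D : PG G P) :
    Subgroup (Finset V → P) := Subgroup.closure (Set.range (RetG_g D))

private theorem RetG_two {P : Type} [Group P] [Fintype P] (h : IsPGroup 2 P) :
    IsPGroup 2 (Finset V → P) := by
  obtain ⟨m, hm⟩ := IsPGroup.iff_card.1 h
  refine IsPGroup.iff_card.2 ⟨m * Fintype.card (Finset V), ?_⟩
  rw [Nat.card_eq_fintype_card] at hm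
  rw [Nat.card_eq_fintype_card, Fintype.card_fun, hm, pow_mul]

/-- the marked involutions -/
private def RetG_D {G : SimpleGraph V} {P : Type} [Group P] [Fintype P] (D : PG G P) :
    PG G (RetG_S D) where
  g v := ⟨RetG_g D v, Subgroup.subset_closure ⟨v, rfl⟩⟩
  sq := by
    intro v
    refine Subtype.ext (funext fun T => ?_)
    change RetG_g D v T * RetG_g D v T = 1
    simp only [RetG_g]
    split_ifs
    · exact D.sq v
    · exact one_mul 1
  comm := by
    intro u v h
    refine Subtype.ext (funext fun T => ?_)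
    change RetG_g D u T * RetG_g D v T = RetG_g D v T * RetG_g D u T
    simp only [RetG_g]
    split_ifs
    · exact D.comm u v h
    · rw [mul_one, one_mul]
    · rw [mul_one, one_mul]
    · rfl
  b := fun p => D.b (p.1 univ)
  b_mul := fun p q v => D.b_mul (p.1 univ) (q.1 univ) v
  b_g := by
    intro u v
    have h : RetG_g D u univ = D.g u := if_pos (mem_univ u)
    change D.b (RetG_g D u univ) v = _
    rw [h]
    exact D.b_g u v
  two := (RetG_two D.two).to_subgroup _

/-- the restriction to a set of vertices -/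
private def RetG_rho {P : Type} [Group P] (A : Finset V) :
    (Finset V → P) →* (Finset V → P) where
  toFun p := fun T => p (T ∩ A)
  map_one' := rfl
  map_mul' _ _ := rfl

private theorem RetG_rho_g {G : SimpleGraph V} {P : Type} [Group P] (D : PG G P) (A : Finset V)
    (v : V) : RetG_rho A (RetG_g D v) = if v ∈ A then RetG_g D v else 1 := by
  funext T
  change RetG_g D v (T ∩ A) = _
  by_cases h : v ∈ A
  · rw [if_pos h]
    simp only [RetG_g, mem_inter, h, and_true]
  · rw [if_neg h]
    simp only [RetG_g, mem_inter, h, and_false, if_false, Pi.one_apply]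

private theorem RetG_rho_mem {G : SimpleGraph V} {P : Type} [Group P] (D : PG G P)
    (A : Finset V) : RetG_S D ≤ (RetG_S D).comap (RetG_rho A) := by
  refine (Subgroup.closure_le _).2 ?_
  rintro _ ⟨v, rfl⟩
  change RetG_rho A (RetG_g D v) ∈ RetG_S D
  rw [RetG_rho_g]
  split_ifs
  · exact Subgroup.subset_closure ⟨v, rfl⟩
  · exact Subgroup.one_mem _

private theorem RetG_ret {G : SimpleGraph V} {P : Type} [Group P] [Fintype P] (D : PG G P) :
    Ret (RetG_D D).g := by
  constructor
  · have h1 : Set.range (RetG_D D).g = (((↑) : RetG_S D → (Finset V → P)) ⁻¹'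
        (Set.range (RetG_g D))) := by
      ext x
      constructor
      · rintro ⟨v, rfl⟩
        exact ⟨v, rfl⟩
      · rintro ⟨v, hv⟩
        exact ⟨v, Subtype.ext hv⟩
    rw [h1]
    exact Subgroup.closure_closure_coe_preimage
  · intro A
    refine ⟨((RetG_rho A).comp (RetG_S D).subtype).codRestrict (RetG_S D)
      (fun x => RetG_rho_mem D A x.2), fun v => ?_⟩
    refine Subtype.ext ?_
    change RetG_rho A (RetG_g D v) = _
    rw [RetG_rho_g]
    split_ifs
    · rfl
    · rfl

/-- **Retractions.** `P'` = the subgroup of `Finset V → P` (a product of copies of `P`) generated by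
`g' v = (A ↦ if v ∈ A then D.g v else 1)`; the retraction for `B` is the restriction of `x ↦ (A ↦ x (A ∩ B))`;
`π x = x univ`; bits `D.b (x univ)`. (Cf. `Pool.Agent.H77.SW.Cover`.) -/
theorem exists_ret {G : SimpleGraph V} {P : Type} [Group P] [Fintype P] (D : PG G P) :
    ∃ (P' : Type) (_ : Group P') (_ : Fintype P') (D' : PG G P') (π : P' →* P),
      Ret D'.g ∧ ∀ v, π (D'.g v) = D.g v := by
  classical
  refine ⟨RetG_S D, inferInstance, Fintype.ofFinite _, RetG_D D,
    (Pi.evalMonoidHom (fun _ : Finset V => P) univ).comp (RetG_S D).subtype, RetG_ret D,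
    fun v => ?_⟩
  exact if_pos (mem_univ v)

/-- the product with the cube -/
private def RetG_P {G : SimpleGraph V} {P : Type} [Group P] (hP : IsPGroup 2 P) (g : V → P)
    (hg : ∀ v, g v * g v = 1) (hgc : ∀ u v, G.Adj u v → g u * g v = g v * g u) :
    PG G (P × Multiplicative (V → ZMod 2)) where
  g v := (g v, Multiplicative.ofAdd (Pi.single v (1 : ZMod 2)))
  sq := by
    intro v
    refine Prod.ext (hg v) ?_
    change Multiplicative.ofAdd ((Pi.single v (1 : ZMod 2) : V → ZMod 2) +
      Pi.single v (1 : ZMod 2)) = 1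
    rw [ZModModule.add_self]
    rfl
  comm u v huv := Prod.ext (hgc u v huv) (mul_comm _ _)
  b p v := Multiplicative.toAdd p.2 v
  b_mul _ _ _ := rfl
  b_g := by
    intro u v
    change (Pi.single u (1 : ZMod 2) : V → ZMod 2) v = _
    by_cases h : u = v
    · subst h
      rw [if_pos rfl, Pi.single_eq_same]
    · rw [if_neg h, Pi.single_eq_of_ne (Ne.symm h)]
  two := by
    have hpow2 : ∀ x : Multiplicative (V → ZMod 2), x ^ 2 = 1 := by
      intro x
      rw [pow_two]
      change Multiplicative.ofAdd (Multiplicative.toAdd x + Multiplicative.toAdd x) = 1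
      rw [ZModModule.add_self]
      rfl
    rintro ⟨a, c⟩
    obtain ⟨k, hk⟩ := hP a
    refine ⟨k + 1, ?_⟩
    have e1 : a ^ 2 ^ (k + 1) = 1 := by
      rw [pow_succ, pow_mul, hk, one_pow]
    have e2 : c ^ 2 ^ (k + 1) = 1 := by
      rw [pow_succ, mul_comm, pow_mul, hpow2, one_pow]
    rw [Prod.pow_mk, e1, e2]
    rfl

/-- **From modules to groups with retractions.** `Pool.Agent.H73.GC.exists_group` gives a two-group `P₀` which acts on
`Y`; `P₁ = P₀ × Multiplicative (V → ZMod 2)` with the marked elements `(g v, e_v)` is in `PG G`; `exists_ret`; then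
`reg_le` for every `U`. -/
theorem to_group {G : SimpleGraph V} {r E : V → Module.End F2 Y} (hN : IsN G univ r)
    (hB : IsBit G univ r E) :
    ∃ (P : Type) (_ : Group P) (_ : Fintype P) (D : PG G P), Ret D.g ∧
      ∀ (U : Finset V) (i : ℕ),
        Module.finrank F2 Y * hX (Cq G U) (regP D.g) i ≤ Fintype.card P * hX (Cq G U) r i := by
  classical
  obtain ⟨P₀, _, _, ρ, g, hP, hρ, -, hg, hgc⟩ := exists_group hN
  have : Fintype P₀ := Fintype.ofFinite _
  obtain ⟨P', _, _, D', π, hR, hπ⟩ := exists_ret (RetG_P hP g hg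
    (fun u v h => hgc u (mem_univ u) v (mem_univ v) h))
  refine ⟨P', inferInstance, inferInstance, D', hR, fun U i => ?_⟩
  have hN' : IsN G U r := by
    refine ⟨fun v _ => hN.sq v (mem_univ v), fun u _ v _ => hN.comm u (mem_univ u) v (mem_univ v),
      ?_⟩
    obtain ⟨n, F, h1, h2, h3, h4⟩ := hN.fil
    exact ⟨n, F, h1, h2, h3, fun j v _ => h4 j v (mem_univ v)⟩
  have hB' : IsBit G U r E :=
    ⟨fun v _ => hB.idem v (mem_univ v), fun v _ => hB.bit v (mem_univ v),
      fun u _ v _ => hB.er u (mem_univ u) v (mem_univ v),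
      fun u _ v _ => hB.ee u (mem_univ u) v (mem_univ v)⟩
  refine reg_le hN' hB' D'.two (ρ.comp ((MonoidHom.fst P₀ (Multiplicative (V → ZMod 2))).comp π))
    D'.g D'.sq D'.comm (fun v _ => ?_) i
  change ρ (π (D'.g v)).1 = r v
  rw [hπ]
  exact hρ v (mem_univ v)

end Pool.Agent.H19.SR
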