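import Pool.Agent.H19.SR.PropK
import Pool.Agent.H19.SR.Flat
import Pool.Agent.H19.SR.F2
import Pool.Agent.H19.SR.RetG
import Pool.Agent.H19.SR.LkH

/-!
# Project SR, module T3: the step
-/

set_option autoImplicit false
set_option linter.unusedSectionVars false

open Finset

namespace Pool.Agent.H19.SR

open Pool.Agent.H77.SW Pool.Agent.H73.GC

variable {V : Type} [DecidableEq V] [Fintype V]

/-- the codimension of an intersection -/
private theorem Step_codim {K M : Type} [Field K] [AddCommGroup M] [Module K M]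
    [FiniteDimensional K M] {ι : Type} (J : Finset ι) (S : ι → Submodule K M) (Z : Submodule K M)
    (hS : ∀ j ∈ J, S j ≤ Z) {C : ℝ}
    (hC : ∀ j ∈ J, (Module.finrank K Z : ℝ) - Module.finrank K (S j) ≤ C) :
    ∃ T : Submodule K M, T ≤ Z ∧ (∀ j ∈ J, T ≤ S j) ∧
      (Module.finrank K Z : ℝ) - Module.finrank K T ≤ J.card * C := by
  classical
  induction J using Finset.induction_on with
  | empty =>
    exact ⟨Z, le_rfl, fun j hj => absurd hj (notMem_empty j), by simp⟩
  | insert a J ha ih =>
    obtain ⟨T, hT1, hT2, hT3⟩ := ih (fun j hj => hS j (mem_insert_of_mem hj))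
      fun j hj => hC j (mem_insert_of_mem hj)
    refine ⟨T ⊓ S a, inf_le_left.trans hT1, fun j hj => ?_, ?_⟩
    · rcases mem_insert.1 hj with rfl | hj
      · exact inf_le_right
      · exact inf_le_left.trans (hT2 j hj)
    · have h1 := Submodule.finrank_sup_add_finrank_inf_eq T (S a)
      have h2 : Module.finrank K (T ⊔ S a : Submodule K M) ≤ Module.finrank K Z :=
        Submodule.finrank_mono (sup_le hT1 (hS a (mem_insert_self a J)))
      have h3 := hC a (mem_insert_self a J)
      have h4 : (Module.finrank K (T ⊔ S a : Submodule K M) : ℝ) +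
          Module.finrank K (T ⊓ S a : Submodule K M) =
          Module.finrank K T + Module.finrank K (S a) := by exact_mod_cast h1
      have h5 : (Module.finrank K (T ⊔ S a : Submodule K M) : ℝ) ≤ Module.finrank K Z := by
        exact_mod_cast h2
      rw [card_insert_of_notMem ha]
      push_cast
      linarith

/-- the link of a set which is not a clique -/
private theorem Step_hd {G : SimpleGraph V} {Y : Type} [AddCommGroup Y] [Module F2 Y]
    (r : V → Module.End F2 Y) (t : Finset V) (ht : ¬ G.IsClique (t : Set V)) (j : ℕ) :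
    hd (res t (Sy (Cq G univ) r)) j = 0 := by
  have h0 : ∀ k, Ch (res t (Sy (Cq G univ) r)) k = ⊥ := by
    intro k
    rw [Submodule.eq_bot_iff]
    intro f hf
    funext s
    refine (hf s).1.1.1 fun h => ht ?_
    exact h.1.subset (Finset.coe_subset.2 subset_union_left)
  unfold hd hx
  rw [h0 j, h0 (j + 1), bot_inf_eq, Submodule.map_bot, finrank_bot]
  simp

/-- **The step.** Let `δ` = the infimum of `hX (Cq G univ) r i / finrank Y` over all `(Y, r, E)` with `IsN G univ`,
`IsBit G univ`, `0 < finrank`. Suppose `δ > 0`. Let `η, ε > 0`. By `gz_univ`, `common` (index set: `univ` in degree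
`i` with the constant `δ + η`, and the pairs `(t, r)`, `r < q`, `t` a clique with at least `r + 2` elements, complex
`lkF G t`, degree `i - r - 1`, constant `ε`) and `to_group` there is `D : PG G P`, `Ret D.g`, with
`b := hX (Cq G univ) (regP D.g) i ≤ (δ + η) |P|` and `hX (Cq G (lkF G t)) (regP D.g) (i - r - 1) ≤ ε |P|`
(for `t` not a clique `hd (res t ..) ≤ 0`). `propK` with `δ` (the regular representations of all `D'` are modules,
`isN_reg`, `isBit_reg`, `finrank = |P'|`) for all cliques `s` with `q` elements: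
`dz i D - finrank (TL D i s) ≤ 2^|V| (b - δ |P|) ≤ 2^|V| η |P|`, so the intersection `T` of `Zs (ZMod 2) G i` and all
`TL (ZMod 2) D i s` has codimension at most `4^|V| η |P|` in `Zs`. By `flat` `T ≤ KF A i q`, `A = Sy (Cq G univ)
(regP D.g)` (for `s` not a clique `res s A = 0` and `ph s z = 0`). `F2it` and `hd_res_le`:
`finrank (KF A i q) ≤ finrank B_i + cF V q * ε |P|`. Since `b = finrank Z_i - finrank B_i` (`zs_eq`, definition of
`hX`): `δ |P| ≤ b ≤ 4^|V| η |P| + cF V q ε |P|`. For small `η, ε` this is a contradiction, so `δ = 0`, which is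
`GZ G univ i`. -/
theorem step {G : SimpleGraph V} {i q : ℕ}
    (hK : ∀ s : Finset V, G.IsClique (s : Set V) → s.card = q → KeyAt G i s)
    (hqi : q ≤ i) (hq : 1 ≤ q)
    (hlk : ∀ r < q, ∀ t : Finset V, G.IsClique (t : Set V) → r + 2 ≤ t.card →
      GZ G (lkF G t) (i - r - 1)) : GZ G univ i := by
  classical
  by_contra hcon
  unfold GZ at hcon
  push Not at hcon
  obtain ⟨ε₀, hε₀, hno⟩ := hcon
  -- the set of the ratios
  let S : Set ℝ := {x | ∃ (Y : Type) (_ : AddCommGroup Y) (_ : Module F2 Y) (_ : Finite Y)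
    (r E : V → Module.End F2 Y), IsN G univ r ∧ IsBit G univ r E ∧ 0 < Module.finrank F2 Y ∧
      x = (hX (Cq G univ) r i : ℝ) / Module.finrank F2 Y}
  have hSlb : ∀ x ∈ S, ε₀ ≤ x := by
    rintro x ⟨Y, _, _, _, r, E, hN, hB, hf, rfl⟩
    have hf' : (0 : ℝ) < Module.finrank F2 Y := by exact_mod_cast hf
    rw [le_div_iff₀ hf']
    exact (hno Y _ _ ‹_› r E hN hB hf).le
  have hSbdd : BddBelow S := ⟨ε₀, hSlb⟩
  -- the regular representations
  have hreg : ∀ (P' : Type) [Group P'] [Fintype P'] (D' : PG G P'),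
      (hX (Cq G univ) (regP D'.g) i : ℝ) / Fintype.card P' ∈ S := by
    intro P' _ _ D'
    have h1 : Module.finrank F2 (P' → F2) = Fintype.card P' := Module.finrank_fintype_fun_eq_card _
    refine ⟨P' → F2, inferInstance, inferInstance, inferInstance, regP D'.g, bE D', isN_reg D',
      isBit_reg D', ?_, ?_⟩
    · rw [h1]
      exact Fintype.card_pos
    · rw [h1]
  have hSne : S.Nonempty := by
    -- the elementary abelian group
    have hne : ∃ (P' : Type) (_ : Group P') (_ : Fintype P') (D' : PG G P'), True := by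
      refine ⟨Multiplicative (V → ZMod 2), inferInstance, inferInstance,
        { g := fun v => Multiplicative.ofAdd (Pi.single v (1 : ZMod 2))
          sq := fun v => ?_
          comm := fun u v _ => mul_comm _ _
          b := fun p v => Multiplicative.toAdd p v
          b_mul := fun p q v => rfl
          b_g := fun u v => ?_
          two := ?_ }, trivial⟩
      · change Multiplicative.ofAdd ((Pi.single v (1 : ZMod 2) : V → ZMod 2) +
          Pi.single v (1 : ZMod 2)) = 1
        rw [ZModModule.add_self]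
        rfl
      · change (Pi.single u (1 : ZMod 2) : V → ZMod 2) v = _
        by_cases h : u = v
        · subst h
          simp
        · rw [Pi.single_eq_of_ne (Ne.symm h), if_neg h]
      · intro x
        refine ⟨1, ?_⟩
        rw [pow_one, pow_two]
        change Multiplicative.ofAdd (Multiplicative.toAdd x + Multiplicative.toAdd x) = 1
        rw [ZModModule.add_self]
        rfl
    obtain ⟨P', _, _, D', -⟩ := hne
    exact ⟨_, hreg P' D'⟩
  obtain ⟨δ, hδdef⟩ : ∃ δ, δ = sInf S := ⟨_, rfl⟩
  have hδpos : 0 < δ := by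
    rw [hδdef]
    exact lt_of_lt_of_le hε₀ (le_csInf hSne hSlb)
  have hδle : ∀ x ∈ S, δ ≤ x := fun x hx => by
    rw [hδdef]
    exact csInf_le hSbdd hx
  have hδ : ∀ (P' : Type) [Group P'] [Fintype P'] (D' : PG G P'),
      δ * Fintype.card P' ≤ (hX (Cq G univ) (regP D'.g) i : ℝ) := by
    intro P' _ _ D'
    have h1 := hδle _ (hreg P' D')
    have h2 : (0 : ℝ) < Fintype.card P' := by exact_mod_cast Fintype.card_pos
    rwa [le_div_iff₀ h2] at h1
  -- constants
  obtain ⟨N, hNdef⟩ : ∃ N : ℝ, N = 2 ^ Fintype.card V := ⟨_, rfl⟩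
  have hNpos : 0 < N := by rw [hNdef]; positivity
  obtain ⟨η, hηdef⟩ : ∃ η : ℝ, η = δ / (4 * (N * N)) := ⟨_, rfl⟩
  have hη : 0 < η := by rw [hηdef]; positivity
  obtain ⟨ε, hεdef⟩ : ∃ ε : ℝ, ε = δ / (4 * ((cF V q : ℝ) + 1)) := ⟨_, rfl⟩
  have hε : 0 < ε := by rw [hεdef]; positivity
  -- a module near the infimum
  obtain ⟨x, hxS, hx⟩ := exists_lt_of_csInf_lt hSne (show sInf S < δ + η by
    rw [← hδdef]; linarith)
  obtain ⟨Y₀, ac₀, md₀, fi₀, r₀, E₀, hN₀, hB₀, hf₀, rfl⟩ := hxS
  -- the common module
  let idx : Finset (Option (Finset V × ℕ)) :=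
    insert none ((((univ : Finset (Finset V)) ×ˢ range q).filter fun k =>
      G.IsClique (k.1 : Set V) ∧ k.2 + 2 ≤ k.1.card).image some)
  let UU : Option (Finset V × ℕ) → Finset V := fun k => k.elim univ fun k => lkF G k.1
  let dg : Option (Finset V × ℕ) → ℕ := fun k => k.elim i fun k => i - k.2 - 1
  let cc : Option (Finset V × ℕ) → ℝ := fun k => k.elim (δ + η) fun _ => ε
  obtain ⟨Y, ac, md, fi, r, E, hN, hB, hf, hsm⟩ := common G idx UU dg cc (by
    intro k hk
    rcases mem_insert.1 hk with rfl | hk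
    · refine ⟨Y₀, ac₀, md₀, fi₀, r₀, E₀, hN₀, hB₀, hf₀, ?_⟩
      change (hX (Cq G univ) r₀ i : ℝ) ≤ (δ + η) * Module.finrank F2 Y₀
      have hf' : (0 : ℝ) < Module.finrank F2 Y₀ := by exact_mod_cast hf₀
      exact ((div_lt_iff₀ hf').1 hx).le
    · obtain ⟨k', hk', rfl⟩ := mem_image.1 hk
      obtain ⟨h1, h2, h3⟩ := mem_filter.1 hk'
      exact gz_univ (hlk k'.2 (mem_range.1 (mem_product.1 h1).2) k'.1 h2 h3) hε)
  obtain ⟨P, grp, fin, D, hR, hle⟩ := to_group hN hB
  have hcard : (0 : ℝ) < Fintype.card P := by exact_mod_cast Fintype.card_pos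
  have hfY : (0 : ℝ) < Module.finrank F2 Y := by exact_mod_cast hf
  have htrans : ∀ (U : Finset V) (j : ℕ) (c : ℝ), Sm G U j c Y r →
      (hX (Cq G U) (regP D.g) j : ℝ) ≤ c * Fintype.card P := by
    intro U j c h
    have h1 : (hX (Cq G U) r j : ℝ) ≤ c * Module.finrank F2 Y := h
    have h2 : (Module.finrank F2 Y : ℝ) * hX (Cq G U) (regP D.g) j ≤
        Fintype.card P * hX (Cq G U) r j := by exact_mod_cast hle U j
    have h3 : (Fintype.card P : ℝ) * hX (Cq G U) r j ≤
        Fintype.card P * (c * Module.finrank F2 Y) := mul_le_mul_of_nonneg_left h1 hcard.le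
    have h4 : (Module.finrank F2 Y : ℝ) * hX (Cq G U) (regP D.g) j ≤
        Module.finrank F2 Y * (c * Fintype.card P) := by linarith
    exact le_of_mul_le_mul_left h4 hfY
  have hb : (hX (Cq G univ) (regP D.g) i : ℝ) ≤ (δ + η) * Fintype.card P :=
    htrans univ i (δ + η) (hsm none (mem_insert_self _ _))
  have hl : ∀ s < q, ∀ t : Finset V, G.IsClique (t : Set V) → s + 2 ≤ t.card →
      (hX (Cq G (lkF G t)) (regP D.g) (i - s - 1) : ℝ) ≤ ε * Fintype.card P := by
    intro s hs t ht hst
    refine htrans (lkF G t) (i - s - 1) ε (hsm (some (t, s)) ?_)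
    refine mem_insert_of_mem (mem_image_of_mem _ ?_)
    exact mem_filter.2 ⟨mem_product.2 ⟨mem_univ _, mem_range.2 hs⟩, ht, hst⟩
  -- the intersection
  let A : Finset V → Submodule F2 (P → F2) := Sy (Cq G univ) (regP D.g)
  have hA : Mono A := mono_Sy (mono_Cq G univ) _
  obtain ⟨T, hT1, hT2, hT3⟩ := Step_codim
    ((univ : Finset (Finset V)).filter fun s : Finset V => G.IsClique (s : Set V) ∧ s.card = q)
    (fun s => TL (ZMod 2) D i s) (Zs (ZMod 2) G i (rP (ZMod 2) D))
    (fun s _ z hz => (mem_TL.1 hz).1) (C := N * (η * Fintype.card P)) (by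
      intro s hs
      obtain ⟨-, hs1, hs2⟩ := mem_filter.1 hs
      have h1 := propK hδ D hR.gen (hK s hs1 hs2)
      have h2 : N * ((hX (Cq G univ) (regP D.g) i : ℝ) - δ * Fintype.card P) ≤
          N * (η * Fintype.card P) := by
        refine mul_le_mul_of_nonneg_left ?_ hNpos.le
        linarith
      rw [← hNdef] at h1
      exact h1.trans h2)
  have hTK : T ≤ KF A i q := by
    intro z hz
    have hzZ := hT1 hz
    refine Submodule.mem_inf.2 ⟨?_, ?_⟩
    · have h1 := zs_eq D i
      rw [h1] at hzZ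
      exact hzZ
    · simp only [Submodule.mem_iInf]
      intro s hs
      obtain ⟨-, hs2⟩ := mem_filter.1 hs
      rw [Submodule.mem_comap]
      by_cases hcl : G.IsClique (s : Set V)
      · have h1 := flat D hR hcl (card_pos.1 (by omega)) (by omega)
          (hT2 s (mem_filter.2 ⟨mem_univ _, hcl, hs2⟩) hz)
        rw [hs2] at h1
        exact h1
      · have h1 : ph s z = 0 := by
          funext σ
          change (if Disjoint s σ then z (s ∪ σ) else 0) = 0
          split_ifs with h
          · by_contra h2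
            exact hcl (((mem_Zs.1 hzZ).1 _ h2).1.subset (Finset.coe_subset.2 subset_union_left))
          · rfl
        rw [h1]
        exact Submodule.zero_mem _
  -- the iteration
  have hF := F2it hA hqi (c := ⌊ε * Fintype.card P⌋₊) (by
    intro s hs t hst
    by_cases hcl : G.IsClique (t : Set V)
    · have h1 := hd_res_le (isN_reg D) (isBit_reg D) t (i - s - 1)
      have h2 := hl s hs t hcl hst
      have h3 : (hd (res t A) (i - s - 1) : ℝ) ≤ ε * Fintype.card P := by
        refine le_trans ?_ h2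
        exact_mod_cast h1
      have h4 : hd (res t A) (i - s - 1) ≤ ⌊ε * (Fintype.card P : ℝ)⌋ := Int.le_floor.2 h3
      rwa [← Int.natCast_floor_eq_floor (a := ε * (Fintype.card P : ℝ)) (by positivity)] at h4
    · rw [Step_hd (regP D.g) t hcl (i - s - 1)]
      exact Int.natCast_nonneg _)
  have hTK' : Module.finrank F2 T ≤ Module.finrank F2 (KF A i q) := Submodule.finrank_mono hTK
  have hbdef : hX (Cq G univ) (regP D.g) i = (Module.finrank F2 (Zs (ZMod 2) G i (rP (ZMod 2) D)) : ℤ) -
      (Module.finrank F2 ((Ch A (i + 1)).map dd) : ℤ) := by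
    rw [zs_eq D i]
    rfl
  have hJ : (((univ : Finset (Finset V)).filter fun s : Finset V =>
      G.IsClique (s : Set V) ∧ s.card = q).card : ℝ) ≤ N := by
    have h1 := card_filter_le (univ : Finset (Finset V))
      (fun s : Finset V => G.IsClique (s : Set V) ∧ s.card = q)
    rw [card_univ, Fintype.card_finset] at h1
    rw [hNdef]
    exact_mod_cast h1
  have e1 : (hX (Cq G univ) (regP D.g) i : ℝ) =
      (Module.finrank F2 (Zs (ZMod 2) G i (rP (ZMod 2) D)) : ℝ) -
        Module.finrank F2 ((Ch A (i + 1)).map dd) := by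
    rw [hbdef]
    push_cast
    rfl
  have e2 : (Module.finrank F2 T : ℝ) ≤ Module.finrank F2 ((Ch A (i + 1)).map dd) +
      cF V q * (ε * Fintype.card P) := by
    have h1 : (Module.finrank F2 T : ℝ) ≤ Module.finrank F2 ((Ch A (i + 1)).map dd) +
        cF V q * (⌊ε * (Fintype.card P : ℝ)⌋₊ : ℝ) := by
      exact_mod_cast hTK'.trans hF
    refine h1.trans ?_
    have h2 : (⌊ε * (Fintype.card P : ℝ)⌋₊ : ℝ) ≤ ε * Fintype.card P :=
      Nat.floor_le (by positivity)
    have h3 := mul_le_mul_of_nonneg_left h2 (Nat.cast_nonneg (α := ℝ) (cF V q))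
    linarith
  have e3 : (((univ : Finset (Finset V)).filter fun s : Finset V =>
      G.IsClique (s : Set V) ∧ s.card = q).card : ℝ) * (N * (η * Fintype.card P)) ≤
      N * (N * (η * Fintype.card P)) :=
    mul_le_mul_of_nonneg_right hJ (by positivity)
  have e4 := hδ P D
  have e5 : δ * Fintype.card P ≤ N * (N * (η * Fintype.card P)) +
      cF V q * (ε * Fintype.card P) := by linarith
  have e6 : N * (N * (η * Fintype.card P)) = δ * Fintype.card P / 4 := by
    rw [hηdef]
    field_simp
  have e7 : (cF V q : ℝ) * (ε * Fintype.card P) ≤ δ * Fintype.card P / 4 := by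
    have h1 : (cF V q : ℝ) * (ε * Fintype.card P) ≤
        ((cF V q : ℝ) + 1) * (ε * Fintype.card P) :=
      mul_le_mul_of_nonneg_right (by linarith) (by positivity)
    have h2 : ((cF V q : ℝ) + 1) * (ε * Fintype.card P) = δ * Fintype.card P / 4 := by
      rw [hεdef]
      field_simp
    linarith
  have e8 : 0 < δ * Fintype.card P := by positivity
  linarith

end Pool.Agent.H19.SR
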