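import Pool.Agent.H19.SR.Dim
import Pool.Agent.H19.SR.Flat
import Pool.Agent.H19.SR.F2
import Pool.Agent.H19.SR.RetG
import Pool.Agent.H19.SR.LkH

/-!
# Project SR6: the step, with an estimate of the codimension as hypothesis
-/

set_option autoImplicit false
set_option linter.unusedSectionVars false

open Finset

namespace Pool.Agent.H19.SR

open Pool.Agent.H77.SW Pool.Agent.H73.GC

/-- **The codimension of `TL`**: it is bounded by the distances of the growths to their infima (to any lower
bounds `δ n`). -/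
def PropAt {V : Type} [DecidableEq V] [Fintype V] (G : SimpleGraph V) (i : ℕ) (s : Finset V) : Prop :=
  ∃ C : ℝ, 0 ≤ C ∧ ∀ δ : ℕ → ℝ,
    (∀ (n : ℕ) (P' : Type) [Group P'] [Fintype P'] (D' : PG G P'),
      δ n * Fintype.card P' ≤ (hX (Cq G univ) (regP D'.g) n : ℝ)) →
    ∀ (P : Type) [Group P] [Fintype P] (D : PG G P), Subgroup.closure (Set.range D.g) = ⊤ →
      (dz (ZMod 2) i D : ℝ) - Module.finrank (ZMod 2) (TL (ZMod 2) D i s) ≤
        C * ∑ n ∈ range (Fintype.card V + 2),
          ((hX (Cq G univ) (regP D.g) n : ℝ) - δ n * Fintype.card P)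

variable {V : Type} [DecidableEq V] [Fintype V]

/-- two degrees suffice -/
theorem propAt_two {G : SimpleGraph V} {i e : ℕ} {s : Finset V} {C : ℝ} (hC : 0 ≤ C)
    (hi : i < Fintype.card V + 2) (he : e < Fintype.card V + 2)
    (h : ∀ δ δ' : ℝ,
      (∀ (P' : Type) [Group P'] [Fintype P'] (D' : PG G P'),
        δ * Fintype.card P' ≤ (hX (Cq G univ) (regP D'.g) i : ℝ)) →
      (∀ (P' : Type) [Group P'] [Fintype P'] (D' : PG G P'),
        δ' * Fintype.card P' ≤ (hX (Cq G univ) (regP D'.g) e : ℝ)) →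
      ∀ (P : Type) [Group P] [Fintype P] (D : PG G P), Subgroup.closure (Set.range D.g) = ⊤ →
        (dz (ZMod 2) i D : ℝ) - Module.finrank (ZMod 2) (TL (ZMod 2) D i s) ≤
          C * (((hX (Cq G univ) (regP D.g) i : ℝ) - δ * Fintype.card P) +
            ((hX (Cq G univ) (regP D.g) e : ℝ) - δ' * Fintype.card P))) : PropAt G i s := by
  refine ⟨2 * C, by linarith, fun δ hδ P _ _ D hg => ?_⟩
  have h1 := h (δ i) (δ e) (fun P' _ _ D' => hδ i P' D') (fun P' _ _ D' => hδ e P' D') P D hg
  have h2 : ∀ n ∈ range (Fintype.card V + 2),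
      0 ≤ (hX (Cq G univ) (regP D.g) n : ℝ) - δ n * Fintype.card P := fun n _ => by
    linarith [hδ n P D]
  have h3 := single_le_sum h2 (mem_range.2 hi)
  have h4 := single_le_sum h2 (mem_range.2 he)
  have h5 := mul_le_mul_of_nonneg_left (add_le_add h3 h4) hC
  refine h1.trans (h5.trans (le_of_eq ?_))
  ring

/-- the codimension of an intersection -/
private theorem Step6_codim {K M : Type} [Field K] [AddCommGroup M] [Module K M]
    [FiniteDimensional K M] {ι : Type} (J : Finset ι) (S : ι → Submodule K M) (Z : Submodule K M)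
    (hS : ∀ j ∈ J, S j ≤ Z) {C : ℝ}
    (hC : ∀ j ∈ J, (Module.finrank K Z : ℝ) - Module.finrank K (S j) ≤ C) :
    ∃ T : Submodule K M, T ≤ Z ∧ (∀ j ∈ J, T ≤ S j) ∧
      (Module.finrank K Z : ℝ) - Module.finrank K T ≤ J.card * C := by
  classical
  induction J using Finset.induction_on with
  | empty =>
    exact ⟨Z, le_rfl, fun j hj => absurd hj (notMem_empty j), by simp⟩
  | insert a J ha ih =>
    obtain ⟨T, hT1, hT2, hT3⟩ := ih (fun j hj => hS j (mem_insert_of_mem hj))
      fun j hj => hC j (mem_insert_of_mem hj)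
    refine ⟨T ⊓ S a, inf_le_left.trans hT1, fun j hj => ?_, ?_⟩
    · rcases mem_insert.1 hj with rfl | hj
      · exact inf_le_right
      · exact inf_le_left.trans (hT2 j hj)
    · have h1 := Submodule.finrank_sup_add_finrank_inf_eq T (S a)
      have h2 : Module.finrank K (T ⊔ S a : Submodule K M) ≤ Module.finrank K Z :=
        Submodule.finrank_mono (sup_le hT1 (hS a (mem_insert_self a J)))
      have h3 := hC a (mem_insert_self a J)
      have h4 : (Module.finrank K (T ⊔ S a : Submodule K M) : ℝ) +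
          Module.finrank K (T ⊓ S a : Submodule K M) =
          Module.finrank K T + Module.finrank K (S a) := by exact_mod_cast h1
      have h5 : (Module.finrank K (T ⊔ S a : Submodule K M) : ℝ) ≤ Module.finrank K Z := by
        exact_mod_cast h2
      rw [card_insert_of_notMem ha]
      push_cast
      linarith

/-- the link of a set which is not a clique -/
private theorem Step6_hd {G : SimpleGraph V} {Y : Type} [AddCommGroup Y] [Module F2 Y]
    (r : V → Module.End F2 Y) (t : Finset V) (ht : ¬ G.IsClique (t : Set V)) (j : ℕ) :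
    hd (res t (Sy (Cq G univ) r)) j = 0 := by
  have h0 : ∀ k, Ch (res t (Sy (Cq G univ) r)) k = ⊥ := by
    intro k
    rw [Submodule.eq_bot_iff]
    intro f hf
    funext s
    refine (hf s).1.1.1 fun h => ht ?_
    exact h.1.subset (Finset.coe_subset.2 subset_union_left)
  unfold hd hx
  rw [h0 j, h0 (j + 1), bot_inf_eq, Submodule.map_bot, finrank_bot]
  simp

/-- **The step.** The same as `step`, with the estimate of the codimensions as hypothesis: in all degrees at the same
time the growth of the common module is near the infimum. -/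
theorem step6 {G : SimpleGraph V} {i q : ℕ}
    (hK : ∀ s : Finset V, G.IsClique (s : Set V) → s.card = q → PropAt G i s)
    (hqi : q ≤ i) (hq : 1 ≤ q)
    (hlk : ∀ r < q, ∀ t : Finset V, G.IsClique (t : Set V) → r + 2 ≤ t.card →
      GZ G (lkF G t) (i - r - 1)) : GZ G univ i := by
  classical
  by_contra hcon
  unfold GZ at hcon
  push Not at hcon
  obtain ⟨ε₀, hε₀, hno⟩ := hcon
  -- the set of the ratios
  let S : ℕ → Set ℝ := fun n => {x | ∃ (Y : Type) (_ : AddCommGroup Y) (_ : Module F2 Y)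
    (_ : Finite Y) (r E : V → Module.End F2 Y), IsN G univ r ∧ IsBit G univ r E ∧
      0 < Module.finrank F2 Y ∧ x = (hX (Cq G univ) r n : ℝ) / Module.finrank F2 Y}
  have hSlb : ∀ x ∈ S i, ε₀ ≤ x := by
    rintro x ⟨Y, _, _, _, r, E, hN, hB, hf, rfl⟩
    have hf' : (0 : ℝ) < Module.finrank F2 Y := by exact_mod_cast hf
    rw [le_div_iff₀ hf']
    exact (hno Y _ _ ‹_› r E hN hB hf).le
  have hSlb0 : ∀ n, ∀ x ∈ S n, 0 ≤ x := by
    rintro n x ⟨Y, _, _, _, r, E, hN, hB, hf, rfl⟩
    refine div_nonneg ?_ (Nat.cast_nonneg _)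
    exact_mod_cast (hd_nonneg (mono_Sy (mono_Cq G univ) r) n : (0 : ℤ) ≤ hX (Cq G univ) r n)
  have hSbdd : ∀ n, BddBelow (S n) := fun n => ⟨0, hSlb0 n⟩
  -- the regular representations
  have hreg : ∀ (n : ℕ) (P' : Type) [Group P'] [Fintype P'] (D' : PG G P'),
      (hX (Cq G univ) (regP D'.g) n : ℝ) / Fintype.card P' ∈ S n := by
    intro n P' _ _ D'
    have h1 : Module.finrank F2 (P' → F2) = Fintype.card P' := Module.finrank_fintype_fun_eq_card _
    refine ⟨P' → F2, inferInstance, inferInstance, inferInstance, regP D'.g, bE D', isN_reg D',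
      isBit_reg D', ?_, ?_⟩
    · rw [h1]
      exact Fintype.card_pos
    · rw [h1]
  have hSne : ∀ n, (S n).Nonempty := by
    intro n
    -- the elementary abelian group
    have hne : ∃ (P' : Type) (_ : Group P') (_ : Fintype P') (D' : PG G P'), True := by
      refine ⟨Multiplicative (V → ZMod 2), inferInstance, inferInstance,
        { g := fun v => Multiplicative.ofAdd (Pi.single v (1 : ZMod 2))
          sq := fun v => ?_
          comm := fun u v _ => mul_comm _ _
          b := fun p v => Multiplicative.toAdd p v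
          b_mul := fun p q v => rfl
          b_g := fun u v => ?_
          two := ?_ }, trivial⟩
      · change Multiplicative.ofAdd ((Pi.single v (1 : ZMod 2) : V → ZMod 2) +
          Pi.single v (1 : ZMod 2)) = 1
        rw [ZModModule.add_self]
        rfl
      · change (Pi.single u (1 : ZMod 2) : V → ZMod 2) v = _
        by_cases h : u = v
        · subst h
          simp
        · rw [Pi.single_eq_of_ne (Ne.symm h), if_neg h]
      · intro x
        refine ⟨1, ?_⟩
        rw [pow_one, pow_two]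
        change Multiplicative.ofAdd (Multiplicative.toAdd x + Multiplicative.toAdd x) = 1
        rw [ZModModule.add_self]
        rfl
    obtain ⟨P', _, _, D', -⟩ := hne
    exact ⟨_, hreg n P' D'⟩
  obtain ⟨δ, hδdef⟩ : ∃ δ : ℕ → ℝ, ∀ n, δ n = sInf (S n) := ⟨fun n => sInf (S n), fun _ => rfl⟩
  have hδpos : 0 < δ i := by
    rw [hδdef]
    exact lt_of_lt_of_le hε₀ (le_csInf (hSne i) hSlb)
  have hδle : ∀ n, ∀ x ∈ S n, δ n ≤ x := fun n x hx => by
    rw [hδdef]
    exact csInf_le (hSbdd n) hx
  have hδ : ∀ (n : ℕ) (P' : Type) [Group P'] [Fintype P'] (D' : PG G P'),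
      δ n * Fintype.card P' ≤ (hX (Cq G univ) (regP D'.g) n : ℝ) := by
    intro n P' _ _ D'
    have h1 := hδle n _ (hreg n P' D')
    have h2 : (0 : ℝ) < Fintype.card P' := by exact_mod_cast Fintype.card_pos
    rwa [le_div_iff₀ h2] at h1
  -- constants
  obtain ⟨C, hC0, hC⟩ : ∃ C : ℝ, 0 < C ∧ ∀ s : Finset V, G.IsClique (s : Set V) → s.card = q →
      ∀ (P : Type) [Group P] [Fintype P] (D : PG G P), Subgroup.closure (Set.range D.g) = ⊤ →
      (dz (ZMod 2) i D : ℝ) - Module.finrank (ZMod 2) (TL (ZMod 2) D i s) ≤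
        C * ∑ n ∈ range (Fintype.card V + 2),
          ((hX (Cq G univ) (regP D.g) n : ℝ) - δ n * Fintype.card P) := by
    have h1 : ∀ s : Finset V, ∃ C : ℝ, 0 ≤ C ∧ (G.IsClique (s : Set V) → s.card = q →
        ∀ (P : Type) [Group P] [Fintype P] (D : PG G P), Subgroup.closure (Set.range D.g) = ⊤ →
        (dz (ZMod 2) i D : ℝ) - Module.finrank (ZMod 2) (TL (ZMod 2) D i s) ≤
          C * ∑ n ∈ range (Fintype.card V + 2),
            ((hX (Cq G univ) (regP D.g) n : ℝ) - δ n * Fintype.card P)) := by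
      intro s
      by_cases h : G.IsClique (s : Set V) ∧ s.card = q
      · obtain ⟨C, hC, h2⟩ := hK s h.1 h.2
        exact ⟨C, hC, fun _ _ P _ _ D hg => h2 δ hδ P D hg⟩
      · exact ⟨0, le_rfl, fun h1 h2 => absurd ⟨h1, h2⟩ h⟩
    choose c hc0 hc using h1
    refine ⟨1 + ∑ s, c s, by linarith [sum_nonneg fun s (_ : s ∈ univ) => hc0 s], ?_⟩
    intro s hs hsq P _ _ D hg
    refine (hc s hs hsq P D hg).trans (mul_le_mul_of_nonneg_right ?_ ?_)
    · linarith [single_le_sum (fun s _ => hc0 s) (mem_univ s)]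
    · exact sum_nonneg fun n _ => by linarith [hδ n P D]
  obtain ⟨N, hNdef⟩ : ∃ N : ℝ, N = 2 ^ Fintype.card V := ⟨_, rfl⟩
  have hNpos : 0 < N := by rw [hNdef]; positivity
  obtain ⟨M, hMdef⟩ : ∃ M : ℝ, M = Fintype.card V + 2 := ⟨_, rfl⟩
  have hMpos : 0 < M := by rw [hMdef]; positivity
  obtain ⟨η, hηdef⟩ : ∃ η : ℝ, η = δ i / (4 * (N * (C * M))) := ⟨_, rfl⟩
  have hη : 0 < η := by rw [hηdef]; positivity
  obtain ⟨ε, hεdef⟩ : ∃ ε : ℝ, ε = δ i / (4 * ((cF V q : ℝ) + 1)) := ⟨_, rfl⟩
  have hε : 0 < ε := by rw [hεdef]; positivity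
  -- the common module
  let idx : Finset (ℕ ⊕ (Finset V × ℕ)) :=
    (range (Fintype.card V + 2)).image Sum.inl ∪
      ((((univ : Finset (Finset V)) ×ˢ range q).filter fun k =>
      G.IsClique (k.1 : Set V) ∧ k.2 + 2 ≤ k.1.card).image Sum.inr)
  let UU : ℕ ⊕ (Finset V × ℕ) → Finset V := Sum.elim (fun _ => univ) fun k => lkF G k.1
  let dg : ℕ ⊕ (Finset V × ℕ) → ℕ := Sum.elim id fun k => i - k.2 - 1
  let cc : ℕ ⊕ (Finset V × ℕ) → ℝ := Sum.elim (fun n => δ n + η) fun _ => ε
  have hnear : ∀ n, ∃ (Y : Type) (_ : AddCommGroup Y) (_ : Module F2 Y) (_ : Finite Y)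
      (r E : V → Module.End F2 Y), IsN G univ r ∧ IsBit G univ r E ∧ 0 < Module.finrank F2 Y ∧
        Sm G univ n (δ n + η) Y r := by
    intro n
    obtain ⟨x, hxS, hx⟩ := exists_lt_of_csInf_lt (hSne n) (show sInf (S n) < δ n + η by
      rw [← hδdef]; linarith)
    obtain ⟨Y₀, ac₀, md₀, fi₀, r₀, E₀, hN₀, hB₀, hf₀, rfl⟩ := hxS
    refine ⟨Y₀, ac₀, md₀, fi₀, r₀, E₀, hN₀, hB₀, hf₀, ?_⟩
    change (hX (Cq G univ) r₀ n : ℝ) ≤ (δ n + η) * Module.finrank F2 Y₀
    have hf' : (0 : ℝ) < Module.finrank F2 Y₀ := by exact_mod_cast hf₀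
    exact ((div_lt_iff₀ hf').1 hx).le
  obtain ⟨Y, ac, md, fi, r, E, hN, hB, hf, hsm⟩ := common G idx UU dg cc (by
    intro k hk
    rcases k with n | k'
    · exact hnear n
    · rcases mem_union.1 hk with hk | hk
      · obtain ⟨_, _, h⟩ := mem_image.1 hk
        exact absurd h (by simp)
      · obtain ⟨k'', hk', h0⟩ := mem_image.1 hk
        obtain rfl : k'' = k' := Sum.inr_injective h0
        obtain ⟨h1, h2, h3⟩ := mem_filter.1 hk'
        exact gz_univ (hlk k''.2 (mem_range.1 (mem_product.1 h1).2) k''.1 h2 h3) hε)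
  obtain ⟨P, grp, fin, D, hR, hle⟩ := to_group hN hB
  have hcard : (0 : ℝ) < Fintype.card P := by exact_mod_cast Fintype.card_pos
  have hfY : (0 : ℝ) < Module.finrank F2 Y := by exact_mod_cast hf
  have htrans : ∀ (U : Finset V) (j : ℕ) (c : ℝ), Sm G U j c Y r →
      (hX (Cq G U) (regP D.g) j : ℝ) ≤ c * Fintype.card P := by
    intro U j c h
    have h1 : (hX (Cq G U) r j : ℝ) ≤ c * Module.finrank F2 Y := h
    have h2 : (Module.finrank F2 Y : ℝ) * hX (Cq G U) (regP D.g) j ≤
        Fintype.card P * hX (Cq G U) r j := by exact_mod_cast hle U j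
    have h3 : (Fintype.card P : ℝ) * hX (Cq G U) r j ≤
        Fintype.card P * (c * Module.finrank F2 Y) := mul_le_mul_of_nonneg_left h1 hcard.le
    have h4 : (Module.finrank F2 Y : ℝ) * hX (Cq G U) (regP D.g) j ≤
        Module.finrank F2 Y * (c * Fintype.card P) := by linarith
    exact le_of_mul_le_mul_left h4 hfY
  have hb : ∀ n ∈ range (Fintype.card V + 2),
      (hX (Cq G univ) (regP D.g) n : ℝ) ≤ (δ n + η) * Fintype.card P := fun n hn =>
    htrans univ n (δ n + η) (hsm (Sum.inl n)
      (mem_union_left _ (mem_image_of_mem _ hn)))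
  have hl : ∀ s < q, ∀ t : Finset V, G.IsClique (t : Set V) → s + 2 ≤ t.card →
      (hX (Cq G (lkF G t)) (regP D.g) (i - s - 1) : ℝ) ≤ ε * Fintype.card P := by
    intro s hs t ht hst
    refine htrans (lkF G t) (i - s - 1) ε (hsm (Sum.inr (t, s)) ?_)
    refine mem_union_right _ (mem_image_of_mem _ ?_)
    exact mem_filter.2 ⟨mem_product.2 ⟨mem_univ _, mem_range.2 hs⟩, ht, hst⟩
  -- the intersection
  let A : Finset V → Submodule F2 (P → F2) := Sy (Cq G univ) (regP D.g)
  have hA : Mono A := mono_Sy (mono_Cq G univ) _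
  obtain ⟨T, hT1, hT2, hT3⟩ := Step6_codim
    ((univ : Finset (Finset V)).filter fun s : Finset V => G.IsClique (s : Set V) ∧ s.card = q)
    (fun s => TL (ZMod 2) D i s) (Zs (ZMod 2) G i (rP (ZMod 2) D))
    (fun s _ z hz => (mem_TL.1 hz).1) (C := C * (M * (η * Fintype.card P))) (by
      intro s hs
      obtain ⟨-, hs1, hs2⟩ := mem_filter.1 hs
      refine (hC s hs1 hs2 P D hR.gen).trans (mul_le_mul_of_nonneg_left ?_ hC0.le)
      have h1 : ∑ n ∈ range (Fintype.card V + 2),
          ((hX (Cq G univ) (regP D.g) n : ℝ) - δ n * Fintype.card P) ≤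
          ∑ n ∈ range (Fintype.card V + 2), η * Fintype.card P :=
        sum_le_sum fun n hn => by linarith [hb n hn]
      rw [sum_const, card_range, nsmul_eq_mul] at h1
      rw [hMdef]
      exact_mod_cast h1)
  have hTK : T ≤ KF A i q := by
    intro z hz
    have hzZ := hT1 hz
    refine Submodule.mem_inf.2 ⟨?_, ?_⟩
    · have h1 := zs_eq D i
      rw [h1] at hzZ
      exact hzZ
    · simp only [Submodule.mem_iInf]
      intro s hs
      obtain ⟨-, hs2⟩ := mem_filter.1 hs
      rw [Submodule.mem_comap]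
      by_cases hcl : G.IsClique (s : Set V)
      · have h1 := flat D hR hcl (card_pos.1 (by omega)) (by omega)
          (hT2 s (mem_filter.2 ⟨mem_univ _, hcl, hs2⟩) hz)
        rw [hs2] at h1
        exact h1
      · have h1 : ph s z = 0 := by
          funext σ
          change (if Disjoint s σ then z (s ∪ σ) else 0) = 0
          split_ifs with h
          · by_contra h2
            exact hcl (((mem_Zs.1 hzZ).1 _ h2).1.subset (Finset.coe_subset.2 subset_union_left))
          · rfl
        rw [h1]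
        exact Submodule.zero_mem _
  -- the iteration
  have hF := F2it hA hqi (c := ⌊ε * Fintype.card P⌋₊) (by
    intro s hs t hst
    by_cases hcl : G.IsClique (t : Set V)
    · have h1 := hd_res_le (isN_reg D) (isBit_reg D) t (i - s - 1)
      have h2 := hl s hs t hcl hst
      have h3 : (hd (res t A) (i - s - 1) : ℝ) ≤ ε * Fintype.card P := by
        refine le_trans ?_ h2
        exact_mod_cast h1
      have h4 : hd (res t A) (i - s - 1) ≤ ⌊ε * (Fintype.card P : ℝ)⌋ := Int.le_floor.2 h3
      rwa [← Int.natCast_floor_eq_floor (a := ε * (Fintype.card P : ℝ)) (by positivity)] at h4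
    · rw [Step6_hd (regP D.g) t hcl (i - s - 1)]
      exact Int.natCast_nonneg _)
  have hTK' : Module.finrank F2 T ≤ Module.finrank F2 (KF A i q) := Submodule.finrank_mono hTK
  have hbdef : hX (Cq G univ) (regP D.g) i = (Module.finrank F2 (Zs (ZMod 2) G i (rP (ZMod 2) D)) : ℤ) -
      (Module.finrank F2 ((Ch A (i + 1)).map dd) : ℤ) := by
    rw [zs_eq D i]
    rfl
  have hJ : (((univ : Finset (Finset V)).filter fun s : Finset V =>
      G.IsClique (s : Set V) ∧ s.card = q).card : ℝ) ≤ N := by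
    have h1 := card_filter_le (univ : Finset (Finset V))
      (fun s : Finset V => G.IsClique (s : Set V) ∧ s.card = q)
    rw [card_univ, Fintype.card_finset] at h1
    rw [hNdef]
    exact_mod_cast h1
  have e1 : (hX (Cq G univ) (regP D.g) i : ℝ) =
      (Module.finrank F2 (Zs (ZMod 2) G i (rP (ZMod 2) D)) : ℝ) -
        Module.finrank F2 ((Ch A (i + 1)).map dd) := by
    rw [hbdef]
    push_cast
    rfl
  have e2 : (Module.finrank F2 T : ℝ) ≤ Module.finrank F2 ((Ch A (i + 1)).map dd) +
      cF V q * (ε * Fintype.card P) := by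
    have h1 : (Module.finrank F2 T : ℝ) ≤ Module.finrank F2 ((Ch A (i + 1)).map dd) +
        cF V q * (⌊ε * (Fintype.card P : ℝ)⌋₊ : ℝ) := by
      exact_mod_cast hTK'.trans hF
    refine h1.trans ?_
    have h2 : (⌊ε * (Fintype.card P : ℝ)⌋₊ : ℝ) ≤ ε * Fintype.card P :=
      Nat.floor_le (by positivity)
    have h3 := mul_le_mul_of_nonneg_left h2 (Nat.cast_nonneg (α := ℝ) (cF V q))
    linarith
  have e3 : (((univ : Finset (Finset V)).filter fun s : Finset V =>
      G.IsClique (s : Set V) ∧ s.card = q).card : ℝ) * (C * (M * (η * Fintype.card P))) ≤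
      N * (C * (M * (η * Fintype.card P))) :=
    mul_le_mul_of_nonneg_right hJ (by positivity)
  have e4 := hδ i P D
  have e5 : δ i * Fintype.card P ≤ N * (C * (M * (η * Fintype.card P))) +
      cF V q * (ε * Fintype.card P) := by linarith
  have e6 : N * (C * (M * (η * Fintype.card P))) = δ i * Fintype.card P / 4 := by
    rw [hηdef]
    field_simp
  have e7 : (cF V q : ℝ) * (ε * Fintype.card P) ≤ δ i * Fintype.card P / 4 := by
    have h1 : (cF V q : ℝ) * (ε * Fintype.card P) ≤
        ((cF V q : ℝ) + 1) * (ε * Fintype.card P) :=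
      mul_le_mul_of_nonneg_right (by linarith) (by positivity)
    have h2 : ((cF V q : ℝ) + 1) * (ε * Fintype.card P) = δ i * Fintype.card P / 4 := by
      rw [hεdef]
      field_simp
    linarith
  have e8 : 0 < δ i * Fintype.card P := by positivity
  linarith

end Pool.Agent.H19.SR
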