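import Pool.Agent.H19.SR.Cup

/-!
# Project SR, module M2: the unstable relation on a cube
-/

set_option autoImplicit false
set_option linter.unusedSectionVars false

open Finset

namespace Pool.Agent.H19.SR

variable {V : Type} [DecidableEq V] {R : Type} [CommRing R]

private theorem un_two [CharP R 2] (a : R) : a + a = 0 := CharTwo.add_self_eq_zero a

private theorem un_face_erase {Q B C : Finset V} (h : Face Q B C) {v : V} (hv : v ∈ B) :
    Face Q (B.erase v) C ∧ Face Q (B.erase v) (insert v C) := by
  obtain ⟨h1, h2⟩ := h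
  refine ⟨⟨h1.mono_left (Finset.erase_subset _ _), ?_⟩, ?_, ?_⟩
  · exact (Finset.union_subset_union_left (Finset.erase_subset _ _)).trans h2
  · rw [Finset.disjoint_insert_right]
    exact ⟨Finset.notMem_erase v B, h1.mono_left (Finset.erase_subset _ _)⟩
  · intro u hu
    rw [Finset.mem_union, Finset.mem_insert] at hu
    apply h2
    rw [Finset.mem_union]
    rcases hu with h3 | rfl | h3
    · exact Or.inl (Finset.mem_of_mem_erase h3)
    · exact Or.inl hv
    · exact Or.inr h3

private theorem un_cob_mul [CharP R 2] (h : Finset V → R) (w : Finset V → Finset V → R) (B C : Finset V) :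
    cob (fun B C => h C * w B C) B C = dcup h w B C + h C * cob w B C := by
  unfold cob dcup
  rw [Finset.mul_sum, ← Finset.sum_add_distrib]
  refine Finset.sum_congr rfl fun v _ => ?_
  have h1 := un_two (h C * w (B.erase v) (insert v C))
  linear_combination -h1

private theorem un_sym [CharP R 2] (B : Finset V) (F : V → V → R) (hF : ∀ u v, F u v = F v u) :
    ∑ v ∈ B, ∑ u ∈ B.erase v, F v u = 0 := by
  rw [Finset.sum_sigma']
  refine Finset.sum_involution (fun p _ => ⟨p.2, p.1⟩) ?_ ?_ ?_ ?_
  · rintro ⟨v, u⟩ _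
    show F v u + F u v = 0
    rw [hF u v]
    exact un_two _
  · rintro ⟨v, u⟩ hp _ heq
    rw [Finset.mem_sigma] at hp
    have h1 : u = v := congrArg Sigma.fst heq
    exact (Finset.mem_erase.1 hp.2).1 h1
  · rintro ⟨v, u⟩ hp
    rw [Finset.mem_sigma] at hp ⊢
    obtain ⟨h1, h2⟩ := hp
    rw [Finset.mem_erase] at h2
    exact ⟨h2.2, Finset.mem_erase.2 ⟨Ne.symm h2.1, h1⟩⟩
  · rintro ⟨v, u⟩ _
    rfl

private theorem un_cob_cob [CharP R 2] (x : Finset V → Finset V → R) (B C : Finset V) :
    cob (cob x) B C = 0 := by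
  have h1 : cob (cob x) B C = ∑ v ∈ B, ∑ u ∈ B.erase v,
      (x ((B.erase v).erase u) C + x ((B.erase v).erase u) (insert u C) +
        (x ((B.erase v).erase u) (insert v C) + x ((B.erase v).erase u) (insert u (insert v C)))) := by
    unfold cob
    refine Finset.sum_congr rfl fun v _ => ?_
    rw [← Finset.sum_add_distrib]
  rw [h1]
  apply un_sym
  intro u v
  rw [Finset.erase_right_comm, Finset.insert_comm]
  ring

private theorem un_cob_congr {Q : Finset V} {x y : Finset V → Finset V → R}
    (h : ∀ B C, Face Q B C → x B C = y B C) {B C : Finset V} (hBC : Face Q B C) :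
    cob x B C = cob y B C :=
  Finset.sum_congr rfl fun v hv => by
    rw [h _ _ (un_face_erase hBC hv).1, h _ _ (un_face_erase hBC hv).2]

private theorem un_dcup_congr {Q : Finset V} {g : Finset V → R} {x y : Finset V → Finset V → R}
    (h : ∀ B C, Face Q B C → x B C = y B C) {B C : Finset V} (hBC : Face Q B C) :
    dcup g x B C = dcup g y B C :=
  Finset.sum_congr rfl fun v hv => by
    rw [h _ _ (un_face_erase hBC hv).2]

private theorem un_cob_add (x y : Finset V → Finset V → R) (B C : Finset V) :
    cob (fun B C => x B C + y B C) B C = cob x B C + cob y B C := by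
  unfold cob
  rw [← Finset.sum_add_distrib]
  exact Finset.sum_congr rfl fun v _ => by ring

private theorem un_cob_zero (B C : Finset V) : cob (fun _ _ => (0 : R)) B C = 0 := by
  simp [cob]

private theorem un_cob_sum {ι : Type} (I : Finset ι) (x : ι → Finset V → Finset V → R) (B C : Finset V) :
    cob (fun B C => ∑ i ∈ I, x i B C) B C = ∑ i ∈ I, cob (x i) B C := by
  unfold cob
  rw [Finset.sum_comm]
  exact Finset.sum_congr rfl fun v _ => by rw [Finset.sum_add_distrib]

private theorem un_dcup_add (h : Finset V → R) (x y : Finset V → Finset V → R) (B C : Finset V) :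
    dcup h (fun B C => x B C + y B C) B C = dcup h x B C + dcup h y B C := by
  unfold dcup
  rw [← Finset.sum_add_distrib]
  exact Finset.sum_congr rfl fun v _ => by ring

private theorem un_dcup_zero (h : Finset V → R) (B C : Finset V) : dcup h (fun _ _ => 0) B C = 0 := by
  simp [dcup]

/-- the coboundary commutes with the multiplication by a cocycle -/
private theorem un_cob_dcup [CharP R 2] (h : Finset V → R) (w : Finset V → Finset V → R) (B C : Finset V) :
    cob (dcup h w) B C = dcup h (cob w) B C := by
  have h1 : dcup h w = fun B C => cob (fun B C => h C * w B C) B C + h C * cob w B C := by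
    funext B C
    rw [un_cob_mul, add_assoc, un_two, add_zero]
  rw [h1, un_cob_add, un_cob_mul]
  have h2 : cob (fun B C => cob (fun B C => h C * w B C) B C) B C = 0 := un_cob_cob _ B C
  have h3 : cob (cob w) B C = 0 := un_cob_cob _ B C
  rw [h2, h3, mul_zero, add_zero, zero_add]

private theorem un_cupc_congr {Q : Finset V} {ν : V → ℕ} {m : ℕ} {x y x' y' : Finset V → Finset V → R}
    (hx : ∀ B C, Face Q B C → x B C = x' B C) (hy : ∀ B C, Face Q B C → y B C = y' B C)
    {B C : Finset V} (hBC : Face Q B C) : cupc ν m x y B C = cupc ν m x' y' B C := by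
  obtain ⟨h1, h2⟩ := hBC
  unfold cupc
  refine Finset.sum_congr rfl fun M hM => Finset.sum_congr rfl fun D hD => ?_
  have hM' := (Finset.mem_powersetCard.1 hM).1
  have hD' : D ⊆ B := (Finset.mem_powerset.1 hD).trans Finset.sdiff_subset
  have f1 : Face Q (M ∪ D) (C ∪ ((B \ (M ∪ D)).filter fun v => ¬ Even (bel ν M v))) := by
    constructor
    · rw [Finset.disjoint_union_right]
      refine ⟨h1.mono_left (Finset.union_subset hM' hD'), ?_⟩
      rw [Finset.disjoint_left]
      intro u hu hu'
      exact (Finset.mem_sdiff.1 (Finset.mem_filter.1 hu').1).2 hu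
    · intro u hu
      apply h2
      rw [Finset.mem_union] at hu ⊢
      rcases hu with h3 | h3
      · exact Or.inl (Finset.union_subset hM' hD' h3)
      · rcases Finset.mem_union.1 h3 with h4 | h4
        · exact Or.inr h4
        · exact Or.inl (Finset.mem_sdiff.1 (Finset.mem_filter.1 h4).1).1
  have f2 : Face Q (B \ D) (C ∪ D.filter fun v => Even (bel ν M v)) := by
    constructor
    · rw [Finset.disjoint_union_right]
      refine ⟨h1.mono_left Finset.sdiff_subset, ?_⟩
      rw [Finset.disjoint_left]
      intro u hu hu'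
      exact (Finset.mem_sdiff.1 hu).2 (Finset.mem_filter.1 hu').1
    · intro u hu
      apply h2
      rw [Finset.mem_union] at hu ⊢
      rcases hu with h3 | h3
      · exact Or.inl (Finset.mem_sdiff.1 h3).1
      · rcases Finset.mem_union.1 h3 with h4 | h4
        · exact Or.inr h4
        · exact Or.inl (hD' (Finset.mem_filter.1 h4).1)
  rw [hx _ _ f1, hy _ _ f2]

private theorem un_cupc_zl {ν : V → ℕ} {m : ℕ} (y : Finset V → Finset V → R) (B C : Finset V) :
    cupc ν m (fun _ _ => 0) y B C = 0 := by
  unfold cupc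
  exact Finset.sum_eq_zero fun M _ => Finset.sum_eq_zero fun D _ => zero_mul _

private theorem un_cupc_zr {ν : V → ℕ} {m : ℕ} (x : Finset V → Finset V → R) (B C : Finset V) :
    cupc ν m x (fun _ _ => 0) B C = 0 := by
  unfold cupc
  exact Finset.sum_eq_zero fun M _ => Finset.sum_eq_zero fun D _ => mul_zero _

/-- the coboundary of the cup product of cocycles -/
private theorem un_cob_cups [CharP R 2] {ν : V → ℕ} (hν : Function.Injective ν) {Q : Finset V} {j : ℕ}
    {x y : Finset V → Finset V → R} (hx : ∀ B C, Face Q B C → cob x B C = 0)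
    (hy : ∀ B C, Face Q B C → cob y B C = 0) {B C : Finset V} (hBC : Face Q B C) :
    cob (cups ν (j + 1) x y) B C = cups ν j x y B C + cups ν j y x B C := by
  have z1 : ∀ m, cupc ν m (cob x) y B C = 0 := fun m => by
    rw [un_cupc_congr (x' := fun _ _ => 0) (y' := y) hx (fun _ _ _ => rfl) hBC, un_cupc_zl]
  have z2 : ∀ m, cupc ν m x (cob y) B C = 0 := fun m => by
    rw [un_cupc_congr (x' := x) (y' := fun _ _ => 0) (fun _ _ _ => rfl) hy hBC, un_cupc_zr]
  cases j with
  | zero =>
    show cob (cupc ν 0 x y) B C = 0 + 0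
    rw [cob_cupc_zero, z1, z2]
  | succ j =>
    show cob (cupc ν (j + 1) x y) B C = cupc ν j x y B C + cupc ν j y x B C
    rw [cob_cupc ν hν, z1, z2, zero_add, zero_add]

private theorem un_sum_compl {M : Type} [AddCommMonoid M] (ρ : Finset V) (F : Finset V → M) :
    ∑ A ∈ ρ.powerset, F (ρ \ A) = ∑ A ∈ ρ.powerset, F A := by
  refine Finset.sum_bij' (fun A _ => ρ \ A) (fun A _ => ρ \ A) ?_ ?_ ?_ ?_ ?_
  · intro A _
    exact Finset.mem_powerset.2 Finset.sdiff_subset
  · intro A _
    exact Finset.mem_powerset.2 Finset.sdiff_subset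
  · intro A hA
    exact Finset.sdiff_sdiff_eq_self (Finset.mem_powerset.1 hA)
  · intro A hA
    exact Finset.sdiff_sdiff_eq_self (Finset.mem_powerset.1 hA)
  · intro A _
    rfl

private theorem un_PQ_insert (ν : V → ℕ) (a : Finset V → Finset V → Finset V → R) {ρ : Finset V} {b : V}
    (hb : b ∉ ρ) (j : ℕ) (B C : Finset V) : PQ ν a (insert b ρ) j B C =
      ∑ A ∈ ρ.powerset, (cups ν j (a (insert b A)) (a (ρ \ A)) B C +
        cups ν j (a (ρ \ A)) (a (insert b A)) B C) := by
  unfold PQ
  rw [Finset.sum_powerset_insert hb, Finset.sum_add_distrib, add_comm]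
  congr 1
  · refine Finset.sum_congr rfl fun A hA => ?_
    have h1 : b ∉ A := fun h => hb (Finset.mem_powerset.1 hA h)
    have h2 : insert b ρ \ insert b A = ρ \ A := by
      ext v
      simp only [Finset.mem_sdiff, Finset.mem_insert, not_or]
      constructor
      · rintro ⟨h3 | h3, h4, h5⟩
        · exact absurd h3 h4
        · exact ⟨h3, h5⟩
      · rintro ⟨h3, h5⟩
        exact ⟨Or.inr h3, fun h => hb (h ▸ h3), h5⟩
    rw [h2]
  · rw [← un_sum_compl ρ fun A => cups ν j (a A) (a (insert b ρ \ A)) B C]
    refine Finset.sum_congr rfl fun A hA => ?_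
    have h2 : insert b ρ \ (ρ \ A) = insert b A := by
      ext v
      simp only [Finset.mem_sdiff, Finset.mem_insert, not_and, not_not]
      have h3 := Finset.mem_powerset.1 hA
      constructor
      · rintro ⟨h4 | h4, h5⟩
        · exact Or.inl h4
        · exact Or.inr (h5 h4)
      · rintro (h4 | h4)
        · exact ⟨Or.inl h4, fun h => absurd (h4 ▸ h) hb⟩
        · exact ⟨Or.inr (h3 h4), fun _ => h4⟩
    rw [h2]

private theorem un_cob_PQ [CharP R 2] {ν : V → ℕ} (hν : Function.Injective ν)
    {a : Finset V → Finset V → Finset V → R} {ρ : Finset V} {j : ℕ} {Q : Finset V}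
    (ha : ∀ A B C, Face Q B C → cob (a A) B C = 0) {B C : Finset V} (hBC : Face Q B C) :
    cob (PQ ν a ρ (j + 1)) B C = 0 := by
  have h0 : PQ ν a ρ (j + 1) = fun B C => ∑ A ∈ ρ.powerset, cups ν (j + 1) (a A) (a (ρ \ A)) B C := rfl
  rw [h0, un_cob_sum]
  have h1 : ∀ A ∈ ρ.powerset, cob (fun B C => cups ν (j + 1) (a A) (a (ρ \ A)) B C) B C =
      cups ν j (a A) (a (ρ \ A)) B C + cups ν j (a (ρ \ A)) (a A) B C := fun A _ =>
    un_cob_cups hν (ha A) (ha (ρ \ A)) hBC
  rw [Finset.sum_congr rfl h1, Finset.sum_add_distrib]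
  have h2 : ∑ A ∈ ρ.powerset, cups ν j (a (ρ \ A)) (a A) B C =
      ∑ A ∈ ρ.powerset, cups ν j (a A) (a (ρ \ A)) B C := by
    rw [← un_sum_compl ρ fun A => cups ν j (a A) (a (ρ \ A)) B C]
    refine Finset.sum_congr rfl fun A hA => ?_
    rw [Finset.sdiff_sdiff_eq_self (Finset.mem_powerset.1 hA)]
  rw [h2, un_two]

/-- one step of the unstable relation -/
private theorem un_cob_VV [CharP R 2] {ν : V → ℕ} (hν : Function.Injective ν)
    {a : Finset V → Finset V → Finset V → R} {h : Finset V → R} {b : V}
    {ρ : Finset V} (hb : b ∉ ρ) {j : ℕ} {Q : Finset V}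
    (ha : ∀ A B C, Face Q B C → cob (a A) B C = 0) {B C : Finset V} (hBC : Face Q B C) :
    cob (VV ν a h b ρ (j + 1)) B C = PQ ν a (insert b ρ) j B C + dcup h (PQ ν a ρ (j + 1)) B C := by
  have h1 : VV ν a h b ρ (j + 1) = fun B C =>
      (∑ A ∈ ρ.powerset, cups ν (j + 1) (a (insert b A)) (a (ρ \ A)) B C) +
        h C * PQ ν a ρ (j + 1) B C := by
    funext B C
    unfold VV PQ
    rw [Finset.sum_add_distrib, Finset.mul_sum]
  rw [h1, un_cob_add, un_cob_sum, un_cob_mul, un_cob_PQ hν ha hBC, mul_zero, add_zero,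
    un_PQ_insert ν a hb]
  congr 1
  exact Finset.sum_congr rfl fun A _ => un_cob_cups hν (ha _) (ha _) hBC

private theorem un_PQ_zero (ν : V → ℕ) (a : Finset V → Finset V → Finset V → R) (ρ B C : Finset V) :
    PQ ν a ρ 0 B C = 0 := Finset.sum_eq_zero fun _ _ => rfl

private theorem un_WW_aux [CharP R 2] {ν : V → ℕ} (hν : Function.Injective ν)
    {a : Finset V → Finset V → Finset V → R} {hp : V → Finset V → R} {q : ℕ} {Q : Finset V}
    (ha : ∀ A B C, Face Q B C → cob (a A) B C = 0) : ∀ (l : List V), l.Nodup → ∀ B C : Finset V,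
    Face Q B C → WW ν a hp q l B C = (if l.length ≤ q then PQ ν a l.toFinset (q - l.length) B C else 0) +
      cob (VT ν a hp q l) B C
  | [], _, B, C, _ => by
    show PQ ν a ∅ q B C = (if 0 ≤ q then PQ ν a ∅ (q - 0) B C else 0) + cob (fun _ _ => 0) B C
    rw [un_cob_zero, add_zero, if_pos (Nat.zero_le _), Nat.sub_zero]
  | b :: l, hl, B, C, hBC => by
    obtain ⟨hb, hl'⟩ := List.nodup_cons.1 hl
    have hb' : b ∉ l.toFinset := fun h => hb (List.mem_toFinset.1 h)
    have ih := un_WW_aux (hp := hp) (q := q) hν ha l hl'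
    show dcup (hp b) (WW ν a hp q l) B C = _
    rw [un_dcup_congr (y := fun B C => (if l.length ≤ q then PQ ν a l.toFinset (q - l.length) B C else 0) +
      cob (VT ν a hp q l) B C) ih hBC, un_dcup_add]
    have h0 : dcup (hp b) (fun B C => cob (VT ν a hp q l) B C) B C = cob (dcup (hp b) (VT ν a hp q l)) B C :=
      (un_cob_dcup (hp b) _ B C).symm
    rw [h0]
    have h2 : cob (VT ν a hp q (b :: l)) B C =
        cob (fun B C => if l.length < q then VV ν a (hp b) b l.toFinset (q - l.length) B C else 0) B C +
          cob (dcup (hp b) (VT ν a hp q l)) B C := un_cob_add _ _ B C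
    rw [h2, ← add_assoc]
    congr 1
    rw [List.length_cons, List.toFinset_cons]
    by_cases h3 : l.length < q
    · obtain ⟨j, hj⟩ : ∃ j, q - l.length = j + 1 := ⟨q - l.length - 1, by omega⟩
      have hj' : q - (l.length + 1) = j := by omega
      have h4 : l.length ≤ q := h3.le
      have h5 : l.length + 1 ≤ q := h3
      simp only [if_pos h3, if_pos h4, if_pos h5, hj, hj']
      have h6 : cob (fun B C => VV ν a (hp b) b l.toFinset (j + 1) B C) B C =
          PQ ν a (insert b l.toFinset) j B C + dcup (hp b) (PQ ν a l.toFinset (j + 1)) B C :=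
        un_cob_VV hν hb' ha hBC
      rw [h6, ← add_assoc, un_two, zero_add]
    · have h5 : ¬ l.length + 1 ≤ q := h3
      simp only [if_neg h3, if_neg h5]
      rw [un_cob_zero, add_zero]
      by_cases h4 : l.length ≤ q
      · have h6 : q - l.length = 0 := by omega
        simp only [if_pos h4, h6, un_PQ_zero]
        exact un_dcup_zero _ _ _
      · simp only [if_neg h4]
        exact un_dcup_zero _ _ _

/-- **The unstable relation on a cube.** Adapt `Pool.Agent.H37.TM.Unst` (`WW_eq`) line by line: `hmin ht h s` becomes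
`h C` (the value at the lowest vertex of the face `(B, C)`), `cob_hmin` becomes
`cob (fun B C => h C * w B C) B C = dcup h w B C + h C * cob w B C`, `cup ht j` becomes `cups ν j`
(`cob (cups ν (j + 1) x y) = cups ν j x y + cups ν j y x` on the faces of `Q` if `cob x = cob y = 0` there, from
`cob_cupc` and `cob_cupc_zero`), `PQ ν a ρ 0 = 0` holds by definition. All identities are used on the faces
`Face Q B C` only (a face of a face is a face). -/
theorem WW_eq [CharP R 2] {ν : V → ℕ} (hν : Function.Injective ν)
    {a : Finset V → Finset V → Finset V → R} {hp : V → Finset V → R} {q : ℕ} {l : List V}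
    (hl : l.Nodup) (hlq : q ≤ l.length) {Q : Finset V}
    (ha : ∀ A B C, Face Q B C → cob (a A) B C = 0) {B C : Finset V} (hBC : Face Q B C) :
    WW ν a hp q l B C = cob (VT ν a hp q l) B C := by
  rw [un_WW_aux hν ha l hl B C hBC]
  by_cases h1 : l.length ≤ q
  · have h2 : q - l.length = 0 := by omega
    rw [if_pos h1, h2, un_PQ_zero, zero_add]
  · rw [if_neg h1, zero_add]

/-- The value of the left side: `hp b` is the potential which is `t b` on the vertices with the letter `b` and `0` on
the other ones, so its coboundary is `t b` on the edges of type `b`, and `0` on the other edges. -/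
theorem WW_val [CharP R 2] {ν : V → ℕ} {a : Finset V → Finset V → Finset V → R} (t : V → R)
    {q : ℕ} : ∀ (l : List V), l.Nodup → ∀ B C : Finset V, Disjoint B C →
      WW ν a (fun b C => if b ∈ C then t b else 0) q l B C =
        if l.toFinset ⊆ B then (∏ b ∈ l.toFinset, t b) * PQ ν a ∅ q (B \ l.toFinset)
          (C ∪ l.toFinset) else 0 := by
  intro l
  induction l with
  | nil =>
    intro _ B C _
    rw [List.toFinset_nil, if_pos (Finset.empty_subset _), Finset.prod_empty, one_mul, Finset.sdiff_empty,
      Finset.union_empty]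
    rfl
  | cons b l ih =>
    intro hl B C hBC
    obtain ⟨hb, hl'⟩ := List.nodup_cons.1 hl
    have hb' : b ∉ l.toFinset := fun h => hb (List.mem_toFinset.1 h)
    have h1 : WW ν a (fun b C => if b ∈ C then t b else 0) q (b :: l) B C =
        ∑ v ∈ B, ((if b ∈ C then t b else 0) + (if b ∈ insert v C then t b else 0)) *
          WW ν a (fun b C => if b ∈ C then t b else 0) q l (B.erase v) (insert v C) := rfl
    rw [h1]
    have h2 : ∀ v ∈ B, v ≠ b → ((if b ∈ C then t b else 0) + (if b ∈ insert v C then t b else 0)) *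
          WW ν a (fun b C => if b ∈ C then t b else 0) q l (B.erase v) (insert v C) = 0 := by
      intro v _ hvb
      have h3 : b ∈ insert v C ↔ b ∈ C := by
        rw [Finset.mem_insert]
        exact ⟨fun h => h.resolve_left fun h' => hvb h'.symm, Or.inr⟩
      simp only [h3]
      rw [un_two, zero_mul]
    by_cases hbB : b ∈ B
    · have hbC : b ∉ C := Finset.disjoint_left.1 hBC hbB
      rw [Finset.sum_eq_single_of_mem b hbB h2, if_neg hbC, if_pos (Finset.mem_insert_self b C), zero_add]
      have hd : Disjoint (B.erase b) (insert b C) := by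
        rw [Finset.disjoint_insert_right]
        exact ⟨Finset.notMem_erase b B, hBC.mono_left (Finset.erase_subset _ _)⟩
      rw [ih hl' _ _ hd, List.toFinset_cons]
      have h4 : l.toFinset ⊆ B.erase b ↔ insert b l.toFinset ⊆ B := by
        constructor
        · intro h
          exact Finset.insert_subset hbB (h.trans (Finset.erase_subset _ _))
        · intro h u hu
          refine Finset.mem_erase.2 ⟨?_, h (Finset.mem_insert_of_mem hu)⟩
          rintro rfl
          exact hb' hu
      have h5 : B.erase b \ l.toFinset = B \ insert b l.toFinset := by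
        ext u
        simp only [Finset.mem_sdiff, Finset.mem_erase, Finset.mem_insert]
        tauto
      have h6 : insert b C ∪ l.toFinset = C ∪ insert b l.toFinset := by
        ext u
        simp only [Finset.mem_union, Finset.mem_insert]
        tauto
      by_cases h7 : l.toFinset ⊆ B.erase b
      · rw [if_pos h7, if_pos (h4.1 h7), Finset.prod_insert hb', h5, h6, mul_assoc]
      · rw [if_neg h7, if_neg fun h => h7 (h4.2 h), mul_zero]
    · have h8 : ∀ v ∈ B, v ≠ b := by
        rintro v hv rfl
        exact hbB hv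
      rw [Finset.sum_eq_zero fun v hv => h2 v hv (h8 v hv), if_neg]
      intro h
      exact hbB (h (List.mem_toFinset.2 List.mem_cons_self))

/-- The square: if `a ∅` lives on the faces with `q` free letters, then only `M = B`, `D = ∅` contributes. -/
theorem PQ_sq {ν : V → ℕ} {a : Finset V → Finset V → Finset V → R} {q : ℕ}
    (ha : ∀ B C, a ∅ B C ≠ 0 → B.card = q) (B C : Finset V) :
    PQ ν a ∅ (q + 1) B C = a ∅ B C ^ 2 := by
  have h1 : PQ ν a ∅ (q + 1) B C = cupc ν q (a ∅) (a ∅) B C := by
    unfold PQ
    rw [Finset.powerset_empty, Finset.sum_singleton, Finset.sdiff_empty]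
    rfl
  rw [h1]
  unfold cupc
  have hz : ∀ M ∈ B.powersetCard q, ∀ D ∈ (B \ M).powerset, ¬ (M = B ∧ D = ∅) →
      a ∅ (M ∪ D) (C ∪ ((B \ (M ∪ D)).filter fun v => ¬ Even (bel ν M v))) *
      a ∅ (B \ D) (C ∪ D.filter fun v => Even (bel ν M v)) = 0 := by
    intro M hM D hD hne
    by_contra h
    have e1 := ha _ _ (left_ne_zero_of_mul h)
    have e2 := ha _ _ (right_ne_zero_of_mul h)
    obtain ⟨hMB, hMq⟩ := Finset.mem_powersetCard.1 hM
    have hDB := Finset.mem_powerset.1 hD
    have hdis : Disjoint M D := by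
      rw [Finset.disjoint_right]
      intro u hu
      exact (Finset.mem_sdiff.1 (hDB hu)).2
    rw [Finset.card_union_of_disjoint hdis, hMq] at e1
    have hD0 : D = ∅ := Finset.card_eq_zero.1 (by omega)
    rw [hD0, Finset.sdiff_empty] at e2
    exact hne ⟨Finset.eq_of_subset_of_card_le hMB (by rw [e2, hMq]), hD0⟩
  by_cases hq : B.card = q
  · rw [Finset.sum_eq_single_of_mem B (Finset.mem_powersetCard.2 ⟨Finset.Subset.refl _, hq⟩)]
    · rw [Finset.sum_eq_single_of_mem ∅ (Finset.empty_mem_powerset _)]
      · simp [pow_two]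
      · intro D hD hD0
        exact hz B (Finset.mem_powersetCard.2 ⟨Finset.Subset.refl _, hq⟩) D hD fun h => hD0 h.2
    · intro M hM hMB
      exact Finset.sum_eq_zero fun D hD => hz M hM D hD fun h => hMB h.1
  · have h0 : a ∅ B C = 0 := by
      by_contra h
      exact hq (ha _ _ h)
    rw [h0, zero_pow two_ne_zero]
    refine Finset.sum_eq_zero fun M hM => Finset.sum_eq_zero fun D hD => hz M hM D hD ?_
    rintro ⟨rfl, _⟩
    exact hq (Finset.mem_powersetCard.1 hM).2

end Pool.Agent.H19.SR
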